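import Pool.Agent.H5.PK.SvA

/-! # PK.SvB : uniqueness of the singular values and simple consequences

`dgm_mul_conj`: `dgm b * (dgm b)ᴴ = diagonal (b²)` for real `b` (uses `m ≤ n`). `isSv_unique`: `Z * Zᴴ = U * diagonal (b²) * Uᴴ`, so its characteristic polynomial is `∏ (X - C (b i ^ 2))` (`Matrix.charpoly` is invariant under conjugation, `Matrix.charpoly_diagonal`-type computation); so the multisets of the `b i ^ 2` and `b' i ^ 2` agree,
hence (`x ↦ x ^ 2` injective on `x ≥ 0`) the multisets of `b i`, `b' i`; two antitone functions on `Fin m` with the same multiset of values are equal (sorted lists). `isSv_frob`: trace of `Z * Zᴴ`. The others follow (products of unitary matrices are unitary; `dgm b = 1 * dgm b * 1`). -/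

namespace H5.PK

theorem dgm_mul_conj {m n : ℕ} (hmn : m ≤ n) (b : Fin m → ℝ) :
    (dgm (fun i => (b i : ℂ)) : Matrix (Fin m) (Fin n) ℂ) *
      (dgm (fun i => (b i : ℂ)) : Matrix (Fin m) (Fin n) ℂ).conjTranspose =
        Matrix.diagonal (fun i => ((b i ^ 2 : ℝ) : ℂ)) := by
  ext i k
  rw [Matrix.mul_apply, Matrix.diagonal_apply]
  simp only [Matrix.conjTranspose_apply, dgm]
  rw [Finset.sum_eq_single (Fin.castLE hmn i)]
  · by_cases hik : i = k
    · subst hik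
      rw [if_pos (by simp), if_pos rfl]
      simp only [RCLike.star_def, Complex.conj_ofReal]
      push_cast
      ring
    · rw [if_neg hik, if_pos (by simp), if_neg (by
        intro h
        apply hik
        apply Fin.ext
        simpa using h.symm)]
      simp
  · intro j _ hj
    rw [if_neg (by
      intro h
      apply hj
      apply Fin.ext
      simpa using h.symm)]
    simp
  · intro h
    exact absurd (Finset.mem_univ _) h

/-- matrix multiplication -/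
private def mm {a b c : ℕ} (A : Matrix (Fin a) (Fin b) ℂ) (B : Matrix (Fin b) (Fin c) ℂ) :
    Matrix (Fin a) (Fin c) ℂ :=
  @HMul.hMul _ _ _ Matrix.instHMulOfFintypeOfMulOfAddCommMonoid A B

private theorem mm_assoc {a b c d : ℕ} (A : Matrix (Fin a) (Fin b) ℂ)
    (B : Matrix (Fin b) (Fin c) ℂ) (C : Matrix (Fin c) (Fin d) ℂ) :
    mm (mm A B) C = mm A (mm B C) := Matrix.mul_assoc A B C

private theorem mm_one {a b : ℕ} (A : Matrix (Fin a) (Fin b) ℂ) : mm A 1 = A := Matrix.mul_one A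

private theorem one_mm {a b : ℕ} (A : Matrix (Fin a) (Fin b) ℂ) : mm 1 A = A := Matrix.one_mul A

private theorem mm_conj {a b c : ℕ} (A : Matrix (Fin a) (Fin b) ℂ)
    (B : Matrix (Fin b) (Fin c) ℂ) :
    (mm A B).conjTranspose = mm B.conjTranspose A.conjTranspose := Matrix.conjTranspose_mul A B

private theorem form_aux {m n : ℕ} {Z : Matrix (Fin m) (Fin n) ℂ} {b : Fin m → ℝ}
    (h : IsSv Z b) : ∃ U : Matrix.unitaryGroup (Fin m) ℂ, ∃ W : Matrix.unitaryGroup (Fin n) ℂ,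
      Z = mm (mm (U : Matrix (Fin m) (Fin m) ℂ) (dgm (fun i => (b i : ℂ))))
        (W : Matrix (Fin n) (Fin n) ℂ) := h.2.2

private theorem mul_conj_form {m n : ℕ} (hmn : m ≤ n) {Z : Matrix (Fin m) (Fin n) ℂ} {b : Fin m → ℝ}
    (U : Matrix.unitaryGroup (Fin m) ℂ) (W : Matrix.unitaryGroup (Fin n) ℂ)
    (hZ : Z = mm (mm (U : Matrix (Fin m) (Fin m) ℂ) (dgm (fun i => (b i : ℂ))))
      (W : Matrix (Fin n) (Fin n) ℂ)) :
    mm Z Z.conjTranspose = mm (U : Matrix (Fin m) (Fin m) ℂ)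
      (mm (Matrix.diagonal (fun i => ((b i ^ 2 : ℝ) : ℂ)))
        (U : Matrix (Fin m) (Fin m) ℂ).conjTranspose) := by
  have hW : mm (W : Matrix (Fin n) (Fin n) ℂ) (W : Matrix (Fin n) (Fin n) ℂ).conjTranspose = 1 :=
    Matrix.mem_unitaryGroup_iff.mp W.2
  have hd : mm (dgm (fun i => (b i : ℂ)) : Matrix (Fin m) (Fin n) ℂ)
      (dgm (fun i => (b i : ℂ)) : Matrix (Fin m) (Fin n) ℂ).conjTranspose =
        Matrix.diagonal (fun i => ((b i ^ 2 : ℝ) : ℂ)) := dgm_mul_conj hmn b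
  rw [hZ, mm_conj, mm_conj, ← hd]
  calc mm (mm (mm (U : Matrix (Fin m) (Fin m) ℂ) (dgm (fun i => (b i : ℂ))))
        (W : Matrix (Fin n) (Fin n) ℂ))
        (mm (W : Matrix (Fin n) (Fin n) ℂ).conjTranspose
          (mm (dgm (fun i => (b i : ℂ)) : Matrix (Fin m) (Fin n) ℂ).conjTranspose
            (U : Matrix (Fin m) (Fin m) ℂ).conjTranspose))
      = mm (mm (mm (U : Matrix (Fin m) (Fin m) ℂ) (dgm (fun i => (b i : ℂ))))
        (mm (W : Matrix (Fin n) (Fin n) ℂ) (W : Matrix (Fin n) (Fin n) ℂ).conjTranspose))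
          (mm (dgm (fun i => (b i : ℂ)) : Matrix (Fin m) (Fin n) ℂ).conjTranspose
            (U : Matrix (Fin m) (Fin m) ℂ).conjTranspose) := by
        simp only [mm_assoc]
    _ = _ := by
        rw [hW, mm_one]
        simp only [mm_assoc]

private theorem charpoly_form {m n : ℕ} (hmn : m ≤ n) {Z : Matrix (Fin m) (Fin n) ℂ}
    {b : Fin m → ℝ} (h : IsSv Z b) :
    (mm Z Z.conjTranspose).charpoly.roots =
      (Finset.univ : Finset (Fin m)).val.map (fun i => ((b i ^ 2 : ℝ) : ℂ)) := by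
  obtain ⟨U, W, hZ⟩ := form_aux h
  have hU : mm (U : Matrix (Fin m) (Fin m) ℂ).conjTranspose (U : Matrix (Fin m) (Fin m) ℂ) = 1 :=
    Matrix.mem_unitaryGroup_iff'.mp U.2
  have hc : ∀ A B : Matrix (Fin m) (Fin m) ℂ, (mm A B).charpoly = (mm B A).charpoly :=
    fun A B => Matrix.charpoly_mul_comm A B
  rw [mul_conj_form hmn U W hZ, hc, mm_assoc, hU, mm_one, Matrix.charpoly_diagonal]
  have := Polynomial.roots_multiset_prod_X_sub_C
    ((Finset.univ : Finset (Fin m)).val.map (fun i => ((b i ^ 2 : ℝ) : ℂ)))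
  rw [Multiset.map_map] at this
  exact this

private theorem frob_aux {m n : ℕ} (hmn : m ≤ n) {Z : Matrix (Fin m) (Fin n) ℂ} {b : Fin m → ℝ}
    (h : IsSv Z b) : ∑ i, ∑ j, ‖Z i j‖ ^ 2 = ∑ i, b i ^ 2 := by
  obtain ⟨U, W, hZ⟩ := form_aux h
  have hU : mm (U : Matrix (Fin m) (Fin m) ℂ).conjTranspose (U : Matrix (Fin m) (Fin m) ℂ) = 1 :=
    Matrix.mem_unitaryGroup_iff'.mp U.2
  have hc : ∀ A B : Matrix (Fin m) (Fin m) ℂ, (mm A B).trace = (mm B A).trace :=
    fun A B => Matrix.trace_mul_comm A B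
  have h1 : (mm Z Z.conjTranspose).trace = ((∑ i, b i ^ 2 : ℝ) : ℂ) := by
    rw [mul_conj_form hmn U W hZ, hc, mm_assoc, hU, mm_one, Matrix.trace_diagonal]
    push_cast
    rfl
  have h2 : (mm Z Z.conjTranspose).trace = ((∑ i, ∑ j, ‖Z i j‖ ^ 2 : ℝ) : ℂ) := by
    rw [Matrix.trace]
    push_cast
    apply Finset.sum_congr rfl
    intro i _
    rw [Matrix.diag_apply]
    unfold mm
    rw [Matrix.mul_apply]
    apply Finset.sum_congr rfl
    intro j _
    rw [Matrix.conjTranspose_apply]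
    exact Complex.mul_conj' (Z i j)
  rw [h1] at h2
  exact_mod_cast h2.symm

private theorem unit_aux {m n : ℕ} {Z : Matrix (Fin m) (Fin n) ℂ} {b : Fin m → ℝ}
    (h : IsSv Z b) (U : Matrix.unitaryGroup (Fin m) ℂ) (W : Matrix.unitaryGroup (Fin n) ℂ) :
    IsSv (mm (mm (U : Matrix (Fin m) (Fin m) ℂ) Z) (W : Matrix (Fin n) (Fin n) ℂ)) b := by
  obtain ⟨U₁, W₁, hZ⟩ := form_aux h
  refine ⟨h.1, h.2.1, U * U₁, W₁ * W, ?_⟩
  have e3 : mm (mm (U : Matrix (Fin m) (Fin m) ℂ) Z) (W : Matrix (Fin n) (Fin n) ℂ) =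
      mm (mm (mm (U : Matrix (Fin m) (Fin m) ℂ) (U₁ : Matrix (Fin m) (Fin m) ℂ))
        (dgm (fun i => (b i : ℂ))))
        (mm (W₁ : Matrix (Fin n) (Fin n) ℂ) (W : Matrix (Fin n) (Fin n) ℂ)) := by
    rw [hZ]
    simp only [mm_assoc]
  exact e3

private theorem dgm_aux {m n : ℕ} {b : Fin m → ℝ} (hb : Antitone b) (h0 : ∀ i, 0 ≤ b i) :
    IsSv (dgm (fun i => (b i : ℂ)) : Matrix (Fin m) (Fin n) ℂ) b := by
  refine ⟨hb, h0, 1, 1, ?_⟩
  have e3 : (dgm (fun i => (b i : ℂ)) : Matrix (Fin m) (Fin n) ℂ) =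
      mm (mm (1 : Matrix (Fin m) (Fin m) ℂ) (dgm (fun i => (b i : ℂ))))
        (1 : Matrix (Fin n) (Fin n) ℂ) := by
    rw [one_mm, mm_one]
  exact e3

theorem isSv_unique {m n : ℕ} (hmn : m ≤ n) {Z : Matrix (Fin m) (Fin n) ℂ} {b b' : Fin m → ℝ}
    (h : IsSv Z b) (h' : IsSv Z b') : b = b' := by
  have h1 := charpoly_form hmn h
  have h2 := charpoly_form hmn h'
  rw [h1] at h2
  have h3 : (Finset.univ : Finset (Fin m)).val.map b = (Finset.univ : Finset (Fin m)).val.map b' := by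
    have h4 := congrArg (Multiset.map (fun z : ℂ => Real.sqrt z.re)) h2
    rw [Multiset.map_map, Multiset.map_map] at h4
    have e1 : ∀ c : Fin m → ℝ, (∀ i, 0 ≤ c i) →
        ((fun z : ℂ => Real.sqrt z.re) ∘ fun i => ((c i ^ 2 : ℝ) : ℂ)) = c := by
      intro c hc
      funext i
      simp only [Function.comp, Complex.ofReal_re]
      exact Real.sqrt_sq (hc i)
    rwa [e1 b h.2.1, e1 b' h'.2.1] at h4
  have h5 : (List.ofFn b).Perm (List.ofFn b') := by
    rw [← Multiset.coe_eq_coe]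
    rw [← Fin.univ_val_map, ← Fin.univ_val_map]
    exact h3
  have h6 : List.ofFn b = List.ofFn b' := by
    apply List.Perm.eq_of_sortedGE _ _ h5
    · exact h.1.sortedGE_ofFn
    · exact h'.1.sortedGE_ofFn
  exact List.ofFn_injective h6

theorem isSv_frob {m n : ℕ} (hmn : m ≤ n) {Z : Matrix (Fin m) (Fin n) ℂ} {b : Fin m → ℝ}
    (h : IsSv Z b) : ∑ i, ∑ j, ‖Z i j‖ ^ 2 = ∑ i, b i ^ 2 := by
  exact frob_aux hmn h

theorem sv_spec {m n : ℕ} (hmn : m ≤ n) (Z : Matrix (Fin m) (Fin n) ℂ) : IsSv Z (sv Z) := by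
  unfold sv
  rw [dif_pos (isSv_exists hmn Z)]
  exact (isSv_exists hmn Z).choose_spec

theorem sv_eq {m n : ℕ} (hmn : m ≤ n) {Z : Matrix (Fin m) (Fin n) ℂ} {b : Fin m → ℝ}
    (h : IsSv Z b) : sv Z = b := isSv_unique hmn (sv_spec hmn Z) h

theorem sv_unitary {m n : ℕ} (hmn : m ≤ n) (Z : Matrix (Fin m) (Fin n) ℂ)
    (U : Matrix.unitaryGroup (Fin m) ℂ) (W : Matrix.unitaryGroup (Fin n) ℂ) :
    sv ((U : Matrix (Fin m) (Fin m) ℂ) * Z * (W : Matrix (Fin n) (Fin n) ℂ)) = sv Z := by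
  exact sv_eq hmn (unit_aux (sv_spec hmn Z) U W)

theorem sv_dgm {m n : ℕ} (hmn : m ≤ n) {b : Fin m → ℝ} (hb : Antitone b) (h0 : ∀ i, 0 ≤ b i) :
    sv (dgm (fun i => (b i : ℂ)) : Matrix (Fin m) (Fin n) ℂ) = b := by
  exact sv_eq hmn (dgm_aux hb h0)

end H5.PK
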