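import Pool.Agent.H5.PK.Bas

/-! # PK.Cnv : peak points exclude discs; finite type excludes discs

`noDisc_of_peak`: let `γ` be as in `NoDisc`, `p = γ 0`, so `ρ p = 0`; let `f` be a peak function at `p` and `v` with `fderiv ℝ ρ p v < 0`. By continuity of `fderiv ℝ ρ` there are `δ > 0`, `ε₀ > 0` with `fderiv ℝ ρ (γ t + ε v) v < 0`, `ρ (γ t) = 0`, `γ` holomorphic for `|t| < δ`, `0 ≤ ε ≤ ε₀`, so `ρ (γ t + ε v) < 0` for `0 < ε ≤ ε₀`.
The functions `t ↦ f (γ t + ε v)` are holomorphic on `|t| < δ` and converge uniformly on compact subsets to `f (γ t)` for `ε → 0` (`f` is continuous on the closure, which contains the compact set `{γ t + ε v : |t| ≤ δ / 2, 0 ≤ ε ≤ ε₀}`). So `f ∘ γ` is holomorphic near `0`, `‖f (γ t)‖ ≤ 1 = f (γ 0)`; by the maximum principle it is constant `1` near `0`,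
so `γ t = p` (`‖f z‖ < 1` for `z ≠ p`). Useful: `TendstoLocallyUniformlyOn.differentiableOn`, `Complex.eventually_eq_of_isLocalMax_norm`.
`noDisc_of_finType`: let `γ` be as in `NoDisc`, `p = γ 0` (`ρ p = 0`), and suppose `γ` is not constant near `0`. Then `analyticOrderAt (fun t => γ t - p) 0` is finite, `= m`. `FinType ρ p` gives `k` with `iteratedFDeriv ℝ k (fun t => ρ (γ t)) 0 ≠ 0`; but this function is `0` near `0`, so all its iterated derivatives at `0` vanish (`Filter.EventuallyEq.iteratedFDeriv`). -/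

namespace H5.PK

open Topology Filter

variable {V : Type} [NormedAddCommGroup V] [NormedSpace ℂ V]

/-- points slightly inside -/
private theorem inside {ρ : V → ℝ} (hs : ContDiff ℝ 2 ρ) {p v : V} (hv : fderiv ℝ ρ p v < 0) :
    ∃ r > 0, ∀ q, dist q p < r → ρ q = 0 → ∀ ε : ℝ, 0 < ε → ε * ‖v‖ < r →
      ρ (q + (ε : ℂ) • v) < 0 := by
  have hd : Differentiable ℝ ρ := hs.differentiable (by norm_num)
  have hc : Continuous fun z => fderiv ℝ ρ z v :=
    (hs.continuous_fderiv (by norm_num)).clm_apply continuous_const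
  have h1 : ∀ᶠ z in 𝓝 p, fderiv ℝ ρ z v < 0 :=
    hc.continuousAt.eventually (Iio_mem_nhds hv)
  obtain ⟨r, hr, h2⟩ := Metric.eventually_nhds_iff.1 h1
  refine ⟨r / 2, by positivity, fun q hq h0 ε hε hεv => ?_⟩
  have hline : ∀ s : ℝ, HasDerivAt (fun s : ℝ => ρ (q + s • v)) (fderiv ℝ ρ (q + s • v) v) s := by
    intro s
    have h3 : HasDerivAt (fun s : ℝ => q + s • v) v s := by
      simpa using ((hasDerivAt_id s).smul_const v).const_add q
    exact (hd (q + s • v)).hasFDerivAt.comp_hasDerivAt s h3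
  obtain ⟨c, hc1, hc2⟩ := exists_hasDerivAt_eq_slope (fun s : ℝ => ρ (q + s • v))
    (fun s => fderiv ℝ ρ (q + s • v) v) hε
    (fun s _ => (hline s).continuousAt.continuousWithinAt) (fun s _ => hline s)
  have hneg : fderiv ℝ ρ (q + c • v) v < 0 := by
    apply h2
    have h4 : dist (q + c • v) q ≤ ε * ‖v‖ := by
      rw [dist_eq_norm, add_sub_cancel_left, norm_smul, Real.norm_eq_abs, abs_of_pos hc1.1]
      exact mul_le_mul_of_nonneg_right hc1.2.le (norm_nonneg _)
    calc dist (q + c • v) p ≤ dist (q + c • v) q + dist q p := dist_triangle _ _ _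
      _ < r := by linarith
  rw [hc2] at hneg
  have h5 : ρ (q + ε • v) - ρ (q + (0 : ℝ) • v) < 0 := by
    by_contra hcon
    push Not at hcon
    exact absurd hneg (not_lt.2 (div_nonneg hcon (by linarith)))
  have h6 : ((ε : ℂ) • v) = ε • v := by
    rw [← Complex.coe_smul]
  rw [h6]
  simp only [zero_smul, add_zero, h0, sub_zero] at h5
  exact h5

/-- composition with a curve which is differentiable in the completion -/
private theorem comp_diff {γ : ℂ → V} {t : ℂ}
    (hg : DifferentiableAt ℂ (fun s => UniformSpace.Completion.toComplL (𝕜 := ℂ) (γ s)) t)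
    {f : V → ℂ} {v : V} (hf : DifferentiableAt ℂ f (γ t + v)) :
    ContinuousAt γ t ∧ DifferentiableAt ℂ (fun s => f (γ s + v)) t := by
  set a : V →L[ℂ] UniformSpace.Completion V := UniformSpace.Completion.toComplL with ha
  have hnorm : ∀ x : V, ‖a x‖ = ‖x‖ := fun x => by
    rw [ha, UniformSpace.Completion.coe_toComplL]
    exact UniformSpace.Completion.norm_coe x
  have hcont : ContinuousAt γ t := by
    rw [ContinuousAt, tendsto_iff_norm_sub_tendsto_zero]
    have h1 := hg.continuousAt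
    rw [ContinuousAt, tendsto_iff_norm_sub_tendsto_zero] at h1
    refine h1.congr fun s => ?_
    rw [← map_sub, hnorm]
  refine ⟨hcont, ?_⟩
  have hden : DenseRange a := UniformSpace.Completion.denseRange_coe
  have hui : IsUniformInducing a := UniformSpace.Completion.isUniformInducing_coe V
  set L := fderiv ℂ f (γ t + v) with hLdef
  have hL : HasFDerivAt f L (γ t + v) := hf.hasFDerivAt
  have hext : ∀ x, L.extend a (a x) = L x := fun x => L.extend_eq hden hui x
  have h1 := hL.isLittleO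
  have htend : Tendsto (fun s => γ s + v) (𝓝 t) (𝓝 (γ t + v)) := hcont.add tendsto_const_nhds
  have h2 := h1.comp_tendsto htend
  have h3 : (fun s => γ s + v - (γ t + v)) =O[𝓝 t] fun s => s - t := by
    have h4 := hg.isBigO_sub
    refine (Asymptotics.isBigO_norm_left.1 ?_)
    refine (Asymptotics.isBigO_norm_left.2 h4).congr_left fun s => ?_
    rw [← map_sub, hnorm]
    congr 1
    abel
  have h5 := h2.trans_isBigO h3
  have h6 : HasDerivAt (fun s => L.extend a (a (γ s))) (L.extend a (deriv (fun s => a (γ s)) t)) t :=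
    (L.extend a).hasFDerivAt.comp_hasDerivAt t hg.hasDerivAt
  have h7 := hasDerivAt_iff_isLittleO.1 h6
  have h8 := h5.add h7
  refine HasDerivAt.differentiableAt (f' := L.extend a (deriv (fun s => a (γ s)) t)) ?_
  rw [hasDerivAt_iff_isLittleO]
  refine h8.congr_left fun s => ?_
  simp only [Function.comp_apply, hext]
  rw [show γ s + v - (γ t + v) = γ s - γ t by abel, map_sub]
  ring

theorem noDisc_of_peak {ρ : V → ℝ} (hs : ContDiff ℝ 2 ρ) (hr : ∀ p, ρ p = 0 → fderiv ℝ ρ p ≠ 0)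
    (hp : ∀ p, ρ p = 0 → Peak {z | ρ z < 0} p) : NoDisc ρ := by
  intro γ hγ h0
  have hp0 : ρ (γ 0) = 0 := h0.self_of_nhds
  obtain ⟨f, hf1, hf2, hf3, hf4⟩ := hp _ hp0
  have hcl := closure_lt hs hr
  obtain ⟨v, hv⟩ : ∃ v, fderiv ℝ ρ (γ 0) v < 0 := by
    have h1 := hr _ hp0
    obtain ⟨v, hv⟩ : ∃ v, fderiv ℝ ρ (γ 0) v ≠ 0 := by
      by_contra hcon
      push Not at hcon
      exact h1 (ContinuousLinearMap.ext (by simpa using hcon))
    rcases lt_or_gt_of_ne hv with h | h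
    · exact ⟨v, h⟩
    · exact ⟨-v, by rw [map_neg]; linarith⟩
  obtain ⟨r, hr0, hin⟩ := inside hs hv
  -- a small disc
  have hev : ∀ᶠ t in 𝓝 (0 : ℂ),
      DifferentiableAt ℂ (fun s => UniformSpace.Completion.toComplL (𝕜 := ℂ) (γ s)) t ∧
        ρ (γ t) = 0 ∧ dist (γ t) (γ 0) < r := by
    have h1 : ∀ᶠ t in 𝓝 (0 : ℂ),
        DifferentiableAt ℂ (fun s => UniformSpace.Completion.toComplL (𝕜 := ℂ) (γ s)) t := by
      have h2 : AnalyticAt ℂ (fun s => UniformSpace.Completion.toComplL (𝕜 := ℂ) (γ s)) 0 :=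
        ((UniformSpace.Completion.toComplL (𝕜 := ℂ) (E := V)).analyticAt _).comp hγ
      exact h2.eventually_analyticAt.mono fun t ht => ht.differentiableAt
    have h2 : ∀ᶠ t in 𝓝 (0 : ℂ), dist (γ t) (γ 0) < r :=
      hγ.continuousAt.eventually (Metric.ball_mem_nhds _ hr0)
    exact h1.and (h0.and h2)
  obtain ⟨δ, hδ, hδ'⟩ := Metric.eventually_nhds_iff.1 hev
  set B : Set ℂ := Metric.ball 0 δ with hB
  have hBo : IsOpen B := Metric.isOpen_ball
  have hB1 : ∀ t ∈ B, DifferentiableAt ℂ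
      (fun s => UniformSpace.Completion.toComplL (𝕜 := ℂ) (γ s)) t := fun t ht => (hδ' ht).1
  have hB1c : ∀ t ∈ B, ContinuousAt γ t := fun t ht =>
    (comp_diff (f := fun _ => 0) (v := 0) (hB1 t ht) (differentiableAt_const _)).1
  have hB2 : ∀ t ∈ B, ρ (γ t) = 0 := fun t ht => (hδ' ht).2.1
  have hB3 : ∀ t ∈ B, dist (γ t) (γ 0) < r := fun t ht => (hδ' ht).2.2
  have hmem : ∀ t ∈ B, γ t ∈ closure {z | ρ z < 0} := by
    intro t ht
    rw [hcl]
    exact (hB2 t ht).le
  obtain ⟨ε₀, hε₀, hε₁⟩ : ∃ ε₀ : ℝ, 0 < ε₀ ∧ ∀ ε, ε < ε₀ → 0 < ε → ε * ‖v‖ < r := by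
    refine ⟨r / (‖v‖ + 1), by positivity, fun ε h1 h2 => ?_⟩
    have h3 : 0 ≤ ‖v‖ := norm_nonneg v
    have h4 : ε * (‖v‖ + 1) < r := by
      rwa [lt_div_iff₀ (by positivity)] at h1
    nlinarith
  have hneg : ∀ ε : ℝ, 0 < ε → ε < ε₀ → ∀ t ∈ B, ρ (γ t + (ε : ℂ) • v) < 0 := fun ε h1 h2 t ht =>
    hin _ (hB3 t ht) (hB2 t ht) ε h1 (hε₁ ε h2 h1)
  -- the limit is holomorphic
  have hdiff : DifferentiableOn ℂ (fun t => f (γ t)) B := by
    have hlim : TendstoLocallyUniformlyOn (fun (ε : ℝ) t => f (γ t + (ε : ℂ) • v))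
        (fun t => f (γ t)) (𝓝[>] (0 : ℝ)) B := by
      rw [Metric.tendstoLocallyUniformlyOn_iff]
      intro η hη t ht
      set S : Set (ℝ × ℂ) := Set.Ico 0 ε₀ ×ˢ B with hS
      have hmap : Set.MapsTo (fun x : ℝ × ℂ => γ x.2 + (x.1 : ℂ) • v) S (closure {z | ρ z < 0}) := by
        rintro ⟨ε, t⟩ ⟨h1, h2⟩
        rcases eq_or_lt_of_le h1.1 with h3 | h3
        · simp only at h3
          simp only [← h3]
          simpa using hmem t h2
        · exact subset_closure (hneg ε h3 h1.2 t h2)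
      have hcγ : ContinuousOn (fun x : ℝ × ℂ => γ x.2 + (x.1 : ℂ) • v) S := by
        intro x hx
        have h1 : ContinuousAt γ x.2 := hB1c x.2 hx.2
        have h2 : ContinuousAt (fun x : ℝ × ℂ => γ x.2) x :=
          ContinuousAt.comp (f := Prod.snd) h1 continuousAt_snd
        have h3 : ContinuousAt (fun x : ℝ × ℂ => (x.1 : ℂ) • v) x := by fun_prop
        exact (h2.add h3).continuousWithinAt
      have hG : ContinuousOn (fun x : ℝ × ℂ => f (γ x.2 + (x.1 : ℂ) • v)) S :=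
        hf2.comp hcγ hmap
      have h0S : ((0 : ℝ), t) ∈ S := ⟨⟨le_rfl, hε₀⟩, ht⟩
      have h1 := hG _ h0S
      rw [ContinuousWithinAt, Metric.tendsto_nhds] at h1
      have h2 := h1 (η / 2) (by positivity)
      rw [hS, nhdsWithin_prod_eq, eventually_prod_iff] at h2
      obtain ⟨pa, ha, pb, hb, hab⟩ := h2
      refine ⟨{y | pb y}, hb, ?_⟩
      have ha0 : pa 0 := ha.self_of_nhdsWithin ⟨le_rfl, hε₀⟩
      have ha' : ∀ᶠ ε in 𝓝[>] (0 : ℝ), pa ε := by
        have h3 : 𝓝[>] (0 : ℝ) ≤ 𝓝[Set.Ico 0 ε₀] 0 := by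
          rw [nhdsWithin_Ico_eq_nhdsGE hε₀]
          exact nhdsWithin_mono _ Set.Ioi_subset_Ici_self
        exact h3 ha
      filter_upwards [ha'] with ε hε y hy
      have h4 := hab ha0 hy
      have h5 := hab hε hy
      simp only [Complex.ofReal_zero, zero_smul, add_zero] at h4 h5
      calc dist (f (γ y)) (f (γ y + (ε : ℂ) • v))
          ≤ dist (f (γ y)) (f (γ t)) + dist (f (γ t)) (f (γ y + (ε : ℂ) • v)) :=
            dist_triangle _ _ _
        _ < η := by
            rw [dist_comm (f (γ t))]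
            linarith
    refine hlim.differentiableOn ?_ hBo
    have h1 : ∀ᶠ ε in 𝓝[>] (0 : ℝ), ε ∈ Set.Ioo 0 ε₀ := Ioo_mem_nhdsGT hε₀
    filter_upwards [h1] with ε hε
    have hDo : IsOpen {z | ρ z < 0} := isOpen_lt hs.continuous continuous_const
    intro t ht
    exact (comp_diff (hB1 t ht)
      (hf1.differentiableAt (hDo.mem_nhds (hneg ε hε.1 hε.2 t ht)))).2.differentiableWithinAt
  have hd0 : ∀ᶠ z in 𝓝 (0 : ℂ), DifferentiableAt ℂ (fun t => f (γ t)) z := by
    filter_upwards [Metric.ball_mem_nhds (0 : ℂ) hδ] with z hz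
    exact hdiff.differentiableAt (hBo.mem_nhds hz)
  have hmax : IsLocalMax (norm ∘ fun t => f (γ t)) 0 := by
    filter_upwards [Metric.ball_mem_nhds (0 : ℂ) hδ] with z hz
    simp only [Function.comp_apply, hf3, norm_one]
    by_cases h : γ z = γ 0
    · rw [h, hf3, norm_one]
    · exact (hf4 _ (hmem z hz) h).le
  have hconst := Complex.eventually_eq_of_isLocalMax_norm hd0 hmax
  filter_upwards [hconst, Metric.ball_mem_nhds (0 : ℂ) hδ] with z hz hz'
  by_contra h
  have h1 := hf4 _ (hmem z hz') h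
  simp only [hf3] at hz
  rw [hz, norm_one] at h1
  exact lt_irrefl _ h1

theorem noDisc_of_finType {ρ : V → ℝ} (h : ∀ p, ρ p = 0 → FinType ρ p) : NoDisc ρ := by
  intro γ hγ h0
  have hp0 : ρ (γ 0) = 0 := h0.self_of_nhds
  obtain ⟨M, hM⟩ := h _ hp0
  have hM' := hM γ hγ rfl
  cases hm : analyticOrderAt (fun t => γ t - γ 0) 0 with
  | top =>
    rw [analyticOrderAt_eq_top] at hm
    exact hm.mono fun t ht => sub_eq_zero.1 ht
  | coe m =>
    exfalso
    obtain ⟨k, -, hk⟩ := hM' m hm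
    apply hk
    have h1 : (fun t => ρ (γ t)) =ᶠ[𝓝 (0 : ℂ)] (fun _ => (0 : ℝ)) := h0
    have h2 := (h1.iteratedFDeriv ℝ k).self_of_nhds
    rw [h2, iteratedFDeriv_fun_zero]
    rfl

end H5.PK
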