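import Pool.Agent.H5.PK.SvB

/-! # PK.IIs : the linear functional which isolates a diagonal matrix in its orbit

`φ Z = ∑ l, ∑ i, (a l i : ℂ) * PL hmn Z l i`. `φ (dgL (cx a)) = ∑ ∑ a²`. If `sv (Z l) = a l` for all `l` then `∑ l, ∑ i, ∑ j, ‖Z l i j‖² = ∑ ∑ a²` (`isSv_frob`, `sv_spec`), so `‖φ Z‖ ≤ √(∑ a²) √(∑ ‖PL Z‖²) ≤ ∑ a²` (Cauchy-Schwarz). If `φ Z = ∑ a²`: `∑ l, ∑ i, ∑ j, ‖Z l i j - dgL (cx a) l i j‖² = ∑ ‖Z‖² + ∑ a² - 2 Re φ Z = 0`, so `Z = dgL (cx a)`. -/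

namespace H5.PK

open scoped Matrix.Norms.Elementwise

variable {L : Type} [Fintype L] [DecidableEq L] {m n : L → ℕ}

/-- the functional -/
private noncomputable def phi (hmn : ∀ l, m l ≤ n l) (a : X m) : MV m n →L[ℂ] ℂ :=
  LinearMap.toContinuousLinearMap
    { toFun := fun Z => ∑ l, ∑ i, (a l i : ℂ) * PL hmn Z l i
      map_add' := fun x y => by
        rw [← Finset.sum_add_distrib]
        refine Finset.sum_congr rfl fun l _ => ?_
        rw [← Finset.sum_add_distrib]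
        refine Finset.sum_congr rfl fun i _ => ?_
        rw [map_add, Pi.add_apply, Pi.add_apply, mul_add]
      map_smul' := fun c x => by
        rw [RingHom.id_apply, smul_eq_mul, Finset.mul_sum]
        refine Finset.sum_congr rfl fun l _ => ?_
        rw [Finset.mul_sum]
        refine Finset.sum_congr rfl fun i _ => ?_
        rw [map_smul, Pi.smul_apply, Pi.smul_apply, smul_eq_mul]
        ring }

private theorem phi_apply (hmn : ∀ l, m l ≤ n l) (a : X m) (Z : MV m n) :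
    phi hmn a Z = ∑ l, ∑ i, (a l i : ℂ) * PL hmn Z l i := rfl

private theorem row_sum {p q : ℕ} (h : p ≤ q) (a : Fin p → ℝ) (Z : Matrix (Fin p) (Fin q) ℂ) (i : Fin p) :
    ∑ j, ‖Z i j - (dgm (fun i => (a i : ℂ)) : Matrix (Fin p) (Fin q) ℂ) i j‖ ^ 2 =
      ∑ j, ‖Z i j‖ ^ 2 + a i ^ 2 - 2 * (a i * (Z i (Fin.castLE h i)).re) := by
  have h1 : ∀ j, ‖Z i j - (dgm (fun i => (a i : ℂ)) : Matrix (Fin p) (Fin q) ℂ) i j‖ ^ 2 =
      ‖Z i j‖ ^ 2 + if j = Fin.castLE h i then a i ^ 2 - 2 * (a i * (Z i (Fin.castLE h i)).re) else 0 := by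
    intro j
    unfold dgm
    by_cases hj : j = Fin.castLE h i
    · rw [if_pos hj, if_pos (by rw [hj]; rfl), hj]
      rw [← Complex.normSq_eq_norm_sq, ← Complex.normSq_eq_norm_sq, Complex.normSq_apply, Complex.normSq_apply]
      simp only [Complex.sub_re, Complex.sub_im, Complex.ofReal_re, Complex.ofReal_im]
      ring
    · rw [if_neg hj, if_neg (fun h2 => hj (Fin.ext (by rw [← h2]; rfl)))]
      rw [sub_zero, add_zero]
  rw [Finset.sum_congr rfl fun j _ => h1 j, Finset.sum_add_distrib, Finset.sum_ite_eq' Finset.univ (Fin.castLE h i), if_pos (Finset.mem_univ _)]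
  ring

private theorem key (hmn : ∀ l, m l ≤ n l) (a : X m) (z : MV m n)
    (hz : ∑ l, ∑ i, ∑ j, ‖z l i j‖ ^ 2 = ∑ l, ∑ i, a l i ^ 2) :
    ∑ l, ∑ i, ∑ j, ‖z l i j - dgL m n (cx a) l i j‖ ^ 2 =
      2 * (∑ l, ∑ i, a l i ^ 2) - 2 * (phi hmn a z).re := by
  have h1 : ∀ l i, ∑ j, ‖z l i j - dgL m n (cx a) l i j‖ ^ 2 =
      ∑ j, ‖z l i j‖ ^ 2 + a l i ^ 2 - 2 * (a l i * (PL hmn z l i).re) := fun l i => row_sum (hmn l) (a l) (z l) i
  have h2 : (phi hmn a z).re = ∑ l, ∑ i, a l i * (PL hmn z l i).re := by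
    rw [phi_apply, Complex.re_sum]
    refine Finset.sum_congr rfl fun l _ => ?_
    rw [Complex.re_sum]
    refine Finset.sum_congr rfl fun i _ => ?_
    rw [Complex.re_ofReal_mul]
  rw [h2, Finset.sum_congr rfl fun l _ => Finset.sum_congr rfl fun i _ => h1 l i]
  simp only [Finset.sum_add_distrib, Finset.sum_sub_distrib, ← Finset.mul_sum]
  rw [hz]
  ring

private theorem re_le (hmn : ∀ l, m l ≤ n l) (a : X m) (z : MV m n)
    (hz : ∑ l, ∑ i, ∑ j, ‖z l i j‖ ^ 2 = ∑ l, ∑ i, a l i ^ 2) :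
    (phi hmn a z).re ≤ ∑ l, ∑ i, a l i ^ 2 := by
  have h1 := key hmn a z hz
  have h2 : 0 ≤ ∑ l, ∑ i, ∑ j, ‖z l i j - dgL m n (cx a) l i j‖ ^ 2 :=
    Finset.sum_nonneg fun l _ => Finset.sum_nonneg fun i _ => Finset.sum_nonneg fun j _ => sq_nonneg _
  linarith

theorem M_iso (hmn : ∀ l, m l ≤ n l) (a : X m) (ha : Srt a) :
    ∃ φ : MV m n →L[ℂ] ℂ, φ (dgL m n (cx a)) = ((∑ l, ∑ i, a l i ^ 2 : ℝ) : ℂ) ∧
      ∀ z : MV m n, (fun l => sv (z l)) = a → ‖φ z‖ ≤ ∑ l, ∑ i, a l i ^ 2 ∧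
        (φ z = ((∑ l, ∑ i, a l i ^ 2 : ℝ) : ℂ) → z = dgL m n (cx a)) := by
  refine ⟨phi hmn a, ?_, fun z hz => ?_⟩
  · rw [phi_apply, PL_dgL]
    push_cast
    refine Finset.sum_congr rfl fun l _ => Finset.sum_congr rfl fun i _ => ?_
    show (a l i : ℂ) * (a l i : ℂ) = _
    ring
  · have h1 : ∑ l, ∑ i, ∑ j, ‖z l i j‖ ^ 2 = ∑ l, ∑ i, a l i ^ 2 := by
      refine Finset.sum_congr rfl fun l _ => ?_
      have h2 : sv (z l) = a l := congrFun hz l
      rw [isSv_frob (hmn l) (sv_spec (hmn l) (z l)), h2]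
    constructor
    · by_cases h0 : phi hmn a z = 0
      · rw [h0, norm_zero]
        exact Finset.sum_nonneg fun l _ => Finset.sum_nonneg fun i _ => sq_nonneg _
      · have h3 : ‖phi hmn a z‖ ≠ 0 := norm_ne_zero_iff.2 h0
        set u : ℂ := (starRingEnd ℂ (phi hmn a z)) / (‖phi hmn a z‖ : ℂ) with hu
        have h4 : ‖u‖ = 1 := by
          rw [hu, norm_div, RCLike.norm_conj, Complex.norm_real, norm_norm, div_self h3]
        have h5 : ∑ l, ∑ i, ∑ j, ‖(u • z) l i j‖ ^ 2 = ∑ l, ∑ i, a l i ^ 2 := by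
          rw [← h1]
          refine Finset.sum_congr rfl fun l _ => Finset.sum_congr rfl fun i _ => Finset.sum_congr rfl fun j _ => ?_
          rw [Pi.smul_apply, Matrix.smul_apply, smul_eq_mul, norm_mul, h4, one_mul]
        have h6 := re_le hmn a (u • z) h5
        have h7 : phi hmn a (u • z) = (‖phi hmn a z‖ : ℂ) := by
          rw [map_smul, smul_eq_mul, hu, div_mul_eq_mul_div, mul_comm (starRingEnd ℂ _), Complex.mul_conj, Complex.normSq_eq_norm_sq]
          have h8 : (‖phi hmn a z‖ : ℂ) ≠ 0 := by exact_mod_cast h3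
          push_cast
          field_simp
        rw [h7, Complex.ofReal_re] at h6
        exact h6
    · intro h2
      have h3 := key hmn a z h1
      rw [h2, Complex.ofReal_re, sub_self] at h3
      funext l i j
      have h4 : ∑ i, ∑ j, ‖z l i j - dgL m n (cx a) l i j‖ ^ 2 = 0 :=
        (Finset.sum_eq_zero_iff_of_nonneg fun l _ => Finset.sum_nonneg fun i _ => Finset.sum_nonneg fun j _ => sq_nonneg _).1 h3 l (Finset.mem_univ l)
      have h5 : ∑ j, ‖z l i j - dgL m n (cx a) l i j‖ ^ 2 = 0 :=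
        (Finset.sum_eq_zero_iff_of_nonneg fun i _ => Finset.sum_nonneg fun j _ => sq_nonneg _).1 h4 i (Finset.mem_univ i)
      have h6 : ‖z l i j - dgL m n (cx a) l i j‖ ^ 2 = 0 :=
        (Finset.sum_eq_zero_iff_of_nonneg fun j _ => sq_nonneg _).1 h5 j (Finset.mem_univ j)
      exact sub_eq_zero.1 (norm_eq_zero.1 (pow_eq_zero_iff (two_ne_zero)|>.1 h6))

end H5.PK
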