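import Pool.Agent.H5.PK.MDef

/-! # PK.IRt : root curves in products of matrix spaces

`M_root`: in the block `l` let `x = a l j`, `y = - a l i`, `u = 1` or `u = I`, `U t` the unitary matrix of size `m l` which is the identity except for the rows and columns `i, j`, where it is `[[cos (x t), u sin (x t)], [- conj u sin (x t), cos (x t)]]`, and `W t` the same in size `n l` with `y t`. `c t = U t * dgL (cx a) * W t` (only block `l` changes; the orbit is clear). Its entries:
`(i,i)`: `cos(xt) cos(yt) a_i - sin(xt) sin(yt) a_j`; `(j,j)`: `cos(xt) cos(yt) a_j - sin(xt) sin(yt) a_i`; `(i,j)`: `u (cos(xt) sin(yt) a_i + sin(xt) cos(yt) a_j)`; `(j,i)`: `- conj u (sin(xt) cos(yt) a_i + cos(xt) sin(yt) a_j)`; all others as in `dgL (cx a)`. At `t = 0`: first derivative: `(i,j)`: `u (y a_i + x a_j) = u (a_j² - a_i²)`,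
`(j,i)`: `- conj u (x a_i + y a_j) = 0`; diagonal `0`. So `c' 0 = u • x₀`, `x₀` = entry `a_j² - a_i²` at `(i,j)`. Second derivative: `(i,i)`: `-(x² + y²) a_i - 2 x y a_j = - (a_i² - a_j²) a_i`; `(j,j)`: `-(x² + y²) a_j - 2 x y a_i = (a_i² - a_j²) a_j`. The curves for `u = 1` and `u = I` are `c₁`, `c₂`; `κ = 2 (a_i² - a_j²) > 0`.
The curve is written as a combination of nine constant vectors with scalar coefficients. -/

namespace H5.PK

open scoped Matrix.Norms.Elementwise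

variable {L : Type} [Fintype L] [DecidableEq L] {m n : L → ℕ}

private theorem hd {V : Type} [NormedAddCommGroup V] [NormedSpace ℂ V] {g : ℝ → ℝ} {g' t : ℝ}
    (h : HasDerivAt g g' t) (v : V) :
    HasDerivAt (fun t => ((g t : ℝ) : ℂ) • v) ((g' : ℂ) • v) t :=
  (h.ofReal_comp).smul_const v

private theorem crv {V : Type} [NormedAddCommGroup V] [NormedSpace ℂ V]
    (v0 v1 v2 v3 v4 v5 v6 v7 v8 : V) (x y : ℝ) :
    ∃ c' : ℝ → V, (∀ t, HasDerivAt (fun t : ℝ => v0 + ((Real.cos (t * y) - 1 : ℝ) : ℂ) • v1 +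
        ((Real.sin (t * y) : ℝ) : ℂ) • v2 + ((Real.cos (t * x) - 1 : ℝ) : ℂ) • v3 +
        (((Real.cos (t * x) - 1) * (Real.cos (t * y) - 1) : ℝ) : ℂ) • v4 +
        (((Real.cos (t * x) - 1) * Real.sin (t * y) : ℝ) : ℂ) • v5 +
        ((Real.sin (t * x) : ℝ) : ℂ) • v6 +
        ((Real.sin (t * x) * (Real.cos (t * y) - 1) : ℝ) : ℂ) • v7 +
        ((Real.sin (t * x) * Real.sin (t * y) : ℝ) : ℂ) • v8) (c' t) t) ∧
      HasDerivAt c' (((-(y ^ 2) : ℝ) : ℂ) • v1 + ((-(x ^ 2) : ℝ) : ℂ) • v3 +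
        ((2 * x * y : ℝ) : ℂ) • v8) 0 ∧
      c' 0 = ((y : ℝ) : ℂ) • v2 + ((x : ℝ) : ℂ) • v6 := by
  have hc : ∀ z t : ℝ, HasDerivAt (fun t : ℝ => Real.cos (t * z) - 1) (-Real.sin (t * z) * z) t :=
    fun z t => ((hasDerivAt_mul_const z).cos).sub_const 1
  have hs : ∀ z t : ℝ, HasDerivAt (fun t : ℝ => Real.sin (t * z)) (Real.cos (t * z) * z) t :=
    fun z t => (hasDerivAt_mul_const z).sin
  have hc1 : ∀ z t : ℝ, HasDerivAt (fun t : ℝ => -Real.sin (t * z) * z)
      (-(Real.cos (t * z) * z) * z) t :=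
    fun z t => ((hs z t).neg).mul_const z
  have hs1 : ∀ z t : ℝ, HasDerivAt (fun t : ℝ => Real.cos (t * z) * z)
      (-Real.sin (t * z) * z * z) t :=
    fun z t => ((hasDerivAt_mul_const z).cos).mul_const z
  refine ⟨fun t => ((-Real.sin (t * y) * y : ℝ) : ℂ) • v1 + ((Real.cos (t * y) * y : ℝ) : ℂ) • v2 +
      ((-Real.sin (t * x) * x : ℝ) : ℂ) • v3 +
      ((-Real.sin (t * x) * x * (Real.cos (t * y) - 1) +
        (Real.cos (t * x) - 1) * (-Real.sin (t * y) * y) : ℝ) : ℂ) • v4 +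
      ((-Real.sin (t * x) * x * Real.sin (t * y) +
        (Real.cos (t * x) - 1) * (Real.cos (t * y) * y) : ℝ) : ℂ) • v5 +
      ((Real.cos (t * x) * x : ℝ) : ℂ) • v6 +
      ((Real.cos (t * x) * x * (Real.cos (t * y) - 1) +
        Real.sin (t * x) * (-Real.sin (t * y) * y) : ℝ) : ℂ) • v7 +
      ((Real.cos (t * x) * x * Real.sin (t * y) +
        Real.sin (t * x) * (Real.cos (t * y) * y) : ℝ) : ℂ) • v8, fun t => ?_, ?_, ?_⟩
  · have h := (((((((((hasDerivAt_const t v0).fun_add (hd (hc y t) v1)).fun_add (hd (hs y t) v2)).fun_add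
      (hd (hc x t) v3)).fun_add (hd ((hc x t).fun_mul (hc y t)) v4)).fun_add
      (hd ((hc x t).fun_mul (hs y t)) v5)).fun_add (hd (hs x t) v6)).fun_add
      (hd ((hs x t).fun_mul (hc y t)) v7)).fun_add (hd ((hs x t).fun_mul (hs y t)) v8))
    convert h using 1
    rw [zero_add]
  · have h := ((((((((hd (hc1 y 0) v1).fun_add (hd (hs1 y 0) v2)).fun_add (hd (hc1 x 0) v3)).fun_add
      (hd (((hc1 x 0).fun_mul (hc y 0)).fun_add ((hc x 0).fun_mul (hc1 y 0))) v4)).fun_add
      (hd (((hc1 x 0).fun_mul (hs y 0)).fun_add ((hc x 0).fun_mul (hs1 y 0))) v5)).fun_add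
      (hd (hs1 x 0) v6)).fun_add
      (hd (((hs1 x 0).fun_mul (hc y 0)).fun_add ((hs x 0).fun_mul (hc1 y 0))) v7)).fun_add
      (hd (((hs1 x 0).fun_mul (hs y 0)).fun_add ((hs x 0).fun_mul (hs1 y 0))) v8))
    convert h using 1
    simp only [zero_mul, Real.sin_zero, Real.cos_zero, sub_self, mul_zero, neg_zero, add_zero,
      zero_add, Complex.ofReal_zero, zero_smul, one_mul]
    push_cast
    module
  · simp

private noncomputable def DD {N : ℕ} (i j : Fin N) : Matrix (Fin N) (Fin N) ℂ :=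
  Matrix.single i i 1 + Matrix.single j j 1

private noncomputable def JJ {N : ℕ} (i j : Fin N) (u : ℂ) : Matrix (Fin N) (Fin N) ℂ :=
  Matrix.single i j u + Matrix.single j i (-(star u))

private noncomputable def rot {N : ℕ} (i j : Fin N) (u : ℂ) (θ : ℝ) : Matrix (Fin N) (Fin N) ℂ :=
  1 + ((Real.cos θ - 1 : ℝ) : ℂ) • DD i j + ((Real.sin θ : ℝ) : ℂ) • JJ i j u

private theorem rot_mem {N : ℕ} {i j : Fin N} (h : i ≠ j) {u : ℂ} (hu : u * star u = 1) (θ : ℝ) :
    rot i j u θ ∈ Matrix.unitaryGroup (Fin N) ℂ := by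
  have hDD : DD i j * DD i j = DD i j := by
    simp [DD, mul_add, add_mul, h, h.symm]
  have hJJ : JJ i j u * JJ i j u = - DD i j := by
    have hu' : star u * u = 1 := by rw [mul_comm]; exact hu
    have hu2 : u * (starRingEnd ℂ) u = 1 := hu
    have hu3 : (starRingEnd ℂ) u * u = 1 := hu'
    simp [JJ, DD, mul_add, add_mul, h, h.symm, hu2, hu3, Matrix.single_neg]
  have hDJ : DD i j * JJ i j u = JJ i j u := by
    simp [JJ, DD, mul_add, add_mul, h, h.symm]
  have hJD : JJ i j u * DD i j = JJ i j u := by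
    simp [JJ, DD, mul_add, add_mul, h, h.symm]
    abel
  have hsD : star (DD i j) = DD i j := by
    simp [DD, Matrix.star_eq_conjTranspose, Matrix.conjTranspose_single]
  have hsJ : star (JJ i j u) = - JJ i j u := by
    simp [JJ, Matrix.star_eq_conjTranspose, Matrix.conjTranspose_single, Matrix.single_neg]
  rw [Matrix.mem_unitaryGroup_iff]
  have hst : star (rot i j u θ) = 1 + ((Real.cos θ - 1 : ℝ) : ℂ) • DD i j -
      ((Real.sin θ : ℝ) : ℂ) • JJ i j u := by
    unfold rot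
    rw [star_add, star_add, star_one, star_smul, star_smul, hsD, hsJ,
      show star (((Real.cos θ - 1 : ℝ) : ℂ)) = ((Real.cos θ - 1 : ℝ) : ℂ) from Complex.conj_ofReal _,
      show star (((Real.sin θ : ℝ) : ℂ)) = ((Real.sin θ : ℝ) : ℂ) from Complex.conj_ofReal _,
      smul_neg]
    exact (sub_eq_add_neg _ _).symm
  rw [hst]
  unfold rot
  have e1 : (1 + ((Real.cos θ - 1 : ℝ) : ℂ) • DD i j + ((Real.sin θ : ℝ) : ℂ) • JJ i j u) *
      (1 + ((Real.cos θ - 1 : ℝ) : ℂ) • DD i j - ((Real.sin θ : ℝ) : ℂ) • JJ i j u) =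
      1 + (((Real.cos θ - 1 : ℝ) : ℂ) * 2 + ((Real.cos θ - 1 : ℝ) : ℂ) ^ 2) • DD i j +
        -(((Real.sin θ : ℝ) : ℂ) ^ 2) • (JJ i j u * JJ i j u) := by
    simp only [mul_add, add_mul, mul_sub, one_mul, mul_one, smul_mul_assoc, mul_smul_comm,
      hDD, hDJ, hJD]
    module
  rw [e1, hJJ]
  have e2 : (((Real.cos θ - 1 : ℝ) : ℂ) * 2 + ((Real.cos θ - 1 : ℝ) : ℂ) ^ 2) +
      ((Real.sin θ : ℝ) : ℂ) ^ 2 = 0 := by
    have := Real.sin_sq_add_cos_sq θ
    have h3 : ((Real.cos θ - 1) * 2 + (Real.cos θ - 1) ^ 2) + (Real.sin θ) ^ 2 = (0 : ℝ) := by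
      nlinarith
    exact_mod_cast congrArg (fun z : ℝ => (z : ℂ)) h3
  calc 1 + (((Real.cos θ - 1 : ℝ) : ℂ) * 2 + ((Real.cos θ - 1 : ℝ) : ℂ) ^ 2) • DD i j +
        -(((Real.sin θ : ℝ) : ℂ) ^ 2) • (-DD i j)
      = 1 + ((((Real.cos θ - 1 : ℝ) : ℂ) * 2 + ((Real.cos θ - 1 : ℝ) : ℂ) ^ 2) +
      ((Real.sin θ : ℝ) : ℂ) ^ 2) • DD i j := by module
    _ = 1 := by rw [e2, zero_smul, add_zero]

private theorem dgm_mul_single {M N : ℕ} (h : M ≤ N) (b : Fin M → ℂ) (i : Fin M) (q : Fin N) (c : ℂ) :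
    (dgm b : Matrix (Fin M) (Fin N) ℂ) * Matrix.single (Fin.castLE h i) q c =
      Matrix.single i q (b i * c) := by
  ext p q'
  by_cases hq : q' = q
  · subst hq
    rw [Matrix.mul_single_apply_same]
    by_cases hp : p = i
    · subst hp
      simp [dgm]
    · have h1 : (p : ℕ) ≠ (i : ℕ) := fun h2 => hp (Fin.ext h2)
      simp [dgm, h1, Ne.symm hp]
  · rw [Matrix.mul_single_apply_of_ne _ _ _ _ _ hq]
    simp [Ne.symm hq]

private theorem single_mul_dgm {M N : ℕ} (h : M ≤ N) (b : Fin M → ℂ) (p j : Fin M) (c : ℂ) :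
    Matrix.single p j c * (dgm b : Matrix (Fin M) (Fin N) ℂ) =
      Matrix.single p (Fin.castLE h j) (c * b j) := by
  ext p' q
  by_cases hp : p' = p
  · subst hp
    rw [Matrix.single_mul_apply_same]
    by_cases hq : q = Fin.castLE h j
    · subst hq
      simp [dgm]
    · have h1 : (j : ℕ) ≠ (q : ℕ) := fun h2 => hq (Fin.ext h2.symm)
      simp [dgm, h1, Ne.symm hq]
  · rw [Matrix.single_mul_apply_of_ne _ _ _ _ _ hp]
    simp [Ne.symm hp]

/-- a single block -/
private noncomputable def sg (l : L) (M : Matrix (Fin (m l)) (Fin (n l)) ℂ) : MV m n :=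
  Function.update 0 l M

private theorem sg_same (l : L) (M : Matrix (Fin (m l)) (Fin (n l)) ℂ) :
    (sg l M : MV m n) l = M := Function.update_self _ _ _

private theorem sg_ne {l l' : L} (h : l' ≠ l) (M : Matrix (Fin (m l)) (Fin (n l)) ℂ) :
    (sg l M : MV m n) l' = 0 := Function.update_of_ne h _ _

private theorem curve (a : X m) (l : L) (i j : Fin (m l)) (i' j' : Fin (n l))
    (hij : i ≠ j) (hij' : i' ≠ j') {u : ℂ} (hu : u * star u = 1) (x y : ℝ)
    (A : Matrix (Fin (m l)) (Fin (n l)) ℂ) (hA : dgm (cx a l) = A) :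
    ∃ c c' : ℝ → MV m n, Cu (KM m n) (dgL m n (cx a)) c c'
      (((-(y ^ 2) : ℝ) : ℂ) • (sg l (A * DD i' j') : MV m n) +
        ((-(x ^ 2) : ℝ) : ℂ) • (sg l (DD i j * A) : MV m n) +
        ((2 * x * y : ℝ) : ℂ) • (sg l (JJ i j u * A * JJ i' j' u) : MV m n)) ∧
      c' 0 = ((y : ℝ) : ℂ) • (sg l (A * JJ i' j' u) : MV m n) +
        ((x : ℝ) : ℂ) • (sg l (JJ i j u * A) : MV m n) := by
  obtain ⟨c', h1, h2, h3⟩ := crv (V := MV m n) (dgL m n (cx a))
    (sg l (A * DD i' j')) (sg l (A * JJ i' j' u))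
    (sg l (DD i j * A)) (sg l (DD i j * A * DD i' j'))
    (sg l (DD i j * A * JJ i' j' u)) (sg l (JJ i j u * A))
    (sg l (JJ i j u * A * DD i' j'))
    (sg l (JJ i j u * A * JJ i' j' u)) x y
  refine ⟨_, c', ⟨h1, h2, ?_, ?_⟩, h3⟩
  · simp
  · intro t
    refine ⟨_, ⟨Function.update (fun _ => 1) l ⟨rot i j u (t * x), rot_mem hij hu _⟩,
      Function.update (fun _ => 1) l ⟨rot i' j' u (t * y), rot_mem hij' hu _⟩, rfl⟩, ?_⟩
    funext l'
    refine Eq.trans ?_ (actL_apply _ _ (dgL m n (cx a)) l').symm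
    by_cases hl : l' = l
    · subst hl
      rw [Function.update_self, Function.update_self]
      simp only [Pi.add_apply, Pi.smul_apply, sg_same, dgL_apply, hA]
      unfold rot
      simp only [Matrix.smul_mul, Matrix.mul_smul, Matrix.one_mul, Matrix.mul_one,
        Matrix.add_mul, Matrix.mul_add]
      push_cast
      module
    · rw [Function.update_of_ne hl, Function.update_of_ne hl]
      simp [sg_ne hl]

private theorem sg_add (l : L) (M N : Matrix (Fin (m l)) (Fin (n l)) ℂ) :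
    (sg l (M + N) : MV m n) = sg l M + sg l N := by
  funext l'
  by_cases hl : l' = l
  · subst hl
    rw [Pi.add_apply, sg_same, sg_same, sg_same]
  · rw [Pi.add_apply, sg_ne hl, sg_ne hl, sg_ne hl, add_zero]

private theorem sg_smul (l : L) (c : ℂ) (M : Matrix (Fin (m l)) (Fin (n l)) ℂ) :
    (sg l (c • M) : MV m n) = c • sg l M := by
  funext l'
  by_cases hl : l' = l
  · subst hl
    rw [Pi.smul_apply, sg_same, sg_same]
  · rw [Pi.smul_apply, sg_ne hl, sg_ne hl, smul_zero]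

private theorem PL_sg (hmn : ∀ l, m l ≤ n l) (l : L) (i k : Fin (m l)) (c : ℂ) :
    PL hmn (sg l (Matrix.single i (Fin.castLE (hmn l) k) c)) = if i = k then e1 l i c else 0 := by
  funext l' i'
  rw [PL_apply]
  by_cases hl : l' = l
  · subst hl
    rw [sg_same]
    by_cases hik : i = k
    · subst hik
      rw [if_pos rfl]
      unfold e1
      rw [Pi.single_eq_same]
      by_cases h1 : i' = i
      · subst h1
        simp
      · rw [Pi.single_eq_of_ne h1, Matrix.single_apply_of_row_ne (Ne.symm h1)]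
    · rw [if_neg hik]
      by_cases h1 : i = i'
      · subst h1
        rw [Matrix.single_apply_of_col_ne]
        · rfl
        · intro h2
          exact hik (Fin.castLE_injective (hmn l') h2).symm
      · rw [Matrix.single_apply_of_row_ne h1]
        rfl
  · rw [sg_ne hl]
    split_ifs
    · unfold e1
      rw [Pi.single_eq_of_ne hl]
      rfl
    · rfl

private theorem e1_add {r : L → ℕ} (l : L) (i : Fin (r l)) (c d : ℂ) :
    (e1 l i (c + d) : XC r) = e1 l i c + e1 l i d := by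
  unfold e1
  rw [Pi.single_add, Pi.single_add]

private theorem e1_smul {r : L → ℕ} (l : L) (i : Fin (r l)) (c d : ℂ) :
    c • (e1 l i d : XC r) = e1 l i (c * d) := by
  unfold e1
  rw [← Pi.single_smul, ← Pi.single_smul, smul_eq_mul]

theorem M_root (hmn : ∀ l, m l ≤ n l) (a : X m) (ha : ∀ l i, 0 ≤ a l i) (l : L)
    (i j : Fin (m l)) (hij : a l j < a l i) :
    ∃ κ : ℝ, 0 < κ ∧ RP (KM m n) (PL hmn) (dgL m n (cx a))
      (e1 l i ((-(κ * a l i) : ℝ) : ℂ) + e1 l j ((κ * a l j : ℝ) : ℂ)) := by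
  have hne : i ≠ j := fun h => by
    rw [h] at hij
    exact lt_irrefl _ hij
  have hne' : Fin.castLE (hmn l) i ≠ Fin.castLE (hmn l) j := fun h =>
    hne (Fin.castLE_injective (hmn l) h)
  have hA : ∀ u : ℂ, (dgm (cx a l) : Matrix (Fin (m l)) (Fin (n l)) ℂ) *
      JJ (Fin.castLE (hmn l) i) (Fin.castLE (hmn l) j) u =
      Matrix.single i (Fin.castLE (hmn l) j) ((a l i : ℂ) * u) +
        Matrix.single j (Fin.castLE (hmn l) i) ((a l j : ℂ) * -(star u)) := by
    intro u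
    unfold JJ
    rw [Matrix.mul_add, dgm_mul_single, dgm_mul_single]
    rfl
  have hA' : ∀ u : ℂ, JJ i j u * (dgm (cx a l) : Matrix (Fin (m l)) (Fin (n l)) ℂ) =
      Matrix.single i (Fin.castLE (hmn l) j) (u * (a l j : ℂ)) +
        Matrix.single j (Fin.castLE (hmn l) i) (-(star u) * (a l i : ℂ)) := by
    intro u
    unfold JJ
    rw [Matrix.add_mul, single_mul_dgm (hmn l), single_mul_dgm (hmn l)]
    rfl
  have hD : (dgm (cx a l) : Matrix (Fin (m l)) (Fin (n l)) ℂ) *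
      DD (Fin.castLE (hmn l) i) (Fin.castLE (hmn l) j) =
      Matrix.single i (Fin.castLE (hmn l) i) (a l i : ℂ) +
        Matrix.single j (Fin.castLE (hmn l) j) (a l j : ℂ) := by
    unfold DD
    rw [Matrix.mul_add, dgm_mul_single, dgm_mul_single, mul_one, mul_one]
    rfl
  have hD' : DD i j * (dgm (cx a l) : Matrix (Fin (m l)) (Fin (n l)) ℂ) =
      Matrix.single i (Fin.castLE (hmn l) i) (a l i : ℂ) +
        Matrix.single j (Fin.castLE (hmn l) j) (a l j : ℂ) := by
    unfold DD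
    rw [Matrix.add_mul, single_mul_dgm (hmn l), single_mul_dgm (hmn l), one_mul, one_mul]
    rfl
  have hJ : ∀ u : ℂ, u * star u = 1 → JJ i j u * (dgm (cx a l) : Matrix (Fin (m l)) (Fin (n l)) ℂ) *
      JJ (Fin.castLE (hmn l) i) (Fin.castLE (hmn l) j) u =
      Matrix.single i (Fin.castLE (hmn l) i) (-(a l j : ℂ)) +
        Matrix.single j (Fin.castLE (hmn l) j) (-(a l i : ℂ)) := by
    intro u hu
    rw [hA' u]
    unfold JJ
    rw [Matrix.add_mul, Matrix.mul_add, Matrix.mul_add, Matrix.single_mul_single_same,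
      Matrix.single_mul_single_same, Matrix.single_mul_single_of_ne _ _ _ _ hne',
      Matrix.single_mul_single_of_ne _ _ _ _ hne'.symm, zero_add, add_zero]
    congr 2
    · linear_combination (-(a l j : ℂ)) * hu
    · linear_combination (-(a l i : ℂ)) * hu
  have main : ∀ u : ℂ, u * star u = 1 → ∃ c c' : ℝ → MV m n, ∃ y : MV m n,
      Cu (KM m n) (dgL m n (cx a)) c c' y ∧
      c' 0 = u • sg l (Matrix.single i (Fin.castLE (hmn l) j) ((a l j : ℂ) ^ 2 - (a l i : ℂ) ^ 2)) ∧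
      PL hmn y = e1 l i ((-((a l i ^ 2 - a l j ^ 2) * a l i) : ℝ) : ℂ) +
        e1 l j (((a l i ^ 2 - a l j ^ 2) * a l j : ℝ) : ℂ) := by
    intro u hu
    obtain ⟨c, c', h1, h2⟩ := curve a l i j _ _ hne hne' hu (a l j) (-(a l i)) _ rfl
    refine ⟨c, c', _, h1, ?_, ?_⟩
    · rw [h2, hA u, hA' u, ← sg_smul, ← sg_smul, ← sg_smul, ← sg_add]
      congr 1
      rw [smul_add, smul_add, Matrix.smul_single, Matrix.smul_single, Matrix.smul_single,
        Matrix.smul_single, Matrix.smul_single]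
      have e1 : (((-(a l i) : ℝ) : ℂ)) • ((a l j : ℂ) * -(star u)) +
          ((a l j : ℝ) : ℂ) • (-(star u) * (a l i : ℂ)) = 0 := by
        push_cast
        simp only [smul_eq_mul]
        ring
      have e2 : (((-(a l i) : ℝ) : ℂ)) • ((a l i : ℂ) * u) + ((a l j : ℝ) : ℂ) • (u * (a l j : ℂ)) =
          u • ((a l j : ℂ) ^ 2 - (a l i : ℂ) ^ 2) := by
        push_cast
        simp only [smul_eq_mul]
        ring
      rw [← e2, Matrix.single_add]
      have e3 := Matrix.single_add j (Fin.castLE (hmn l) i)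
        ((((-(a l i) : ℝ) : ℂ)) • ((a l j : ℂ) * -(star u)))
        (((a l j : ℝ) : ℂ) • (-(star u) * (a l i : ℂ)))
      rw [e1, Matrix.single_zero] at e3
      calc _ = (Matrix.single i (Fin.castLE (hmn l) j) ((((-(a l i) : ℝ) : ℂ)) • ((a l i : ℂ) * u)) +
            Matrix.single i (Fin.castLE (hmn l) j) (((a l j : ℝ) : ℂ) • (u * (a l j : ℂ)))) +
          (Matrix.single j (Fin.castLE (hmn l) i) ((((-(a l i) : ℝ) : ℂ)) • ((a l j : ℂ) * -(star u))) +
            Matrix.single j (Fin.castLE (hmn l) i) (((a l j : ℝ) : ℂ) • (-(star u) * (a l i : ℂ)))) := by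
            abel
        _ = _ := by rw [← e3, add_zero]
    · rw [hD, hD', hJ u hu, map_add, map_add, map_smul, map_smul, map_smul, sg_add, sg_add,
        map_add, map_add, PL_sg, PL_sg, PL_sg, PL_sg, if_pos rfl, if_pos rfl, if_pos rfl, if_pos rfl]
      rw [smul_add, smul_add, smul_add, e1_smul, e1_smul, e1_smul, e1_smul, e1_smul, e1_smul]
      calc _ = e1 l i (((-((-(a l i)) ^ 2) : ℝ) : ℂ) * (a l i : ℂ) +
              ((-(a l j ^ 2) : ℝ) : ℂ) * (a l i : ℂ) +
              ((2 * a l j * -(a l i) : ℝ) : ℂ) * (-(a l j : ℂ))) +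
            e1 l j (((-((-(a l i)) ^ 2) : ℝ) : ℂ) * (a l j : ℂ) +
              ((-(a l j ^ 2) : ℝ) : ℂ) * (a l j : ℂ) +
              ((2 * a l j * -(a l i) : ℝ) : ℂ) * (-(a l i : ℂ))) := by
            rw [e1_add, e1_add, e1_add, e1_add]
            abel
        _ = _ := by
            congr 2
            · push_cast
              ring
            · push_cast
              ring
  have hI : Complex.I * star Complex.I = 1 := by
    show Complex.I * (starRingEnd ℂ) Complex.I = 1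
    simp
  obtain ⟨c₁, c₁', y₁, h1, h1', h1''⟩ := main 1 (by simp)
  obtain ⟨c₂, c₂', y₂, h2, h2', h2''⟩ := main Complex.I hI
  refine ⟨2 * (a l i ^ 2 - a l j ^ 2), ?_, _, c₁, c₁', c₂, c₂', y₁, y₂, ?_, h1, ?_, h2, h2', ?_⟩
  · have := ha l j
    nlinarith
  · exact (PL_sg hmn l i j _).trans (if_neg hne)
  · rw [h1', one_smul]
  · refine ((PL hmn).map_add y₁ y₂).trans ((congrArg₂ (· + ·) h1'' h2'').trans ?_)
    calc _ = e1 l i (((-((a l i ^ 2 - a l j ^ 2) * a l i) : ℝ) : ℂ) +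
            ((-((a l i ^ 2 - a l j ^ 2) * a l i) : ℝ) : ℂ)) +
          e1 l j ((((a l i ^ 2 - a l j ^ 2) * a l j : ℝ) : ℂ) +
            (((a l i ^ 2 - a l j ^ 2) * a l j : ℝ) : ℂ)) := by
          rw [e1_add, e1_add]
          abel
      _ = _ := by
          congr 2
          · push_cast
            ring
          · push_cast
            ring

end H5.PK
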