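import Pool.Agent.H5.PK.MDef

/-! # PK.IRu : the second kind of root curves (blocks which are not square)

`m l < n l`; let `j : Fin (n l)` be the index `m l` (a column without diagonal entry). `c t = dgL (cx a) * W t` (block `l`), `W t` the identity except for the rows and columns `i, j` where it is `[[cos t, u sin t], [- conj u sin t, cos t]]`: row `i` of `c t` has the entries `a_i cos t` at `i` and `a_i u sin t` at `j`, all other entries are those of `dgL (cx a)`.
`c' 0 = u •` (single entry `a_i` at `(i, j)`), `PL c'' = e1 l i (- a_i)`; the curves for `u = 1`, `u = I` are `c₁`, `c₂`; `κ = 2 a_i`. It may be simplest to define `c t` by its entries and to check separately that it is `1 * dgL (cx a) * W t`. -/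

namespace H5.PK

open scoped Matrix.Norms.Elementwise

variable {L : Type} [Fintype L] [DecidableEq L] {m n : L → ℕ}

private noncomputable def iruW {N : ℕ} (p q : Fin N) (c : ℂ) (x y : ℂ) : Matrix (Fin N) (Fin N) ℂ :=
  1 + (c - 1) • (Matrix.single p p (1 : ℂ) + Matrix.single q q 1) +
    (x • Matrix.single p q (1 : ℂ) - y • Matrix.single q p (1 : ℂ))

private theorem iruW_mul {N : ℕ} {p q : Fin N} (hpq : p ≠ q) (c x y : ℂ) (h : c * c + x * y = 1) :
    iruW p q c x y * iruW p q c (-x) (-y) = 1 := by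
  have hqp : q ≠ p := fun e => hpq e.symm
  unfold iruW
  ext i j
  have e1 : ∀ (A B : Matrix (Fin N) (Fin N) ℂ), A = B → A i j = B i j := fun A B e => by rw [e]
  apply e1
  have hA : (Matrix.single p p (1 : ℂ) + Matrix.single q q 1) *
      (Matrix.single p p (1 : ℂ) + Matrix.single q q 1) =
      (Matrix.single p p (1 : ℂ) + Matrix.single q q 1) := by
    simp [mul_add, add_mul, hpq, hqp]
  have hB : (Matrix.single p p (1 : ℂ) + Matrix.single q q 1) *
      (x • Matrix.single p q (1 : ℂ) - y • Matrix.single q p (1 : ℂ)) =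
      (x • Matrix.single p q (1 : ℂ) - y • Matrix.single q p (1 : ℂ)) := by
    simp [mul_sub, add_mul, hpq, hqp]
  have hC : (x • Matrix.single p q (1 : ℂ) - y • Matrix.single q p (1 : ℂ)) *
      (Matrix.single p p (1 : ℂ) + Matrix.single q q 1) =
      (x • Matrix.single p q (1 : ℂ) - y • Matrix.single q p (1 : ℂ)) := by
    simp [sub_mul, mul_add, hpq, hqp]
    abel
  have hD : (x • Matrix.single p q (1 : ℂ) - y • Matrix.single q p (1 : ℂ)) *
      (x • Matrix.single p q (1 : ℂ) - y • Matrix.single q p (1 : ℂ)) =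
      (-(x * y)) • (Matrix.single p p (1 : ℂ) + Matrix.single q q 1) := by
    simp [sub_mul, mul_sub, hpq, hqp]
    ring_nf
    abel
  have hE : ((-x) • Matrix.single p q (1 : ℂ) - (-y) • Matrix.single q p (1 : ℂ)) =
      -(x • Matrix.single p q (1 : ℂ) - y • Matrix.single q p (1 : ℂ)) := by
    simp only [neg_smul]
    abel
  rw [hE]
  set P := (Matrix.single p p (1 : ℂ) + Matrix.single q q 1) with hP
  set J := (x • Matrix.single p q (1 : ℂ) - y • Matrix.single q p (1 : ℂ)) with hJ
  have hx : x * y = 1 - c * c := by linear_combination h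
  rw [hx] at hD
  have : (1 + (c - 1) • P + J) * (1 + (c - 1) • P + -J) = 1 + (2 * (c - 1)) • P +
      ((c - 1) * (c - 1)) • (P * P) - (c - 1) • (P * J) + (c - 1) • (J * P) - J * J := by
    generalize c - 1 = d
    simp only [mul_add, add_mul, mul_one, one_mul, mul_neg, smul_mul_assoc,
      mul_smul_comm, smul_smul, two_mul, add_smul, smul_add]
    abel
  rw [this, hA, hB, hC, hD]
  have h2 : (1 : Matrix (Fin N) (Fin N) ℂ) + (2 * (c - 1)) • P + ((c - 1) * (c - 1)) • P -
      (c - 1) • J + (c - 1) • J - (-(1 - c * c)) • P =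
      1 + ((2 * (c - 1)) + ((c - 1) * (c - 1)) - (-(1 - c * c))) • P := by
    simp only [add_smul, sub_smul]
    abel
  rw [h2]
  have h3 : (2 * (c - 1)) + ((c - 1) * (c - 1)) - (-(1 - c * c)) = (0 : ℂ) := by ring
  rw [h3, zero_smul, add_zero]

private theorem iruW_star {N : ℕ} (p q : Fin N) (c x y : ℂ) :
    star (iruW p q c x y) = iruW p q (star c) (-(star y)) (-(star x)) := by
  unfold iruW
  rw [Matrix.star_eq_conjTranspose]
  simp only [Matrix.conjTranspose_add, Matrix.conjTranspose_sub, Matrix.conjTranspose_smul,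
    Matrix.conjTranspose_one, Matrix.conjTranspose_single, star_one, star_sub, neg_smul]
  abel

private theorem iruW_mem {N : ℕ} {p q : Fin N} (hpq : p ≠ q) (t : ℝ) (u : ℂ) (hu : u * star u = 1) :
    iruW p q (Real.cos t : ℂ) (u * (Real.sin t : ℂ)) (star u * (Real.sin t : ℂ)) ∈
      Matrix.unitaryGroup (Fin N) ℂ := by
  rw [Matrix.mem_unitaryGroup_iff, iruW_star]
  have h1 : star ((Real.cos t : ℝ) : ℂ) = (Real.cos t : ℂ) := Complex.conj_ofReal _
  have h2 : star ((Real.sin t : ℝ) : ℂ) = (Real.sin t : ℂ) := Complex.conj_ofReal _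
  have h3 : -(star (star u * (Real.sin t : ℂ))) = -(u * (Real.sin t : ℂ)) := by
    rw [star_mul, star_star, h2, mul_comm]
  have h4 : -(star (u * (Real.sin t : ℂ))) = -(star u * (Real.sin t : ℂ)) := by
    rw [star_mul, h2, mul_comm]
  rw [h1, h3, h4]
  apply iruW_mul hpq
  have h5 : ((Real.cos t : ℝ) : ℂ) * (Real.cos t : ℂ) + (Real.sin t : ℂ) * (Real.sin t : ℂ) = 1 := by
    rw [← Complex.ofReal_mul, ← Complex.ofReal_mul, ← Complex.ofReal_add]
    have := Real.sin_sq_add_cos_sq t
    have h6 : Real.cos t * Real.cos t + Real.sin t * Real.sin t = 1 := by nlinarith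
    rw [h6, Complex.ofReal_one]
  linear_combination h5 + (Real.sin t : ℂ) * (Real.sin t : ℂ) * hu

private theorem iru_curve (hmn : ∀ l, m l ≤ n l) (a : X m) (l : L) (i : Fin (m l))
    (j : Fin (n l)) (hj : (j : ℕ) = m l) (u : ℂ) (hu : u * star u = 1) :
    ∀ t : ℝ, ∃ k ∈ KM m n, dgL m n (cx a) +
      ((Real.cos t : ℂ) - 1) • (Pi.single l (Matrix.single i (Fin.castLE (hmn l) i) (a l i : ℂ)) :
        MV m n) + (u * (Real.sin t : ℂ)) • (Pi.single l (Matrix.single i j (a l i : ℂ)) : MV m n) =
      k (dgL m n (cx a)) := by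
  intro t
  have hij : Fin.castLE (hmn l) i ≠ j := by
    intro e
    have e2 : (i : ℕ) = j := by
      have := congrArg Fin.val e
      simpa using this
    have := i.2
    omega
  let W : UG n := Function.update (fun _ => 1) l
    ⟨iruW (Fin.castLE (hmn l) i) j (Real.cos t : ℂ) (u * (Real.sin t : ℂ))
      (star u * (Real.sin t : ℂ)), iruW_mem hij t u hu⟩
  refine ⟨actL (fun _ => 1) W, ⟨_, _, rfl⟩, ?_⟩
  funext l'
  rw [actL_apply, dgL_apply]
  by_cases hl : l' = l
  · subst hl
    have hW : ((W l' : Matrix.unitaryGroup (Fin (n l')) ℂ) : Matrix (Fin (n l')) (Fin (n l')) ℂ) =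
        iruW (Fin.castLE (hmn l') i) j (Real.cos t : ℂ) (u * (Real.sin t : ℂ))
      (star u * (Real.sin t : ℂ)) := by
      show ((Function.update (fun _ => 1) l' _ : UG n) l' : Matrix (Fin (n l')) (Fin (n l')) ℂ) = _
      rw [Function.update_self]
    rw [hW]
    simp only [Pi.add_apply, Pi.smul_apply, Pi.single_eq_same, OneMemClass.coe_one, one_mul,
      dgL_apply]
    have key : ∀ (k q : Fin (n l')) (z : ℂ), dgm (m := m l') (n := n l') (cx a l') *
        Matrix.single k q z = if h : (k : ℕ) < m l' then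
          Matrix.single ⟨k, h⟩ q ((a l' ⟨k, h⟩ : ℂ) * z) else 0 := by
      intro k q z
      ext r s
      rw [Matrix.mul_apply]
      rw [Finset.sum_eq_single k]
      · split_ifs with h
        · rw [Matrix.single_apply, Matrix.single_apply]
          unfold dgm cx
          by_cases h1 : (r : ℕ) = (k : ℕ)
          · have h2 : (⟨k, h⟩ : Fin (m l')) = r := Fin.ext h1.symm
            rw [if_pos h1, h2]
            by_cases h3 : q = s
            · simp [h3]
            · simp [h3]
          · have h2 : ¬ (⟨k, h⟩ : Fin (m l')) = r := fun e => h1 (by rw [← e])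
            rw [if_neg h1]
            simp [h2]
        · have h1 : ¬ (r : ℕ) = (k : ℕ) := by
            intro e
            exact h (e ▸ r.2)
          unfold dgm
          rw [if_neg h1, zero_mul]
          rfl
      · intro b _ hb
        rw [Matrix.single_apply, if_neg (fun e => hb e.1.symm), mul_zero]
      · intro h
        exact absurd (Finset.mem_univ _) h
    unfold iruW
    simp only [Matrix.mul_add, Matrix.mul_sub, Matrix.mul_smul, Matrix.mul_one, Matrix.one_mul,
      key]
    have h1 : ((Fin.castLE (hmn l') i : Fin (n l')) : ℕ) < m l' := by simp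
    have h2 : ¬ ((j : Fin (n l')) : ℕ) < m l' := by omega
    rw [dif_pos h1, dif_neg h2, dif_pos h1, dif_neg h2]
    have h3 : (⟨((Fin.castLE (hmn l') i : Fin (n l')) : ℕ), h1⟩ : Fin (m l')) = i := Fin.ext rfl
    rw [h3]
    simp
  · have hW : ((W l' : Matrix.unitaryGroup (Fin (n l')) ℂ) : Matrix (Fin (n l')) (Fin (n l')) ℂ) =
        1 := by
      show ((Function.update (fun _ => 1) l _ : UG n) l' : Matrix (Fin (n l')) (Fin (n l')) ℂ) = _
      rw [Function.update_of_ne hl]
      rfl
    rw [hW]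
    simp only [Pi.add_apply, Pi.smul_apply, Pi.single_eq_of_ne hl, OneMemClass.coe_one, one_mul,
      dgL_apply, mul_one, smul_zero, add_zero]
    rw [Matrix.mul_one, Matrix.one_mul]

private theorem iru_Cu (hmn : ∀ l, m l ≤ n l) (a : X m) (l : L) (i : Fin (m l))
    (j : Fin (n l)) (hj : (j : ℕ) = m l) (u : ℂ) (hu : u * star u = 1) :
    ∃ c c' : ℝ → MV m n, Cu (KM m n) (dgL m n (cx a)) c c'
      (-(Pi.single l (Matrix.single i (Fin.castLE (hmn l) i) (a l i : ℂ)) : MV m n)) ∧
      c' 0 = u • (Pi.single l (Matrix.single i j (a l i : ℂ)) : MV m n) := by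
  set A : MV m n := Pi.single l (Matrix.single i (Fin.castLE (hmn l) i) (a l i : ℂ)) with hA
  set B : MV m n := Pi.single l (Matrix.single i j (a l i : ℂ)) with hB
  have hcos : ∀ t : ℝ, HasDerivAt (fun t : ℝ => ((Real.cos t : ℝ) : ℂ)) (-(Real.sin t : ℂ)) t := by
    intro t
    have := (Real.hasDerivAt_cos t).ofReal_comp
    simpa using this
  have hsin : ∀ t : ℝ, HasDerivAt (fun t : ℝ => ((Real.sin t : ℝ) : ℂ)) (Real.cos t : ℂ) t := by
    intro t
    have := (Real.hasDerivAt_sin t).ofReal_comp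
    simpa using this
  refine ⟨fun t => dgL m n (cx a) + ((Real.cos t : ℂ) - 1) • A + (u * (Real.sin t : ℂ)) • B,
    fun t => (-(Real.sin t : ℂ)) • A + (u * (Real.cos t : ℂ)) • B, ⟨?_, ?_, ?_, ?_⟩, ?_⟩
  · intro t
    have h1 := ((hcos t).sub_const 1).smul_const A
    have h2 := ((hsin t).const_mul u).smul_const B
    exact (h1.const_add (dgL m n (cx a))).add h2
  · have h1 := ((hsin 0).neg).smul_const A
    have h2 := ((hcos 0).const_mul u).smul_const B
    have h3 := h1.add h2
    have e : (-((Real.cos 0 : ℝ) : ℂ)) • A + (u * -((Real.sin 0 : ℝ) : ℂ)) • B = -A := by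
      simp
    rw [e] at h3
    exact h3
  · simp
  · intro t
    exact iru_curve hmn a l i j hj u hu t
  · simp

theorem M_root' (hmn : ∀ l, m l ≤ n l) (a : X m) (l : L)
    (i : Fin (m l)) (hl : m l ≠ n l) (hi : 0 < a l i) :
    ∃ κ : ℝ, 0 < κ ∧ RP (KM m n) (PL hmn) (dgL m n (cx a)) (e1 l i ((-κ : ℝ) : ℂ)) := by
  have hlt : m l < n l := lt_of_le_of_ne (hmn l) hl
  obtain ⟨c₁, c₁', hc₁, h1⟩ := iru_Cu hmn a l i ⟨m l, hlt⟩ rfl 1 (by simp)
  obtain ⟨c₂, c₂', hc₂, h2⟩ := iru_Cu hmn a l i ⟨m l, hlt⟩ rfl Complex.I (by simp)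
  refine ⟨2 * a l i, by linarith, Pi.single l (Matrix.single i ⟨m l, hlt⟩ (a l i : ℂ)), c₁, c₁',
    c₂, c₂', _, _, ?_, hc₁, ?_, hc₂, h2, ?_⟩
  · funext l' r
    show (Pi.single l (Matrix.single i ⟨m l, hlt⟩ (a l i : ℂ)) : MV m n) l' r
      (Fin.castLE (hmn l') r) = 0
    by_cases h : l' = l
    · subst h
      rw [Pi.single_eq_same, Matrix.single_apply, if_neg]
      · rintro ⟨-, e⟩
        have e2 := congrArg Fin.val e
        simp at e2
        have := r.2
        omega
    · rw [Pi.single_eq_of_ne h]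
      rfl
  · rw [h1, one_smul]
  · funext l' r
    show (-(Pi.single l (Matrix.single i (Fin.castLE (hmn l) i) (a l i : ℂ)) : MV m n) +
      -(Pi.single l (Matrix.single i (Fin.castLE (hmn l) i) (a l i : ℂ)) : MV m n)) l' r
      (Fin.castLE (hmn l') r) = _
    unfold e1
    by_cases h : l' = l
    · subst h
      simp only [Pi.add_apply, Pi.neg_apply, Pi.single_eq_same, Matrix.add_apply, Matrix.neg_apply]
      rw [Matrix.single_apply]
      by_cases h3 : r = i
      · subst h3
        simp
        ring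
      · have h4 : ¬ (i = r ∧ Fin.castLE (hmn l') i = Fin.castLE (hmn l') r) :=
          fun e => h3 e.1.symm
        rw [if_neg h4, Pi.single_eq_of_ne h3]
        simp
    · simp only [Pi.add_apply, Pi.neg_apply, Pi.single_eq_of_ne h]
      simp

end H5.PK
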