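import Pool.Agent.H5.PK.MDef

/-! # PK.ISw : group, torus and swaps for products of matrix spaces

`M_inv`: the inverses of unitary matrices. `M_comp_mem` is not needed. `M_torus`: `U l` = diagonal unitary matrix with entries `exp (θ l i I)`, `W = 1`. `M_swap`: in the block `l`, permutation matrices of the transposition `(i j)` in both sizes, identity in the other blocks (for `i = j` the identity); it fixes `dgL (cx a)` as `a l i = a l j`. -/

namespace H5.PK

open scoped Matrix.Norms.Elementwise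

variable {L : Type} [Fintype L] [DecidableEq L] {m n : L → ℕ}

set_option linter.unusedSectionVars false

theorem M_inv (k : MV m n →L[ℂ] MV m n) (hk : k ∈ KM m n) :
    ∃ k' ∈ KM m n, (∀ z, k' (k z) = z) ∧ ∀ z, k (k' z) = z := by
  obtain ⟨U, W, rfl⟩ := hk
  have hU : ∀ l, ((U l)⁻¹ : Matrix.unitaryGroup (Fin (m l)) ℂ).1 * (U l).1 = 1 := fun l => by
    have h : ((U l)⁻¹ * U l : Matrix.unitaryGroup (Fin (m l)) ℂ) = 1 := inv_mul_cancel _
    exact congrArg Subtype.val h
  have hU' : ∀ l, (U l).1 * ((U l)⁻¹ : Matrix.unitaryGroup (Fin (m l)) ℂ).1 = 1 := fun l => by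
    have h : (U l * (U l)⁻¹ : Matrix.unitaryGroup (Fin (m l)) ℂ) = 1 := mul_inv_cancel _
    exact congrArg Subtype.val h
  have hW : ∀ l, ((W l)⁻¹ : Matrix.unitaryGroup (Fin (n l)) ℂ).1 * (W l).1 = 1 := fun l => by
    have h : ((W l)⁻¹ * W l : Matrix.unitaryGroup (Fin (n l)) ℂ) = 1 := inv_mul_cancel _
    exact congrArg Subtype.val h
  have hW' : ∀ l, (W l).1 * ((W l)⁻¹ : Matrix.unitaryGroup (Fin (n l)) ℂ).1 = 1 := fun l => by
    have h : (W l * (W l)⁻¹ : Matrix.unitaryGroup (Fin (n l)) ℂ) = 1 := mul_inv_cancel _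
    exact congrArg Subtype.val h
  refine ⟨actL (fun l => (U l)⁻¹) (fun l => (W l)⁻¹), ⟨_, _, rfl⟩, fun z => ?_, fun z => ?_⟩
  · funext l
    rw [actL_apply, actL_apply]
    have h : ((U l)⁻¹ : Matrix.unitaryGroup (Fin (m l)) ℂ).1 * ((U l).1 * z l * (W l).1) *
        ((W l)⁻¹ : Matrix.unitaryGroup (Fin (n l)) ℂ).1 =
        (((U l)⁻¹ : Matrix.unitaryGroup (Fin (m l)) ℂ).1 * (U l).1) * z l *
          ((W l).1 * ((W l)⁻¹ : Matrix.unitaryGroup (Fin (n l)) ℂ).1) := by
      simp only [Matrix.mul_assoc]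
    rw [hU, hW', Matrix.one_mul, Matrix.mul_one] at h
    exact h
  · funext l
    rw [actL_apply, actL_apply]
    have h : (U l).1 * (((U l)⁻¹ : Matrix.unitaryGroup (Fin (m l)) ℂ).1 * z l *
        ((W l)⁻¹ : Matrix.unitaryGroup (Fin (n l)) ℂ).1) * (W l).1 =
        ((U l).1 * ((U l)⁻¹ : Matrix.unitaryGroup (Fin (m l)) ℂ).1) * z l *
          (((W l)⁻¹ : Matrix.unitaryGroup (Fin (n l)) ℂ).1 * (W l).1) := by
      simp only [Matrix.mul_assoc]
    rw [hU', hW, Matrix.one_mul, Matrix.mul_one] at h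
    exact h

theorem M_torus (θ : X m) : ∃ k ∈ KM m n, ∀ b : XC m,
    k (dgL m n b) = dgL m n (fun l i => Complex.exp ((θ l i : ℂ) * Complex.I) * b l i) := by
  have h1 : ∀ l, (Matrix.diagonal (fun i => Complex.exp ((θ l i : ℂ) * Complex.I)) : Matrix (Fin (m l)) (Fin (m l)) ℂ) ∈
      Matrix.unitaryGroup (Fin (m l)) ℂ := by
    intro l
    rw [Matrix.mem_unitaryGroup_iff, Matrix.star_eq_conjTranspose, Matrix.diagonal_conjTranspose, Matrix.diagonal_mul_diagonal,
      ← Matrix.diagonal_one]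
    congr 1
    funext i
    rw [Pi.star_apply]
    show Complex.exp ((θ l i : ℂ) * Complex.I) * (starRingEnd ℂ) (Complex.exp ((θ l i : ℂ) * Complex.I)) = 1
    rw [Complex.mul_conj, Complex.normSq_eq_norm_sq, Complex.norm_exp_ofReal_mul_I]
    norm_num
  refine ⟨actL (fun l => ⟨_, h1 l⟩) (fun l => 1), ⟨_, _, rfl⟩, fun b => ?_⟩
  funext l i j
  rw [actL_apply]
  show (Matrix.diagonal (fun i => Complex.exp ((θ l i : ℂ) * Complex.I)) * dgL m n b l * (1 : Matrix (Fin (n l)) (Fin (n l)) ℂ)) i j = _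
  rw [Matrix.mul_one, Matrix.diagonal_mul]
  show Complex.exp ((θ l i : ℂ) * Complex.I) * (if (i : ℕ) = (j : ℕ) then b l i else 0) =
    if (i : ℕ) = (j : ℕ) then Complex.exp ((θ l i : ℂ) * Complex.I) * b l i else 0
  split_ifs
  · rfl
  · rw [mul_zero]

private theorem perm_unit {p : ℕ} (σ : Equiv.Perm (Fin p)) :
    (1 : Matrix (Fin p) (Fin p) ℂ).submatrix σ id ∈ Matrix.unitaryGroup (Fin p) ℂ := by
  rw [Matrix.mem_unitaryGroup_iff, Matrix.star_eq_conjTranspose, Matrix.conjTranspose_submatrix, Matrix.conjTranspose_one,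
    ← Matrix.submatrix_mul _ _ _ id _ Function.bijective_id, Matrix.one_mul, Matrix.submatrix_one_equiv]

private theorem perm_unit' {p : ℕ} (σ : Equiv.Perm (Fin p)) :
    (1 : Matrix (Fin p) (Fin p) ℂ).submatrix id σ ∈ Matrix.unitaryGroup (Fin p) ℂ := by
  rw [Matrix.mem_unitaryGroup_iff', Matrix.star_eq_conjTranspose, Matrix.conjTranspose_submatrix, Matrix.conjTranspose_one,
    ← Matrix.submatrix_mul _ _ _ id _ Function.bijective_id, Matrix.one_mul, Matrix.submatrix_one_equiv]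

private noncomputable def pact (σ : (l : L) → Equiv.Perm (Fin (m l))) (τ : (l : L) → Equiv.Perm (Fin (n l))) :
    MV m n →L[ℂ] MV m n :=
  actL (fun l => ⟨_, perm_unit (σ l)⟩) (fun l => ⟨_, perm_unit' (τ l)⟩)

private theorem pact_apply (σ : (l : L) → Equiv.Perm (Fin (m l))) (τ : (l : L) → Equiv.Perm (Fin (n l))) (Z : MV m n)
    (l : L) (a : Fin (m l)) (b : Fin (n l)) : pact σ τ Z l a b = Z l (σ l a) (τ l b) := by
  unfold pact
  rw [actL_apply]
  show ((1 : Matrix (Fin (m l)) (Fin (m l)) ℂ).submatrix (σ l) id * Z l * (1 : Matrix (Fin (n l)) (Fin (n l)) ℂ).submatrix id (τ l)) a b = _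
  have h1 : (1 : Matrix (Fin (m l)) (Fin (m l)) ℂ).submatrix (σ l) id * Z l = (Z l).submatrix (σ l) id := by
    conv_lhs => rw [← Matrix.submatrix_id_id (Z l)]
    rw [← Matrix.submatrix_mul _ _ _ id _ Function.bijective_id, Matrix.one_mul]
  have h2 : (Z l).submatrix (σ l) id * (1 : Matrix (Fin (n l)) (Fin (n l)) ℂ).submatrix id (τ l) = (Z l).submatrix (σ l) (τ l) := by
    rw [← Matrix.submatrix_mul _ _ _ id _ Function.bijective_id, Matrix.mul_one]
  rw [h1, h2]
  rfl

theorem M_swap (hmn : ∀ l, m l ≤ n l) (a : X m) (l : L) (i j : Fin (m l)) (hij : a l i = a l j) :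
    ∃ k ∈ KM m n, (∀ z, k (k z) = z) ∧ k (dgL m n (cx a)) = dgL m n (cx a) ∧
      ∀ c, k (dgL m n (e1 l i c)) = dgL m n (e1 l j c) := by
  let σ : (l : L) → Equiv.Perm (Fin (m l)) := Function.update (fun _ => 1) l (Equiv.swap i j)
  let τ : (l : L) → Equiv.Perm (Fin (n l)) := Function.update (fun _ => 1) l (Equiv.swap (Fin.castLE (hmn l) i) (Fin.castLE (hmn l) j))
  have hσ : σ l = Equiv.swap i j := Function.update_self _ _ _
  have hτ : τ l = Equiv.swap (Fin.castLE (hmn l) i) (Fin.castLE (hmn l) j) := Function.update_self _ _ _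
  have hσ' : ∀ l', l' ≠ l → σ l' = 1 := fun l' h => Function.update_of_ne h _ _
  have hτ' : ∀ l', l' ≠ l → τ l' = 1 := fun l' h => Function.update_of_ne h _ _
  have hσσ : ∀ l' x, σ l' (σ l' x) = x := by
    intro l' x
    by_cases h : l' = l
    · subst h
      rw [hσ, Equiv.swap_apply_self]
    · rw [hσ' l' h]
      rfl
  have hττ : ∀ l' x, τ l' (τ l' x) = x := by
    intro l' x
    by_cases h : l' = l
    · subst h
      rw [hτ, Equiv.swap_apply_self]
    · rw [hτ' l' h]
      rfl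
  have hc : ∀ l' (x : Fin (m l')), τ l' (Fin.castLE (hmn l') x) = Fin.castLE (hmn l') (σ l' x) := by
    intro l' x
    by_cases h : l' = l
    · subst h
      rw [hσ, hτ]
      exact ((Fin.castLE_injective (hmn l')).map_swap i j x).symm
    · rw [hσ' l' h, hτ' l' h]
      rfl
  have hd : ∀ b : XC m, pact σ τ (dgL m n b) = dgL m n (fun l' x => b l' (σ l' x)) := by
    intro b
    funext l' x y
    rw [pact_apply]
    show (if ((σ l' x : Fin (m l')) : ℕ) = ((τ l' y : Fin (n l')) : ℕ) then b l' (σ l' x) else 0) =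
      if (x : ℕ) = (y : ℕ) then b l' (σ l' x) else 0
    have h1 : ((σ l' x : Fin (m l')) : ℕ) = ((τ l' y : Fin (n l')) : ℕ) ↔ (x : ℕ) = (y : ℕ) := by
      constructor
      · intro h
        have h2 : Fin.castLE (hmn l') (σ l' x) = τ l' y := Fin.ext h
        rw [← hc] at h2
        have h3 := (τ l').injective h2
        rw [← h3]
        rfl
      · intro h
        have h2 : Fin.castLE (hmn l') x = y := Fin.ext h
        rw [← h2, hc]
        rfl
    by_cases h : (x : ℕ) = (y : ℕ)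
    · rw [if_pos h, if_pos (h1.2 h)]
    · rw [if_neg h, if_neg (fun h2 => h (h1.1 h2))]
  refine ⟨pact σ τ, ⟨_, _, rfl⟩, fun z => ?_, ?_, fun c => ?_⟩
  · funext l' x y
    rw [pact_apply, pact_apply, hσσ, hττ]
  · rw [hd]
    congr 1
    funext l' x
    show ((a l' (σ l' x) : ℝ) : ℂ) = ((a l' x : ℝ) : ℂ)
    congr 1
    by_cases h : l' = l
    · subst h
      rw [hσ]
      by_cases h1 : x = i
      · rw [h1, Equiv.swap_apply_left, hij]
      · by_cases h2 : x = j
        · rw [h2, Equiv.swap_apply_right, hij]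
        · rw [Equiv.swap_apply_of_ne_of_ne h1 h2]
    · rw [hσ' l' h]
      rfl
  · rw [hd]
    congr 1
    funext l' x
    show (Pi.single l (Pi.single i c) : XC m) l' (σ l' x) = (Pi.single l (Pi.single j c) : XC m) l' x
    by_cases h : l' = l
    · subst h
      rw [hσ, Pi.single_eq_same, Pi.single_eq_same]
      by_cases h1 : x = i
      · rw [h1, Equiv.swap_apply_left]
        by_cases h3 : i = j
        · rw [← h3]
        · rw [Pi.single_eq_of_ne (Ne.symm h3), Pi.single_eq_of_ne h3]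
      · by_cases h2 : x = j
        · rw [h2, Equiv.swap_apply_right, Pi.single_eq_same, Pi.single_eq_same]
        · rw [Equiv.swap_apply_of_ne_of_ne h1 h2, Pi.single_eq_of_ne h1, Pi.single_eq_of_ne h2]
    · rw [Pi.single_eq_of_ne h, Pi.single_eq_of_ne h]
      rfl

end H5.PK
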