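import Mathlib

/-! # PK.CBi : the Cauchy-Binet formula, summed over all maps (pure)

`det (A * B) = ∑ σ, sign σ ∏ j (A * B) (σ j) j = ∑ σ ∑ f, sign σ ∏ j A (σ j) (f j) * B (f j) j` (`Finset.prod_univ_sum`, `Fintype.piFinset_univ`) `= ∑ f, det (A.submatrix id f) * ∏ j, B (f j) j`. Replace `f` by `f ∘ π` for a permutation `π` (bijection of the maps): `det (A.submatrix id (f ∘ π)) = sign π * det (A.submatrix id f)` (`Matrix.det_permute'`).
Sum over all `π` (there are `k!`): `k! * det (A * B) = ∑ f, det (A.submatrix id f) * ∑ π, sign π * ∏ j, B (f (π j)) j = ∑ f, det (A.submatrix id f) * det (B.submatrix f id)`. `det_sub_zero`: two equal columns. -/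

namespace H5.PK

theorem cauchy_binet {k n : ℕ} (A : Matrix (Fin k) (Fin n) ℂ) (B : Matrix (Fin n) (Fin k) ℂ) :
    (k.factorial : ℂ) * (A * B).det =
      ∑ f : Fin k → Fin n, (A.submatrix id f).det * (B.submatrix f id).det := by
  have h1 : (A * B).det = ∑ f : Fin k → Fin n, (A.submatrix id f).det * ∏ j, B (f j) j := by
    rw [Matrix.det_apply]
    have h2 : ∀ σ : Equiv.Perm (Fin k), Equiv.Perm.sign σ • ∏ i, (A * B) (σ i) i =
        ∑ f : Fin k → Fin n, (Equiv.Perm.sign σ • ∏ i, A (σ i) (f i)) * ∏ j, B (f j) j := by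
      intro σ
      have h3 : ∏ i, (A * B) (σ i) i = ∑ f : Fin k → Fin n, ∏ i, A (σ i) (f i) * B (f i) i := by
        simp only [Matrix.mul_apply]
        rw [Finset.prod_univ_sum]
        rw [Fintype.piFinset_univ]
      rw [h3, Finset.smul_sum]
      refine Finset.sum_congr rfl fun f _ => ?_
      rw [Finset.prod_mul_distrib, smul_mul_assoc]
    rw [Finset.sum_congr rfl fun σ _ => h2 σ, Finset.sum_comm]
    refine Finset.sum_congr rfl fun f _ => ?_
    rw [← Finset.sum_mul, Matrix.det_apply]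
    rfl
  have h4 : ∀ π : Equiv.Perm (Fin k), (A * B).det =
      ∑ f : Fin k → Fin n, (A.submatrix id f).det *
        (Equiv.Perm.sign π • ∏ j, B (f (π j)) j) := by
    intro π
    rw [h1, ← Equiv.sum_comp (Equiv.arrowCongr π.symm (Equiv.refl (Fin n)))]
    refine Finset.sum_congr rfl fun f _ => ?_
    have h5 : (Equiv.arrowCongr π.symm (Equiv.refl (Fin n))) f = f ∘ π := by
      funext j
      simp
    rw [h5]
    have h6 : (A.submatrix id (f ∘ π)).det = (Equiv.Perm.sign π : ℂ) * (A.submatrix id f).det := by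
      rw [← Matrix.det_permute' π (A.submatrix id f)]
      rfl
    rw [h6, Units.smul_def, zsmul_eq_mul]
    simp only [Function.comp]
    ring
  have h7 : (k.factorial : ℂ) * (A * B).det = ∑ _π : Equiv.Perm (Fin k), (A * B).det := by
    rw [Finset.sum_const, Finset.card_univ, Fintype.card_perm, Fintype.card_fin, nsmul_eq_mul]
  rw [h7, Finset.sum_congr rfl fun π _ => h4 π, Finset.sum_comm]
  refine Finset.sum_congr rfl fun f _ => ?_
  rw [← Finset.mul_sum, Matrix.det_apply (B.submatrix f id)]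
  rfl

theorem det_sub_zero {k n : ℕ} (A : Matrix (Fin k) (Fin n) ℂ) {f : Fin k → Fin n}
    (hf : ¬ Function.Injective f) : (A.submatrix id f).det = 0 := by
  unfold Function.Injective at hf
  push Not at hf
  obtain ⟨i, j, hij, hne⟩ := hf
  refine Matrix.det_zero_of_column_eq hne fun m => ?_
  simp [Matrix.submatrix_apply, hij]

/-- a decreasing nonnegative sequence: products over distinct indices are at most the leading product -/
theorem prod_le_lead {k n : ℕ} (hk : k ≤ n) {b : Fin n → ℝ} (hb : Antitone b) (h0 : ∀ i, 0 ≤ b i)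
    {f : Fin k → Fin n} (hf : Function.Injective f) :
    ∏ j, b (f j) ≤ ∏ j : Fin k, b (Fin.castLE hk j) := by
  have hs : StrictMono (f ∘ Tuple.sort f) :=
    (Tuple.monotone_sort f).strictMono_of_injective (hf.comp (Tuple.sort f).injective)
  have hle : ∀ m (hm : m < k), m ≤ ((f ∘ Tuple.sort f) ⟨m, hm⟩ : ℕ) := by
    intro m
    induction m with
    | zero => intro _; exact Nat.zero_le _
    | succ m ih =>
      intro hm
      have h1 := ih (by omega)
      have h2 : ((f ∘ Tuple.sort f) ⟨m, by omega⟩ : Fin n) < (f ∘ Tuple.sort f) ⟨m + 1, hm⟩ :=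
        hs (by simp [Fin.lt_def])
      have h3 : ((f ∘ Tuple.sort f) ⟨m, by omega⟩ : ℕ) < ((f ∘ Tuple.sort f) ⟨m + 1, hm⟩ : ℕ) := h2
      omega
  rw [← Equiv.prod_comp (Tuple.sort f) fun j => b (f j)]
  refine Finset.prod_le_prod (fun j _ => h0 _) fun j _ => ?_
  apply hb
  rw [Fin.le_def]
  exact hle j.1 j.2

end H5.PK
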