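import Pool.Agent.H5.PK.SvB
import Pool.Agent.H5.PK.CBi

/-! # PK.Mnr : leading minors are bounded by the products of the singular values

`mnr_le`: let `q = k + 1`, `Z = U * dgm b * W`. The leading block of size `q` is `A * diagonal b' * B` with `A : q × n`, `A i j = U i j` for `j < m` and `0` for `j ≥ m`, `b' j = b j` for `j < m` and `0` for `j ≥ m` (antitone, nonnegative), `B : n × q`, `B i j = W i j`. `A * Aᴴ = 1`, `Bᴴ * B = 1`. `cauchy_binet` for `A` and `diagonal b' * B`:
`((diagonal b' * B).submatrix f id).det = (∏ j, b' (f j)) * (B.submatrix f id).det`; only injective `f` count (`det_sub_zero`), there `∏ j, b' (f j) ≤ ∏ j, b' (castLE j)` (`prod_le_lead`) `= ∏ i ≤ k, b i`. So `q! ‖det‖ ≤ (∏ i ≤ k, b i) ∑ f, ‖det A_f‖ ‖det B_f‖ ≤ (∏ ..) √(∑ ‖det A_f‖²) √(∑ ‖det B_f‖²)` (Cauchy-Schwarz),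
and `∑ f, ‖det A_f‖² = q! det (A * Aᴴ) = q!` by `cauchy_binet` for `A`, `Aᴴ` (`det (Aᴴ.submatrix f id) = conj (det (A.submatrix id f))`), the same for `B`. `mnr_dgm`: the block is a diagonal matrix. `mnr_eq`: `m = n`, the minor is `det Z = det U * ∏ b * det W`. -/

namespace H5.PK

/-- the product with the standard instance -/
private theorem entry {m n : ℕ} {Z X : Matrix (Fin m) (Fin n) ℂ} {Y : Matrix (Fin n) (Fin n) ℂ}
    {U : Matrix (Fin m) (Fin m) ℂ} (h : Z = U * X * Y) (i : Fin m) (j : Fin n) :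
    Z i j = ∑ a, U i a * ∑ c, X a c * Y c j := by
  have h1 : Z i j = ∑ c, (∑ a, U i a * X a c) * Y c j := by
    rw [h]
    rfl
  rw [h1]
  simp only [Finset.sum_mul, Finset.mul_sum]
  rw [Finset.sum_comm]
  refine Finset.sum_congr rfl fun a _ => Finset.sum_congr rfl fun c _ => ?_
  ring

private theorem prod_Iic {M : Type*} [CommMonoid M] {m : ℕ} (k : Fin m) (h : (k : ℕ) + 1 ≤ m) (b : Fin m → M) :
    ∏ i ∈ Finset.Iic k, b i = ∏ j : Fin ((k : ℕ) + 1), b (Fin.castLE h j) := by
  have e : Finset.Iic k = Finset.univ.map (Fin.castLEEmb h) := by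
    ext i
    simp only [Finset.mem_Iic, Finset.mem_map, Finset.mem_univ, true_and, Fin.castLEEmb_apply]
    constructor
    · intro hi
      refine ⟨⟨(i : ℕ), Nat.lt_succ_of_le hi⟩, ?_⟩
      ext
      rfl
    · rintro ⟨j, rfl⟩
      exact Fin.le_def.2 (Nat.le_of_lt_succ j.2)
  rw [e, Finset.prod_map]
  rfl

/-- the sum of the squares of the maximal minors of a matrix with orthonormal rows -/
private theorem sum_sq {q n : ℕ} (A : Matrix (Fin q) (Fin n) ℂ) (hA : A * A.conjTranspose = 1) :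
    ∑ f : Fin q → Fin n, ‖(A.submatrix id f).det‖ ^ 2 = (q.factorial : ℝ) := by
  have h := cauchy_binet A A.conjTranspose
  rw [hA, Matrix.det_one, mul_one] at h
  have h2 : ∀ f : Fin q → Fin n, (A.submatrix id f).det * (A.conjTranspose.submatrix f id).det =
      ((‖(A.submatrix id f).det‖ ^ 2 : ℝ) : ℂ) := by
    intro f
    have e : A.conjTranspose.submatrix f id = (A.submatrix id f).conjTranspose := by
      ext i j
      rfl
    rw [e, Matrix.det_conjTranspose, ← starRingEnd_apply, Complex.mul_conj, Complex.normSq_eq_norm_sq]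
  rw [Finset.sum_congr rfl fun f _ => h2 f, ← Complex.ofReal_sum] at h
  exact_mod_cast h.symm

private theorem sum_sq' {q n : ℕ} (B : Matrix (Fin n) (Fin q) ℂ) (hB : B.conjTranspose * B = 1) :
    ∑ f : Fin q → Fin n, ‖(B.submatrix f id).det‖ ^ 2 = (q.factorial : ℝ) := by
  have h := sum_sq B.conjTranspose (by rw [Matrix.conjTranspose_conjTranspose]; exact hB)
  rw [← h]
  refine Finset.sum_congr rfl fun f _ => ?_
  have e : B.conjTranspose.submatrix id f = (B.submatrix f id).conjTranspose := by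
    ext i j
    rfl
  rw [e, Matrix.det_conjTranspose, norm_star]

theorem mnr_le {m n : ℕ} (hmn : m ≤ n) (k : Fin m) {Z : Matrix (Fin m) (Fin n) ℂ}
    {b : Fin m → ℝ} (h : IsSv Z b) : ‖mnr hmn k Z‖ ≤ ∏ i ∈ Finset.Iic k, b i := by
  obtain ⟨hb, h0, U, W, hZ⟩ := h
  have hk : (k : ℕ) + 1 ≤ m := Nat.succ_le_of_lt k.2
  set q := (k : ℕ) + 1 with hq
  set A : Matrix (Fin q) (Fin m) ℂ := (U : Matrix (Fin m) (Fin m) ℂ).submatrix (Fin.castLE hk) id with hA
  set B : Matrix (Fin n) (Fin q) ℂ := (W : Matrix (Fin n) (Fin n) ℂ).submatrix id (Fin.castLE (hk.trans hmn)) with hB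
  set B' : Matrix (Fin m) (Fin q) ℂ := Matrix.of fun a j => (b a : ℂ) * B (Fin.castLE hmn a) j with hB'
  have hAA : A * A.conjTranspose = 1 := by
    have hU : (U : Matrix (Fin m) (Fin m) ℂ) * (U : Matrix (Fin m) (Fin m) ℂ).conjTranspose = 1 :=
      Matrix.mem_unitaryGroup_iff.1 U.2
    ext i j
    have := congrFun (congrFun hU (Fin.castLE hk i)) (Fin.castLE hk j)
    rw [Matrix.mul_apply] at this ⊢
    rw [hA]
    simp only [Matrix.submatrix_apply, id, Matrix.conjTranspose_apply] at this ⊢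
    rw [this]
    simp only [Matrix.one_apply, Fin.castLE_inj]
  have hBB : B.conjTranspose * B = 1 := by
    have hW : (W : Matrix (Fin n) (Fin n) ℂ).conjTranspose * (W : Matrix (Fin n) (Fin n) ℂ) = 1 :=
      Matrix.mem_unitaryGroup_iff'.1 W.2
    ext i j
    have := congrFun (congrFun hW (Fin.castLE (hk.trans hmn) i)) (Fin.castLE (hk.trans hmn) j)
    rw [Matrix.mul_apply] at this ⊢
    rw [hB]
    simp only [Matrix.submatrix_apply, id, Matrix.conjTranspose_apply] at this ⊢
    rw [this]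
    simp only [Matrix.one_apply, Fin.castLE_inj]
  have hdet : mnr hmn k Z = (A * B').det := by
    unfold mnr
    congr 1
    ext i j
    rw [Matrix.submatrix_apply, entry hZ, Matrix.mul_apply]
    refine Finset.sum_congr rfl fun a _ => ?_
    rw [hA, hB', Matrix.submatrix_apply, Matrix.of_apply, id, hB, Matrix.submatrix_apply, id]
    congr 1
    rw [Finset.sum_eq_single (Fin.castLE hmn a)]
    · unfold dgm
      rw [if_pos (by simp)]
    · intro c _ hc
      unfold dgm
      rw [if_neg, zero_mul]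
      intro h1
      apply hc
      ext
      simp [h1]
    · intro h1
      exact absurd (Finset.mem_univ _) h1
  set Pb : ℝ := ∏ j : Fin q, b (Fin.castLE hk j) with hP
  have hP0 : 0 ≤ Pb := Finset.prod_nonneg fun j _ => h0 _
  rw [prod_Iic k hk b, hdet]
  have hcb := cauchy_binet A B'
  have hfac : (0 : ℝ) < (q.factorial : ℝ) := by exact_mod_cast Nat.factorial_pos q
  have hterm : ∀ f : Fin q → Fin m, ‖(A.submatrix id f).det * (B'.submatrix f id).det‖ ≤
      Pb * ((‖(A.submatrix id f).det‖ ^ 2 + ‖(B.submatrix (Fin.castLE hmn ∘ f) id).det‖ ^ 2) / 2) := by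
    intro f
    by_cases hf : Function.Injective f
    · have e : B'.submatrix f id = Matrix.of fun i j => (b (f i) : ℂ) * (B.submatrix (Fin.castLE hmn ∘ f) id) i j := by
        ext i j
        rfl
      rw [e, Matrix.det_mul_column, norm_mul, norm_mul, norm_prod]
      have h1 : ∏ i, ‖((b (f i) : ℝ) : ℂ)‖ = ∏ i, b (f i) := by
        refine Finset.prod_congr rfl fun i _ => ?_
        rw [Complex.norm_real, Real.norm_eq_abs, abs_of_nonneg (h0 _)]
      rw [h1]
      have h2 := prod_le_lead hk hb h0 hf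
      set x := ‖(A.submatrix id f).det‖
      set y := ‖(B.submatrix (Fin.castLE hmn ∘ f) id).det‖
      have hx : 0 ≤ x := norm_nonneg _
      have hy : 0 ≤ y := norm_nonneg _
      calc x * ((∏ i, b (f i)) * y) = (∏ i, b (f i)) * (x * y) := by ring
        _ ≤ Pb * (x * y) := mul_le_mul_of_nonneg_right h2 (mul_nonneg hx hy)
        _ ≤ Pb * ((x ^ 2 + y ^ 2) / 2) := by
            refine mul_le_mul_of_nonneg_left ?_ hP0
            nlinarith [sq_nonneg (x - y)]
    · rw [det_sub_zero A hf, zero_mul, norm_zero]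
      positivity
  have hsum : (q.factorial : ℝ) * ‖(A * B').det‖ ≤ Pb * (q.factorial : ℝ) := by
    have h1 : (q.factorial : ℝ) * ‖(A * B').det‖ = ‖∑ f : Fin q → Fin m, (A.submatrix id f).det * (B'.submatrix f id).det‖ := by
      rw [← hcb, norm_mul]
      congr 1
      exact (Complex.norm_natCast _).symm
    rw [h1]
    refine (norm_sum_le _ _).trans ((Finset.sum_le_sum fun f _ => hterm f).trans ?_)
    rw [← Finset.mul_sum]
    refine mul_le_mul_of_nonneg_left ?_ hP0
    rw [← Finset.sum_div, Finset.sum_add_distrib, sum_sq A hAA]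
    have h2 : ∑ f : Fin q → Fin m, ‖(B.submatrix (Fin.castLE hmn ∘ f) id).det‖ ^ 2 ≤ (q.factorial : ℝ) := by
      rw [← sum_sq' B hBB]
      have hinj : Function.Injective (fun f : Fin q → Fin m => (Fin.castLE hmn ∘ f : Fin q → Fin n)) := by
        intro f g hfg
        funext i
        have := congrFun hfg i
        exact Fin.castLE_injective hmn this
      have e := Finset.sum_map (Finset.univ : Finset (Fin q → Fin m)) ⟨_, hinj⟩
        (fun g : Fin q → Fin n => ‖(B.submatrix g id).det‖ ^ 2)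
      simp only [Function.Embedding.coeFn_mk] at e
      rw [← e]
      exact Finset.sum_le_sum_of_subset_of_nonneg (Finset.subset_univ _) fun g _ _ => by positivity
    linarith
  have h3 : (q.factorial : ℝ) * ‖(A * B').det‖ ≤ (q.factorial : ℝ) * Pb := by linarith
  exact le_of_mul_le_mul_left h3 hfac

theorem mnr_dgm {m n : ℕ} (hmn : m ≤ n) (k : Fin m) (b : Fin m → ℂ) :
    mnr hmn k (dgm b : Matrix (Fin m) (Fin n) ℂ) = ∏ i ∈ Finset.Iic k, b i := by
  have hk : (k : ℕ) + 1 ≤ m := Nat.succ_le_of_lt k.2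
  rw [prod_Iic k hk b]
  unfold mnr
  have e : (dgm b : Matrix (Fin m) (Fin n) ℂ).submatrix (Fin.castLE hk) (Fin.castLE (hk.trans hmn)) =
      Matrix.diagonal fun j => b (Fin.castLE hk j) := by
    ext i j
    rw [Matrix.submatrix_apply, Matrix.diagonal_apply]
    unfold dgm
    by_cases hij : i = j
    · rw [if_pos hij, if_pos (by rw [hij]; simp)]
    · rw [if_neg hij, if_neg]
      intro h1
      apply hij
      ext
      simpa using h1
  rw [e, Matrix.det_diagonal]

theorem mnr_eq {m n : ℕ} (hmn : m ≤ n) (h1 : m = n) (k : Fin m) (hk : (k : ℕ) + 1 = m)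
    {Z : Matrix (Fin m) (Fin n) ℂ} {b : Fin m → ℝ} (h : IsSv Z b) : ‖mnr hmn k Z‖ = ∏ i, b i := by
  subst h1
  obtain ⟨hb, h0, U, W, hZ⟩ := h
  have e1 : mnr hmn k Z = Z.det := by
    unfold mnr
    have e : Z.submatrix (Fin.castLE (Nat.succ_le_of_lt k.2) : Fin ((k : ℕ) + 1) → Fin m)
        (Fin.castLE ((Nat.succ_le_of_lt k.2).trans hmn) : Fin ((k : ℕ) + 1) → Fin m) =
        Z.submatrix (finCongr hk) (finCongr hk) := by
      ext i j
      rfl
    rw [e, Matrix.det_submatrix_equiv_self]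
  have e2 : (dgm (fun i => (b i : ℂ)) : Matrix (Fin m) (Fin m) ℂ) = Matrix.diagonal fun i => (b i : ℂ) := by
    ext i j
    unfold dgm
    rw [Matrix.diagonal_apply]
    by_cases hij : i = j
    · rw [if_pos hij, if_pos (by rw [hij])]
    · rw [if_neg hij, if_neg]
      intro h2
      exact hij (Fin.ext h2)
  have hu : ∀ V : Matrix.unitaryGroup (Fin m) ℂ, ‖(V : Matrix (Fin m) (Fin m) ℂ).det‖ = 1 := by
    intro V
    have h2 := Matrix.det_of_mem_unitary V.2
    have h3 := (Unitary.mem_iff.1 h2).1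
    have h4 := congrArg norm h3
    rw [norm_mul, norm_star, norm_one] at h4
    have h5 : 0 ≤ ‖(V : Matrix (Fin m) (Fin m) ℂ).det‖ := norm_nonneg _
    nlinarith
  have e3 : Z = (U : Matrix (Fin m) (Fin m) ℂ) * (Matrix.diagonal (fun i => (b i : ℂ)) *
      (W : Matrix (Fin m) (Fin m) ℂ)) := by
    ext i j
    rw [entry hZ, e2, Matrix.mul_apply]
    refine Finset.sum_congr rfl fun a _ => ?_
    rw [Matrix.mul_apply]
  rw [e1, e3, Matrix.det_mul, Matrix.det_mul, norm_mul, norm_mul, hu, hu, one_mul, mul_one,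
    Matrix.det_diagonal, norm_prod]
  refine Finset.prod_congr rfl fun i _ => ?_
  rw [Complex.norm_real, Real.norm_eq_abs, abs_of_nonneg (h0 _)]

theorem mnr_diff {m n : ℕ} (hmn : m ≤ n) (k : Fin m) :
    Differentiable ℂ (fun Z : Fin m → Fin n → ℂ => mnr hmn k (Matrix.of Z)) := by
  unfold mnr
  simp only [Matrix.det_apply, Matrix.submatrix_apply, Matrix.of_apply]
  fun_prop

end H5.PK
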