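import Pool.Agent.H5.PK.Lim

/-! # PK.Bsh : from approximate peak functions to a peak function (Bishop) (pure)

A sequence of triples `(k, f, O)`: `k` increases, `f` is the function of `hf` for the error
`(1 / 2) ^ (k + 3)` and the open set `O`, and the earlier functions are at most
`1 + (1 / 2) ^ (k + 3)` on `O ∩ S`. Let `F z = ∑' j, (1 / 2) ^ (j + 1) * f j z`. For `z ∈ S`,
`z ≠ p` let `m` be least with `z ∉ O m`. All `‖f j z‖` are at most `1 + (1 / 2) ^ (m + 2)`, and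
`‖f m z‖ ≤ (1 / 2) ^ (m + 2)`, so `‖F z‖ ≤ 1 + (1 / 2) ^ (m + 2) - (1 / 2) ^ (m + 1) < 1`. -/

namespace H5.PK

open Filter Topology

theorem half_pow_le {a b : ℕ} (h : a ≤ b) : (1 / 2 : ℝ) ^ b ≤ (1 / 2 : ℝ) ^ a :=
  pow_le_pow_of_le_one (by norm_num) (by norm_num) h

theorem hasSum_half : HasSum (fun j : ℕ => (1 / 2 : ℝ) ^ (j + 1)) 1 := by
  have h := (hasSum_geometric_two).mul_left (1 / 2 : ℝ)
  have h1 : (fun j : ℕ => (1 / 2 : ℝ) ^ (j + 1)) = fun j : ℕ => (1 / 2 : ℝ) * (1 / 2 : ℝ) ^ j := by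
    funext j
    rw [pow_succ]
    ring
  rw [h1]
  have h2 : (1 / 2 : ℝ) * 2 = 1 := by norm_num
  rw [h2] at h
  exact h

theorem bishop_seq {V : Type} [NormedAddCommGroup V] [NormedSpace ℂ V] {D S : Set V}
    {p : V} (hp : p ∈ S)
    (hf : ∀ O : Set V, IsOpen O → p ∈ O → ∀ ε : ℝ, 0 < ε → ∃ f : V → ℂ, DifferentiableOn ℂ f D ∧
      ContinuousOn f S ∧ f p = 1 ∧ (∀ z ∈ S, ‖f z‖ ≤ 1 + ε) ∧ ∀ z ∈ S, z ∉ O → ‖f z‖ ≤ ε) :
    ∃ s : ℕ → ℕ × (V → ℂ) × Set V,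
      (∀ n, DifferentiableOn ℂ (s n).2.1 D ∧ ContinuousOn (s n).2.1 S ∧ (s n).2.1 p = 1 ∧
        (∀ z ∈ S, ‖(s n).2.1 z‖ ≤ 1 + (1 / 2 : ℝ) ^ ((s n).1 + 3)) ∧
        (∀ z ∈ S, z ∉ (s n).2.2 → ‖(s n).2.1 z‖ ≤ (1 / 2 : ℝ) ^ ((s n).1 + 3)) ∧
        (∀ z ∈ (s n).2.2, dist z p < 1 / (((s n).1 : ℝ) + 1))) ∧
      ∀ m n, m < n → ((s m).1 < (s n).1 ∧
        ∀ z ∈ S, z ∈ (s n).2.2 → ‖(s m).2.1 z‖ ≤ 1 + (1 / 2 : ℝ) ^ ((s n).1 + 3)) := by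
  classical
  refine exists_seq_of_forall_finset_exists
    (fun x : ℕ × (V → ℂ) × Set V => DifferentiableOn ℂ x.2.1 D ∧ ContinuousOn x.2.1 S ∧
      x.2.1 p = 1 ∧ (∀ z ∈ S, ‖x.2.1 z‖ ≤ 1 + (1 / 2 : ℝ) ^ (x.1 + 3)) ∧
      (∀ z ∈ S, z ∉ x.2.2 → ‖x.2.1 z‖ ≤ (1 / 2 : ℝ) ^ (x.1 + 3)) ∧
      (∀ z ∈ x.2.2, dist z p < 1 / ((x.1 : ℝ) + 1)))
    (fun x y => x.1 < y.1 ∧ ∀ z ∈ S, z ∈ y.2.2 → ‖x.2.1 z‖ ≤ 1 + (1 / 2 : ℝ) ^ (y.1 + 3)) ?_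
  intro s hs
  set k : ℕ := s.sup (fun x => x.1) + 1 with hk
  have hδ : (0 : ℝ) < (1 / 2 : ℝ) ^ (k + 3) := by positivity
  have h1 : ∀ x ∈ s, ∀ᶠ z in 𝓝 p, z ∈ S → ‖x.2.1 z‖ ≤ 1 + (1 / 2 : ℝ) ^ (k + 3) := by
    intro x hx
    have h2 : Tendsto (fun z => ‖x.2.1 z‖) (𝓝[S] p) (𝓝 ‖x.2.1 p‖) :=
      ((hs x hx).2.1 p hp).norm
    have h3 : ‖x.2.1 p‖ < 1 + (1 / 2 : ℝ) ^ (k + 3) := by
      rw [(hs x hx).2.2.1, norm_one]
      linarith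
    have h4 := h2.eventually (gt_mem_nhds h3)
    rw [eventually_nhdsWithin_iff] at h4
    filter_upwards [h4] with z hz hzS
    exact (hz hzS).le
  have h2 : ∀ᶠ z in 𝓝 p, (∀ x ∈ s, z ∈ S → ‖x.2.1 z‖ ≤ 1 + (1 / 2 : ℝ) ^ (k + 3)) ∧
      dist z p < 1 / ((k : ℝ) + 1) := by
    refine ((Filter.eventually_all_finset s).2 h1).and ?_
    exact Metric.ball_mem_nhds p (by positivity)
  obtain ⟨O, hO, hOo, hpO⟩ := mem_nhds_iff.1 h2
  obtain ⟨f, f1, f2, f3, f4, f5⟩ := hf O hOo hpO _ hδ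
  refine ⟨(k, f, O), ⟨f1, f2, f3, f4, f5, fun z hz => (hO hz).2⟩, ?_⟩
  intro x hx
  refine ⟨?_, fun z hzS hz => (hO hz).1 x hx hzS⟩
  have : x.1 ≤ s.sup (fun x => x.1) := Finset.le_sup (f := fun x : ℕ × (V → ℂ) × Set V => x.1) hx
  show x.1 < k
  omega

theorem bishop {V : Type} [NormedAddCommGroup V] [NormedSpace ℂ V] {D S : Set V} (hD : IsOpen D)
    (hDS : D ⊆ S) {p : V} (hp : p ∈ S)
    (hf : ∀ O : Set V, IsOpen O → p ∈ O → ∀ ε : ℝ, 0 < ε → ∃ f : V → ℂ, DifferentiableOn ℂ f D ∧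
      ContinuousOn f S ∧ f p = 1 ∧ (∀ z ∈ S, ‖f z‖ ≤ 1 + ε) ∧ ∀ z ∈ S, z ∉ O → ‖f z‖ ≤ ε) :
    ∃ f : V → ℂ, DifferentiableOn ℂ f D ∧ ContinuousOn f S ∧ f p = 1 ∧
      ∀ z ∈ S, z ≠ p → ‖f z‖ < 1 := by
  classical
  obtain ⟨s, hs, hr⟩ := bishop_seq hp hf
  have hk : ∀ n, n ≤ (s n).1 := by
    intro n
    induction n with
    | zero => exact Nat.zero_le _
    | succ n ih =>
      have := (hr n (n + 1) (Nat.lt_succ_self n)).1
      omega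
  have h2 : ∀ j, ∀ z ∈ S, ‖(s j).2.1 z‖ ≤ 2 := by
    intro j z hz
    have h3 := (hs j).2.2.2.1 z hz
    have h4 : (1 / 2 : ℝ) ^ ((s j).1 + 3) ≤ (1 / 2 : ℝ) ^ 0 := half_pow_le (Nat.zero_le _)
    rw [pow_zero] at h4
    linarith
  refine ⟨fun z => ∑' j, (1 / 2 : ℂ) ^ (j + 1) * (s j).2.1 z,
    lim_diff hD (fun j => (hs j).1) (fun j z hz => h2 j z (hDS hz)),
    lim_cont (fun j => (hs j).2.1) h2, ?_, ?_⟩
  · simp only [(hs _).2.2.1, mul_one]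
    have h3 := hasSum_half
    have h4 : HasSum (fun j : ℕ => (((1 / 2 : ℝ) ^ (j + 1) : ℝ) : ℂ)) ((1 : ℝ) : ℂ) :=
      Complex.hasSum_ofReal.2 h3
    have h5 : (fun j : ℕ => (((1 / 2 : ℝ) ^ (j + 1) : ℝ) : ℂ)) = fun j : ℕ => (1 / 2 : ℂ) ^ (j + 1) := by
      funext j
      push_cast
      rfl
    rw [h5] at h4
    rw [h4.tsum_eq, Complex.ofReal_one]
  · intro z hzS hzp
    have hex : ∃ m, z ∉ (s m).2.2 := by
      by_contra hcon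
      push Not at hcon
      have h3 : 0 < dist z p := dist_pos.2 hzp
      obtain ⟨n, hn⟩ := exists_nat_one_div_lt h3
      have h4 := (hs n).2.2.2.2.2 z (hcon n)
      have h5 : (1 : ℝ) / (((s n).1 : ℝ) + 1) ≤ 1 / ((n : ℝ) + 1) := by
        apply one_div_le_one_div_of_le (by positivity)
        have : (n : ℝ) ≤ (s n).1 := by exact_mod_cast hk n
        linarith
      linarith
    set m := Nat.find hex with hm
    have hzm : z ∉ (s m).2.2 := Nat.find_spec hex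
    set ε : ℝ := (1 / 2) ^ (m + 2) with hε
    have hε0 : 0 < ε := by positivity
    have hb : ∀ j, ‖(s j).2.1 z‖ ≤ 1 + ε := by
      intro j
      rcases Nat.lt_or_ge (j + 1) m with hj | hj
      · have h3 : z ∈ (s (m - 1)).2.2 := by
          by_contra h4
          have := Nat.find_min' hex h4
          omega
        have h4 := (hr j (m - 1) (by omega)).2 z hzS h3
        have h5 : (1 / 2 : ℝ) ^ ((s (m - 1)).1 + 3) ≤ (1 / 2 : ℝ) ^ (m + 2) := by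
          apply half_pow_le
          have := hk (m - 1)
          omega
        linarith
      · have h4 := (hs j).2.2.2.1 z hzS
        have h5 : (1 / 2 : ℝ) ^ ((s j).1 + 3) ≤ (1 / 2 : ℝ) ^ (m + 2) := by
          apply half_pow_le
          have := hk j
          omega
        linarith
    have hbm : ‖(s m).2.1 z‖ ≤ ε := by
      have h4 := (hs m).2.2.2.2.1 z hzS hzm
      have h5 : (1 / 2 : ℝ) ^ ((s m).1 + 3) ≤ (1 / 2 : ℝ) ^ (m + 2) := by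
        apply half_pow_le
        have := hk m
        omega
      linarith
    have hsum1 : HasSum (fun j : ℕ => (1 / 2 : ℝ) ^ (j + 1) * (1 + ε)) (1 * (1 + ε)) :=
      hasSum_half.mul_right _
    have hsum2 : Summable fun j : ℕ => (1 / 2 : ℝ) ^ (j + 1) * ‖(s j).2.1 z‖ := by
      refine Summable.of_nonneg_of_le (fun j => by positivity) (fun j => ?_) hsum1.summable
      exact mul_le_mul_of_nonneg_left (hb j) (by positivity)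
    have hn : ∀ j, ‖(1 / 2 : ℂ) ^ (j + 1) * (s j).2.1 z‖ =
        (1 / 2 : ℝ) ^ (j + 1) * ‖(s j).2.1 z‖ := by
      intro j
      rw [norm_mul, norm_pow]
      norm_num
    have h6 : ‖∑' j, (1 / 2 : ℂ) ^ (j + 1) * (s j).2.1 z‖ ≤
        ∑' j, (1 / 2 : ℝ) ^ (j + 1) * ‖(s j).2.1 z‖ := by
      have := norm_tsum_le_tsum_norm (f := fun j => (1 / 2 : ℂ) ^ (j + 1) * (s j).2.1 z)
        (by simp only [hn]; exact hsum2)
      simpa only [hn] using this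
    have h7 : ∑' j, ((1 / 2 : ℝ) ^ (j + 1) * (1 + ε) - (1 / 2 : ℝ) ^ (j + 1) * ‖(s j).2.1 z‖) =
        (1 + ε) - ∑' j, (1 / 2 : ℝ) ^ (j + 1) * ‖(s j).2.1 z‖ := by
      rw [hsum1.summable.tsum_sub hsum2, hsum1.tsum_eq, one_mul]
    have h8 : (1 / 2 : ℝ) ^ (m + 1) * (1 + ε) - (1 / 2 : ℝ) ^ (m + 1) * ‖(s m).2.1 z‖ ≤
        ∑' j, ((1 / 2 : ℝ) ^ (j + 1) * (1 + ε) - (1 / 2 : ℝ) ^ (j + 1) * ‖(s j).2.1 z‖) := by
      refine (hsum1.summable.sub hsum2).le_tsum m (fun j _ => ?_)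
      have := mul_le_mul_of_nonneg_left (hb j) (by positivity : (0 : ℝ) ≤ (1 / 2 : ℝ) ^ (j + 1))
      linarith
    have h9 : (1 / 2 : ℝ) ^ (m + 1) * ‖(s m).2.1 z‖ ≤ (1 / 2 : ℝ) ^ (m + 1) * ε :=
      mul_le_mul_of_nonneg_left hbm (by positivity)
    have h10 : ε < (1 / 2 : ℝ) ^ (m + 1) := by
      rw [hε, pow_succ (1 / 2 : ℝ) (m + 1)]
      have : (0 : ℝ) < (1 / 2 : ℝ) ^ (m + 1) := by positivity
      linarith
    rw [h7] at h8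
    refine h6.trans_lt ?_
    nlinarith

end H5.PK
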