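import Pool.Agent.H5.PK.Apx
import Pool.Agent.H5.PK.Bsh

/-! # PK.Pk : every boundary point is a peak point if the boundary contains no disc

`peak_dg`: `bishop` with `D = {ρ < 0}`, `S = closure D = {ρ ≤ 0}` (`closure_lt`) and `exists_approx`. `peak`: `p = k (dg (cx a))`, `a = s p` (`F.polar`), `a ∈ Cb`, `ρ (dg (cx a)) = 0` (`s_eq`); if `f` is a peak function at `dg (cx a)` then `f ∘ k'` (`k'` the inverse of `k`, `F.K_inv`) is one at `p` (`inv_lt`, `inv_le`). -/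

namespace H5.PK

variable {V : Type} [NormedAddCommGroup V] [NormedSpace ℂ V] {L : Type} [Fintype L] [DecidableEq L]
variable {r : L → ℕ} {F : Frame V r} {ρ : V → ℝ}

theorem peak_dg [FiniteDimensional ℂ V] (h : PDom F ρ) (hnd : NoDisc ρ) {a : X r}
    (ha : a ∈ Cb F ρ) (hz : ρ (F.dg (cx a)) = 0) : Peak {z | ρ z < 0} (F.dg (cx a)) := by
  have hcl := closure_lt h.smooth h.reg
  have hopen : IsOpen {z | ρ z < 0} := isOpen_lt h.smooth.continuous continuous_const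
  obtain ⟨f, hf1, hf2, hf3, hf4⟩ := bishop (D := {z | ρ z < 0}) (S := {z | ρ z ≤ 0}) hopen
    (fun z (hz : ρ z < 0) => hz.le) (p := F.dg (cx a)) hz.le (fun O hO hp ε hε => by
      obtain ⟨f, h1, h2, h3, h4⟩ := exists_approx h hnd ha hz hO hp hε
      exact ⟨f, fun z (hz : ρ z < 0) => (h1 z hz.le).differentiableWithinAt,
        fun z (hz : ρ z ≤ 0) => (h1 z hz).continuousAt.continuousWithinAt, h2,
        fun z hz => h3 z hz, fun z hz hzO => h4 z hz hzO⟩)
  refine ⟨f, hf1, ?_, hf3, ?_⟩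
  · rw [hcl]; exact hf2
  · rw [hcl]; exact hf4

theorem peak [FiniteDimensional ℂ V] (h : PDom F ρ) (hnd : NoDisc ρ) {p : V} (hp : ρ p = 0) :
    Peak {z | ρ z < 0} p := by
  have hcl := closure_lt h.smooth h.reg
  obtain ⟨k, hk, hpk⟩ := F.polar p
  have hz : ρ (F.dg (cx (F.s p))) = 0 := (h.s_eq p).2 hp
  obtain ⟨f, hf1, hf2, hf3, hf4⟩ := peak_dg h hnd (a := F.s p) ⟨F.s_srt p, hz.le⟩ hz
  obtain ⟨k', hk', h1, h2⟩ := F.K_inv k hk
  rw [hcl] at hf2 hf4
  refine ⟨fun z => f (k' z), ?_, ?_, ?_, ?_⟩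
  · exact hf1.comp k'.differentiable.differentiableOn
      (fun z (hz : ρ z < 0) => (h.inv_lt hk' z).2 hz)
  · rw [hcl]
    exact hf2.comp k'.continuous.continuousOn (fun z (hz : ρ z ≤ 0) => (h.inv_le hk' z).2 hz)
  · have h3 : k' p = F.dg (cx (F.s p)) := (congrArg k' hpk).trans (h1 _)
    show f (k' p) = 1
    rw [h3]
    exact hf3
  · rw [hcl]
    intro z hz hne
    refine hf4 (k' z) ((h.inv_le hk' z).2 hz) (fun h4 => hne ?_)
    rw [← h2 z, h4, ← hpk]

end H5.PK
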