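import Pool.Agent.H5.PK.SvB

/-! # PK.SvC : the singular values depend continuously on the matrix

The graph of `sv` is closed: if `Z_k → Z`, `sv Z_k → b`, then `Z_k = U_k * dgm (sv Z_k) * W_k` (`sv_spec`); the unitary groups are compact (closed and bounded: the entries have absolute value `≤ 1`), pass to a convergent subsequence: `Z = U * dgm b * W`, `b` antitone, `0 ≤ b`, so `b = sv Z` (`sv_eq`).
`sv` is locally bounded (`isSv_frob`: `(sv Z i) ^ 2 ≤ ∑ ∑ ‖Z i j‖ ^ 2`). A locally bounded map into `Fin m → ℝ` (proper space) with closed graph is continuous (sequences: a subsequence of `sv Z_k` converges, its limit is `sv Z`). -/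

namespace H5.PK

open Filter Topology

private theorem unitary_compact (m : ℕ) :
    IsCompact {U : Matrix (Fin m) (Fin m) ℂ | U ∈ Matrix.unitaryGroup (Fin m) ℂ} := by
  have h0 : IsCompact (Set.univ.pi fun _ : Fin m => Set.univ.pi fun _ : Fin m =>
      Metric.closedBall (0 : ℂ) 1) :=
    isCompact_univ_pi fun _ => isCompact_univ_pi fun _ => isCompact_closedBall (0 : ℂ) 1
  refine IsCompact.of_isClosed_subset h0 ?_ ?_
  · have h1 : {U : Matrix (Fin m) (Fin m) ℂ | U ∈ Matrix.unitaryGroup (Fin m) ℂ} =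
        {U : Matrix (Fin m) (Fin m) ℂ | U * star U = 1} := by
      ext U
      exact Matrix.mem_unitaryGroup_iff
    rw [h1]
    have h2 : Continuous fun U : Matrix (Fin m) (Fin m) ℂ => U * star U := by
      simp only [Matrix.star_eq_conjTranspose]
      exact continuous_id.matrix_mul continuous_id.matrix_conjTranspose
    exact isClosed_eq h2 continuous_const
  · intro U hU i _ j _
    rw [mem_closedBall_zero_iff]
    exact entry_norm_bound_of_unitary hU i j

private theorem dgm_continuous {m n : ℕ} :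
    Continuous fun b : Fin m → ℝ => (dgm (fun i => (b i : ℂ)) : Matrix (Fin m) (Fin n) ℂ) := by
  refine continuous_matrix fun i j => ?_
  show Continuous fun b : Fin m → ℝ => if (i : ℕ) = (j : ℕ) then (b i : ℂ) else 0
  split_ifs
  · exact Complex.continuous_ofReal.comp (continuous_apply i)
  · exact continuous_const

private theorem fct (a b : ℕ) : FirstCountableTopology (Matrix (Fin a) (Fin b) ℂ) :=
  inferInstanceAs (FirstCountableTopology (Fin a → Fin b → ℂ))

private theorem frob_bdd {m n : ℕ} (hmn : m ≤ n) {Z : Matrix (Fin m) (Fin n) ℂ}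
    {ns : ℕ → Matrix (Fin m) (Fin n) ℂ} (hns : Tendsto ns atTop (𝓝 Z)) :
    ∃ R : ℝ, ∀ k i, sv (ns k) i ≤ R := by
  have hF : Continuous fun Y : Matrix (Fin m) (Fin n) ℂ => ∑ i, ∑ j, ‖Y i j‖ ^ 2 := by
    refine continuous_finsetSum _ fun i _ => continuous_finsetSum _ fun j _ => ?_
    exact (continuous_id.matrix_elem i j).norm.pow 2
  have hFb : Tendsto (fun k => ∑ i, ∑ j, ‖ns k i j‖ ^ 2) atTop
      (𝓝 (∑ i, ∑ j, ‖Z i j‖ ^ 2)) := (hF.tendsto Z).comp hns
  obtain ⟨R, hR⟩ := hFb.bddAbove_range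
  refine ⟨max R 1, fun k i => ?_⟩
  have h1 : ∑ i, ∑ j, ‖ns k i j‖ ^ 2 ≤ R := hR ⟨k, rfl⟩
  rw [isSv_frob hmn (sv_spec hmn (ns k))] at h1
  have h2 : sv (ns k) i ^ 2 ≤ R := by
    refine le_trans ?_ h1
    exact Finset.single_le_sum (f := fun i => sv (ns k) i ^ 2)
      (fun i _ => sq_nonneg (sv (ns k) i)) (Finset.mem_univ i)
  have h3 : (1 : ℝ) ≤ max R 1 := le_max_right _ _
  have h4 : R ≤ max R 1 := le_max_left _ _
  nlinarith [(sv_spec hmn (ns k)).2.1 i]

private theorem prod_continuous {m n : ℕ} :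
    Continuous fun p : (Fin m → ℝ) × Matrix (Fin m) (Fin m) ℂ × Matrix (Fin n) (Fin n) ℂ =>
      p.2.1 * (dgm (fun i => (p.1 i : ℂ)) : Matrix (Fin m) (Fin n) ℂ) * p.2.2 :=
  ((continuous_fst.comp continuous_snd).matrix_mul
      (dgm_continuous.comp continuous_fst)).matrix_mul (continuous_snd.comp continuous_snd)

private theorem subseq {m n : ℕ} (hmn : m ≤ n) {Z : Matrix (Fin m) (Fin n) ℂ}
    {ns : ℕ → Matrix (Fin m) (Fin n) ℂ} (hns : Tendsto ns atTop (𝓝 Z)) :
    ∃ ms : ℕ → ℕ, Tendsto (fun k => sv (ns (ms k))) atTop (𝓝 (sv Z)) := by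
  have i1 := fct m m
  have i2 := fct n n
  obtain ⟨R, hR⟩ := frob_bdd hmn hns
  choose U W hUW using fun k => (sv_spec hmn (ns k)).2.2
  have hK : IsCompact (Set.Icc (0 : Fin m → ℝ) (fun _ => R) ×ˢ
      ({U : Matrix (Fin m) (Fin m) ℂ | U ∈ Matrix.unitaryGroup (Fin m) ℂ} ×ˢ
        {U : Matrix (Fin n) (Fin n) ℂ | U ∈ Matrix.unitaryGroup (Fin n) ℂ})) :=
    isCompact_Icc.prod ((unitary_compact m).prod (unitary_compact n))
  obtain ⟨⟨b, U0, W0⟩, ha, ms, hms, hlim⟩ := hK.tendsto_subseq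
    (x := fun k => (sv (ns k), ((U k : Matrix (Fin m) (Fin m) ℂ),
      (W k : Matrix (Fin n) (Fin n) ℂ))))
    (fun k => ⟨⟨(sv_spec hmn (ns k)).2.1, fun i => hR k i⟩, (U k).2, (W k).2⟩)
  refine ⟨ms, ?_⟩
  have hb : Tendsto (fun k => sv (ns (ms k))) atTop (𝓝 b) :=
    (continuous_fst.tendsto _).comp hlim
  have hZ : Tendsto (fun k => ns (ms k)) atTop (𝓝 Z) := hns.comp hms.tendsto_atTop
  have hprod := (prod_continuous.tendsto (b, U0, W0)).comp hlim
  have hZeq : Z = U0 * (dgm (fun i => (b i : ℂ)) : Matrix (Fin m) (Fin n) ℂ) * W0 :=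
    tendsto_nhds_unique hZ (hprod.congr fun k => (hUW (ms k)).symm)
  have hsv : IsSv Z b := by
    refine ⟨?_, ha.1.1, ⟨U0, ha.2.1⟩, ⟨W0, ha.2.2⟩, hZeq⟩
    intro i j hij
    have h1 : Tendsto (fun k => sv (ns (ms k)) i) atTop (𝓝 (b i)) :=
      ((continuous_apply i).tendsto _).comp hb
    have h2 : Tendsto (fun k => sv (ns (ms k)) j) atTop (𝓝 (b j)) :=
      ((continuous_apply j).tendsto _).comp hb
    exact le_of_tendsto_of_tendsto' h2 h1 fun k => (sv_spec hmn (ns (ms k))).1 hij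
  rw [sv_eq hmn hsv]
  exact hb

theorem sv_continuous {m n : ℕ} (hmn : m ≤ n) :
    Continuous (sv : Matrix (Fin m) (Fin n) ℂ → Fin m → ℝ) := by
  rw [continuous_iff_continuousAt]
  intro Z
  have i1 := fct m n
  exact tendsto_of_subseq_tendsto fun ns hns => subseq hmn hns

end H5.PK
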