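import Pool.Agent.H5.PK.IGr
import Pool.Agent.H5.PK.IRt
import Pool.Agent.H5.PK.IRu
import Pool.Agent.H5.PK.ISw
import Pool.Agent.H5.PK.IIs
import Pool.Agent.H5.PK.SvC
import Pool.Agent.H5.PK.Mnr
import Pool.Agent.H5.PK.Pk
import Pool.Agent.H5.PK.Cnv

/-! # PK.IFr : the frame of a product of matrix spaces, and the theorem (glue) -/

namespace H5.PK

open scoped Matrix.Norms.Elementwise

variable {L : Type} [Fintype L] [DecidableEq L] {m n : L → ℕ}

/-- the frame of a product of matrix spaces -/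
noncomputable def FM (hmn : ∀ l, m l ≤ n l) : Frame (MV m n) m where
  K := KM m n
  dg := dgL m n
  P := PL hmn
  s := fun Z l => sv (Z l)
  tube := fun l => m l = n l
  d := fun _ => 1
  Δ := fun l k Z => mnr (hmn l) k (Z l)
  P_dg := PL_dgL hmn
  K_inv := M_inv
  s_cont := by
    apply continuous_pi
    intro l
    exact (sv_continuous (hmn l)).comp (continuous_apply l)
  s_srt := fun Z => ⟨fun l i => (sv_spec (hmn l) (Z l)).2.1 i, fun l => (sv_spec (hmn l) (Z l)).1⟩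
  s_K := by
    rintro k ⟨U, W, rfl⟩ Z
    funext l
    exact sv_unitary (hmn l) (Z l) (U l) (W l)
  s_dg := by
    intro b hb
    funext l
    exact sv_dgm (hmn l) (hb.2 l) (hb.1 l)
  polar := by
    intro Z
    choose U W hUW using fun l => (sv_spec (hmn l) (Z l)).2.2
    refine ⟨actL U W, ⟨U, W, rfl⟩, ?_⟩
    funext l
    exact hUW l
  torus := M_torus
  swap := M_swap hmn
  grad := M_grad hmn
  root := M_root hmn
  root' := fun a _ l i hl hi => M_root' hmn a l i hl hi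
  d_pos := fun _ => Nat.one_pos
  Δ_diff := by
    intro l k
    exact (mnr_diff (hmn l) k).comp
      (ContinuousLinearMap.proj (R := ℂ) (φ := fun l => Matrix (Fin (m l)) (Fin (n l)) ℂ) l).differentiable
  Δ_dg := by
    intro l k b
    rw [pow_one]
    exact mnr_dgm (hmn l) k (b l)
  Δ_le := by
    intro l k Z
    rw [pow_one]
    exact mnr_le (hmn l) k (sv_spec (hmn l) (Z l))
  Δ_eq := by
    intro l h1 k hk Z
    rw [pow_one]
    exact mnr_eq (hmn l) h1 k hk (sv_spec (hmn l) (Z l))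
  iso := fun a ha => M_iso hmn a ha

theorem main (hmn : ∀ l, m l ≤ n l) {ρ : MV m n → ℝ}
    (hbd : Bornology.IsBounded {Z | ρ Z < 0}) (hconn : IsConnected {Z | ρ Z < 0})
    (hC : ContDiff ℝ 2 ρ) (hreg : ∀ p, ρ p = 0 → fderiv ℝ ρ p ≠ 0)
    (hlevi : ∀ p, ρ p = 0 → ∀ w : MV m n, fderiv ℝ ρ p w = 0 →
      fderiv ℝ ρ p (Complex.I • w) = 0 →
      0 ≤ iteratedFDeriv ℝ 2 ρ p ![w, w] +
        iteratedFDeriv ℝ 2 ρ p ![Complex.I • w, Complex.I • w])
    (hinv : ∀ (U : UG m) (W : UG n) (Z : MV m n), ρ Z < 0 →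
      ρ (fun l => (U l : Matrix (Fin (m l)) (Fin (m l)) ℂ) * Z l *
        (W l : Matrix (Fin (n l)) (Fin (n l)) ℂ)) < 0) :
    ((∀ p ∈ frontier {Z | ρ Z < 0}, Peak {Z | ρ Z < 0} p) ↔ NoDisc ρ) ∧
    ((∀ p ∈ frontier {Z | ρ Z < 0}, FinType ρ p) →
      ∀ p ∈ frontier {Z | ρ Z < 0}, Peak {Z | ρ Z < 0} p) := by
  have hD : PDom (FM hmn) ρ :=
    { bdd := hbd
      conn := hconn
      smooth := hC
      reg := hreg
      levi := hlevi
      inv := by
        rintro k ⟨U, W, rfl⟩ Z hZ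
        exact hinv U W Z hZ }
  have hfr : frontier {Z | ρ Z < 0} = {Z | ρ Z = 0} := frontier_lt hC hreg
  rw [hfr]
  have h1 : NoDisc ρ → ∀ p ∈ {Z | ρ Z = 0}, Peak {Z | ρ Z < 0} p := by
    intro hnd p hp
    exact peak hD hnd hp
  refine ⟨⟨fun h => noDisc_of_peak hC hreg h, h1⟩, fun h => h1 (noDisc_of_finType h)⟩

end H5.PK
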