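import Pool.Agent.H5.PK.Bas

/-! # PK.Dsc : logarithmic segments in the boundary give analytic discs

Let `γ ζ = dg (fun l i => exp ((T / 2 + ζ) θ l i) * b l i)`, analytic. For `|ζ| < T / 2`, `ζ = τ + η I`: `γ ζ = k (dg (cx (fun l i => exp ((T / 2 + τ) θ l i) * b l i)))` with `k` from `F.torus` (angles `η θ l i`), so `ρ (γ ζ) = 0` (`inv_eq`). `NoDisc`: `γ` is constant near `0`; apply `F.P` (`F.P_dg`):
`exp ((T / 2 + ζ) θ l i) * b l i` is constant near `0`, its derivative at `0` is `θ l i * b l i * exp (T θ l i / 2) = 0`. -/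

namespace H5.PK

variable {V : Type} [NormedAddCommGroup V] [NormedSpace ℂ V] {L : Type} [Fintype L] [DecidableEq L]
variable {r : L → ℕ} {F : Frame V r} {ρ : V → ℝ}

theorem disc_zero (h : PDom F ρ) (hnd : NoDisc ρ) {b θ : X r} {T : ℝ} (hT : 0 < T)
    (hz : ∀ τ ∈ Set.Ioo (0 : ℝ) T, ρ (F.dg (cx (fun l i => Real.exp (τ * θ l i) * b l i))) = 0)
    (l : L) (i : Fin (r l)) : θ l i * b l i = 0 := by
  classical
  set g : ℂ → XC r := fun ζ => fun l i =>
    Complex.exp ((((T / 2 : ℝ) : ℂ) + ζ) * (θ l i : ℂ)) * (b l i : ℂ) with hg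
  have hgd : Differentiable ℂ g := by
    rw [differentiable_pi]
    intro l
    rw [differentiable_pi]
    intro i
    fun_prop
  have hga : AnalyticAt ℂ g 0 := hgd.analyticAt 0
  have hγa : AnalyticAt ℂ (fun ζ => F.dg (g ζ)) 0 :=
    (F.dg.analyticAt (g 0)).comp hga
  have hball : ∀ᶠ t : ℂ in nhds 0, t ∈ Metric.ball (0 : ℂ) (T / 2) :=
    Metric.ball_mem_nhds _ (by positivity)
  have hev : ∀ᶠ t : ℂ in nhds 0, ρ ((fun ζ => F.dg (g ζ)) t) = 0 := by
    filter_upwards [hball] with t ht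
    have hn : ‖t‖ < T / 2 := by simpa [Metric.mem_ball, dist_zero_right] using ht
    have hre : |t.re| < T / 2 := lt_of_le_of_lt (Complex.abs_re_le_norm t) hn
    obtain ⟨h1, h2⟩ := abs_lt.mp hre
    obtain ⟨k, hk, hkt⟩ := F.torus (fun l i => t.im * θ l i)
    have key : F.dg (g t)
        = k (F.dg (cx (fun l i => Real.exp ((T / 2 + t.re) * θ l i) * b l i))) := by
      rw [hkt]
      congr 1
      funext l i
      simp only [hg, cx]
      push_cast
      rw [← mul_assoc, ← Complex.exp_add]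
      congr 2
      conv_lhs => rw [← Complex.re_add_im t]
      push_cast
      ring
    change ρ (F.dg (g t)) = 0
    rw [key, h.inv_eq hk]
    exact hz _ ⟨by linarith, by linarith⟩
  have hc := hnd (fun ζ => F.dg (g ζ)) hγa hev
  have hc2 : ∀ᶠ t : ℂ in nhds 0, g t l i = g 0 l i := by
    filter_upwards [hc] with t ht
    have h3 : F.P (F.dg (g t)) = F.P (F.dg (g 0)) := congrArg F.P ht
    rw [F.P_dg, F.P_dg] at h3
    rw [h3]
  have hd1 : HasDerivAt (fun ζ : ℂ => g ζ l i)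
      (Complex.exp ((((T / 2 : ℝ) : ℂ) + 0) * (θ l i : ℂ)) * (1 * (θ l i : ℂ)) * (b l i : ℂ)) 0 := by
    have e1 : HasDerivAt (fun ζ : ℂ => (((T / 2 : ℝ) : ℂ) + ζ) * (θ l i : ℂ))
        (1 * (θ l i : ℂ)) 0 :=
      ((hasDerivAt_id (0 : ℂ)).const_add _).mul_const _
    exact (e1.cexp).mul_const _
  have hd2 : HasDerivAt (fun ζ : ℂ => g ζ l i) 0 0 :=
    (hasDerivAt_const (0 : ℂ) (g 0 l i)).congr_of_eventuallyEq hc2
  have h4 := hd1.unique hd2
  have h5 : Complex.exp ((((T / 2 : ℝ) : ℂ) + 0) * (θ l i : ℂ)) ≠ 0 := Complex.exp_ne_zero _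
  have h6 : (θ l i : ℂ) * (b l i : ℂ) = 0 := by
    have h7 : Complex.exp ((((T / 2 : ℝ) : ℂ) + 0) * (θ l i : ℂ))
        * ((θ l i : ℂ) * (b l i : ℂ)) = 0 := by
      have h8 := h4
      linear_combination h8
    exact (mul_eq_zero.mp h7).resolve_left h5
  exact_mod_cast h6

end H5.PK
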