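import Pool.Agent.H5.PK.Defs

/-! # PK.Sec : second derivative along a curve

`fderiv ℝ ρ` is `C¹` (`ContDiff.fderiv_right`), `t ↦ fderiv ℝ ρ (c t) (c' t)` is differentiated with the product rule (`HasDerivAt.clm_apply`); `iteratedFDeriv_two_apply`: `iteratedFDeriv ℝ 2 ρ x m = fderiv ℝ (fderiv ℝ ρ) x (m 0) (m 1)`.
`sec_zero`: `ρ ∘ c = 0`, so its derivative `fderiv ℝ ρ (c t) (c' t)` is `0` for all `t`, and the derivative of this function at `0` is `0`. -/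

namespace H5.PK

variable {E : Type} [NormedAddCommGroup E] [NormedSpace ℝ E]

theorem sec_curve {ρ : E → ℝ} (hs : ContDiff ℝ 2 ρ) {c c' : ℝ → E} {c'' : E}
    (h1 : ∀ t, HasDerivAt c (c' t) t) (h2 : HasDerivAt c' c'' 0) :
    HasDerivAt (fun t => fderiv ℝ ρ (c t) (c' t))
      (iteratedFDeriv ℝ 2 ρ (c 0) ![c' 0, c' 0] + fderiv ℝ ρ (c 0) c'') 0 := by
  have hd : ContDiff ℝ 1 (fderiv ℝ ρ) := hs.fderiv_right (by norm_num)
  have h3 : HasFDerivAt (fderiv ℝ ρ) (fderiv ℝ (fderiv ℝ ρ) (c 0)) (c 0) :=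
    ((hd.differentiable (by norm_num)) (c 0)).hasFDerivAt
  have h4 : HasDerivAt (fun t => fderiv ℝ ρ (c t)) (fderiv ℝ (fderiv ℝ ρ) (c 0) (c' 0)) 0 :=
    h3.comp_hasDerivAt (0 : ℝ) (h1 0)
  have h5 := h4.clm_apply h2
  rw [iteratedFDeriv_two_apply]
  simpa using h5

theorem sec_zero {ρ : E → ℝ} (hs : ContDiff ℝ 2 ρ) {c c' : ℝ → E} {c'' : E}
    (h1 : ∀ t, HasDerivAt c (c' t) t) (h2 : HasDerivAt c' c'' 0) (hz : ∀ t, ρ (c t) = 0) :
    fderiv ℝ ρ (c 0) (c' 0) = 0 ∧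
      iteratedFDeriv ℝ 2 ρ (c 0) ![c' 0, c' 0] + fderiv ℝ ρ (c 0) c'' = 0 := by
  have h3 : ∀ t, fderiv ℝ ρ (c t) (c' t) = 0 := by
    intro t
    have h4 : HasFDerivAt ρ (fderiv ℝ ρ (c t)) (c t) :=
      ((hs.differentiable (by norm_num)) (c t)).hasFDerivAt
    have h5 : HasDerivAt (fun t => ρ (c t)) (fderiv ℝ ρ (c t) (c' t)) t := h4.comp_hasDerivAt t (h1 t)
    have h6 : (fun t => ρ (c t)) = fun _ => (0 : ℝ) := funext hz
    rw [h6] at h5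
    exact h5.unique (hasDerivAt_const t (0 : ℝ))
  refine ⟨h3 0, ?_⟩
  have h4 := sec_curve hs h1 h2
  have h6 : (fun t => fderiv ℝ ρ (c t) (c' t)) = fun _ => (0 : ℝ) := funext h3
  rw [h6] at h4
  exact h4.unique (hasDerivAt_const (0 : ℝ) (0 : ℝ))

end H5.PK
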