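import Pool.Agent.H5.PK.Grd
import Pool.Agent.H5.PK.Sec

/-! # PK.Rt : the logarithmic gradient is decreasing in each block

Let `p = dg (cx a)`, `f = fderiv ℝ ρ p`. `rp_nonpos`: let `RP F.K F.P p w`, curves `c₁`, `c₂`: `sec_zero` (`ρ (c t) = 0` by `inv_eq`, `c t = k p`) gives `iteratedFDeriv ℝ 2 ρ p ![x, x] = - f y₁`, `iteratedFDeriv ℝ 2 ρ p ![I x, I x] = - f y₂`;
`f x = f (dg (P x)) = 0`, `f (I x) = 0` (`grd_P`). `h.levi` for `w = x`: `0 ≤ - f (y₁ + y₂) = - f (dg w)` (`grd_P`). `gr_anti`: for `i ≤ j` we have `a l j ≤ a l i`. If `a l j = a l i`: `F.swap` gives an involution `k` with `k p = p`, `k (dg (e1 l i c)) = dg (e1 l j c)`; `sym_eq` gives `gr l j = gr l i`.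
If `a l j < a l i`: `F.root` and `rp_nonpos`: `0 ≤ κ (a l i * gm l i - a l j * gm l j) = κ (gr l i - gr l j)` (`grd_apply`, `gr_eq`). `gr_nontube`: the same with `F.root'` if `0 < a l i`: `0 ≤ κ gm l i`; if `a l i = 0` then `gr l i = 0`. -/

namespace H5.PK

variable {V : Type} [NormedAddCommGroup V] [NormedSpace ℂ V] {L : Type} [Fintype L] [DecidableEq L]
variable {r : L → ℕ} {F : Frame V r} {ρ : V → ℝ}

private theorem cu_zero (h : PDom F ρ) {p : V} (hz : ρ p = 0) {c c' : ℝ → V} {y : V}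
    (hc : Cu F.K p c c' y) : fderiv ℝ ρ p (c' 0) = 0 ∧
      iteratedFDeriv ℝ 2 ρ p ![c' 0, c' 0] + fderiv ℝ ρ p y = 0 := by
  have h1 := sec_zero h.smooth hc.d1 hc.d2 (fun t => by
    obtain ⟨k, hk, hkt⟩ := hc.orb t
    rw [hkt]
    exact (h.inv_eq hk p).2 hz)
  rwa [hc.zero] at h1

theorem rp_nonpos (h : PDom F ρ) {a : X r} (ha : ∀ l i, 0 ≤ a l i) (hz : ρ (F.dg (cx a)) = 0)
    {w : XC r} (hw : RP F.K F.P (F.dg (cx a)) w) : fderiv ℝ ρ (F.dg (cx a)) (F.dg w) ≤ 0 := by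
  obtain ⟨x, c₁, c₁', c₂, c₂', y₁, y₂, -, hc1, hx1, hc2, hx2, hw⟩ := hw
  have h1 := cu_zero h hz hc1
  have h2 := cu_zero h hz hc2
  rw [hx1] at h1
  rw [hx2] at h2
  have h3 := h.levi _ hz x h1.1 h2.1
  have h4 := grd_P h ha hz (y₁ + y₂)
  rw [hw, map_add] at h4
  linarith [h1.2, h2.2]

private theorem grd_real (F : Frame V r) (ρ : V → ℝ) (a : X r) (l : L) (i : Fin (r l)) (c : ℝ) :
    fderiv ℝ ρ (F.dg (cx a)) (F.dg (e1 l i (c : ℂ))) = c * gm F ρ a l i := by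
  have h1 : (e1 l i (c : ℂ) : XC r) = (c : ℂ) • e1 l i 1 := by
    unfold e1
    rw [← Pi.single_smul, ← Pi.single_smul, smul_eq_mul, mul_one]
  rw [h1, map_smul, Complex.coe_smul, map_smul, smul_eq_mul]
  rfl

theorem gr_anti (h : PDom F ρ) {a : X r} (ha : Srt a) (hz : ρ (F.dg (cx a)) = 0) (l : L) :
    Antitone (gr F ρ a l) := by
  intro i j hij
  have h1 : a l j ≤ a l i := ha.2 l hij
  rcases h1.eq_or_lt with h2 | h2
  · obtain ⟨k, hk, hkk, hkp, hkd⟩ := F.swap a l i j h2.symm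
    have h3 := sym_eq h hz hk (fun z => by rw [hkk, hkk]) hkp (F.dg (e1 l i (a l i : ℂ)))
    rw [hkd] at h3
    show fderiv ℝ ρ (F.dg (cx a)) (F.dg (e1 l j (a l j : ℂ))) ≤
      fderiv ℝ ρ (F.dg (cx a)) (F.dg (e1 l i (a l i : ℂ)))
    rw [h2, h3]
  · obtain ⟨κ, hκ, hRP⟩ := F.root a ha.1 l i j h2
    have h3 := rp_nonpos h ha.1 hz hRP
    rw [map_add, map_add, grd_real, grd_real] at h3
    rw [gr_eq, gr_eq]
    have h4 : κ * (a l j * gm F ρ a l j) ≤ κ * (a l i * gm F ρ a l i) := by linarith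
    exact le_of_mul_le_mul_left h4 hκ

theorem gr_nontube (h : PDom F ρ) {a : X r} (ha : ∀ l i, 0 ≤ a l i) (hz : ρ (F.dg (cx a)) = 0)
    {l : L} (hl : ¬ F.tube l) (i : Fin (r l)) : 0 ≤ gr F ρ a l i := by
  rw [gr_eq]
  rcases (ha l i).eq_or_lt with h1 | h1
  · rw [← h1, zero_mul]
  · obtain ⟨κ, hκ, hRP⟩ := F.root' a ha l i hl h1
    have h2 := rp_nonpos h ha hz hRP
    rw [grd_real] at h2
    have h3 : 0 ≤ gm F ρ a l i := by
      by_contra h4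
      push Not at h4
      nlinarith
    exact mul_nonneg h1.le h3

end H5.PK
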