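import Pool.Agent.H5.PK.ClS
import Pool.Agent.H5.PK.Rt

/-! # PK.U0 : the supporting inequality for singular points, and its equality case

`sup_le'`: take `c_k ∈ Co`, `c_k → s` (`exists_Co_near`); `sup_le`: `UU (gr F ρ a) a c_k ≤ 0`; only the `(l, i)` with `gr F ρ a l i ≠ 0` count, there `log (c_k l i) → log (s l i)`. `zero_of_UU`: otherwise `ρ (dg (cx s)) < 0` (`s ∈ Cb`). Let `α = gr F ρ a` (decreasing in each block, `gr_anti`),
`s' = s * exp (ε α)`: sorted, and `ρ (dg (cx s')) ≤ 0` for small `ε > 0` (continuity). `UU α a s' = UU α a s + ε ∑ l, ∑ i, α l i * α l i = ε ∑ ∑ α² > 0` (`gr_ne`; if `α l i = 0` the term is `0`, if `α l i ≠ 0` then `s l i > 0` and `log (s exp (ε α)) = log s + ε α`), against `sup_le'` for `s'`. -/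

namespace H5.PK

variable {V : Type} [NormedAddCommGroup V] [NormedSpace ℂ V] {L : Type} [Fintype L] [DecidableEq L]
variable {r : L → ℕ} {F : Frame V r} {ρ : V → ℝ}

theorem sup_le' (h : PDom F ρ) {a s : X r} (ha : a ∈ Cb F ρ) (hz : ρ (F.dg (cx a)) = 0)
    (hs : s ∈ Cb F ρ) (hpos : ∀ l i, gr F ρ a l i ≠ 0 → 0 < s l i) :
    UU (gr F ρ a) a s ≤ 0 := by
  choose c hc1 hc2 using fun n : ℕ =>
    exists_Co_near h hs (η := 1 / ((n : ℝ) + 1)) (by positivity)
  have hlim : Filter.Tendsto c Filter.atTop (nhds s) := by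
    rw [tendsto_iff_dist_tendsto_zero]
    exact squeeze_zero (fun n => dist_nonneg) (fun n => (hc2 n).le)
      tendsto_one_div_add_atTop_nhds_zero_nat
  have hle : ∀ n, UU (gr F ρ a) a (c n) ≤ 0 := fun n =>
    sup_le h ha hz (Co_sub (hc1 n)) (fun l i _ => (hc1 n).2.1 l i)
  have ht : Filter.Tendsto (fun n => UU (gr F ρ a) a (c n)) Filter.atTop
      (nhds (UU (gr F ρ a) a s)) := by
    unfold UU
    refine tendsto_finsetSum _ fun l _ => tendsto_finsetSum _ fun i _ => ?_
    by_cases h0 : gr F ρ a l i = 0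
    · simp only [h0, zero_mul]
      exact tendsto_const_nhds
    · have h1 : Filter.Tendsto (fun n => c n l i) Filter.atTop (nhds (s l i)) :=
        tendsto_pi_nhds.1 (tendsto_pi_nhds.1 hlim l) i
      exact ((h1.log (hpos l i h0).ne').sub_const _).const_mul _
  exact le_of_tendsto' ht hle

theorem zero_of_UU (h : PDom F ρ) {a s : X r} (ha : a ∈ Cb F ρ) (hz : ρ (F.dg (cx a)) = 0)
    (hs : s ∈ Cb F ρ) (hpos : ∀ l i, gr F ρ a l i ≠ 0 → 0 < s l i)
    (hU : UU (gr F ρ a) a s = 0) : ρ (F.dg (cx s)) = 0 := by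
  by_contra hne
  have hlt : ρ (F.dg (cx s)) < 0 := lt_of_le_of_ne hs.2 hne
  set α : X r := gr F ρ a with hα
  set c : ℝ → X r := fun ε l i => s l i * Real.exp (ε * α l i) with hc
  have hc0 : c 0 = s := by
    funext l i
    simp [hc]
  have hcc : Continuous c := by
    refine continuous_pi fun l => continuous_pi fun i => ?_
    simp only [hc]
    fun_prop
  have hcont : Continuous (fun ε => ρ (F.dg (cx (c ε)))) :=
    h.smooth.continuous.comp (F.dg.continuous.comp (cx_continuous.comp hcc))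
  have hev : ∀ᶠ ε in nhds (0 : ℝ), ρ (F.dg (cx (c ε))) < 0 := by
    refine hcont.continuousAt.eventually_lt_const ?_
    show ρ (F.dg (cx (c 0))) < 0
    rw [hc0]
    exact hlt
  obtain ⟨δ, hδ, hball⟩ := Metric.eventually_nhds_iff.1 hev
  have hε : 0 < δ / 2 := by positivity
  have hlt2 : ρ (F.dg (cx (c (δ / 2)))) < 0 := by
    apply hball
    rw [Real.dist_eq, sub_zero, abs_of_pos hε]
    linarith
  have hsrt : Srt (c (δ / 2)) := by
    refine ⟨fun l i => mul_nonneg (hs.1.1 l i) (Real.exp_pos _).le, fun l i j hij => ?_⟩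
    have h1 : s l j ≤ s l i := hs.1.2 l hij
    have h2 : α l j ≤ α l i := gr_anti h ha.1 hz l hij
    have h3 : Real.exp (δ / 2 * α l j) ≤ Real.exp (δ / 2 * α l i) :=
      Real.exp_le_exp.2 (mul_le_mul_of_nonneg_left h2 hε.le)
    exact mul_le_mul h1 h3 (Real.exp_pos _).le (hs.1.1 l i)
  have hpos2 : ∀ l i, gr F ρ a l i ≠ 0 → 0 < c (δ / 2) l i := fun l i hi =>
    mul_pos (hpos l i hi) (Real.exp_pos _)
  have key := sup_le' h ha hz (s := c (δ / 2)) ⟨hsrt, hlt2.le⟩ hpos2
  have hsum : UU α a (c (δ / 2)) = UU α a s + δ / 2 * ∑ l, ∑ i, α l i * α l i := by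
    unfold UU
    rw [Finset.mul_sum, ← Finset.sum_add_distrib]
    refine Finset.sum_congr rfl fun l _ => ?_
    rw [Finset.mul_sum, ← Finset.sum_add_distrib]
    refine Finset.sum_congr rfl fun i _ => ?_
    by_cases h0 : α l i = 0
    · rw [h0]
      ring
    · have h1 : 0 < s l i := hpos l i h0
      have h2 : Real.log (c (δ / 2) l i) = Real.log (s l i) + δ / 2 * α l i := by
        show Real.log (s l i * Real.exp (δ / 2 * α l i)) = _
        rw [Real.log_mul h1.ne' (Real.exp_pos _).ne', Real.log_exp]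
      rw [h2]
      ring
  obtain ⟨l0, i0, hli⟩ := gr_ne h ha.1.1 hz
  have hsq : ∀ l i, 0 ≤ α l i * α l i := fun l i => mul_self_nonneg _
  have hp : 0 < ∑ l, ∑ i, α l i * α l i := by
    refine Finset.sum_pos' (fun l _ => Finset.sum_nonneg fun i _ => hsq l i)
      ⟨l0, Finset.mem_univ _, ?_⟩
    exact Finset.sum_pos' (fun i _ => hsq l0 i) ⟨i0, Finset.mem_univ _, mul_self_pos.2 hli⟩
  rw [← hα, hsum, hU, zero_add] at key
  have := mul_pos hε hp
  linarith

end H5.PK
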