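import Pool.Agent.H5.PK.LmB
import Pool.Agent.H5.PK.U0
import Pool.Agent.H5.PK.Dsc

/-! # PK.Str : equality in the supporting inequality only at `a` itself

`α = gr F ρ a` (`α l i = 0` if `a l i = 0`, `gr_eq`). (1) `a l i > 0 → s l i > 0`: for `τ > 0` the vector `b_τ` with entries `exp (-τ) a` where `s l i = 0` and `a` elsewhere is in `Cb` (`shrink` with `b = a`, `c = s`); `α = 0` where `s = 0` (`hpos`), so `b_τ > 0` where `α ≠ 0` and `UU α a b_τ = 0`;
`zero_of_UU`: `ρ (dg (cx b_τ)) = 0` for all `τ > 0`. `disc_zero` with `b = a`, `θ = -1` where `s = 0`, `0` elsewhere: `a l i = 0` where `s l i = 0`. (2) `a l i = 0 → s l i = 0`: the same with `shrink` for `b = s`, `c = a`: `UU` does not change since `α = 0` where `a = 0`.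
(3) So `s` and `a` have the same support. Let `θ = log s - log a` on the support, `0` elsewhere. For `0 < τ < 1`: `mx τ a s = a * exp (τ θ) ∈ Cb` (`mx_Cb`), `UU α a (a * exp (τ θ)) = τ UU α a s = 0`, so `ρ = 0` there (`zero_of_UU`). `disc_zero` with `b = a`, `T = 1`: `θ = 0` on the support, `s = a`. -/

namespace H5.PK

variable {V : Type} [NormedAddCommGroup V] [NormedSpace ℂ V] {L : Type} [Fintype L] [DecidableEq L]
variable {r : L → ℕ} {F : Frame V r} {ρ : V → ℝ}

theorem strict (h : PDom F ρ) (hnd : NoDisc ρ) {a s : X r} (ha : a ∈ Cb F ρ)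
    (hz : ρ (F.dg (cx a)) = 0) (hs : s ∈ Cb F ρ) (hpos : ∀ l i, gr F ρ a l i ≠ 0 → 0 < s l i)
    (hU : UU (gr F ρ a) a s = 0) : s = a := by
  classical
  have ha0 : ∀ l i, 0 ≤ a l i := ha.1.1
  have hs0 : ∀ l i, 0 ≤ s l i := hs.1.1
  have hα : ∀ l i, gr F ρ a l i ≠ 0 → 0 < a l i := by
    intro l i h1
    refine (ha0 l i).lt_of_ne fun h2 => h1 ?_
    rw [gr_eq, ← h2, zero_mul]
  -- the support of `a` is in the support of `s`
  have h1 : ∀ l i, s l i = 0 → a l i = 0 := by
    intro l i hi
    have key := disc_zero (b := a) (θ := fun l i => if s l i = 0 then (-1 : ℝ) else 0) h hnd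
      one_pos (fun τ hτ => ?_) l i
    · simp only [hi, if_true] at key
      linarith
    · have e : (fun l i => Real.exp (τ * (if s l i = 0 then (-1 : ℝ) else 0)) * a l i) =
          fun l i => if s l i = 0 then Real.exp (-τ) * a l i else a l i := by
        funext l i
        split_ifs with h3
        · rw [mul_neg_one]
        · rw [mul_zero, Real.exp_zero, one_mul]
      rw [e]
      refine zero_of_UU h ha hz (shrink h ha hs hτ.1.le) ?_ ?_
      · intro l i h3
        have h4 := (hpos l i h3).ne'
        simp only [h4, if_false]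
        exact hα l i h3
      · refine Finset.sum_eq_zero fun l _ => Finset.sum_eq_zero fun i _ => ?_
        by_cases h3 : gr F ρ a l i = 0
        · rw [h3, zero_mul]
        · have h4 := (hpos l i h3).ne'
          simp only [h4, if_false, sub_self, mul_zero]
  have h2 : ∀ l i, a l i = 0 → s l i = 0 := by
    intro l i hi
    have key := disc_zero (b := s) (θ := fun l i => if a l i = 0 then (-1 : ℝ) else 0) h hnd
      one_pos (fun τ hτ => ?_) l i
    · simp only [hi, if_true] at key
      linarith
    · have e : (fun l i => Real.exp (τ * (if a l i = 0 then (-1 : ℝ) else 0)) * s l i) =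
          fun l i => if a l i = 0 then Real.exp (-τ) * s l i else s l i := by
        funext l i
        split_ifs with h3
        · rw [mul_neg_one]
        · rw [mul_zero, Real.exp_zero, one_mul]
      rw [e]
      refine zero_of_UU h ha hz (shrink h hs ha hτ.1.le) ?_ ?_
      · intro l i h3
        have h4 := (hα l i h3).ne'
        simp only [h4, if_false]
        exact hpos l i h3
      · refine Eq.trans ?_ hU
        refine Finset.sum_congr rfl fun l _ => Finset.sum_congr rfl fun i _ => ?_
        by_cases h3 : gr F ρ a l i = 0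
        · rw [h3, zero_mul, zero_mul]
        · have h4 := (hα l i h3).ne'
          simp only [h4, if_false]
  -- the same support
  have h3 : ∀ l i, (if a l i = 0 then 0 else Real.log (s l i) - Real.log (a l i)) * a l i = 0 := by
    intro l i
    refine disc_zero (b := a)
      (θ := fun l i => if a l i = 0 then 0 else Real.log (s l i) - Real.log (a l i)) h hnd
      one_pos (fun τ hτ => ?_) l i
    have hlog : ∀ l i, a l i ≠ 0 → Real.log (Real.exp (τ * (if a l i = 0 then 0 else
        Real.log (s l i) - Real.log (a l i))) * a l i) - Real.log (a l i) =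
        τ * (Real.log (s l i) - Real.log (a l i)) := by
      intro l i h4
      rw [Real.log_mul (Real.exp_ne_zero _) h4, Real.log_exp, if_neg h4]
      ring
    refine zero_of_UU h ha hz ?_ ?_ ?_
    · have e : (fun l i => Real.exp (τ * (if a l i = 0 then 0 else
          Real.log (s l i) - Real.log (a l i))) * a l i) = mx τ a s := by
        funext l i
        unfold mx
        by_cases h4 : a l i = 0
        · rw [if_pos h4, h4, h2 l i h4, mul_zero, Real.zero_rpow (by linarith [hτ.2]), zero_mul]
        · rw [if_neg h4]
          have h5 : 0 < a l i := (ha0 l i).lt_of_ne (Ne.symm h4)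
          have h6 : 0 < s l i := (hs0 l i).lt_of_ne fun h7 => h4 (h1 l i h7.symm)
          rw [Real.rpow_def_of_pos h5, Real.rpow_def_of_pos h6, ← Real.exp_add]
          nth_rewrite 2 [← Real.exp_log h5]
          rw [← Real.exp_add]
          congr 1
          ring
      rw [e]
      exact mx_Cb h ha hs ⟨hτ.1.le, hτ.2.le⟩
    · intro l i h4
      exact mul_pos (Real.exp_pos _) (hα l i h4)
    · have e : UU (gr F ρ a) a (fun l i => Real.exp (τ * (if a l i = 0 then 0 else
          Real.log (s l i) - Real.log (a l i))) * a l i) = τ * UU (gr F ρ a) a s := by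
        unfold UU
        rw [Finset.mul_sum]
        refine Finset.sum_congr rfl fun l _ => ?_
        rw [Finset.mul_sum]
        refine Finset.sum_congr rfl fun i _ => ?_
        by_cases h4 : gr F ρ a l i = 0
        · rw [h4, zero_mul, zero_mul, mul_zero]
        · rw [hlog l i (hα l i h4).ne']
          ring
      rw [e, hU, mul_zero]
  funext l i
  by_cases h4 : a l i = 0
  · rw [h4, h2 l i h4]
  · have h5 : 0 < a l i := (ha0 l i).lt_of_ne (Ne.symm h4)
    have h6 : 0 < s l i := (hs0 l i).lt_of_ne fun h7 => h4 (h1 l i h7.symm)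
    have h7 := h3 l i
    rw [if_neg h4] at h7
    have h8 : Real.log (s l i) = Real.log (a l i) := by
      rcases mul_eq_zero.1 h7 with h8 | h8
      · linarith
      · exact absurd h8 h4
    exact Real.log_injOn_pos h6 h5 h8

end H5.PK
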