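import Pool.Agent.H5.PK.Cmp
import Pool.Agent.H5.PK.U0

/-! # PK.Wt : the weight function

`α = gr F ρ a`; `α l i = 0` if `a l i = 0` (`gr_eq`), so these factors are `1`. If `s ∈ Cb` and `s l i = 0` then `0 ≤ α l i` (`gr_complete`). `wt_cont`: each factor `(s / a) ^ α` is continuous on `Cb`: if `0 ≤ α l i` by `Real.continuous_rpow_const`-type lemmas, if `α l i < 0` then `s l i ≠ 0` on all of `Cb`.
`wt_le_one`: if some `(l, i)` has `α l i ≠ 0`, `s l i = 0` then `wt = 0` (`0 ^ α = 0` for `α > 0`). Otherwise `wt = exp (UU α a s)` (factors with `α l i ≠ 0`: `a l i > 0`, `s l i > 0`, `(s / a) ^ α = exp (α (log s - log a))`), and `sup_le'`. `wt_eq_one`: then `wt ≠ 0`, so the second case, `UU = 0`. `wt_self`: `(a / a) ^ α = 1`, `0 ^ 0 = 1`. -/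

namespace H5.PK

variable {V : Type} [NormedAddCommGroup V] [NormedSpace ℂ V] {L : Type} [Fintype L] [DecidableEq L]
variable {r : L → ℕ} {F : Frame V r} {ρ : V → ℝ}

private lemma alpha_zero (F : Frame V r) (ρ : V → ℝ) {a : X r} {l : L} {i : Fin (r l)}
    (h : gr F ρ a l i ≠ 0) : a l i ≠ 0 := by
  intro h0
  apply h
  rw [gr_eq, h0, zero_mul]

private lemma wt_exp (α : X r) {a s : X r} (hpos : ∀ l i, α l i ≠ 0 → 0 < a l i ∧ 0 < s l i) :
    wt α a s = Real.exp (UU α a s) := by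
  unfold wt UU
  rw [Real.exp_sum]
  refine Finset.prod_congr rfl fun l _ => ?_
  rw [Real.exp_sum]
  refine Finset.prod_congr rfl fun i _ => ?_
  by_cases h0 : α l i = 0
  · rw [h0, Real.rpow_zero, zero_mul, Real.exp_zero]
  · obtain ⟨h1, h2⟩ := hpos l i h0
    rw [Real.rpow_def_of_pos (div_pos h2 h1), Real.log_div h2.ne' h1.ne', mul_comm]

private lemma wt_zero (F : Frame V r) (ρ : V → ℝ) {a s : X r} {l : L} {i : Fin (r l)}
    (h : gr F ρ a l i ≠ 0) (hs : s l i = 0) : wt (gr F ρ a) a s = 0 := by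
  unfold wt
  refine Finset.prod_eq_zero (Finset.mem_univ l) ?_
  refine Finset.prod_eq_zero (Finset.mem_univ i) ?_
  rw [hs, zero_div, Real.zero_rpow h]

private lemma wt_cases (F : Frame V r) (ρ : V → ℝ) {a s : X r} (ha : a ∈ Cb F ρ)
    (hs : s ∈ Cb F ρ) :
    wt (gr F ρ a) a s = 0 ∨ ((∀ l i, gr F ρ a l i ≠ 0 → 0 < s l i) ∧
      wt (gr F ρ a) a s = Real.exp (UU (gr F ρ a) a s)) := by
  by_cases hex : ∃ l i, gr F ρ a l i ≠ 0 ∧ s l i = 0
  · obtain ⟨l, i, h1, h2⟩ := hex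
    exact Or.inl (wt_zero F ρ h1 h2)
  · right
    push Not at hex
    have hp : ∀ l i, gr F ρ a l i ≠ 0 → 0 < s l i := fun l i h =>
      lt_of_le_of_ne (hs.1.1 l i) (Ne.symm (hex l i h))
    refine ⟨hp, wt_exp _ fun l i h => ⟨?_, hp l i h⟩⟩
    exact lt_of_le_of_ne (ha.1.1 l i) (Ne.symm (alpha_zero F ρ h))

theorem wt_cont (h : PDom F ρ) {a : X r} (ha : a ∈ Cb F ρ) (hz : ρ (F.dg (cx a)) = 0) :
    ContinuousOn (wt (gr F ρ a) a) (Cb F ρ) := by
  unfold wt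
  refine continuousOn_finsetProd _ fun l _ => ?_
  refine continuousOn_finsetProd _ fun i _ => ?_
  have hc : ContinuousOn (fun s : X r => s l i / a l i) (Cb F ρ) := by
    apply Continuous.continuousOn
    exact ((continuous_apply i).comp (continuous_apply l)).div_const _
  refine hc.rpow_const fun s hs => ?_
  by_cases h0 : 0 ≤ gr F ρ a l i
  · exact Or.inr h0
  · left
    have h1 : a l i ≠ 0 := alpha_zero F ρ (ne_of_lt (not_le.mp h0))
    have h2 : s l i ≠ 0 := fun h3 => h0 (gr_complete h ha hz hs h3 i)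
    exact div_ne_zero h2 h1

theorem wt_nonneg (α : X r) {a s : X r} (ha : ∀ l i, 0 ≤ a l i) (hs : ∀ l i, 0 ≤ s l i) :
    0 ≤ wt α a s := by
  unfold wt
  exact Finset.prod_nonneg fun l _ => Finset.prod_nonneg fun i _ =>
    Real.rpow_nonneg (div_nonneg (hs l i) (ha l i)) _

theorem wt_le_one (h : PDom F ρ) {a s : X r} (ha : a ∈ Cb F ρ) (hz : ρ (F.dg (cx a)) = 0)
    (hs : s ∈ Cb F ρ) : wt (gr F ρ a) a s ≤ 1 := by
  rcases wt_cases F ρ ha hs with h1 | ⟨h1, h2⟩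
  · rw [h1]; exact zero_le_one
  · rw [h2]
    exact Real.exp_le_one_iff.mpr (sup_le' h ha hz hs h1)

theorem wt_eq_one (h : PDom F ρ) {a s : X r} (ha : a ∈ Cb F ρ) (hz : ρ (F.dg (cx a)) = 0)
    (hs : s ∈ Cb F ρ) (hw : wt (gr F ρ a) a s = 1) :
    (∀ l i, gr F ρ a l i ≠ 0 → 0 < s l i) ∧ UU (gr F ρ a) a s = 0 := by
  rcases wt_cases F ρ ha hs with h1 | ⟨h1, h2⟩
  · rw [h1] at hw
    exact absurd hw zero_ne_one
  · rw [h2] at hw
    exact ⟨h1, Real.exp_eq_one_iff _ |>.mp hw⟩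

theorem wt_self (F : Frame V r) (ρ : V → ℝ) (a : X r) : wt (gr F ρ a) a a = 1 := by
  unfold wt
  refine Finset.prod_eq_one fun l _ => Finset.prod_eq_one fun i _ => ?_
  by_cases h0 : a l i = 0
  · rw [gr_eq, h0, zero_mul, Real.rpow_zero]
  · rw [div_self h0, Real.one_rpow]

end H5.PK
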