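import Pool.Agent.H5.PK.Gn
import Pool.Agent.H5.PK.Wt
import Pool.Agent.H5.PK.Str

/-! # PK.Apx : approximate peak functions at a diagonal boundary point

Let `S = {z | ρ z ≤ 0}` (compact, `PDom.compact`), `p = dg (cx a)`, `q = ∑ a²` (`q ≠ 0` since `a ≠ 0`: `gr_ne`, `gr_eq`), `φ` from `F.iso a`, `g z = (1 + φ z / q) / 2`, `W z = wt (gr F ρ a) a (s z)`, `m z = ∏ max 1 ((s z / a) ^ d)` (where `a = 0`: `s / 0 = 0`, `0 ^ d = 0` since `d > 0`, `max 1 0 = 1`; for `s z = a`: `m z = 1`). `W` and `m` are continuous on `S` (`wt_cont`, `F.s_cont`, `s_le`), `0 ≤ W ≤ 1`.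
If `z ∈ S`, `W z = 1` then `s z = a` (`wt_eq_one`, `strict`), `m z = 1`, `‖g z‖ ≤ 1`, and `‖g z‖ = 1` only for `z = p` (`‖1 + u‖ = 2`, `‖u‖ ≤ 1` gives `u = 1`). The set `C = {z ∈ S | W z = 1} \ O` is compact and `‖g‖ < 1` on it: there is `M` with `‖g‖ ^ M < ε` on `C`. Let `O'` be the set of `z ∈ S` with
`m z * ‖g z‖ ^ M < 1 + ε` and (`z ∈ O` or `m z * ‖g z‖ ^ M < ε`): relatively open in `S`, it contains `{W = 1}`. On the compact set `S \ O'` we have `W ≤ q' < 1`, so `W ^ N * m * ‖g‖ ^ M ≤ ε` there for large `N`. Take `f = G * g ^ M` with `G` from `exists_G` for this `N`. -/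

namespace H5.PK

variable {V : Type} [NormedAddCommGroup V] [NormedSpace ℂ V] {L : Type} [Fintype L] [DecidableEq L]
variable {r : L → ℕ} {F : Frame V r} {ρ : V → ℝ}

/-- powers of a weight `W ≤ 1` make a bounded function small away from `W = 1` -/
private lemma pow_small {E : Type} [TopologicalSpace E] [T2Space E] {S : Set E} (hS : IsCompact S)
    {W h : E → ℝ} (hW : ContinuousOn W S) (hh : ContinuousOn h S) (W0 : ∀ z ∈ S, 0 ≤ W z)
    (W1 : ∀ z ∈ S, W z ≤ 1) (h0 : ∀ z ∈ S, 0 ≤ h z) {c : ℝ} (hc : 0 < c)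
    (H : ∀ z ∈ S, W z = 1 → h z < c) : ∃ N₀ : ℕ, ∀ N ≥ N₀, ∀ z ∈ S, W z ^ N * h z ≤ c := by
  have hBc : IsClosed (S ∩ h ⁻¹' (Set.Ici c)) :=
    hh.preimage_isClosed_of_isClosed hS.isClosed isClosed_Ici
  have hB : IsCompact (S ∩ h ⁻¹' (Set.Ici c)) :=
    hS.of_isClosed_subset hBc Set.inter_subset_left
  have key : ∀ N : ℕ, ∀ z ∈ S, z ∉ S ∩ h ⁻¹' (Set.Ici c) → W z ^ N * h z ≤ c := by
    intro N z hz hzB
    have h1 : h z < c := by
      by_contra h2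
      exact hzB ⟨hz, not_lt.mp h2⟩
    calc W z ^ N * h z ≤ 1 * h z :=
          mul_le_mul_of_nonneg_right (pow_le_one₀ (W0 z hz) (W1 z hz)) (h0 z hz)
      _ ≤ c := by rw [one_mul]; exact h1.le
  rcases Set.eq_empty_or_nonempty (S ∩ h ⁻¹' (Set.Ici c)) with hE | hE
  · refine ⟨0, fun N _ z hz => key N z hz ?_⟩
    rw [hE]
    exact Set.notMem_empty z
  · obtain ⟨z0, hz0, hmax⟩ := hB.exists_isMaxOn hE (hW.mono Set.inter_subset_left)
    obtain ⟨z1, hz1, hmax1⟩ := hS.exists_isMaxOn (hE.mono Set.inter_subset_left) hh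
    have hw : W z0 < 1 := by
      refine lt_of_le_of_ne (W1 z0 hz0.1) fun h1 => ?_
      exact absurd (H z0 hz0.1 h1) (not_lt.mpr hz0.2)
    have hH : 0 < h z1 := lt_of_lt_of_le (lt_of_lt_of_le hc hz0.2) (hmax1 hz0.1)
    obtain ⟨N₀, hN₀⟩ := exists_pow_lt_of_lt_one (div_pos hc hH) hw
    refine ⟨N₀, fun N hN z hz => ?_⟩
    by_cases hzB : z ∈ S ∩ h ⁻¹' (Set.Ici c)
    · have h1 : W z ^ N ≤ W z0 ^ N₀ :=
        calc W z ^ N ≤ W z0 ^ N := pow_le_pow_left₀ (W0 z hz) (hmax hzB) N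
          _ ≤ W z0 ^ N₀ := pow_le_pow_of_le_one (W0 z0 hz0.1) hw.le hN
      calc W z ^ N * h z ≤ W z0 ^ N₀ * h z1 :=
            mul_le_mul h1 (hmax1 hz) (h0 z hz) (pow_nonneg (W0 z0 hz0.1) _)
        _ ≤ c / h z1 * h z1 := mul_le_mul_of_nonneg_right hN₀.le hH.le
        _ = c := div_mul_cancel₀ c hH.ne'
    · exact key N z hz hzB

private lemma half_norm {u : ℂ} (hu : ‖u‖ ≤ 1) : ‖(1 + u) / 2‖ ≤ 1 := by
  rw [norm_div, Complex.norm_ofNat, div_le_one (by norm_num)]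
  calc ‖1 + u‖ ≤ ‖(1 : ℂ)‖ + ‖u‖ := norm_add_le _ _
    _ ≤ 2 := by rw [norm_one]; linarith

private lemma half_eq {u : ℂ} (hu : ‖u‖ ≤ 1) (h : ‖(1 + u) / 2‖ = 1) : u = 1 := by
  rw [norm_div, Complex.norm_ofNat, div_eq_one_iff_eq (by norm_num)] at h
  have h1 : ‖1 + u‖ ^ 2 = 4 := by rw [h]; norm_num
  have h2 : ‖u‖ ^ 2 ≤ 1 := pow_le_one₀ (norm_nonneg _) hu
  rw [Complex.sq_norm, Complex.normSq_apply] at h1 h2
  simp only [Complex.add_re, Complex.add_im, Complex.one_re, Complex.one_im] at h1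
  have h3 : 1 ≤ u.re := by nlinarith
  have h4 : u.im = 0 := by
    have : u.im * u.im ≤ 0 := by nlinarith
    exact mul_self_eq_zero.mp (le_antisymm this (mul_self_nonneg _))
  have h5 : u.re ≤ 1 := by nlinarith
  exact Complex.ext (le_antisymm h5 h3) h4

theorem exists_approx [FiniteDimensional ℂ V] (h : PDom F ρ) (hnd : NoDisc ρ) {a : X r}
    (ha : a ∈ Cb F ρ) (hz : ρ (F.dg (cx a)) = 0) {O : Set V} (hO : IsOpen O)
    (hp : F.dg (cx a) ∈ O) {ε : ℝ} (hε : 0 < ε) :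
    ∃ f : V → ℂ, (∀ z, ρ z ≤ 0 → DifferentiableAt ℂ f z) ∧ f (F.dg (cx a)) = 1 ∧
      (∀ z, ρ z ≤ 0 → ‖f z‖ ≤ 1 + ε) ∧ ∀ z, ρ z ≤ 0 → z ∉ O → ‖f z‖ ≤ ε := by
  classical
  set S : Set V := {z | ρ z ≤ 0} with hSdef
  have hS : IsCompact S := h.compact
  set p : V := F.dg (cx a) with hpdef
  have hpS : p ∈ S := le_of_eq hz
  set q : ℝ := ∑ l, ∑ i, a l i ^ 2 with hqdef
  have hq : 0 < q := by
    obtain ⟨l, i, hli⟩ := gr_ne h ha.1.1 hz
    have hali : a l i ≠ 0 := by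
      intro h0
      apply hli
      rw [gr_eq, h0, zero_mul]
    have h1 : ∀ l, 0 ≤ ∑ i, a l i ^ 2 := fun l => Finset.sum_nonneg fun i _ => sq_nonneg _
    have h2 : 0 < ∑ i, a l i ^ 2 :=
      Finset.sum_pos' (fun i _ => sq_nonneg _) ⟨i, Finset.mem_univ i, by positivity⟩
    exact Finset.sum_pos' (fun l _ => h1 l) ⟨l, Finset.mem_univ l, h2⟩
  have hqc : (q : ℂ) ≠ 0 := Complex.ofReal_ne_zero.mpr hq.ne'
  obtain ⟨φ, hφp, hφ⟩ := F.iso a ha.1
  set g : V → ℂ := fun z => (1 + φ z / (q : ℂ)) / 2 with hgdef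
  have hgd : Differentiable ℂ g := by
    have h1 : Differentiable ℂ (fun z => φ z) := φ.differentiable
    have h2 : Differentiable ℂ (fun z => φ z * (q : ℂ)⁻¹) := h1.mul_const _
    have h3 : Differentiable ℂ (fun z => (1 + φ z * (q : ℂ)⁻¹) * (2 : ℂ)⁻¹) :=
      ((differentiable_const (1 : ℂ)).add h2).mul_const _
    simpa only [hgdef, div_eq_mul_inv] using h3
  have hgp : g p = 1 := by
    show (1 + φ p / (q : ℂ)) / 2 = 1
    have h1 : φ p = (q : ℂ) := hφp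
    rw [h1, div_self hqc]
    norm_num
  have hu : ∀ z, F.s z = a → ‖φ z / (q : ℂ)‖ ≤ 1 := by
    intro z hsz
    rw [norm_div, Complex.norm_real, Real.norm_of_nonneg hq.le, div_le_one hq]
    exact (hφ z hsz).1
  have hg1 : ∀ z, F.s z = a → ‖g z‖ ≤ 1 := fun z hsz => half_norm (hu z hsz)
  have hg2 : ∀ z, F.s z = a → ‖g z‖ = 1 → z = p := by
    intro z hsz h1
    have h2 : φ z / (q : ℂ) = 1 := half_eq (hu z hsz) h1
    rw [div_eq_one_iff_eq hqc] at h2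
    exact (hφ z hsz).2 h2
  set W : V → ℝ := fun z => wt (gr F ρ a) a (F.s z) with hWdef
  set m : V → ℝ := fun z => ∏ l, ∏ i, max 1 ((F.s z l i / a l i) ^ (F.d l)) with hmdef
  have hsS : ∀ z ∈ S, F.s z ∈ Cb F ρ := fun z hzS => ⟨F.s_srt z, (h.s_le z).mpr hzS⟩
  have hWc : ContinuousOn W S :=
    (wt_cont h ha hz).comp F.s_cont.continuousOn hsS
  have hmc : Continuous m := by
    refine continuous_finsetProd _ fun l _ => continuous_finsetProd _ fun i _ => ?_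
    refine continuous_const.max ?_
    have h1 : Continuous (fun z => F.s z l i) :=
      (continuous_apply i).comp ((continuous_apply l).comp F.s_cont)
    exact (h1.div_const _).pow _
  have hm0 : ∀ z, 0 ≤ m z := fun z => Finset.prod_nonneg fun l _ => Finset.prod_nonneg fun i _ =>
    le_trans zero_le_one (le_max_left _ _)
  have hW0 : ∀ z ∈ S, 0 ≤ W z := fun z _ => wt_nonneg _ ha.1.1 (F.s_srt z).1
  have hW1 : ∀ z ∈ S, W z ≤ 1 := fun z hzS => wt_le_one h ha hz (hsS z hzS)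
  have hWs : ∀ z ∈ S, W z = 1 → F.s z = a := by
    intro z hzS h1
    obtain ⟨h2, h3⟩ := wt_eq_one h ha hz (hsS z hzS) h1
    exact strict h hnd ha hz (hsS z hzS) h2 h3
  have hm1 : ∀ z, F.s z = a → m z = 1 := by
    intro z hsz
    refine Finset.prod_eq_one fun l _ => Finset.prod_eq_one fun i _ => ?_
    rw [hsz]
    refine max_eq_left ?_
    by_cases h0 : a l i = 0
    · rw [h0, div_zero, zero_pow (F.d_pos l).ne']
      exact zero_le_one
    · rw [div_self h0, one_pow]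
  -- choice of M
  have hWcl : IsClosed (S ∩ W ⁻¹' {1}) :=
    hWc.preimage_isClosed_of_isClosed hS.isClosed isClosed_singleton
  have hC : IsCompact ((S ∩ W ⁻¹' {1}) \ O) :=
    (hS.of_isClosed_subset hWcl Set.inter_subset_left).diff hO
  obtain ⟨M, hM⟩ := pow_small hC (W := fun z => ‖g z‖) (h := fun _ => (1 : ℝ))
    hgd.continuous.norm.continuousOn continuousOn_const (fun z _ => norm_nonneg _)
    (fun z hzC => hg1 z (hWs z hzC.1.1 hzC.1.2)) (fun _ _ => zero_le_one) (half_pos hε)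
    (by
      intro z hzC h1
      have h2 : z = p := hg2 z (hWs z hzC.1.1 hzC.1.2) h1
      exact absurd (h2 ▸ hp) hzC.2)
  have hMC : ∀ z ∈ S, W z = 1 → z ∉ O → ‖g z‖ ^ M ≤ ε / 2 := by
    intro z hzS h1 hzO
    have := hM M le_rfl z ⟨⟨hzS, h1⟩, hzO⟩
    simpa using this
  set k : V → ℝ := fun z => m z * ‖g z‖ ^ M with hkdef
  have hkc : Continuous k := hmc.mul (hgd.continuous.norm.pow M)
  have hk0 : ∀ z, 0 ≤ k z := fun z => mul_nonneg (hm0 z) (pow_nonneg (norm_nonneg _) _)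
  obtain ⟨N₁, hN₁⟩ := pow_small hS hWc hkc.continuousOn hW0 hW1 (fun z _ => hk0 z)
    (c := 1 + ε) (by linarith)
    (by
      intro z hzS h1
      have hsz := hWs z hzS h1
      have h2 : k z ≤ 1 := by
        show m z * ‖g z‖ ^ M ≤ 1
        rw [hm1 z hsz, one_mul]
        exact pow_le_one₀ (norm_nonneg _) (hg1 z hsz)
      linarith)
  obtain ⟨N₂, hN₂⟩ := pow_small (hS.diff hO) (hWc.mono Set.sdiff_subset) hkc.continuousOn
    (fun z hz => hW0 z hz.1) (fun z hz => hW1 z hz.1) (fun z _ => hk0 z) (c := ε) hε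
    (by
      intro z hzS h1
      have hsz := hWs z hzS.1 h1
      have h2 : k z ≤ ε / 2 := by
        show m z * ‖g z‖ ^ M ≤ ε / 2
        rw [hm1 z hsz, one_mul]
        exact hMC z hzS.1 h1 hzS.2
      linarith)
  obtain ⟨G, hGd, hGp, hG⟩ := exists_G h ha hz (max N₁ N₂)
  have hle : ∀ z ∈ S, ‖G z * g z ^ M‖ ≤ W z ^ (max N₁ N₂) * k z := by
    intro z hzS
    rw [norm_mul, norm_pow]
    calc ‖G z‖ * ‖g z‖ ^ M ≤ (W z ^ (max N₁ N₂) * m z) * ‖g z‖ ^ M :=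
          mul_le_mul_of_nonneg_right (hG z hzS) (pow_nonneg (norm_nonneg _) _)
      _ = W z ^ (max N₁ N₂) * k z := by rw [mul_assoc]
  refine ⟨fun z => G z * g z ^ M, ?_, ?_, ?_, ?_⟩
  · intro z hzS
    exact (hGd z hzS).mul ((hgd z).pow M)
  · show G p * g p ^ M = 1
    rw [hgp, one_pow, mul_one]
    exact hGp
  · intro z hzS
    exact (hle z hzS).trans (hN₁ _ (le_max_left _ _) z hzS)
  · intro z hzS hzO
    exact (hle z hzS).trans (hN₂ _ (le_max_right _ _) z ⟨hzS, hzO⟩)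

end H5.PK
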