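import Pool.Agent.H5.PK.Defs

/-! # PK.Bas : closure, boundary and invariance of the domain

`closure_lt`: closure of `ρ < 0` is in `ρ ≤ 0` (continuity). If `ρ p = 0` there is `v` with `fderiv ℝ ρ p v < 0` (the derivative is not zero; replace `v` by `-v`), so `ρ (p + t v) < 0` for small `t > 0`
(derivative of `t ↦ ρ (p + t v)`), so `p` is in the closure. `frontier_lt`: the set `ρ < 0` is open, `frontier = closure \ interior`. `inv_lt`: `h.inv` and `F.K_inv` (inverse `k'`: `z = k' (k z)`).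
`inv_le`: `k` is continuous and maps `ρ < 0` to itself, so it maps the closure to the closure; the same for the inverse. `inv_eq`: from `inv_lt`, `inv_le`.
`compact`: closed (continuity of `ρ`), bounded since it is the closure of a bounded set; `V` is a proper space (`FiniteDimensional.proper ℂ V`). `s_lt` etc.: `F.polar z`. -/

namespace H5.PK

variable {V : Type} [NormedAddCommGroup V] [NormedSpace ℂ V] {L : Type} [Fintype L] [DecidableEq L]
variable {r : L → ℕ} {F : Frame V r} {ρ : V → ℝ}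

open Filter Topology in
private theorem mem_closure_of_zero {E : Type} [NormedAddCommGroup E] [NormedSpace ℝ E] {ρ : E → ℝ}
    (hs : ContDiff ℝ 2 ρ) {p v : E} (hp : ρ p = 0) (hv : fderiv ℝ ρ p v < 0) :
    p ∈ closure {z | ρ z < 0} := by
  have hd : HasFDerivAt ρ (fderiv ℝ ρ p) p := (hs.differentiable (by norm_num) p).hasFDerivAt
  have h1 : HasDerivAt (fun t : ℝ => p + t • v) v 0 := by
    have h2 := ((hasDerivAt_id (0 : ℝ)).smul_const v).const_add p
    rw [one_smul] at h2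
    exact h2
  have hd' : HasFDerivAt ρ (fderiv ℝ ρ p) (p + (0 : ℝ) • v) := by
    rw [zero_smul, add_zero]
    exact hd
  have h3 : HasDerivAt (fun t : ℝ => ρ (p + t • v)) (fderiv ℝ ρ p v) 0 := hd'.comp_hasDerivAt (0 : ℝ) h1
  have h4 : ∀ᶠ t in 𝓝[≠] (0 : ℝ), slope (fun t : ℝ => ρ (p + t • v)) 0 t < 0 :=
    (hasDerivAt_iff_tendsto_slope.1 h3).eventually (gt_mem_nhds hv)
  have h5 : ∀ᶠ t in 𝓝[>] (0 : ℝ), slope (fun t : ℝ => ρ (p + t • v)) 0 t < 0 :=
    h4.filter_mono (nhdsWithin_mono _ (fun t ht => ne_of_gt ht))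
  have h6 : ∀ᶠ t in 𝓝[>] (0 : ℝ), p + t • v ∈ {z | ρ z < 0} := by
    filter_upwards [h5, self_mem_nhdsWithin] with t ht ht0
    have ht0' : (0 : ℝ) < t := ht0
    rw [slope_def_field, zero_smul, add_zero, hp, sub_zero, sub_zero, div_lt_iff₀ ht0', zero_mul] at ht
    exact ht
  have h7 : Tendsto (fun t : ℝ => p + t • v) (𝓝[>] (0 : ℝ)) (𝓝 p) := by
    have h8 : Tendsto (fun t : ℝ => p + t • v) (𝓝 (0 : ℝ)) (𝓝 (p + (0 : ℝ) • v)) := h1.continuousAt
    rw [zero_smul, add_zero] at h8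
    exact h8.mono_left nhdsWithin_le_nhds
  exact mem_closure_of_tendsto h7 h6

theorem closure_lt {E : Type} [NormedAddCommGroup E] [NormedSpace ℝ E] {ρ : E → ℝ}
    (hs : ContDiff ℝ 2 ρ) (hr : ∀ p, ρ p = 0 → fderiv ℝ ρ p ≠ 0) :
    closure {z | ρ z < 0} = {z | ρ z ≤ 0} := by
  refine Set.Subset.antisymm ?_ ?_
  · exact closure_minimal (fun z hz => show ρ z ≤ 0 from le_of_lt (show ρ z < 0 from hz)) (isClosed_le hs.continuous continuous_const)
  · intro p hp
    rcases lt_or_eq_of_le (show ρ p ≤ 0 from hp) with h | h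
    · exact subset_closure h
    · have h1 : ∃ v, fderiv ℝ ρ p v ≠ 0 := by
        by_contra hcon
        push Not at hcon
        exact hr p h (ContinuousLinearMap.ext hcon)
      obtain ⟨v, hv⟩ := h1
      rcases lt_or_gt_of_ne hv with h2 | h2
      · exact mem_closure_of_zero hs h h2
      · refine mem_closure_of_zero hs h (v := -v) ?_
        rw [map_neg]
        linarith

theorem frontier_lt {E : Type} [NormedAddCommGroup E] [NormedSpace ℝ E] {ρ : E → ℝ}
    (hs : ContDiff ℝ 2 ρ) (hr : ∀ p, ρ p = 0 → fderiv ℝ ρ p ≠ 0) :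
    frontier {z | ρ z < 0} = {z | ρ z = 0} := by
  rw [(isOpen_lt hs.continuous continuous_const).frontier_eq, closure_lt hs hr]
  refine Set.ext fun z => ?_
  constructor
  · rintro ⟨h1, h2⟩
    exact le_antisymm h1 (not_lt.1 h2)
  · intro h
    have h' : ρ z = 0 := h
    exact ⟨le_of_eq h', fun h2 => absurd (show ρ z < 0 from h2) (by rw [h']; exact lt_irrefl 0)⟩

theorem PDom.inv_lt (h : PDom F ρ) {k : V →L[ℂ] V} (hk : k ∈ F.K) (z : V) :
    ρ (k z) < 0 ↔ ρ z < 0 := by
  constructor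
  · intro h1
    obtain ⟨k', hk', h2, -⟩ := F.K_inv k hk
    have h3 := h.inv k' hk' (k z) h1
    rw [h2] at h3
    exact h3
  · exact h.inv k hk z

private theorem PDom.le_aux (h : PDom F ρ) {k : V →L[ℂ] V} (hk : k ∈ F.K) (z : V) (hz : ρ z ≤ 0) : ρ (k z) ≤ 0 := by
  have h1 : z ∈ closure {z | ρ z < 0} := by
    rw [closure_lt h.smooth h.reg]
    exact hz
  have h2 : k z ∈ closure {z | ρ z < 0} := map_mem_closure k.continuous h1 (fun x hx => h.inv k hk x hx)
  rw [closure_lt h.smooth h.reg] at h2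
  exact h2

theorem PDom.inv_le (h : PDom F ρ) {k : V →L[ℂ] V} (hk : k ∈ F.K) (z : V) :
    ρ (k z) ≤ 0 ↔ ρ z ≤ 0 := by
  constructor
  · intro h1
    obtain ⟨k', hk', h2, -⟩ := F.K_inv k hk
    have h3 := h.le_aux hk' (k z) h1
    rw [h2] at h3
    exact h3
  · exact h.le_aux hk z

theorem PDom.inv_eq (h : PDom F ρ) {k : V →L[ℂ] V} (hk : k ∈ F.K) (z : V) :
    ρ (k z) = 0 ↔ ρ z = 0 := by
  have h1 := h.inv_le hk z
  have h2 := h.inv_lt hk z
  constructor
  · intro h3
    refine le_antisymm (h1.1 (le_of_eq h3)) (not_lt.1 fun h4 => ?_)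
    have h5 := h2.2 h4
    rw [h3] at h5
    exact lt_irrefl _ h5
  · intro h3
    refine le_antisymm (h1.2 (le_of_eq h3)) (not_lt.1 fun h4 => ?_)
    have h5 := h2.1 h4
    rw [h3] at h5
    exact lt_irrefl _ h5

theorem PDom.compact [FiniteDimensional ℂ V] (h : PDom F ρ) : IsCompact {z | ρ z ≤ 0} := by
  have : ProperSpace V := FiniteDimensional.proper ℂ V
  refine Metric.isCompact_of_isClosed_isBounded (isClosed_le h.smooth.continuous continuous_const) ?_
  rw [← closure_lt h.smooth h.reg]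
  exact h.bdd.closure

theorem PDom.s_lt (h : PDom F ρ) (z : V) : ρ (F.dg (cx (F.s z))) < 0 ↔ ρ z < 0 := by
  obtain ⟨k, hk, h1⟩ := F.polar z
  have h2 := h.inv_lt hk (F.dg (cx (F.s z)))
  rw [← h1] at h2
  exact h2.symm

theorem PDom.s_le (h : PDom F ρ) (z : V) : ρ (F.dg (cx (F.s z))) ≤ 0 ↔ ρ z ≤ 0 := by
  obtain ⟨k, hk, h1⟩ := F.polar z
  have h2 := h.inv_le hk (F.dg (cx (F.s z)))
  rw [← h1] at h2
  exact h2.symm

theorem PDom.s_eq (h : PDom F ρ) (z : V) : ρ (F.dg (cx (F.s z))) = 0 ↔ ρ z = 0 := by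
  obtain ⟨k, hk, h1⟩ := F.polar z
  have h2 := h.inv_eq hk (F.dg (cx (F.s z)))
  rw [← h1] at h2
  exact h2.symm

end H5.PK
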