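import Pool.Agent.H5.PK.Cvx

/-! # PK.ClC : geometric means

`mx_Co`: `log (mx t b c) = (1 - t) log b + t log c` is in `Lam` by `Lam_convex`, `log_Lam`; then `ex_Co`. `mx_zero`, `mx_one`: `x ^ 0 = 1` (also for `x = 0`), `x ^ 1 = x`. `mx_Cb`: for `t = 0`, `t = 1` clear. For `0 < t < 1`: `(b, c) ↦ mx t b c` is continuous on nonnegative vectors (`Real.continuous_rpow_const`, exponents `> 0`),
approximate `b`, `c` by elements of `Co` (`exists_Co_near`), `mx_Co`, and `Cb` is closed (`Cb_closed`). -/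

namespace H5.PK

variable {V : Type} [NormedAddCommGroup V] [NormedSpace ℂ V] {L : Type} [Fintype L] [DecidableEq L]
variable {r : L → ℕ} {F : Frame V r} {ρ : V → ℝ}

theorem mx_zero (b c : X r) : mx 0 b c = b := by
  funext l i
  simp [mx]

theorem mx_one (b c : X r) : mx 1 b c = c := by
  funext l i
  simp [mx]

theorem mx_Co (h : PDom F ρ) {b c : X r} (hb : b ∈ Co F ρ) (hc : c ∈ Co F ρ) {t : ℝ}
    (ht : t ∈ Set.Icc (0 : ℝ) 1) : mx t b c ∈ Co F ρ := by
  have h1 := Lam_convex h (log_Lam hb) (log_Lam hc) (a := 1 - t) (b := t)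
    (by linarith [ht.2]) ht.1 (by ring)
  have h2 := ex_Co h1
  have h3 : mx t b c = ex ((1 - t) • (fun l i => Real.log (b l i))
      + t • (fun l i => Real.log (c l i))) := by
    funext l i
    simp only [mx, ex, Pi.add_apply, Pi.smul_apply, smul_eq_mul]
    rw [Real.rpow_def_of_pos (hb.2.1 l i), Real.rpow_def_of_pos (hc.2.1 l i), ← Real.exp_add]
    congr 1
    ring
  rw [h3]
  exact h2

theorem mx_Cb (h : PDom F ρ) {b c : X r} (hb : b ∈ Cb F ρ) (hc : c ∈ Cb F ρ) {t : ℝ}
    (ht : t ∈ Set.Icc (0 : ℝ) 1) : mx t b c ∈ Cb F ρ := by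
  have hcont : Continuous (fun q : X r × X r => mx t q.1 q.2) := by
    unfold mx
    refine continuous_pi fun l => continuous_pi fun i => ?_
    refine Continuous.mul ?_ ?_
    · exact (Real.continuous_rpow_const (by linarith [ht.2])).comp
        ((continuous_apply i).comp ((continuous_apply l).comp continuous_fst))
    · exact (Real.continuous_rpow_const ht.1).comp
        ((continuous_apply i).comp ((continuous_apply l).comp continuous_snd))
  have hcl : IsClosed {q : X r × X r | mx t q.1 q.2 ∈ Cb F ρ} := (Cb_closed h).preimage hcont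
  have hsub : (Co F ρ) ×ˢ (Co F ρ) ⊆ {q : X r × X r | mx t q.1 q.2 ∈ Cb F ρ} := by
    intro q hq
    exact Co_sub (mx_Co h hq.1 hq.2 ht)
  have hmem : ∀ {a : X r}, a ∈ Cb F ρ → a ∈ closure (Co F ρ) := by
    intro a ha
    rw [Metric.mem_closure_iff]
    intro ε hε
    obtain ⟨c', hc', hd⟩ := exists_Co_near h ha hε
    exact ⟨c', hc', by rwa [dist_comm]⟩
  have h4 := closure_minimal hsub hcl
  rw [closure_prod_eq] at h4
  exact h4 (Set.mk_mem_prod (hmem hb) (hmem hc))

end H5.PK
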