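import Pool.Agent.H5.PK.Sym

/-! # PK.Grd : the gradient at a diagonal point

`gr_real` is linear algebra: `cx (fun l i => θ l i * a l i) = ∑ l, ∑ i, θ l i • e1 l i (a l i)`; `gr_eq` too (`e1 l i (a l i) = a l i • e1 l i 1`).
Let `0 ≤ a`, `ρ (dg (cx a)) = 0`. `grd_P`, `gm_zero`: `F.grad` for `f = fderiv ℝ ρ (dg (cx a))`; its hypothesis is `sym_eq` (symmetries of order four). `grd_im`: if `a l i = 0` this is the second part of `F.grad`; if `a l i ≠ 0` take `F.torus` with
`θ = t` at `(l, i)` and `0` elsewhere: `t ↦ dg (fun .. => exp (θ I) * a)` stays in `ρ = 0` (`inv_eq`), its derivative at `0` is `dg (e1 l i (I * a l i))`. `grd_apply`: from `grd_im` and linearity, `b l i = re + im I`.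
`gr_ne`: otherwise all `gm = 0` (by `gm_zero`, `gr_eq`), so `fderiv ℝ ρ (dg (cx a)) = 0` by `grd_P`, `grd_apply`, against `h.reg`. -/

namespace H5.PK

variable {V : Type} [NormedAddCommGroup V] [NormedSpace ℂ V] {L : Type} [Fintype L] [DecidableEq L]
variable {r : L → ℕ} {F : Frame V r} {ρ : V → ℝ}

private theorem grd_sum (b : XC r) : b = ∑ l, ∑ i, e1 l i (b l i) := by
  have h1 : ∀ l, ∑ i, e1 l i (b l i) = Pi.single l (b l) := by
    intro l
    have h2 : (∑ i, Pi.single i (b l i) : Fin (r l) → ℂ) = b l := Finset.univ_sum_single (b l)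
    have h3 := map_sum (AddMonoidHom.single (fun l => Fin (r l) → ℂ) l)
      (fun i => (Pi.single i (b l i) : Fin (r l) → ℂ)) Finset.univ
    rw [h2] at h3
    exact h3.symm
  simp only [h1]
  exact (Finset.univ_sum_single b).symm

private theorem grd_lin (F : Frame V r) (f : V →L[ℝ] ℝ) (b : XC r) :
    f (F.dg b) = ∑ l, ∑ i, f (F.dg (e1 l i (b l i))) := by
  conv_lhs => rw [grd_sum b]
  rw [map_sum, map_sum]
  refine Finset.sum_congr rfl fun l _ => ?_
  rw [map_sum, map_sum]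

omit [Fintype L] in
private theorem e1_smul' (l : L) (i : Fin (r l)) (x c : ℂ) :
    (e1 l i (x * c) : XC r) = x • e1 l i c := by
  unfold e1
  rw [← smul_eq_mul, Pi.single_smul, Pi.single_smul]

omit [Fintype L] in
private theorem e1_add' (l : L) (i : Fin (r l)) (x c : ℂ) :
    (e1 l i (x + c) : XC r) = e1 l i x + e1 l i c := by
  unfold e1
  rw [← Pi.single_add, ← Pi.single_add]

private theorem grd_mul (F : Frame V r) (f : V →L[ℝ] ℝ) (l : L) (i : Fin (r l)) (x : ℝ) (c : ℂ) :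
    f (F.dg (e1 l i ((x : ℂ) * c))) = x * f (F.dg (e1 l i c)) := by
  rw [e1_smul', map_smul, Complex.coe_smul, map_smul, smul_eq_mul]

private theorem grd_reim (F : Frame V r) (f : V →L[ℝ] ℝ) (l : L) (i : Fin (r l)) (c : ℂ) :
    f (F.dg (e1 l i c)) = c.re * f (F.dg (e1 l i 1)) + c.im * f (F.dg (e1 l i Complex.I)) := by
  have h : c = (c.re : ℂ) * 1 + (c.im : ℂ) * Complex.I := by
    rw [mul_one]; exact (Complex.re_add_im c).symm
  conv_lhs => rw [h]
  rw [e1_add', map_add, map_add, grd_mul, grd_mul]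

theorem gr_real (F : Frame V r) (ρ : V → ℝ) (a θ : X r) :
    fderiv ℝ ρ (F.dg (cx a)) (F.dg (cx (fun l i => θ l i * a l i))) =
      ∑ l, ∑ i, θ l i * gr F ρ a l i := by
  rw [grd_lin]
  refine Finset.sum_congr rfl fun l _ => Finset.sum_congr rfl fun i _ => ?_
  have h : (cx (fun l i => θ l i * a l i) : XC r) l i = (θ l i : ℂ) * (a l i : ℂ) := by
    show ((θ l i * a l i : ℝ) : ℂ) = _
    push_cast
    rfl
  rw [h, grd_mul]
  rfl

theorem gr_eq (F : Frame V r) (ρ : V → ℝ) (a : X r) (l : L) (i : Fin (r l)) :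
    gr F ρ a l i = a l i * gm F ρ a l i := by
  show fderiv ℝ ρ (F.dg (cx a)) (F.dg (e1 l i (a l i : ℂ))) =
    a l i * fderiv ℝ ρ (F.dg (cx a)) (F.dg (e1 l i 1))
  rw [← grd_mul, mul_one]

theorem grd_P (h : PDom F ρ) {a : X r} (ha : ∀ l i, 0 ≤ a l i) (hz : ρ (F.dg (cx a)) = 0) (z : V) :
    fderiv ℝ ρ (F.dg (cx a)) z = fderiv ℝ ρ (F.dg (cx a)) (F.dg (F.P z)) :=
  (F.grad a ha (fderiv ℝ ρ (F.dg (cx a)))
    (fun _ hk hkk hkp z => sym_eq h hz hk hkk hkp z)).1 z

theorem gm_zero (h : PDom F ρ) {a : X r} (ha : ∀ l i, 0 ≤ a l i) (hz : ρ (F.dg (cx a)) = 0) {l : L}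
    {i : Fin (r l)} (hi : a l i = 0) : gm F ρ a l i = 0 :=
  (F.grad a ha (fderiv ℝ ρ (F.dg (cx a)))
    (fun _ hk hkk hkp z => sym_eq h hz hk hkk hkp z)).2 l i hi 1

theorem grd_im (h : PDom F ρ) {a : X r} (ha : ∀ l i, 0 ≤ a l i) (hz : ρ (F.dg (cx a)) = 0) (l : L)
    (i : Fin (r l)) : fderiv ℝ ρ (F.dg (cx a)) (F.dg (e1 l i Complex.I)) = 0 := by
  by_cases h0 : a l i = 0
  · exact (F.grad a ha (fderiv ℝ ρ (F.dg (cx a)))
      (fun _ hk hkk hkp z => sym_eq h hz hk hkk hkp z)).2 l i h0 Complex.I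
  · set g : ℝ → ℂ := fun t => (Complex.exp ((t : ℂ) * Complex.I) - 1) * (a l i : ℂ) with hg
    set v : V := F.dg (e1 l i 1) with hv
    have hcur : ∀ t : ℝ, ρ (F.dg (cx a) + g t • v) = 0 := by
      intro t
      obtain ⟨k, hk, hk'⟩ := F.torus (Pi.single l (Pi.single i t))
      have e1' : F.dg (cx a) + g t • v = k (F.dg (cx a)) := by
        rw [hk' (cx a), hv, ← map_smul, ← map_add, ← e1_smul', mul_one]
        congr 1
        funext l' i'
        by_cases hl : l' = l
        · subst hl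
          by_cases hi : i' = i
          · subst hi
            simp only [Pi.add_apply, e1, Pi.single_eq_same, cx, hg]
            ring
          · simp only [Pi.add_apply, e1, Pi.single_eq_same, Pi.single_eq_of_ne hi, cx]
            simp
        · simp only [Pi.add_apply, e1, Pi.single_eq_of_ne hl, cx, Pi.zero_apply]
          simp
      rw [e1', h.inv_eq hk]
      exact hz
    have hgd : HasDerivAt g (Complex.I * (a l i : ℂ)) 0 := by
      have h1 : HasDerivAt (fun t : ℝ => (t : ℂ) * Complex.I) (1 * Complex.I) 0 :=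
        (Complex.ofRealCLM.hasDerivAt (x := (0 : ℝ))).mul_const Complex.I
      have h2 := (h1.cexp.sub_const 1).mul_const (a l i : ℂ)
      simpa using h2
    have hc : HasDerivAt (fun t : ℝ => F.dg (cx a) + g t • v) ((Complex.I * (a l i : ℂ)) • v) 0 :=
      (hgd.smul_const v).const_add _
    have hρ : HasFDerivAt ρ (fderiv ℝ ρ (F.dg (cx a))) (F.dg (cx a) + g 0 • v) := by
      have h3 : F.dg (cx a) + g 0 • v = F.dg (cx a) := by
        have : g 0 = 0 := by simp [hg]
        rw [this, zero_smul, add_zero]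
      rw [h3]
      exact ((h.smooth.differentiable (by norm_num)) _).hasFDerivAt
    have h4 := hρ.comp_hasDerivAt (0 : ℝ) hc
    have h5 : (ρ ∘ fun t : ℝ => F.dg (cx a) + g t • v) = fun _ => 0 := funext hcur
    rw [h5] at h4
    have h6 := h4.unique (hasDerivAt_const (0 : ℝ) (0 : ℝ))
    rw [hv, ← map_smul, ← e1_smul', mul_one, mul_comm, grd_mul] at h6
    rcases mul_eq_zero.mp h6 with h7 | h7
    · exact absurd h7 h0
    · exact h7

theorem grd_apply (h : PDom F ρ) {a : X r} (ha : ∀ l i, 0 ≤ a l i) (hz : ρ (F.dg (cx a)) = 0)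
    (b : XC r) : fderiv ℝ ρ (F.dg (cx a)) (F.dg b) = ∑ l, ∑ i, (b l i).re * gm F ρ a l i := by
  rw [grd_lin]
  refine Finset.sum_congr rfl fun l _ => Finset.sum_congr rfl fun i _ => ?_
  rw [grd_reim, grd_im h ha hz, mul_zero, add_zero]
  rfl

theorem gr_ne (h : PDom F ρ) {a : X r} (ha : ∀ l i, 0 ≤ a l i) (hz : ρ (F.dg (cx a)) = 0) :
    ∃ l i, gr F ρ a l i ≠ 0 := by
  by_contra hcon
  push Not at hcon
  have h1 : ∀ l i, gm F ρ a l i = 0 := by
    intro l i
    by_cases h0 : a l i = 0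
    · exact gm_zero h ha hz h0
    · have h2 := hcon l i
      rw [gr_eq] at h2
      rcases mul_eq_zero.mp h2 with h3 | h3
      · exact absurd h3 h0
      · exact h3
  apply h.reg _ hz
  ext z
  rw [grd_P h ha hz z, grd_apply h ha hz]
  simp [h1]

end H5.PK
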