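import Pool.Agent.H5.PK.ClC
import Pool.Agent.H5.PK.Grd

/-! # PK.ClS : the supporting inequality

Let `θ l i = log b - log a` if `a l i > 0` and `0` otherwise. For `0 ≤ t < 1`: `mx t a b l i = a l i * exp (t θ l i)` (if `a l i = 0`: `0 ^ (1 - t) = 0`). By `mx_Cb` the function `t ↦ ρ (dg (cx (a * exp (t θ))))` is `≤ 0` for `0 ≤ t < 1` and `0` at `t = 0`, so its derivative at `0` is `≤ 0`;
it is `∑ l, ∑ i, θ l i * gr F ρ a l i` (`gr_real`), and this is `UU (gr F ρ a) a b` since `gr F ρ a l i = 0` if `a l i = 0` (`gr_eq`). -/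

namespace H5.PK

variable {V : Type} [NormedAddCommGroup V] [NormedSpace ℂ V] {L : Type} [Fintype L] [DecidableEq L]
variable {r : L → ℕ} {F : Frame V r} {ρ : V → ℝ}

theorem sup_le (h : PDom F ρ) {a b : X r} (ha : a ∈ Cb F ρ) (hz : ρ (F.dg (cx a)) = 0)
    (hb : b ∈ Cb F ρ) (hpos : ∀ l i, 0 < a l i → 0 < b l i) : UU (gr F ρ a) a b ≤ 0 := by
  classical
  have hann : ∀ l i, 0 ≤ a l i := ha.1.1
  set θ : X r := fun l i => if 0 < a l i then Real.log (b l i) - Real.log (a l i) else 0 with hθ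
  -- the sum
  have hsum : UU (gr F ρ a) a b = ∑ l, ∑ i, θ l i * gr F ρ a l i := by
    unfold UU
    refine Finset.sum_congr rfl fun l _ => Finset.sum_congr rfl fun i _ => ?_
    by_cases hp : 0 < a l i
    · simp only [hθ, if_pos hp]
      ring
    · have h0 : a l i = 0 := le_antisymm (not_lt.mp hp) (hann l i)
      rw [gr_eq, h0]
      simp
  -- the curve
  set c : ℝ → XC r := fun t => cx (fun l i => a l i * Real.exp (t * θ l i)) with hc
  have hc0 : c 0 = cx a := by
    simp only [hc]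
    congr 1
    funext l i
    simp
  have hcd : HasDerivAt c (cx (fun l i => θ l i * a l i)) 0 := by
    rw [hasDerivAt_pi]
    intro l
    rw [hasDerivAt_pi]
    intro i
    have h1 : HasDerivAt (fun t : ℝ => t * θ l i) (θ l i) 0 := by
      simpa using (hasDerivAt_id (0 : ℝ)).mul_const (θ l i)
    have h2 : HasDerivAt (fun t : ℝ => a l i * Real.exp (t * θ l i))
        (a l i * (Real.exp (0 * θ l i) * θ l i)) 0 := (h1.exp).const_mul (a l i)
    have h3 : HasDerivAt (fun t : ℝ => ((a l i * Real.exp (t * θ l i) : ℝ) : ℂ))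
        ((a l i * (Real.exp (0 * θ l i) * θ l i) : ℝ) : ℂ) 0 := h2.ofReal_comp
    have h4 : (a l i * (Real.exp (0 * θ l i) * θ l i) : ℝ) = θ l i * a l i := by
      rw [zero_mul, Real.exp_zero, one_mul, mul_comm]
    rw [h4] at h3
    exact h3
  have hdg : HasDerivAt (fun t => F.dg (c t)) (F.dg (cx (fun l i => θ l i * a l i))) 0 := by
    have := (F.dg.restrictScalars ℝ).hasFDerivAt (x := c 0)
    exact this.comp_hasDerivAt (0 : ℝ) hcd
  have hρ : HasDerivAt (fun t => ρ (F.dg (c t)))
      (fderiv ℝ ρ (F.dg (cx a)) (F.dg (cx (fun l i => θ l i * a l i)))) 0 := by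
    have hd : HasFDerivAt ρ (fderiv ℝ ρ (F.dg (c 0))) (F.dg (c 0)) :=
      ((h.smooth.differentiable (by norm_num)) _).hasFDerivAt
    have := hd.comp_hasDerivAt (0 : ℝ) hdg
    rw [hc0] at this
    exact this
  rw [gr_real] at hρ
  rw [hsum]
  have ht := hρ.tendsto_slope_zero_right
  refine le_of_tendsto ht ?_
  have hev : ∀ᶠ t : ℝ in nhdsWithin 0 (Set.Ioi 0), t ∈ Set.Ioo (0 : ℝ) 1 :=
    Ioo_mem_nhdsGT one_pos
  filter_upwards [hev] with t htt
  have hmx : mx t a b = fun l i => a l i * Real.exp (t * θ l i) := by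
    funext l i
    unfold mx
    by_cases hp : 0 < a l i
    · have hbp := hpos l i hp
      simp only [hθ, if_pos hp]
      rw [Real.rpow_def_of_pos hp, Real.rpow_def_of_pos hbp, ← Real.exp_add]
      have hx : a l i * Real.exp (t * (Real.log (b l i) - Real.log (a l i))) =
          Real.exp (Real.log (a l i) + t * (Real.log (b l i) - Real.log (a l i))) := by
        rw [Real.exp_add, Real.exp_log hp]
      rw [hx]
      congr 1
      ring
    · have h0 : a l i = 0 := le_antisymm (not_lt.mp hp) (hann l i)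
      rw [h0, Real.zero_rpow (by linarith [htt.2])]
      simp
  have hle := (mx_Cb h ha hb (t := t) ⟨htt.1.le, htt.2.le⟩).2
  rw [hmx] at hle
  have h0 : ρ (F.dg (c 0)) = 0 := by rw [hc0]; exact hz
  simp only [zero_add, h0, sub_zero, smul_eq_mul]
  exact mul_nonpos_of_nonneg_of_nonpos (inv_nonneg.mpr htt.1.le) hle

end H5.PK
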