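import Pool.Agent.H5.PK.IntM
import Pool.Agent.H5.PK.ClS

/-! # PK.Cmp : the gradient is nonnegative on blocks which meet the singular matrices

Let `j₀` be the last index of the block `l` (`r l > 0` because of `i`); `gr F ρ a l` is decreasing (`gr_anti`), so it suffices `0 ≤ gr F ρ a l j₀`. `c l j₀ = 0` (`c` sorted, nonnegative, `c l i = 0`). If `a l j₀ = 0` then `gr F ρ a l j₀ = 0` (`gr_eq`). Let `a l j₀ > 0`. Take `a₀ ∈ Co` (`Co_nonempty`),
`m = mx (1/2) a₀ c`: in `Cb`, `ρ (dg (cx m)) < 0` (`mx_int`), `m l i = 0 ↔ c l i = 0`. There is `ε > 0` such that for all `δ ∈ (0, ε]` the vector `m'` with `m' = m` where `m ≠ 0`, `m' l j₀ = δ`, `m' = ε` at the other zeros of `m` is sorted, positive and `ρ (dg (cx m')) < 0` (continuity; the zeros of `m` are at the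
ends of the blocks). `sup_le`: `UU (gr F ρ a) a m' ≤ 0` for all `δ ∈ (0, ε]`, i.e. `gr F ρ a l j₀ * log δ ≤ C` with `C` independent of `δ`. For `δ → 0`: `0 ≤ gr F ρ a l j₀`. -/

namespace H5.PK

open Topology

variable {V : Type} [NormedAddCommGroup V] [NormedSpace ℂ V] {L : Type} [Fintype L] [DecidableEq L]
variable {r : L → ℕ} {F : Frame V r} {ρ : V → ℝ}

theorem gr_complete (h : PDom F ρ) {a c : X r} (ha : a ∈ Cb F ρ) (hz : ρ (F.dg (cx a)) = 0)
    (hc : c ∈ Cb F ρ) {l : L} {i : Fin (r l)} (hi : c l i = 0) (j : Fin (r l)) :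
    0 ≤ gr F ρ a l j := by
  classical
  have hr : 0 < r l := lt_of_le_of_lt (Nat.zero_le _) i.2
  obtain ⟨j₀, hle⟩ : ∃ j₀ : Fin (r l), ∀ k : Fin (r l), k ≤ j₀ := by
    refine ⟨⟨r l - 1, by omega⟩, fun k => ?_⟩
    rw [Fin.le_def]
    have := k.2
    simp only
    omega
  refine le_trans ?_ (gr_anti h ha.1 hz l (hle j))
  by_contra hneg
  push Not at hneg
  obtain ⟨a₀, ha₀⟩ := Co_nonempty h
  obtain ⟨m, hm⟩ : ∃ m : X r, m = mx (1 / 2) a₀ c := ⟨_, rfl⟩
  have hmC : m ∈ Cb F ρ := by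
    rw [hm]
    exact mx_Cb h (Co_sub ha₀) hc ⟨by norm_num, by norm_num⟩
  have hmlt : ρ (F.dg (cx m)) < 0 := by
    rw [hm]
    exact mx_int h ha₀ hc ⟨by norm_num, by norm_num⟩
  have hcj : c l j₀ = 0 := le_antisymm (by rw [← hi]; exact hc.1.2 l (hle i)) (hc.1.1 l j₀)
  have hcont : Continuous (fun b : X r => ρ (F.dg (cx b))) :=
    h.smooth.continuous.comp (F.dg.continuous.comp cx_continuous)
  obtain ⟨η, hη, hball⟩ := Metric.isOpen_iff.1 (isOpen_lt hcont continuous_const) m hmlt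
  obtain ⟨μ, hμ, hmin⟩ : ∃ μ : ℝ, 0 < μ ∧ ∀ l' i', m l' i' ≠ 0 → μ ≤ m l' i' := by
    have hev : ∀ᶠ μ in 𝓝[>] (0 : ℝ), ∀ l' i', m l' i' ≠ 0 → μ ≤ m l' i' := by
      rw [Filter.eventually_all]
      intro l'
      rw [Filter.eventually_all]
      intro i'
      by_cases h0 : m l' i' = 0
      · exact Filter.Eventually.of_forall fun μ hne => absurd h0 hne
      · have hp : 0 < m l' i' := lt_of_le_of_ne (hmC.1.1 l' i') (Ne.symm h0)
        filter_upwards [Ioo_mem_nhdsGT hp] with μ hμ _ using hμ.2.le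
    obtain ⟨μ, h1, h2⟩ := (hev.and self_mem_nhdsWithin).exists
    exact ⟨μ, h2, h1⟩
  obtain ⟨ε, hε, hεμ, hεη⟩ : ∃ ε : ℝ, 0 < ε ∧ ε ≤ μ ∧ ε < η :=
    ⟨min μ (η / 2), lt_min hμ (by linarith), min_le_left _ _,
      lt_of_le_of_lt (min_le_right _ _) (by linarith)⟩
  -- the vector with `ε` at the zeros
  obtain ⟨w, hw⟩ : ∃ w : X r, w = fun l' i' => if m l' i' = 0 then ε else m l' i' := ⟨_, rfl⟩
  have hwε : ∀ l' i', ε ≤ w l' i' := by
    intro l' i'
    rw [hw]
    dsimp only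
    split_ifs with h0
    · exact le_rfl
    · exact hεμ.trans (hmin l' i' h0)
  have hwanti : ∀ l', Antitone (w l') := by
    intro l' i1 i2 h12
    rw [hw]
    dsimp only
    have h3 := hmC.1.2 l' h12
    split_ifs with h1 h2 h2
    · exact le_rfl
    · exact hεμ.trans (hmin l' i1 h2)
    · exact absurd (le_antisymm (h3.trans h2.le) (hmC.1.1 l' i2)) h1
    · exact h3
  have key : ∀ δ : ℝ, 0 < δ → δ ≤ ε →
      gr F ρ a l j₀ * (Real.log δ - Real.log (a l j₀)) +
        ∑ x ∈ (Finset.univ : Finset ((l' : L) × Fin (r l'))).erase ⟨l, j₀⟩,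
          gr F ρ a x.1 x.2 * (Real.log (w x.1 x.2) - Real.log (a x.1 x.2)) ≤ 0 := by
    intro δ hδ hδε
    obtain ⟨m', hm'⟩ : ∃ m' : X r, m' = fun l' i' =>
      if (⟨l', i'⟩ : (l' : L) × Fin (r l')) = ⟨l, j₀⟩ then δ else w l' i' := ⟨_, rfl⟩
    have hm'pos : ∀ l' i', 0 < m' l' i' := by
      intro l' i'
      rw [hm']
      dsimp only
      split_ifs
      · exact hδ
      · exact hε.trans_le (hwε l' i')
    have hm'anti : ∀ l', Antitone (m' l') := by
      intro l' i1 i2 h12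
      rw [hm']
      dsimp only
      split_ifs with h1 h2 h2
      · exact le_rfl
      · exact hδε.trans (hwε l' i1)
      · exfalso
        obtain ⟨rfl, h3⟩ := Sigma.mk.inj_iff.1 h2
        have h4 : i1 = j₀ := eq_of_heq h3
        subst h4
        exact h1 (by rw [le_antisymm (hle i2) h12])
      · exact hwanti l' h12
    have hmj : m l j₀ = 0 := by
      rw [hm]
      simp only [mx, hcj]
      rw [Real.zero_rpow (by norm_num), mul_zero]
    have hdist : dist m' m ≤ ε := by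
      refine (dist_pi_le_iff hε.le).2 fun l' => (dist_pi_le_iff hε.le).2 fun i' => ?_
      rw [Real.dist_eq, hm']
      dsimp only
      split_ifs with h1
      · obtain ⟨rfl, h3⟩ := Sigma.mk.inj_iff.1 h1
        have h4 : i' = j₀ := eq_of_heq h3
        subst h4
        rw [hmj, sub_zero, abs_of_pos hδ]
        exact hδε
      · rw [hw]
        dsimp only
        split_ifs with h2
        · rw [h2, sub_zero, abs_of_pos hε]
        · rw [sub_self, abs_zero]
          exact hε.le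
    have hm'C : m' ∈ Cb F ρ :=
      ⟨⟨fun l' i' => (hm'pos l' i').le, hm'anti⟩,
        le_of_lt (hball (Metric.mem_ball.2 (hdist.trans_lt hεη)))⟩
    have hU := sup_le h ha hz hm'C (fun l' i' _ => hm'pos l' i')
    unfold UU at hU
    rw [← Fintype.sum_sigma' (fun l' i' =>
      gr F ρ a l' i' * (Real.log (m' l' i') - Real.log (a l' i')))] at hU
    rw [← Finset.add_sum_erase Finset.univ _ (Finset.mem_univ (⟨l, j₀⟩ : (l' : L) × Fin (r l')))]
      at hU
    have e1 : m' l j₀ = δ := by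
      rw [hm']
      simp
    have e2 : ∀ x ∈ (Finset.univ : Finset ((l' : L) × Fin (r l'))).erase ⟨l, j₀⟩,
        gr F ρ a x.1 x.2 * (Real.log (m' x.1 x.2) - Real.log (a x.1 x.2)) =
          gr F ρ a x.1 x.2 * (Real.log (w x.1 x.2) - Real.log (a x.1 x.2)) := by
      intro x hx
      have hne : x ≠ ⟨l, j₀⟩ := (Finset.mem_erase.1 hx).1
      have : m' x.1 x.2 = w x.1 x.2 := by
        rw [hm']
        exact if_neg hne
      rw [this]
    rw [Finset.sum_congr rfl e2] at hU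
    simp only [e1] at hU
    exact hU
  -- let `δ` tend to zero
  obtain ⟨S, hS⟩ : ∃ S : ℝ, S = ∑ x ∈ (Finset.univ : Finset ((l' : L) × Fin (r l'))).erase ⟨l, j₀⟩,
          gr F ρ a x.1 x.2 * (Real.log (w x.1 x.2) - Real.log (a x.1 x.2)) := ⟨_, rfl⟩
  rw [← hS] at key
  obtain ⟨g, hg⟩ : ∃ g : ℝ, g = gr F ρ a l j₀ := ⟨_, rfl⟩
  rw [← hg] at key hneg
  obtain ⟨A, hA⟩ : ∃ A : ℝ, A = Real.log (a l j₀) := ⟨_, rfl⟩
  rw [← hA] at key
  -- choose `δ` with `log δ ≤ A + (1 - S) / g`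
  have h5 := key (min ε (Real.exp (A + (1 - S) / g))) (lt_min hε (Real.exp_pos _)) (min_le_left _ _)
  have h6 : Real.log (min ε (Real.exp (A + (1 - S) / g))) ≤ A + (1 - S) / g := by
    calc Real.log (min ε (Real.exp (A + (1 - S) / g)))
        ≤ Real.log (Real.exp (A + (1 - S) / g)) :=
          Real.log_le_log (lt_min hε (Real.exp_pos _)) (min_le_right _ _)
      _ = _ := Real.log_exp _
  have h7 : g * ((1 - S) / g) ≤ g * (Real.log (min ε (Real.exp (A + (1 - S) / g))) - A) :=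
    mul_le_mul_of_nonpos_left (by linarith) hneg.le
  rw [mul_div_cancel₀ _ hneg.ne] at h7
  linarith

end H5.PK
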