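import Pool.Agent.H5.PK.RlA

/-! # PK.Rl : a segment inside a locally convex hypersurface (global version)

`Z = {t ∈ (0, 1) | f (x + t (y - x)) = 0}` is open (`loc_zero` at `z = x + t (y - x)`, `v = y - x`) and relatively closed in `(0, 1)`. If it is nonempty it is `(0, 1)` (preconnected), so `f x = 0` by continuity, against `hx`. At `t = 0` use `hx`. -/

namespace H5.PK

variable {E : Type} [NormedAddCommGroup E] [NormedSpace ℝ E]

theorem seg_neg {f : E → ℝ} (hf : ContDiff ℝ 2 f) (hreg : ∀ x, f x = 0 → fderiv ℝ f x ≠ 0)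
    (hhess : ∀ x v, f x = 0 → fderiv ℝ f x v = 0 → 0 ≤ iteratedFDeriv ℝ 2 f x ![v, v]) {x y : E}
    (hx : f x < 0) (hle : ∀ t ∈ Set.Icc (0 : ℝ) 1, f (x + t • (y - x)) ≤ 0) :
    ∀ t ∈ Set.Ico (0 : ℝ) 1, f (x + t • (y - x)) < 0 := by
  intro t₀ ht₀
  by_contra hcon
  have hg : Continuous (fun t : ℝ => f (x + t • (y - x))) :=
    hf.continuous.comp (continuous_const.add (continuous_id.smul continuous_const))
  have hz0 : f (x + t₀ • (y - x)) = 0 :=
    le_antisymm (hle t₀ ⟨ht₀.1, ht₀.2.le⟩) (not_lt.mp hcon)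
  have hK : IsCompact (Set.Icc (0 : ℝ) t₀ ∩ {t : ℝ | f (x + t • (y - x)) = 0}) :=
    isCompact_Icc.inter_right (isClosed_eq hg continuous_const)
  obtain ⟨s, hs, hmin⟩ := hK.exists_isLeast ⟨t₀, ⟨ht₀.1, le_refl _⟩, hz0⟩
  have hs0 : 0 < s := by
    rcases hs.1.1.lt_or_eq with h | h
    · exact h
    · exfalso
      have h1 : f (x + s • (y - x)) = 0 := hs.2
      rw [← h, zero_smul, add_zero] at h1
      linarith
  have hs1 : s < 1 := lt_of_le_of_lt hs.1.2 ht₀.2
  obtain ⟨δ', hδ', hzero⟩ := loc_zero hf hreg hhess (z := x + s • (y - x)) (v := y - x) hs.2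
    (δ := min s (1 - s)) (lt_min hs0 (by linarith)) (by
      intro t ht
      have h1 := lt_of_lt_of_le ht (min_le_left _ _)
      have h2 := lt_of_lt_of_le ht (min_le_right _ _)
      rw [abs_lt] at h1 h2
      have h3 := hle (s + t) ⟨by linarith [h1.1], by linarith [h2.2]⟩
      rwa [add_smul, ← add_assoc] at h3)
  have hm : 0 < min δ' s := lt_min hδ' hs0
  have hml : min δ' s ≤ δ' := min_le_left _ _
  have hmr : min δ' s ≤ s := min_le_right _ _
  have h4 := hzero (-(min δ' s / 2)) (by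
    rw [abs_neg, abs_of_pos (by linarith)]
    linarith)
  have h5 : s + -(min δ' s / 2) ∈ Set.Icc (0 : ℝ) t₀ ∩ {t : ℝ | f (x + t • (y - x)) = 0} := by
    refine ⟨⟨by linarith, by linarith [hs.1.2]⟩, ?_⟩
    show f (x + (s + -(min δ' s / 2)) • (y - x)) = 0
    rw [add_smul, ← add_assoc]
    exact h4
  have h6 := hmin h5
  linarith

end H5.PK
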