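import Pool.Agent.H5.PK.Grd
import Pool.Agent.H5.PK.Sec

/-! # PK.Tor : the function `sig` (the function `ρ` in logarithmic coordinates)

`sig_smooth`: composition of smooth functions (`ex`, `cx` componentwise). `sig_fderiv`: chain rule; the derivative of `ex` at `x` in direction `θ` is `θ * ex x`; then `gr_real`. `sig_reg`: `gr_ne` gives `(l, i)` with `gr l i ≠ 0`, take `θ` = unit vector.
`sig_hess`: let `p = dg (cx (ex x))`, `v = dg (cx (θ * ex x))`, `y = dg (cx (θ² * ex x))`, `f = fderiv ℝ ρ p`. Curve `t ↦ dg (cx (ex (x + t θ)))`: `iteratedFDeriv ℝ 2 (sig F ρ) x ![θ, θ] = iteratedFDeriv ℝ 2 ρ p ![v, v] + f y` (`sec_curve` for `ρ`, and `sec_curve` for `sig` with the line `x + t θ`; uniqueness of derivatives).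
Curve `t ↦ dg (exp (t θ I) * ex x)` (`F.torus`, in `ρ = 0`), first derivative at `0`: `I v`, second `-y`: `sec_zero` gives `f (I v) = 0`, `iteratedFDeriv ℝ 2 ρ p ![I v, I v] = f y`. `f v = 0` by hypothesis and `gr_real`. `h.levi` with `w = v`. -/

namespace H5.PK

variable {V : Type} [NormedAddCommGroup V] [NormedSpace ℂ V] {L : Type} [Fintype L] [DecidableEq L]
variable {r : L → ℕ} {F : Frame V r} {ρ : V → ℝ}

/-- `cx` as a real linear map -/
private noncomputable def cxL (r : L → ℕ) : X r →L[ℝ] XC r :=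
  ContinuousLinearMap.pi fun l => ContinuousLinearMap.pi fun i =>
    Complex.ofRealCLM.comp ((ContinuousLinearMap.proj (R := ℝ) (φ := fun _ : Fin (r l) => ℝ) i).comp
      (ContinuousLinearMap.proj (R := ℝ) (φ := fun l : L => Fin (r l) → ℝ) l))

omit [Fintype L] [DecidableEq L] in
private theorem cxL_apply (b : X r) : cxL r b = cx b := rfl

/-- `dg` as a real linear map -/
private noncomputable def dgL (F : Frame V r) : XC r →L[ℝ] V := F.dg.restrictScalars ℝ

private theorem hd_cx (F : Frame V r) {u : ℝ → X r} {u' : X r} {t : ℝ} (h : HasDerivAt u u' t) :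
    HasDerivAt (fun t => F.dg (cx (u t))) (F.dg (cx u')) t := by
  have := ((dgL F).comp (cxL r)).hasFDerivAt.comp_hasDerivAt t h
  exact this

private theorem hd_dg (F : Frame V r) {u : ℝ → XC r} {u' : XC r} {t : ℝ} (h : HasDerivAt u u' t) :
    HasDerivAt (fun t => F.dg (u t)) (F.dg u') t := by
  have := (dgL F).hasFDerivAt.comp_hasDerivAt t h
  exact this

omit [Fintype L] [DecidableEq L] in
private theorem hd_ex (x θ : X r) (t : ℝ) :
    HasDerivAt (fun t : ℝ => ex (x + t • θ)) (fun l i => θ l i * ex (x + t • θ) l i) t := by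
  rw [hasDerivAt_pi]
  intro l
  rw [hasDerivAt_pi]
  intro i
  have h1 : HasDerivAt (fun t : ℝ => x l i + t * θ l i) (θ l i) t := by
    simpa using ((hasDerivAt_id t).mul_const (θ l i)).const_add (x l i)
  have h2 := h1.exp
  refine h2.congr_deriv ?_
  simp only [ex, Pi.add_apply, Pi.smul_apply, smul_eq_mul]
  ring

omit [Fintype L] [DecidableEq L] in
private theorem hd_ex2 (x θ : X r) (t : ℝ) :
    HasDerivAt (fun t : ℝ => (fun l i => θ l i * ex (x + t • θ) l i : X r))
      (fun l i => θ l i ^ 2 * ex (x + t • θ) l i) t := by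
  rw [hasDerivAt_pi]
  intro l
  rw [hasDerivAt_pi]
  intro i
  have h1 : HasDerivAt (fun t : ℝ => x l i + t * θ l i) (θ l i) t := by
    simpa using ((hasDerivAt_id t).mul_const (θ l i)).const_add (x l i)
  have h2 := h1.exp.const_mul (θ l i)
  refine h2.congr_deriv ?_
  simp only [ex, Pi.add_apply, Pi.smul_apply, smul_eq_mul]
  ring

theorem sig_smooth (h : PDom F ρ) : ContDiff ℝ 2 (sig F ρ) := by
  have h1 : ContDiff ℝ 2 (ex : X r → X r) := by
    rw [contDiff_pi]
    intro l
    rw [contDiff_pi]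
    intro i
    have : ContDiff ℝ 2 (fun x : X r => x l i) :=
      ((ContinuousLinearMap.proj (R := ℝ) (φ := fun _ : Fin (r l) => ℝ) i).comp
        (ContinuousLinearMap.proj (R := ℝ) (φ := fun l : L => Fin (r l) → ℝ) l)).contDiff
    exact this.exp
  exact h.smooth.comp (((dgL F).comp (cxL r)).contDiff.comp h1)

private theorem sig_line (h : PDom F ρ) (x θ : X r) (t : ℝ) :
    fderiv ℝ (sig F ρ) (x + t • θ) θ =
      fderiv ℝ ρ (F.dg (cx (ex (x + t • θ)))) (F.dg (cx (fun l i => θ l i * ex (x + t • θ) l i))) := by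
  have h1 : HasFDerivAt (sig F ρ) (fderiv ℝ (sig F ρ) (x + t • θ)) (x + t • θ) :=
    ((sig_smooth h).differentiable (by norm_num) _).hasFDerivAt
  have h2 : HasDerivAt (fun t : ℝ => x + t • θ) θ t := by
    simpa using ((hasDerivAt_id t).smul_const θ).const_add x
  have h3 : HasDerivAt (sig F ρ ∘ fun t : ℝ => x + t • θ) (fderiv ℝ (sig F ρ) (x + t • θ) θ) t :=
    h1.comp_hasDerivAt t h2
  have h4 : HasFDerivAt ρ (fderiv ℝ ρ (F.dg (cx (ex (x + t • θ))))) (F.dg (cx (ex (x + t • θ)))) :=
    ((h.smooth.differentiable (by norm_num)) _).hasFDerivAt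
  have h5 := h4.comp_hasDerivAt t (hd_cx F (hd_ex x θ t))
  exact h3.unique h5

theorem sig_fderiv (h : PDom F ρ) (x θ : X r) :
    fderiv ℝ (sig F ρ) x θ = ∑ l, ∑ i, θ l i * gr F ρ (ex x) l i := by
  have h1 := sig_line h x θ 0
  rw [zero_smul, add_zero] at h1
  rw [h1, gr_real]

theorem sig_reg (h : PDom F ρ) (x : X r) (hx : sig F ρ x = 0) : fderiv ℝ (sig F ρ) x ≠ 0 := by
  intro h0
  obtain ⟨l, i, hli⟩ := gr_ne h (a := ex x) (fun l i => (Real.exp_pos _).le) hx
  apply hli
  have h1 := sig_fderiv h x (Pi.single l (Pi.single i 1))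
  rw [h0, Finset.sum_eq_single l, Finset.sum_eq_single i] at h1
  · simpa using h1.symm
  · intro j _ hj
    simp [hj]
  · intro h2
    exact absurd (Finset.mem_univ _) h2
  · intro m _ hm
    simp [hm]
  · intro h2
    exact absurd (Finset.mem_univ _) h2

theorem sig_hess (h : PDom F ρ) (x θ : X r) (hx : sig F ρ x = 0) (hθ : fderiv ℝ (sig F ρ) x θ = 0) :
    0 ≤ iteratedFDeriv ℝ 2 (sig F ρ) x ![θ, θ] := by
  set p := F.dg (cx (ex x)) with hp
  set v := F.dg (cx (fun l i => θ l i * ex x l i)) with hv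
  set y := F.dg (cx (fun l i => θ l i ^ 2 * ex x l i)) with hy
  have hp0 : ρ p = 0 := hx
  have e0 : x + (0 : ℝ) • θ = x := by rw [zero_smul, add_zero]
  -- first curve
  have a1 : iteratedFDeriv ℝ 2 (sig F ρ) x ![θ, θ] =
      iteratedFDeriv ℝ 2 ρ p ![v, v] + fderiv ℝ ρ p y := by
    have b1 := sec_curve (sig_smooth h) (c := fun t : ℝ => x + t • θ) (c' := fun _ => θ) (c'' := 0)
      (fun t => by simpa using ((hasDerivAt_id t).smul_const θ).const_add x)
      (hasDerivAt_const 0 θ)
    have b2 := sec_curve h.smooth (c := fun t : ℝ => F.dg (cx (ex (x + t • θ))))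
      (c' := fun t => F.dg (cx (fun l i => θ l i * ex (x + t • θ) l i)))
      (c'' := F.dg (cx (fun l i => θ l i ^ 2 * ex (x + (0 : ℝ) • θ) l i)))
      (fun t => hd_cx F (hd_ex x θ t)) (hd_cx F (hd_ex2 x θ 0))
    simp only [sig_line h] at b1
    simp only [e0, map_zero, add_zero] at b1 b2
    exact b1.unique b2
  -- second curve
  have a2 : fderiv ℝ ρ p (Complex.I • v) = 0 ∧
      iteratedFDeriv ℝ 2 ρ p ![Complex.I • v, Complex.I • v] + fderiv ℝ ρ p (-y) = 0 := by
    have d1 : ∀ t : ℝ, ∀ l i, HasDerivAt (fun t : ℝ => Complex.exp (((t • θ) l i : ℂ) * Complex.I))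
        ((θ l i : ℂ) * Complex.I * Complex.exp (((t • θ) l i : ℂ) * Complex.I)) t := by
      intro t l i
      have h1 : HasDerivAt (fun t : ℝ => (((t • θ) l i : ℝ) : ℂ) * Complex.I) ((θ l i : ℂ) * Complex.I) t := by
        have h2 : HasDerivAt (fun t : ℝ => t * θ l i) (θ l i) t := by
          simpa using (hasDerivAt_id t).mul_const (θ l i)
        exact (h2.ofReal_comp).mul_const Complex.I
      refine (h1.cexp).congr_deriv ?_
      ring
    have c1 : ∀ t : ℝ, HasDerivAt (fun t : ℝ => F.dg (fun l i =>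
        Complex.exp (((t • θ) l i : ℂ) * Complex.I) * cx (ex x) l i))
        (F.dg (fun l i => (θ l i : ℂ) * Complex.I * Complex.exp (((t • θ) l i : ℂ) * Complex.I) *
          cx (ex x) l i)) t := by
      intro t
      apply hd_dg
      rw [hasDerivAt_pi]
      intro l
      rw [hasDerivAt_pi]
      intro i
      exact (d1 t l i).mul_const _
    have c2 : HasDerivAt (fun t : ℝ => F.dg (fun l i => (θ l i : ℂ) * Complex.I *
        Complex.exp (((t • θ) l i : ℂ) * Complex.I) * cx (ex x) l i))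
        (F.dg (fun l i => (θ l i : ℂ) * Complex.I * ((θ l i : ℂ) * Complex.I *
          Complex.exp ((((0 : ℝ) • θ) l i : ℂ) * Complex.I)) * cx (ex x) l i)) 0 := by
      apply hd_dg
      rw [hasDerivAt_pi]
      intro l
      rw [hasDerivAt_pi]
      intro i
      exact ((d1 0 l i).const_mul _).mul_const _
    have hz : ∀ t : ℝ, ρ (F.dg (fun l i =>
        Complex.exp (((t • θ) l i : ℂ) * Complex.I) * cx (ex x) l i)) = 0 := by
      intro t
      obtain ⟨k, hk, hk2⟩ := F.torus (t • θ)
      have h7 := (h.inv_eq hk (F.dg (cx (ex x)))).2 hx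
      rw [hk2] at h7
      exact h7
    have h3 := sec_zero h.smooth c1 c2 hz
    have f0 : (F.dg (fun l i => Complex.exp ((((0 : ℝ) • θ) l i : ℂ) * Complex.I) * cx (ex x) l i)) = p := by
      rw [hp]
      congr 1
      funext l i
      simp
    have f1 : (F.dg (fun l i => (θ l i : ℂ) * Complex.I *
        Complex.exp ((((0 : ℝ) • θ) l i : ℂ) * Complex.I) * cx (ex x) l i)) = Complex.I • v := by
      rw [hv, ← map_smul]
      congr 1
      funext l i
      simp [cx]
      ring
    have f2 : (F.dg (fun l i => (θ l i : ℂ) * Complex.I * ((θ l i : ℂ) * Complex.I *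
          Complex.exp ((((0 : ℝ) • θ) l i : ℂ) * Complex.I)) * cx (ex x) l i)) = -y := by
      rw [hy, ← map_neg]
      congr 1
      funext l i
      simp [cx]
      ring_nf
      simp [Complex.I_sq]
    rw [f0, f1, f2] at h3
    exact h3
  have hv0 : fderiv ℝ ρ p v = 0 := by
    have := sig_line h x θ 0
    rw [e0, hθ] at this
    exact this.symm
  have h5 := h.levi p hp0 v hv0 a2.1
  have h6 := a2.2
  rw [map_neg] at h6
  rw [a1]
  linarith

end H5.PK
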