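import Pool.Agent.H5.PK.Pth
import Pool.Agent.H5.PK.Tor
import Pool.Agent.H5.PK.Rl

/-! # PK.Cvx : the sorted logarithmic image is convex

Let `x ∈ Lam`, `S = {y | ∀ t ∈ [0, 1], sig F ρ (x + t (y - x)) < 0}`. `S` is open (compactness of `[0, 1]`, continuity of `sig`: `sig_smooth`). `Lam ∩ S` is nonempty (`y = x`). If `y ∈ Lam` is a limit of points `y_k ∈ S` then `sig ≤ 0` on `[x, y]`, so by `seg_neg` (`sig_smooth`, `sig_reg`, `sig_hess`) `sig < 0` on `[x, y)`,
and `sig F ρ y < 0` as `y ∈ Lam`: `y ∈ S`. So `S` and the interior of the complement of `S` (open sets) cover `Lam`; `Lam_preconnected` gives `Lam ⊆ S`. The sorted vectors form a convex cone, so `x + t (y - x) ∈ Lam`. -/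

namespace H5.PK

open Topology

variable {V : Type} [NormedAddCommGroup V] [NormedSpace ℂ V] {L : Type} [Fintype L] [DecidableEq L]
variable {r : L → ℕ} {F : Frame V r} {ρ : V → ℝ}

private theorem cvx_cont (h : PDom F ρ) (x : X r) :
    Continuous fun p : X r × ℝ => sig F ρ (x + p.2 • (p.1 - x)) := by
  have h1 : Continuous (sig F ρ) := (sig_smooth h).continuous
  have h2 : Continuous fun p : X r × ℝ => x + p.2 • (p.1 - x) := by fun_prop
  exact h1.comp h2

private theorem cvx_seg (h : PDom F ρ) {x : X r} (hx : x ∈ Lam F ρ) :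
    Lam F ρ ⊆ {y | ∀ t ∈ Set.Icc (0 : ℝ) 1, sig F ρ (x + t • (y - x)) < 0} := by
  have hc := cvx_cont h x
  refine (Lam_preconnected h).subset_of_closure_inter_subset ?_ ⟨x, hx, ?_⟩ ?_
  · rw [isOpen_iff_mem_nhds]
    intro y hy
    have h1 : ∀ᶠ y' in 𝓝 y, ∀ t ∈ Set.Icc (0 : ℝ) 1, sig F ρ (x + t • (y' - x)) < 0 := by
      apply isCompact_Icc.eventually_forall_of_forall_eventually
      intro t ht
      exact hc.continuousAt.eventually_lt_const (hy t ht)
    exact h1
  · intro t _
    rw [sub_self, smul_zero, add_zero]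
    exact hx.2
  · rintro y ⟨hy1, hy2⟩ t ht
    have hle : ∀ t ∈ Set.Icc (0 : ℝ) 1, sig F ρ (x + t • (y - x)) ≤ 0 := by
      intro t ht
      have hcl : IsClosed {y : X r | sig F ρ (x + t • (y - x)) ≤ 0} := by
        refine isClosed_le ?_ continuous_const
        exact hc.comp (Continuous.prodMk continuous_id continuous_const)
      exact closure_minimal (fun z hz => (hz t ht).le) hcl hy1
    rcases lt_or_eq_of_le ht.2 with h1 | h1
    · exact seg_neg (sig_smooth h) (fun z hz => sig_reg h z hz)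
        (fun z v hz hv => sig_hess h z v hz hv) hx.2 hle t ⟨ht.1, h1⟩
    · rw [h1, one_smul, add_sub_cancel]
      exact hy2.2

theorem Lam_convex (h : PDom F ρ) : Convex ℝ (Lam F ρ) := by
  intro x hx y hy a b ha hb hab
  have h1 := cvx_seg h hx hy b ⟨hb, by linarith⟩
  have h2 : x + b • (y - x) = a • x + b • y := by
    have h3 : a = 1 - b := by linarith
    rw [h3, smul_sub, sub_smul, one_smul]
    abel
  rw [h2] at h1
  refine ⟨fun l i j hij => ?_, h1⟩
  have h4 := hx.1 l hij
  have h5 := hy.1 l hij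
  show a * x l j + b * y l j ≤ a * x l i + b * y l i
  exact add_le_add (mul_le_mul_of_nonneg_left h4 ha) (mul_le_mul_of_nonneg_left h5 hb)

end H5.PK
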