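import Pool.Agent.H5.PK.Stmt

/-! # PK.Defs : definitions for MP_c69c51_an (peak points; domains with many unitary symmetries)

Complete, no sorry. `V` is a finite dimensional complex normed space. `X r` are the real vectors with blocks `l : L` of lengths `r l`
(singular values), `XC r` the complex ones. A `Frame` collects the facts on the singular value decomposition in products of matrix
spaces which the proof needs; `PDom F ρ` is a bounded pseudoconvex domain `ρ < 0` invariant under the group `F.K`. -/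

namespace H5.PK

open Topology

/-- real vectors with blocks `l` of length `r l` -/
abbrev X {L : Type} (r : L → ℕ) : Type := (l : L) → Fin (r l) → ℝ

/-- complex vectors with blocks `l` of length `r l` -/
abbrev XC {L : Type} (r : L → ℕ) : Type := (l : L) → Fin (r l) → ℂ

/-- a real vector as a complex vector -/
def cx {L : Type} {r : L → ℕ} (b : X r) : XC r := fun l i => (b l i : ℂ)

/-- `c` times a unit vector -/
def e1 {L : Type} [DecidableEq L] {r : L → ℕ} (l : L) (i : Fin (r l)) (c : ℂ) : XC r :=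
  Pi.single l (Pi.single i c)

/-- nonnegative and decreasing in each block -/
def Srt {L : Type} {r : L → ℕ} (b : X r) : Prop := (∀ l i, 0 ≤ b l i) ∧ ∀ l, Antitone (b l)

/-- componentwise exponential -/
noncomputable def ex {L : Type} {r : L → ℕ} (x : X r) : X r := fun l i => Real.exp (x l i)

/-- geometric mean of two vectors with weights `1 - t` and `t` -/
noncomputable def mx {L : Type} {r : L → ℕ} (t : ℝ) (b c : X r) : X r :=
  fun l i => (b l i) ^ (1 - t) * (c l i) ^ t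

/-- the logarithmic height of `s` over `a` with weights `α` -/
noncomputable def UU {L : Type} [Fintype L] {r : L → ℕ} (α a s : X r) : ℝ :=
  ∑ l, ∑ i, α l i * (Real.log (s l i) - Real.log (a l i))

/-- the weight function, the exponential of `UU` (also for vanishing entries) -/
noncomputable def wt {L : Type} [Fintype L] {r : L → ℕ} (α a s : X r) : ℝ :=
  ∏ l, ∏ i, (s l i / a l i) ^ (α l i)

section
variable {V : Type} [NormedAddCommGroup V] [NormedSpace ℂ V]

/-- a curve in the orbit `K p` with two derivatives -/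
structure Cu (K : Set (V →L[ℂ] V)) (p : V) (c c' : ℝ → V) (c'' : V) : Prop where
  d1 : ∀ t, HasDerivAt c (c' t) t
  d2 : HasDerivAt c' c'' 0
  zero : c 0 = p
  orb : ∀ t, ∃ k ∈ K, c t = k p

/-- a pair of curves in the orbit `K p` with first derivatives `x`, `I x` at `0`, `P x = 0`, and `w` the
`P`-part of the sum of the second derivatives -/
def RP {L : Type} {r : L → ℕ} (K : Set (V →L[ℂ] V)) (P : V →L[ℂ] XC r) (p : V) (w : XC r) : Prop :=
  ∃ (x : V) (c₁ c₁' c₂ c₂' : ℝ → V) (y₁ y₂ : V), P x = 0 ∧ Cu K p c₁ c₁' y₁ ∧ c₁' 0 = x ∧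
    Cu K p c₂ c₂' y₂ ∧ c₂' 0 = Complex.I • x ∧ P (y₁ + y₂) = w

variable {L : Type} [Fintype L] [DecidableEq L]

/-- the facts on singular value decompositions used in the proof -/
structure Frame (V : Type) [NormedAddCommGroup V] [NormedSpace ℂ V] {L : Type} [Fintype L]
    [DecidableEq L] (r : L → ℕ) where
  /-- the group -/
  K : Set (V →L[ℂ] V)
  /-- diagonal elements -/
  dg : XC r →L[ℂ] V
  /-- the diagonal part -/
  P : V →L[ℂ] XC r
  /-- the singular values, decreasing in each block -/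
  s : V → X r
  /-- the block is square -/
  tube : L → Prop
  /-- the degree of the minors (`1` for matrices) -/
  d : L → ℕ
  /-- the leading minors -/
  Δ : (l : L) → Fin (r l) → V → ℂ
  P_dg : ∀ b, P (dg b) = b
  K_inv : ∀ k ∈ K, ∃ k' ∈ K, (∀ z, k' (k z) = z) ∧ ∀ z, k (k' z) = z
  s_cont : Continuous s
  s_srt : ∀ z, Srt (s z)
  s_K : ∀ k ∈ K, ∀ z, s (k z) = s z
  s_dg : ∀ b : X r, Srt b → s (dg (cx b)) = b
  polar : ∀ z, ∃ k ∈ K, z = k (dg (cx (s z)))
  torus : ∀ θ : X r, ∃ k ∈ K, ∀ b : XC r,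
    k (dg b) = dg (fun l i => Complex.exp ((θ l i : ℂ) * Complex.I) * b l i)
  swap : ∀ (a : X r) (l : L) (i j : Fin (r l)), a l i = a l j →
    ∃ k ∈ K, (∀ z, k (k z) = z) ∧ k (dg (cx a)) = dg (cx a) ∧ ∀ c, k (dg (e1 l i c)) = dg (e1 l j c)
  grad : ∀ a : X r, (∀ l i, 0 ≤ a l i) → ∀ f : V →L[ℝ] ℝ,
    (∀ k ∈ K, (∀ z, k (k (k (k z))) = z) → k (dg (cx a)) = dg (cx a) → ∀ z, f (k z) = f z) →
    (∀ z, f z = f (dg (P z))) ∧ ∀ l i, a l i = 0 → ∀ c, f (dg (e1 l i c)) = 0
  root : ∀ a : X r, (∀ l i, 0 ≤ a l i) → ∀ (l : L) (i j : Fin (r l)), a l j < a l i →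
    ∃ κ : ℝ, 0 < κ ∧ RP K P (dg (cx a))
      (e1 l i ((-(κ * a l i) : ℝ) : ℂ) + e1 l j ((κ * a l j : ℝ) : ℂ))
  root' : ∀ a : X r, (∀ l i, 0 ≤ a l i) → ∀ (l : L) (i : Fin (r l)), ¬ tube l → 0 < a l i →
    ∃ κ : ℝ, 0 < κ ∧ RP K P (dg (cx a)) (e1 l i ((-κ : ℝ) : ℂ))
  d_pos : ∀ l, 0 < d l
  Δ_diff : ∀ l k, Differentiable ℂ (Δ l k)
  Δ_dg : ∀ l k (b : XC r), Δ l k (dg b) = (∏ i ∈ Finset.Iic k, b l i) ^ d l
  Δ_le : ∀ l k z, ‖Δ l k z‖ ≤ (∏ i ∈ Finset.Iic k, s z l i) ^ d l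
  Δ_eq : ∀ l, tube l → ∀ k : Fin (r l), (k : ℕ) + 1 = r l → ∀ z, ‖Δ l k z‖ = (∏ i, s z l i) ^ d l
  iso : ∀ a : X r, Srt a → ∃ φ : V →L[ℂ] ℂ, φ (dg (cx a)) = ((∑ l, ∑ i, a l i ^ 2 : ℝ) : ℂ) ∧
    ∀ z, s z = a → ‖φ z‖ ≤ ∑ l, ∑ i, a l i ^ 2 ∧
      (φ z = ((∑ l, ∑ i, a l i ^ 2 : ℝ) : ℂ) → z = dg (cx a))

variable {r : L → ℕ}

/-- a bounded pseudoconvex domain `ρ < 0` with `C²` boundary, invariant under the group of the frame -/
structure PDom (F : Frame V r) (ρ : V → ℝ) : Prop where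
  bdd : Bornology.IsBounded {z | ρ z < 0}
  conn : IsConnected {z | ρ z < 0}
  smooth : ContDiff ℝ 2 ρ
  reg : ∀ p, ρ p = 0 → fderiv ℝ ρ p ≠ 0
  levi : ∀ p, ρ p = 0 → ∀ w : V, fderiv ℝ ρ p w = 0 → fderiv ℝ ρ p (Complex.I • w) = 0 →
    0 ≤ iteratedFDeriv ℝ 2 ρ p ![w, w] + iteratedFDeriv ℝ 2 ρ p ![Complex.I • w, Complex.I • w]
  inv : ∀ k ∈ F.K, ∀ z, ρ z < 0 → ρ (k z) < 0

/-- derivative of `ρ` at a diagonal point in the direction of a diagonal unit vector -/
noncomputable def gm (F : Frame V r) (ρ : V → ℝ) (a : X r) : X r :=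
  fun l i => fderiv ℝ ρ (F.dg (cx a)) (F.dg (e1 l i 1))

/-- the logarithmic gradient at a diagonal point -/
noncomputable def gr (F : Frame V r) (ρ : V → ℝ) (a : X r) : X r :=
  fun l i => fderiv ℝ ρ (F.dg (cx a)) (F.dg (e1 l i (a l i : ℂ)))

/-- `ρ` in logarithmic coordinates -/
noncomputable def sig (F : Frame V r) (ρ : V → ℝ) (x : X r) : ℝ := ρ (F.dg (cx (ex x)))

/-- singular values of points of the closure of the domain -/
def Cb (F : Frame V r) (ρ : V → ℝ) : Set (X r) := {b | Srt b ∧ ρ (F.dg (cx b)) ≤ 0}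

/-- positive singular values of points of the domain -/
def Co (F : Frame V r) (ρ : V → ℝ) : Set (X r) :=
  {b | Srt b ∧ (∀ l i, 0 < b l i) ∧ ρ (F.dg (cx b)) < 0}

/-- the sorted logarithmic image of the domain -/
def Lam (F : Frame V r) (ρ : V → ℝ) : Set (X r) := {x | (∀ l, Antitone (x l)) ∧ sig F ρ x < 0}

/-- exponents of the minors for given exponents `A` of the singular values -/
def expo (A : (l : L) → Fin (r l) → ℤ) (l : L) (k : Fin (r l)) : ℤ :=
  A l k - (if h : (k : ℕ) + 1 < r l then A l ⟨(k : ℕ) + 1, h⟩ else 0)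

/-- product of powers of the leading minors -/
noncomputable def Gf (F : Frame V r) (A : (l : L) → Fin (r l) → ℤ) (z : V) : ℂ :=
  ∏ l, ∏ k, (F.Δ l k z) ^ (expo A l k)

end

end H5.PK
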