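import Pool.Agent.H5.PK.Bas

/-! # PK.Den : simple facts on `Cb`, `Co`, `Lam`; density

`Cb_closed`: `Srt` is a closed condition, `b ↦ ρ (dg (cx b))` is continuous. `add_Co`: let `Srt b`, `ρ (dg (cx b)) < 0`; for small `ε > 0` the vector `b + ε` (constant added) is in `Co` (continuity). `exists_Co_near`: `b ∈ Cb`: `dg (cx b)` is in the closure of `ρ < 0` (`closure_lt`),
`s` is continuous (`F.s_cont`), `s (dg (cx b)) = b` (`F.s_dg`): there is `Z` with `ρ Z < 0` and `dist (s Z) b < η / 2`; `s Z` is sorted and `ρ (dg (cx (s Z))) < 0` (`s_lt`); then `add_Co` with small `ε`. `Co_nonempty`: `h.conn` is nonempty, the same with `s Z`.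
`log_Lam`: for `c ∈ Co` the vector `log c` is in `Lam` and `ex (log c) = c`. `ex_Co`: for `x ∈ Lam` the vector `ex x` is in `Co`. -/

namespace H5.PK

variable {V : Type} [NormedAddCommGroup V] [NormedSpace ℂ V] {L : Type} [Fintype L] [DecidableEq L]
variable {r : L → ℕ} {F : Frame V r} {ρ : V → ℝ}

set_option linter.unusedSectionVars false

theorem cx_continuous : Continuous (cx : X r → XC r) := by
  unfold cx
  fun_prop

theorem Cb_closed (h : PDom F ρ) : IsClosed (Cb F ρ) := by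
  have h1 : IsClosed {b : X r | Srt b} := by
    have e : {b : X r | Srt b} = (⋂ l, ⋂ i, {b : X r | 0 ≤ b l i}) ∩
        (⋂ l, ⋂ i, ⋂ j, ⋂ (_ : i ≤ j), {b : X r | b l j ≤ b l i}) := by
      ext b
      simp only [Set.mem_ofPred_eq, Set.mem_inter_iff, Set.mem_iInter, Srt]
      constructor
      · rintro ⟨h1, h2⟩
        exact ⟨h1, fun l i j hij => h2 l hij⟩
      · rintro ⟨h1, h2⟩
        exact ⟨h1, fun l i j hij => h2 l i j hij⟩
    rw [e]
    refine IsClosed.inter ?_ ?_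
    · refine isClosed_iInter fun l => isClosed_iInter fun i => ?_
      exact isClosed_le continuous_const (by fun_prop)
    · refine isClosed_iInter fun l => isClosed_iInter fun i => isClosed_iInter fun j =>
        isClosed_iInter fun _ => ?_
      exact isClosed_le (by fun_prop) (by fun_prop)
  have h2 : IsClosed {b : X r | ρ (F.dg (cx b)) ≤ 0} :=
    isClosed_le (h.smooth.continuous.comp (F.dg.continuous.comp cx_continuous)) continuous_const
  exact h1.inter h2

theorem Co_sub {b : X r} (hb : b ∈ Co F ρ) : b ∈ Cb F ρ := ⟨hb.1, hb.2.2.le⟩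

theorem add_Co (h : PDom F ρ) {b : X r} (hb : Srt b) (hlt : ρ (F.dg (cx b)) < 0) :
    ∃ ε₀ > 0, ∀ ε : ℝ, 0 < ε → ε ≤ ε₀ → (fun l i => b l i + ε) ∈ Co F ρ := by
  have hc : Continuous (fun ε : ℝ => ρ (F.dg (cx (fun l i => b l i + ε : X r)))) := by
    refine h.smooth.continuous.comp (F.dg.continuous.comp (cx_continuous.comp ?_))
    fun_prop
  have h0 : (fun ε : ℝ => ρ (F.dg (cx (fun l i => b l i + ε : X r)))) 0 < 0 := by
    simpa using hlt
  have hev := (hc.tendsto 0).eventually_lt_const h0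
  obtain ⟨δ, hδ, hball⟩ := Metric.eventually_nhds_iff.1 hev
  refine ⟨δ / 2, by positivity, fun ε he1 he2 => ⟨⟨fun l i => ?_, fun l i j hij => ?_⟩,
    fun l i => ?_, ?_⟩⟩
  · have := hb.1 l i
    simp only
    linarith
  · have := hb.2 l hij
    simp only
    linarith
  · have := hb.1 l i
    simp only
    linarith
  · apply hball
    rw [Real.dist_eq, sub_zero, abs_of_pos he1]
    linarith

theorem near_aux (h : PDom F ρ) {b : X r} (hb : Srt b) (hlt : ρ (F.dg (cx b)) < 0) {η : ℝ}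
    (hη : 0 < η) : ∃ c ∈ Co F ρ, dist c b < η := by
  obtain ⟨ε₀, h0, hh⟩ := add_Co h hb hlt
  have hm : 0 < min ε₀ (η / 2) := lt_min h0 (by positivity)
  refine ⟨_, hh (min ε₀ (η / 2)) hm (min_le_left _ _), ?_⟩
  have hle : dist (fun l i => b l i + min ε₀ (η / 2) : X r) b ≤ min ε₀ (η / 2) := by
    refine (dist_pi_le_iff hm.le).2 fun l => (dist_pi_le_iff hm.le).2 fun i => ?_
    rw [Real.dist_eq]
    simp only [add_sub_cancel_left]
    rw [abs_of_pos hm]
  have := min_le_right ε₀ (η / 2)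
  linarith

theorem exists_Co_near (h : PDom F ρ) {b : X r} (hb : b ∈ Cb F ρ) {η : ℝ} (hη : 0 < η) :
    ∃ c ∈ Co F ρ, dist c b < η := by
  have hcl : F.dg (cx b) ∈ closure {z | ρ z < 0} := by
    rw [closure_lt h.smooth h.reg]
    exact hb.2
  have hs := F.s_cont.continuousAt (x := F.dg (cx b))
  rw [Metric.continuousAt_iff] at hs
  obtain ⟨δ, hδ, hd⟩ := hs (η / 2) (by positivity)
  obtain ⟨Z, hZ, hZd⟩ := Metric.mem_closure_iff.1 hcl δ hδ
  have h1 := hd (by rw [dist_comm]; exact hZd)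
  rw [F.s_dg b hb.1] at h1
  obtain ⟨c, hc, hcd⟩ := near_aux h (F.s_srt Z) ((h.s_lt Z).2 hZ) (η := η / 2) (by positivity)
  refine ⟨c, hc, ?_⟩
  have := dist_triangle c (F.s Z) b
  linarith

theorem Co_nonempty (h : PDom F ρ) : (Co F ρ).Nonempty := by
  obtain ⟨Z, hZ⟩ := h.conn.nonempty
  obtain ⟨c, hc, -⟩ := near_aux h (F.s_srt Z) ((h.s_lt Z).2 hZ) (η := 1) one_pos
  exact ⟨c, hc⟩

theorem ex_log {c : X r} (hc : ∀ l i, 0 < c l i) : ex (fun l i => Real.log (c l i)) = c := by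
  funext l i
  exact Real.exp_log (hc l i)

theorem log_Lam {c : X r} (hc : c ∈ Co F ρ) : (fun l i => Real.log (c l i)) ∈ Lam F ρ := by
  refine ⟨fun l i j hij => Real.log_le_log (hc.2.1 l j) (hc.1.2 l hij), ?_⟩
  unfold sig
  rw [ex_log hc.2.1]
  exact hc.2.2

theorem ex_Co {x : X r} (hx : x ∈ Lam F ρ) : ex x ∈ Co F ρ :=
  ⟨⟨fun _ _ => (Real.exp_pos _).le, fun l _ _ hij => Real.exp_le_exp.2 (hx.1 l hij)⟩,
    fun _ _ => Real.exp_pos _, hx.2⟩

end H5.PK
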