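import Mathlib

/-! # PK.Tel : products of powers of partial products (pure)

`E k = A k - A (k + 1)` with `A n := 0` at the end. `tel_nat`: if `0 ≤ A i` for all `i` and `A` is antitone then all `E k ≥ 0`; `∏ k, (∏ i ≤ k, x i) ^ E k = ∏ i, x i ^ (∑ k ≥ i, E k)` (exponents in `ℕ`, valid also for `x i = 0`) and `∑ k ≥ i, E k = A i` (telescoping).
`tel_unit`: the same if all `x i ≠ 0`, with integer exponents (`zpow`). It may be convenient to do induction on `n` (split off the first factor: `Fin.prod_univ_succ`), or to prove `∑ k ≥ i, E k = A i` by downward induction. `tel` is over a field (`ℝ` and `ℂ` are needed). -/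

namespace H5.PK

/-- exponents of the partial products -/
def exp0 {n : ℕ} (A : Fin n → ℤ) (k : Fin n) : ℤ :=
  A k - (if h : (k : ℕ) + 1 < n then A ⟨(k : ℕ) + 1, h⟩ else 0)

theorem exp0_nonneg {n : ℕ} {A : Fin n → ℤ} (hA : Antitone A) (h0 : ∀ i, 0 ≤ A i) (k : Fin n) :
    0 ≤ exp0 A k := by
  unfold exp0
  split_ifs with h
  · have h1 : A ⟨(k : ℕ) + 1, h⟩ ≤ A k := hA (by
      rw [Fin.le_def]
      exact Nat.le_succ _)
    omega
  · have := h0 k
    omega

theorem exp0_nonneg' {n : ℕ} {A : Fin n → ℤ} (hA : Antitone A) (k : Fin n) (hk : (k : ℕ) + 1 < n) :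
    0 ≤ exp0 A k := by
  unfold exp0
  rw [dif_pos hk]
  have h1 : A ⟨(k : ℕ) + 1, hk⟩ ≤ A k := hA (by
    rw [Fin.le_def]
    exact Nat.le_succ _)
  omega

theorem exp0_last {n : ℕ} (A : Fin n → ℤ) (k : Fin n) (hk : (k : ℕ) + 1 = n) : exp0 A k = A k := by
  unfold exp0
  rw [dif_neg (by omega), sub_zero]

theorem sum_exp0 {n : ℕ} (A : Fin n → ℤ) (i : Fin n) :
    ∑ k ∈ Finset.Ici i, exp0 A k = A i := by
  have key : ∀ m : ℕ, ∀ i : Fin n, n - (i : ℕ) = m → ∑ k ∈ Finset.Ici i, exp0 A k = A i := by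
    intro m
    induction m with
    | zero =>
      intro i hi
      have := i.2
      omega
    | succ m ih =>
      intro i hi
      have h1 : Finset.Ici i = insert i (Finset.Ioi i) := by
        ext j
        rw [Finset.mem_Ici, Finset.mem_insert, Finset.mem_Ioi]
        constructor
        · intro h
          rcases h.eq_or_lt with h | h
          · exact Or.inl h.symm
          · exact Or.inr h
        · rintro (h | h)
          · exact h.ge
          · exact h.le
      rw [h1, Finset.sum_insert (by simp)]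
      by_cases h : (i : ℕ) + 1 < n
      · have h2 : Finset.Ioi i = Finset.Ici (⟨(i : ℕ) + 1, h⟩ : Fin n) := by
          ext j
          rw [Finset.mem_Ici, Finset.mem_Ioi, Fin.lt_def, Fin.le_def]
          exact Iff.rfl
        rw [h2, ih ⟨(i : ℕ) + 1, h⟩ (by
          show n - ((i : ℕ) + 1) = m
          omega)]
        unfold exp0
        rw [dif_pos h]
        omega
      · have h2 : Finset.Ioi i = ∅ := by
          rw [Finset.eq_empty_iff_forall_notMem]
          intro j hj
          rw [Finset.mem_Ioi, Fin.lt_def] at hj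
          have := j.2
          omega
        have := i.2
        rw [h2, Finset.sum_empty, add_zero, exp0_last A i (by omega)]
  exact key _ i rfl

private theorem tel_pow {𝕜 ι : Type} [Field 𝕜] (x : 𝕜) (E : ι → ℤ) (s : Finset ι)
    (h : (∀ k, 0 ≤ E k) ∨ x ≠ 0) : ∏ k ∈ s, x ^ E k = x ^ (∑ k ∈ s, E k) := by
  classical
  induction s using Finset.induction_on with
  | empty => simp
  | insert a s ha ih =>
    rw [Finset.prod_insert ha, Finset.sum_insert ha, ih]
    rcases h with h | h
    · have h1 := h a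
      have h2 : 0 ≤ ∑ k ∈ s, E k := Finset.sum_nonneg fun k _ => h k
      refine (zpow_add' ?_).symm
      by_cases h3 : E a + ∑ k ∈ s, E k = 0
      · exact Or.inr (Or.inr ⟨by omega, by omega⟩)
      · exact Or.inr (Or.inl h3)
    · exact (zpow_add₀ h _ _).symm

theorem tel {𝕜 : Type} [Field 𝕜] {n : ℕ} {A : Fin n → ℤ} (hA : Antitone A) (x : Fin n → 𝕜)
    (h : (∀ i, 0 ≤ A i) ∨ ∀ i, x i ≠ 0) :
    ∏ k, (∏ i ∈ Finset.Iic k, x i) ^ exp0 A k = ∏ i, x i ^ A i := by
  have h1 : ∀ k, (∏ i ∈ Finset.Iic k, x i) ^ exp0 A k = ∏ i ∈ Finset.Iic k, x i ^ exp0 A k :=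
    fun k => (Finset.prod_zpow x (Finset.Iic k) (exp0 A k)).symm
  rw [Finset.prod_congr rfl fun k _ => h1 k]
  rw [Finset.prod_comm' (s' := fun i => Finset.Ici i) (t' := Finset.univ) (by
    intro k i
    simp)]
  refine Finset.prod_congr rfl fun i _ => ?_
  rw [tel_pow, sum_exp0]
  rcases h with h | h
  · exact Or.inl fun k => exp0_nonneg hA h k
  · exact Or.inr (h i)

end H5.PK
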