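import Pool.Agent.H5.PK.Defs
import Pool.Agent.H5.PK.Tel

/-! # PK.Fn : products of powers of leading minors

`expo A l k = exp0 (A l) k` (definition). The powers `x = s ^ d l` satisfy `∏ i ≤ k, x i = (∏ i ≤ k, s i) ^ d l` (`Finset.prod_pow`). `Gf_dg`: `F.Δ_dg` and `tel` over `ℂ` in each block. `Gf_le`: `‖(F.Δ l k z) ^ e‖ ≤ ((∏ i ≤ k, s z l i) ^ d l) ^ e` with `e = expo A l k`: for `e ≥ 0` by `F.Δ_le`; a negative `e` is possible only for the last `k` of a block (`exp0_nonneg'`, `exp0_last`),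
in the second case of `h`, where `‖F.Δ l k z‖ = (∏ i, s z l i) ^ d l`, `Finset.Iic k = univ` (`F.Δ_eq`). Then `tel` over `ℝ` (`0 ≤ A l i` for all `i`, or `s z l i ≠ 0` for all `i`). `Gf_diff`: each factor is differentiable at `z`: exponent `≥ 0` (`F.Δ_diff`, write it as a natural number), or the last minor of a square block,
which is nonzero at `z` by `F.Δ_eq` and `0 < s z l i` (`DifferentiableAt.zpow`). -/

namespace H5.PK

variable {V : Type} [NormedAddCommGroup V] [NormedSpace ℂ V] {L : Type} [Fintype L] [DecidableEq L]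
variable {r : L → ℕ}

omit [Fintype L] [DecidableEq L] in
private theorem expo_eq (A : (l : L) → Fin (r l) → ℤ) (l : L) (k : Fin (r l)) :
    expo A l k = exp0 (A l) k := rfl

private theorem diff_prod {ι : Type} [Fintype ι] {f : ι → V → ℂ} {z : V}
    (h : ∀ i, DifferentiableAt ℂ (f i) z) : DifferentiableAt ℂ (fun z => ∏ i, f i z) z := by
  classical
  exact (HasFDerivAt.finsetProd fun i _ => (h i).hasFDerivAt).differentiableAt

/-- the exponent is nonnegative, or the minor is the last one of a square block with positive singular values -/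
private theorem expo_cases (F : Frame V r) {A : (l : L) → Fin (r l) → ℤ} (hA : ∀ l, Antitone (A l)) (z : V)
    (h : ∀ l, (∀ i, 0 ≤ A l i) ∨ (F.tube l ∧ ∀ i, 0 < F.s z l i)) (l : L) (k : Fin (r l)) :
    0 ≤ expo A l k ∨ (F.tube l ∧ (k : ℕ) + 1 = r l ∧ ∀ i, 0 < F.s z l i) := by
  rcases h l with h1 | ⟨h1, h2⟩
  · left
    rw [expo_eq]
    exact exp0_nonneg (hA l) h1 k
  · by_cases hk : (k : ℕ) + 1 < r l
    · left
      rw [expo_eq]
      exact exp0_nonneg' (hA l) k hk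
    · right
      exact ⟨h1, by have := k.isLt; omega, h2⟩

private theorem iic_last {n : ℕ} (k : Fin n) (hk : (k : ℕ) + 1 = n) : Finset.Iic k = Finset.univ := by
  ext i
  simp only [Finset.mem_Iic, Finset.mem_univ, iff_true]
  have := i.isLt
  exact Fin.le_def.mpr (by omega)

theorem Gf_dg (F : Frame V r) {A : (l : L) → Fin (r l) → ℤ} (hA : ∀ l, Antitone (A l)) (a : X r)
    (h : ∀ l, (∀ i, 0 ≤ A l i) ∨ ∀ i, a l i ≠ 0) :
    Gf F A (F.dg (cx a)) = ((∏ l, ∏ i, ((a l i) ^ (F.d l)) ^ (A l i) : ℝ) : ℂ) := by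
  unfold Gf
  push_cast
  apply Finset.prod_congr rfl
  intro l _
  have h1 : ∀ k, (F.Δ l k (F.dg (cx a))) ^ (expo A l k) =
      (∏ i ∈ Finset.Iic k, ((a l i : ℂ)) ^ (F.d l)) ^ (exp0 (A l) k) := by
    intro k
    rw [F.Δ_dg, expo_eq, Finset.prod_pow]
    rfl
  rw [Finset.prod_congr rfl fun k _ => h1 k]
  apply tel (hA l)
  rcases h l with h2 | h2
  · exact Or.inl h2
  · refine Or.inr fun i => pow_ne_zero _ ?_
    exact_mod_cast h2 i

theorem Gf_le (F : Frame V r) {A : (l : L) → Fin (r l) → ℤ} (hA : ∀ l, Antitone (A l)) (z : V)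
    (h : ∀ l, (∀ i, 0 ≤ A l i) ∨ (F.tube l ∧ ∀ i, 0 < F.s z l i)) :
    ‖Gf F A z‖ ≤ ∏ l, ∏ i, ((F.s z l i) ^ (F.d l)) ^ (A l i) := by
  unfold Gf
  rw [norm_prod]
  apply Finset.prod_le_prod
  · intro l _
    exact norm_nonneg _
  intro l _
  rw [norm_prod]
  have hs : ∀ i, 0 ≤ F.s z l i := (F.s_srt z).1 l
  have h1 : ∀ k, ‖(F.Δ l k z) ^ (expo A l k)‖ ≤
      (∏ i ∈ Finset.Iic k, (F.s z l i) ^ (F.d l)) ^ (exp0 (A l) k) := by
    intro k
    rw [norm_zpow, ← expo_eq, Finset.prod_pow]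
    rcases expo_cases F hA z h l k with h2 | ⟨h2, h3, h4⟩
    · exact zpow_le_zpow_left₀ h2 (norm_nonneg _) (F.Δ_le l k z)
    · rw [F.Δ_eq l h2 k h3 z, iic_last k h3]
  refine le_trans (Finset.prod_le_prod (fun k _ => norm_nonneg _) fun k _ => h1 k) (le_of_eq ?_)
  apply tel (hA l)
  rcases h l with h2 | ⟨_, h2⟩
  · exact Or.inl h2
  · exact Or.inr fun i => pow_ne_zero _ (h2 i).ne'

theorem Gf_diff (F : Frame V r) {A : (l : L) → Fin (r l) → ℤ} (hA : ∀ l, Antitone (A l)) (z : V)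
    (h : ∀ l, (∀ i, 0 ≤ A l i) ∨ (F.tube l ∧ ∀ i, 0 < F.s z l i)) :
    DifferentiableAt ℂ (Gf F A) z := by
  have h0 : Gf F A = fun z => ∏ l, ∏ k, (F.Δ l k z) ^ (expo A l k) := rfl
  rw [h0]
  refine diff_prod fun l => ?_
  refine diff_prod fun k => ?_
  refine DifferentiableAt.zpow (F.Δ_diff l k z) ?_
  rcases expo_cases F hA z h l k with h2 | ⟨h2, h3, h4⟩
  · exact Or.inr h2
  · left
    rw [← norm_ne_zero_iff, F.Δ_eq l h2 k h3 z]
    exact pow_ne_zero _ (Finset.prod_ne_zero_iff.mpr fun i _ => (h4 i).ne')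

end H5.PK
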