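import Mathlib

/-! # PK.Pw : rounding the exponents (pure)

`A = ⌈N α⌉`, `0 ≤ A - N α < 1` (`Int.le_ceil`, `Int.ceil_lt_add_one`). `x > 0`: `x ^ A = (x ^ α) ^ N * x ^ (A - N α)` (real powers) and `x ^ (A - N α) ≤ max 1 x`. `x = 0`: if `α = 0` then `A = 0`, `1 ≤ 1 * 1`; if `α > 0` and `N > 0` then `A > 0`, `0 ≤ ..`; if `N = 0` then `A = 0`, `1 ≤ 1 * 1`. -/

namespace H5.PK

theorem pow_ceil {x α : ℝ} (hx : 0 ≤ x) (h : x = 0 → 0 ≤ α) (N : ℕ) :
    x ^ ⌈(N : ℝ) * α⌉ ≤ (x ^ α) ^ N * max 1 x := by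
  have h1 : (N : ℝ) * α ≤ (⌈(N : ℝ) * α⌉ : ℝ) := Int.le_ceil _
  have h2 : (⌈(N : ℝ) * α⌉ : ℝ) < (N : ℝ) * α + 1 := Int.ceil_lt_add_one _
  rcases hx.eq_or_lt with h0 | h0
  · have hα := h h0.symm
    rw [← h0]
    rcases hα.eq_or_lt with ha | ha
    · rw [← ha]
      simp
    · rcases Nat.eq_zero_or_pos N with hN | hN
      · rw [hN]
        simp
      · have hA : 0 < ⌈(N : ℝ) * α⌉ := by
          rw [Int.ceil_pos]
          have : (0 : ℝ) < N := by exact_mod_cast hN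
          positivity
        rw [zero_zpow _ hA.ne']
        positivity
  · have h3 : x ^ ⌈(N : ℝ) * α⌉ = (x ^ α) ^ N * x ^ ((⌈(N : ℝ) * α⌉ : ℝ) - N * α) := by
      rw [← Real.rpow_intCast, ← Real.rpow_natCast (x ^ α) N, ← Real.rpow_mul hx, ← Real.rpow_add h0]
      congr 1
      ring
    rw [h3]
    apply mul_le_mul_of_nonneg_left _ (by positivity)
    rcases le_total x 1 with hx1 | hx1
    · exact (Real.rpow_le_one hx hx1 (by linarith)).trans (le_max_left _ _)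
    · refine le_trans ?_ (le_max_right _ _)
      calc x ^ ((⌈(N : ℝ) * α⌉ : ℝ) - N * α) ≤ x ^ (1 : ℝ) :=
            Real.rpow_le_rpow_of_exponent_le hx1 (by linarith)
        _ = x := Real.rpow_one x

end H5.PK
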