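import Pool.Agent.H5.PK.Fn
import Pool.Agent.H5.PK.Pw
import Pool.Agent.H5.PK.Cmp

/-! # PK.Gn : the functions with almost optimal growth

Let `α = gr F ρ a` (decreasing in each block, `gr_anti`; `0` where `a = 0`), `d = F.d l > 0`, `A l i = ⌈N (α l i / d)⌉` (antitone, `0` where `a = 0`), `G z = Gf F A z / Gf F A (dg (cx a))`. For every block `l`: either all `0 ≤ α l i` (so `0 ≤ A l i`), or `F.tube l` and `0 < s l i` for all `s ∈ Cb` (and all `i`):
if some `α l i < 0` then `F.tube l` by `gr_nontube`, and `s l i' = 0` is impossible for `s ∈ Cb` by `gr_complete`; this also applies to `s = a`. `Gf_dg`: `Gf F A (dg (cx a)) = ∏ (a ^ d) ^ A`, not zero (`A = 0` where `a = 0`). If `ρ z ≤ 0` then `s z ∈ Cb` (`s_le`, `F.s_srt`), `Gf_diff` and `Gf_le` apply, and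
`‖G z‖ ≤ ∏ ((s / a) ^ d) ^ A` (where `a = 0` the exponent is `0`) `≤ ∏ (((s / a) ^ d) ^ (α / d)) ^ N * max 1 ((s / a) ^ d)` by `pow_ceil` (if `(s / a) ^ d = 0` with `a ≠ 0` then `s = 0`, so `0 ≤ α`; if `a = 0` then `α = 0`), and `((s / a) ^ d) ^ (α / d) = (s / a) ^ α` (real powers, `s / a ≥ 0`; `Real.rpow_natCast`, `Real.rpow_mul`). -/

namespace H5.PK

variable {V : Type} [NormedAddCommGroup V] [NormedSpace ℂ V] {L : Type} [Fintype L] [DecidableEq L]
variable {r : L → ℕ} {F : Frame V r} {ρ : V → ℝ}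

theorem exists_G (h : PDom F ρ) {a : X r} (ha : a ∈ Cb F ρ) (hz : ρ (F.dg (cx a)) = 0) (N : ℕ) :
    ∃ G : V → ℂ, (∀ z, ρ z ≤ 0 → DifferentiableAt ℂ G z) ∧ G (F.dg (cx a)) = 1 ∧
      ∀ z, ρ z ≤ 0 → ‖G z‖ ≤
        (wt (gr F ρ a) a (F.s z)) ^ N * ∏ l, ∏ i, max 1 ((F.s z l i / a l i) ^ (F.d l)) := by
  have hzero : ∀ l i, a l i = 0 → gr F ρ a l i = 0 := by
    intro l i h0
    rw [gr_eq, h0, zero_mul]
  have hd : ∀ l, (0 : ℝ) < F.d l := fun l => Nat.cast_pos.2 (F.d_pos l)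
  set A : (l : L) → Fin (r l) → ℤ := fun l i => ⌈(N : ℝ) * (gr F ρ a l i / F.d l)⌉ with hAdef
  have hA : ∀ l, Antitone (A l) := by
    intro l i j hij
    have h1 := gr_anti h ha.1 hz l hij
    refine Int.ceil_le_ceil ?_
    refine mul_le_mul_of_nonneg_left ?_ (Nat.cast_nonneg N)
    exact div_le_div_of_nonneg_right h1 (hd l).le
  have H : ∀ (s : X r), s ∈ Cb F ρ → ∀ l, (∀ i, 0 ≤ A l i) ∨ (F.tube l ∧ ∀ i, 0 < s l i) := by
    intro s hs l
    by_cases hneg : ∀ i, 0 ≤ gr F ρ a l i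
    · left
      intro i
      refine Int.ceil_nonneg ?_
      exact mul_nonneg (Nat.cast_nonneg N) (div_nonneg (hneg i) (hd l).le)
    · push Not at hneg
      obtain ⟨i0, hi0⟩ := hneg
      right
      constructor
      · by_contra ht
        exact absurd (gr_nontube h ha.1.1 hz ht i0) (not_le.2 hi0)
      · intro i
        rcases (hs.1.1 l i).eq_or_lt with h1 | h1
        · exact absurd (gr_complete h ha hz hs h1.symm i0) (not_le.2 hi0)
        · exact h1
  have hdg := Gf_dg F hA a (fun l => (H a ha l).imp id fun h1 i => (h1.2 i).ne')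
  set Q : ℝ := ∏ l, ∏ i, ((a l i) ^ (F.d l)) ^ (A l i) with hQ
  have hQpos : 0 < Q := by
    refine Finset.prod_pos fun l _ => Finset.prod_pos fun i _ => ?_
    rcases (ha.1.1 l i).eq_or_lt with h1 | h1
    · have h2 : A l i = 0 := by
        show ⌈(N : ℝ) * (gr F ρ a l i / F.d l)⌉ = 0
        rw [hzero l i h1.symm, zero_div, mul_zero, Int.ceil_zero]
      rw [h2, zpow_zero]
      exact one_pos
    · exact zpow_pos (pow_pos h1 _) _
  have hQC : (Q : ℂ) ≠ 0 := by exact_mod_cast hQpos.ne'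
  refine ⟨fun z => Gf F A z / Gf F A (F.dg (cx a)), fun z hρ => ?_, ?_, fun z hρ => ?_⟩
  · have hs : F.s z ∈ Cb F ρ := ⟨F.s_srt z, (h.s_le z).2 hρ⟩
    have h1 := (Gf_diff F hA z (H _ hs)).mul_const ((Gf F A (F.dg (cx a)))⁻¹)
    simpa only [div_eq_mul_inv] using h1
  · show Gf F A (F.dg (cx a)) / Gf F A (F.dg (cx a)) = 1
    rw [hdg]
    exact div_self hQC
  · have hs : F.s z ∈ Cb F ρ := ⟨F.s_srt z, (h.s_le z).2 hρ⟩
    have hle := Gf_le F hA z (H _ hs)
    show ‖Gf F A z / Gf F A (F.dg (cx a))‖ ≤ _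
    rw [hdg, norm_div, Complex.norm_real, Real.norm_eq_abs, abs_of_pos hQpos]
    have h1 : ‖Gf F A z‖ / Q ≤ (∏ l, ∏ i, ((F.s z l i) ^ (F.d l)) ^ (A l i)) / Q :=
      div_le_div_of_nonneg_right hle hQpos.le
    refine h1.trans ?_
    have h2 : (∏ l, ∏ i, ((F.s z l i) ^ (F.d l)) ^ (A l i)) / Q =
        ∏ l, ∏ i, ((F.s z l i / a l i) ^ (F.d l)) ^ (A l i) := by
      rw [hQ, ← Finset.prod_div_distrib]
      refine Finset.prod_congr rfl fun l _ => ?_
      rw [← Finset.prod_div_distrib]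
      refine Finset.prod_congr rfl fun i _ => ?_
      rw [div_pow, div_zpow]
    rw [h2]
    have hnn : ∀ l i, 0 ≤ F.s z l i / a l i := fun l i => div_nonneg (hs.1.1 l i) (ha.1.1 l i)
    have h3 : ∀ l i, ((F.s z l i / a l i) ^ (F.d l)) ^ (A l i) ≤
        ((F.s z l i / a l i) ^ (gr F ρ a l i)) ^ N * max 1 ((F.s z l i / a l i) ^ (F.d l)) := by
      intro l i
      have h4 := pow_ceil (x := (F.s z l i / a l i) ^ (F.d l)) (α := gr F ρ a l i / F.d l) (pow_nonneg (hnn l i) _) (by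
        intro h5
        have h6 := pow_eq_zero_iff (F.d_pos l).ne' |>.1 h5
        refine div_nonneg ?_ (hd l).le
        rcases div_eq_zero_iff.1 h6 with h7 | h7
        · exact gr_complete h ha hz hs h7 i
        · exact (hzero l i h7).ge) N
      have h5 : ((F.s z l i / a l i) ^ (F.d l)) ^ (gr F ρ a l i / F.d l) = (F.s z l i / a l i) ^ (gr F ρ a l i) := by
        rw [← Real.rpow_natCast (F.s z l i / a l i) (F.d l), ← Real.rpow_mul (hnn l i)]
        congr 1
        have := (hd l).ne'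
        field_simp
      rw [h5] at h4
      exact h4
    refine (Finset.prod_le_prod (fun l _ => Finset.prod_nonneg fun i _ => zpow_nonneg (pow_nonneg (hnn l i) _) _)
      fun l _ => Finset.prod_le_prod (fun i _ => zpow_nonneg (pow_nonneg (hnn l i) _) _) fun i _ => h3 l i).trans
      (le_of_eq ?_)
    unfold wt
    simp only [Finset.prod_mul_distrib, Finset.prod_pow]

end H5.PK
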