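import Pool.Agent.H5.PK.MDef

/-! # PK.IGr : the gradient structure for products of matrix spaces

For a block `l` and an index `i : Fin (m l)` let `S` be the unitary diagonal matrix with entry `-1` at `i` and `1` elsewhere, in `U (m l)`, and `S'` the same in `U (n l)` with entry `-1` at `i`. (1) `Z ↦ S Z S'` (in the block `l`) is an involution (so also `k ∘ k ∘ k ∘ k = id`) in `KM`, fixes `dgL (cx a)`, and maps the elements with a single entry `c` at `(i, j)`, `(j : ℕ) ≠ i`, to their negative:
so `f` vanishes there. (2) If `a l i = 0` then `Z ↦ S Z` is an involution, fixes `dgL (cx a)` (row `i` is zero) and changes the sign of the row `i`: `f` vanishes on `dgL (e1 l i c)`. Every `Z` is the sum of its single entries; `dgL (PL Z)` is the sum of the diagonal ones; `f` is additive. -/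

namespace H5.PK

open scoped Matrix.Norms.Elementwise

variable {L : Type} [Fintype L] [DecidableEq L] {m n : L → ℕ}

/-- diagonal unitary matrices -/
private noncomputable def dU (m : L → ℕ) (e : L → ℕ → ℂ) (he : ∀ l a, e l a * star (e l a) = 1) : UG m := fun l =>
  ⟨Matrix.diagonal fun a : Fin (m l) => e l a, by
    rw [Matrix.mem_unitaryGroup_iff, Matrix.star_eq_conjTranspose, Matrix.diagonal_conjTranspose, Matrix.diagonal_mul_diagonal,
      ← Matrix.diagonal_one]
    congr 1
    funext a
    rw [Pi.star_apply]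
    exact he l a⟩

private theorem dU_apply (e e' : L → ℕ → ℂ) (he : ∀ l a, e l a * star (e l a) = 1) (he' : ∀ l a, e' l a * star (e' l a) = 1)
    (Z : MV m n) (l : L) (a : Fin (m l)) (b : Fin (n l)) :
    actL (dU m e he) (dU n e' he') Z l a b = e l a * Z l a b * e' l b := by
  rw [actL_apply]
  show (Matrix.diagonal (fun a : Fin (m l) => e l a) * Z l * Matrix.diagonal (fun a : Fin (n l) => e' l a)) a b = _
  rw [Matrix.mul_diagonal, Matrix.diagonal_mul]

/-- the sign -/
private noncomputable def es (l : L) (i : ℕ) (l' : L) (a : ℕ) : ℂ := if l' = l ∧ a = i then -1 else 1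

private theorem es_star (l : L) (i : ℕ) (l' : L) (a : ℕ) : es l i l' a * star (es l i l' a) = 1 := by
  unfold es
  split_ifs <;> simp

private theorem es_sq (l : L) (i : ℕ) (l' : L) (a : ℕ) : es l i l' a * es l i l' a = 1 := by
  unfold es
  split_ifs <;> simp

private theorem one_star (l' : L) (a : ℕ) : (fun (_ : L) (_ : ℕ) => (1 : ℂ)) l' a * star ((fun (_ : L) (_ : ℕ) => (1 : ℂ)) l' a) = 1 := by
  simp

private noncomputable def act2 (m n : L → ℕ) (l : L) (i : ℕ) : MV m n →L[ℂ] MV m n :=
  actL (dU m (es l i) (es_star l i)) (dU n (es l i) (es_star l i))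

private noncomputable def act1 (m n : L → ℕ) (l : L) (i : ℕ) : MV m n →L[ℂ] MV m n :=
  actL (dU m (es l i) (es_star l i)) (dU n (fun _ _ => 1) one_star)

private theorem act2_apply (l : L) (i : ℕ) (Z : MV m n) (l' : L) (a : Fin (m l')) (b : Fin (n l')) :
    act2 m n l i Z l' a b = es l i l' a * Z l' a b * es l i l' b := dU_apply _ _ _ _ _ _ _ _

private theorem act1_apply (l : L) (i : ℕ) (Z : MV m n) (l' : L) (a : Fin (m l')) (b : Fin (n l')) :
    act1 m n l i Z l' a b = es l i l' a * Z l' a b := by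
  unfold act1
  rw [dU_apply, mul_one]

private theorem act2_inv (l : L) (i : ℕ) (Z : MV m n) : act2 m n l i (act2 m n l i Z) = Z := by
  funext l' a b
  rw [act2_apply, act2_apply]
  linear_combination (Z l' a b * (es l i l' b * es l i l' b)) * es_sq l i l' a + Z l' a b * es_sq l i l' b

private theorem act1_inv (l : L) (i : ℕ) (Z : MV m n) : act1 m n l i (act1 m n l i Z) = Z := by
  funext l' a b
  rw [act1_apply, act1_apply]
  linear_combination Z l' a b * es_sq l i l' a

private theorem dgL_entry (b : XC m) (l : L) (a : Fin (m l)) (c : Fin (n l)) :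
    dgL m n b l a c = if (a : ℕ) = (c : ℕ) then b l a else 0 := rfl

private theorem act2_dg (l : L) (i : ℕ) (x : XC m) : act2 m n l i (dgL m n x) = dgL m n x := by
  funext l' a b
  rw [act2_apply, dgL_entry]
  split_ifs with h
  · rw [← h]
    linear_combination x l' a * es_sq l i l' a
  · rw [mul_zero, zero_mul]

private theorem act1_dg (l : L) (i : Fin (m l)) (x : XC m) (hx : x l i = 0) : act1 m n l i (dgL m n x) = dgL m n x := by
  funext l' a b
  rw [act1_apply, dgL_entry]
  split_ifs with h
  · unfold es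
    split_ifs with h2
    · obtain ⟨rfl, h3⟩ := h2
      have h4 : a = i := Fin.ext h3
      rw [h4, hx, mul_zero]
    · rw [one_mul]
  · rw [mul_zero]

private theorem act1_e1 (l : L) (i : Fin (m l)) (c : ℂ) : act1 m n l i (dgL m n (e1 l i c)) = -dgL m n (e1 l i c) := by
  funext l' a b
  rw [act1_apply, Pi.neg_apply, Matrix.neg_apply, dgL_entry]
  unfold es e1
  by_cases h1 : l' = l
  · subst h1
    by_cases h2 : a = i
    · subst h2
      rw [if_pos ⟨rfl, rfl⟩, neg_one_mul]
    · rw [Pi.single_eq_same, Pi.single_eq_of_ne h2]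
      simp
  · rw [Pi.single_eq_of_ne h1]
    simp

private theorem act2_single (l : L) (i : Fin (m l)) (j : Fin (n l)) (hij : (i : ℕ) ≠ (j : ℕ)) (c : ℂ) :
    act2 m n l i (Pi.single l (Matrix.single i j c)) = -(Pi.single l (Matrix.single i j c) : MV m n) := by
  funext l' a b
  rw [act2_apply, Pi.neg_apply, Matrix.neg_apply]
  by_cases h1 : l' = l
  · subst h1
    rw [Pi.single_eq_same]
    by_cases h2 : i = a ∧ j = b
    · obtain ⟨rfl, rfl⟩ := h2
      rw [Matrix.single_apply_same]
      unfold es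
      rw [if_pos ⟨rfl, rfl⟩, if_neg (fun h => hij h.2.symm)]
      ring
    · rw [Matrix.single_apply_of_ne _ _ _ _ _ h2]
      ring
  · rw [Pi.single_eq_of_ne h1]
    rw [Matrix.zero_apply]
    ring

private theorem zero_of_neg (f : MV m n →L[ℝ] ℝ) {y z : MV m n} (h : f y = f z) (hy : y = -z) : f z = 0 := by
  rw [hy, map_neg] at h
  linarith

private theorem f_sum (f : MV m n →L[ℝ] ℝ) (h : ∀ l (i : Fin (m l)) (j : Fin (n l)) (c : ℂ), (i : ℕ) ≠ (j : ℕ) →
    f (Pi.single l (Matrix.single i j c)) = 0) (y : MV m n) (hy : ∀ l (i : Fin (m l)) (j : Fin (n l)), (i : ℕ) = (j : ℕ) → y l i j = 0) :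
    f y = 0 := by
  have h1 : y = ∑ l, Pi.single l (y l) := (Finset.univ_sum_single y).symm
  rw [h1, map_sum]
  refine Finset.sum_eq_zero fun l _ => ?_
  let g : Matrix (Fin (m l)) (Fin (n l)) ℂ →+ ℝ :=
    (f : MV m n →+ ℝ).comp (AddMonoidHom.single (fun l => Matrix (Fin (m l)) (Fin (n l)) ℂ) l)
  have h2 : f (Pi.single l (y l)) = g (y l) := rfl
  rw [h2, Matrix.matrix_eq_sum_single (y l), map_sum]
  refine Finset.sum_eq_zero fun i _ => ?_
  rw [map_sum]
  refine Finset.sum_eq_zero fun j _ => ?_
  have h3 : g (Matrix.single i j (y l i j)) = f (Pi.single l (Matrix.single i j (y l i j))) := rfl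
  by_cases hij : (i : ℕ) = (j : ℕ)
  · rw [hy l i j hij, Matrix.single_zero, map_zero]
  · rw [h3]
    exact h l i j _ hij

theorem M_grad (hmn : ∀ l, m l ≤ n l) (a : X m) (ha : ∀ l i, 0 ≤ a l i) (f : MV m n →L[ℝ] ℝ)
    (hf : ∀ k ∈ KM m n, (∀ z, k (k (k (k z))) = z) → k (dgL m n (cx a)) = dgL m n (cx a) →
      ∀ z, f (k z) = f z) :
    (∀ z, f z = f (dgL m n (PL hmn z))) ∧
      ∀ l i, a l i = 0 → ∀ c, f (dgL m n (e1 l i c)) = 0 := by
  constructor
  · intro z
    have h1 : ∀ l (i : Fin (m l)) (j : Fin (n l)) (c : ℂ), (i : ℕ) ≠ (j : ℕ) → f (Pi.single l (Matrix.single i j c)) = 0 := by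
      intro l i j c hij
      refine zero_of_neg f (hf (act2 m n l i) ⟨_, _, rfl⟩ (fun z => ?_) (act2_dg l i _) _) (act2_single l i j hij c)
      rw [act2_inv, act2_inv]
    have h2 : f (z - dgL m n (PL hmn z)) = 0 := by
      refine f_sum f h1 _ fun l i j hij => ?_
      rw [Pi.sub_apply, Matrix.sub_apply, dgL_entry, if_pos hij, PL_apply]
      have h3 : Fin.castLE (hmn l) i = j := Fin.ext (by simpa using hij)
      rw [h3, sub_self]
    rw [map_sub] at h2
    linarith
  · intro l i hai c
    refine zero_of_neg f (hf (act1 m n l i) ⟨_, _, rfl⟩ (fun z => ?_) (act1_dg l i _ ?_) _) (act1_e1 l i c)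
    · rw [act1_inv, act1_inv]
    · show ((a l i : ℝ) : ℂ) = 0
      rw [hai, Complex.ofReal_zero]

end H5.PK
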