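import Pool.Agent.H5.PK.ClC
import Pool.Agent.H5.PK.Rt

/-! # PK.IntM : mixing with an interior point gives interior points

`t = 0`: `mx_zero`. Let `0 < t < 1` and `m = mx t a b ∈ Cb` (`mx_Cb`). Suppose not `ρ (dg (cx m)) < 0`, so `ρ (dg (cx m)) = 0`. Let `α = gr F ρ m`, decreasing in each block (`gr_anti`). For small `ε ≥ 0` the vector `a * exp (ε α)` is in `Co` (product of nonnegative decreasing functions, continuity),
and `mx t (a * exp (ε α)) b = m * exp ((1 - t) ε α) ∈ Cb` by `mx_Cb`. So `ε ↦ ρ (dg (cx (m * exp ((1 - t) ε α))))` is `≤ 0` for small `ε ≥ 0` and `0` at `0`; its derivative at `0` is `(1 - t) ∑ l, ∑ i, α l i * α l i ≤ 0` (`gr_real`). So `α = 0`, against `gr_ne`. -/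

namespace H5.PK

variable {V : Type} [NormedAddCommGroup V] [NormedSpace ℂ V] {L : Type} [Fintype L] [DecidableEq L]
variable {r : L → ℕ} {F : Frame V r} {ρ : V → ℝ}

private theorem der_cx (m α : X r) (t : ℝ) :
    HasDerivAt (fun ε : ℝ => (cx (fun l i => m l i * Real.exp ((1 - t) * ε * α l i)) : XC r))
      (cx (fun l i => (1 - t) * α l i * m l i)) 0 := by
  rw [hasDerivAt_pi]
  intro l
  rw [hasDerivAt_pi]
  intro i
  have h1 : HasDerivAt (fun ε : ℝ => (1 - t) * ε * α l i) ((1 - t) * α l i) 0 := by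
    have h2 : HasDerivAt (fun ε : ℝ => ε * ((1 - t) * α l i)) (1 * ((1 - t) * α l i)) 0 :=
      (hasDerivAt_id (0 : ℝ)).mul_const _
    rw [one_mul] at h2
    refine h2.congr_of_eventuallyEq (Filter.Eventually.of_forall fun ε => ?_)
    change (1 - t) * ε * α l i = ε * ((1 - t) * α l i)
    ring
  have h3 : HasDerivAt (fun ε : ℝ => m l i * Real.exp ((1 - t) * ε * α l i))
      ((1 - t) * α l i * m l i) 0 := by
    have h4 := (h1.exp).const_mul (m l i)
    have h5 : m l i * (Real.exp ((1 - t) * 0 * α l i) * ((1 - t) * α l i)) =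
        (1 - t) * α l i * m l i := by
      rw [mul_zero, zero_mul, Real.exp_zero]
      ring
    rw [h5] at h4
    exact h4
  exact h3.ofReal_comp

theorem mx_int (h : PDom F ρ) {a b : X r} (ha : a ∈ Co F ρ) (hb : b ∈ Cb F ρ) {t : ℝ}
    (ht : t ∈ Set.Ico (0 : ℝ) 1) : ρ (F.dg (cx (mx t a b))) < 0 := by
  rcases ht.1.eq_or_lt with h0 | h0
  · rw [← h0, mx_zero]
    exact ha.2.2
  have htI : t ∈ Set.Icc (0 : ℝ) 1 := ⟨ht.1, ht.2.le⟩
  set m := mx t a b with hm
  have hmC : m ∈ Cb F ρ := mx_Cb h (Co_sub ha) hb htI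
  by_contra hcon
  have hz : ρ (F.dg (cx m)) = 0 := le_antisymm hmC.2 (not_lt.1 hcon)
  set α := gr F ρ m with hα
  have hanti : ∀ l, Antitone (α l) := fun l => gr_anti h hmC.1 hz l
  have hcont : Continuous fun ε : ℝ => ρ (F.dg (cx (fun l i => a l i * Real.exp (ε * α l i)))) := by
    refine h.smooth.continuous.comp (F.dg.continuous.comp (cx_continuous.comp ?_))
    fun_prop
  have hneg : ∀ᶠ ε : ℝ in nhds 0, ρ (F.dg (cx (fun l i => a l i * Real.exp (ε * α l i)))) < 0 := by
    refine hcont.continuousAt.eventually_lt continuousAt_const ?_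
    have : (fun l i => a l i * Real.exp ((0 : ℝ) * α l i)) = a := by
      funext l i
      rw [zero_mul, Real.exp_zero, mul_one]
    rw [this]
    exact ha.2.2
  have hle : ∀ᶠ ε : ℝ in nhdsWithin 0 (Set.Ioi 0),
      ρ (F.dg (cx (fun l i => m l i * Real.exp ((1 - t) * ε * α l i)))) ≤ 0 := by
    filter_upwards [hneg.filter_mono nhdsWithin_le_nhds, self_mem_nhdsWithin] with ε h1 h2
    have h2' : 0 < ε := h2
    have h3 : (fun l i => a l i * Real.exp (ε * α l i)) ∈ Co F ρ := by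
      refine ⟨⟨fun l i => mul_nonneg (ha.1.1 l i) (Real.exp_pos _).le, fun l i j hij => ?_⟩,
        fun l i => mul_pos (ha.2.1 l i) (Real.exp_pos _), h1⟩
      refine mul_le_mul (ha.1.2 l hij) ?_ (Real.exp_pos _).le (ha.1.1 l i)
      exact Real.exp_le_exp.2 (mul_le_mul_of_nonneg_left (hanti l hij) h2'.le)
    have h4 := (mx_Cb h (Co_sub h3) hb htI).2
    have h5 : mx t (fun l i => a l i * Real.exp (ε * α l i)) b =
        fun l i => m l i * Real.exp ((1 - t) * ε * α l i) := by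
      funext l i
      change (a l i * Real.exp (ε * α l i)) ^ (1 - t) * (b l i) ^ t =
        (a l i) ^ (1 - t) * (b l i) ^ t * Real.exp ((1 - t) * ε * α l i)
      rw [Real.mul_rpow (ha.1.1 l i) (Real.exp_pos _).le, ← Real.exp_mul]
      have h6 : ε * α l i * (1 - t) = (1 - t) * ε * α l i := by ring
      rw [h6]
      ring
    rw [h5] at h4
    exact h4
  have hm0 : (fun l i => m l i * Real.exp ((1 - t) * (0 : ℝ) * α l i)) = m := by
    funext l i
    rw [mul_zero, zero_mul, Real.exp_zero, mul_one]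
  have hd1 : HasDerivAt (fun ε : ℝ => F.dg (cx (fun l i => m l i * Real.exp ((1 - t) * ε * α l i))))
      (F.dg (cx (fun l i => (1 - t) * α l i * m l i))) 0 :=
    (F.dg.restrictScalars ℝ).hasFDerivAt.comp_hasDerivAt (0 : ℝ) (der_cx m α t)
  have hd2 : HasDerivAt (fun ε : ℝ => ρ (F.dg (cx (fun l i => m l i * Real.exp ((1 - t) * ε * α l i)))))
      (fderiv ℝ ρ (F.dg (cx m)) (F.dg (cx (fun l i => (1 - t) * α l i * m l i)))) 0 := by
    have h1 : HasFDerivAt ρ (fderiv ℝ ρ (F.dg (cx m))) (F.dg (cx m)) :=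
      ((h.smooth.differentiable (by norm_num)) _).hasFDerivAt
    refine h1.comp_hasDerivAt_of_eq (0 : ℝ) hd1 ?_
    rw [hm0]
  have hlim := hd2.tendsto_slope_zero_right
  have hle0 : fderiv ℝ ρ (F.dg (cx m)) (F.dg (cx (fun l i => (1 - t) * α l i * m l i))) ≤ 0 := by
    refine le_of_tendsto hlim ?_
    filter_upwards [hle, self_mem_nhdsWithin] with ε h1 h2
    have h2' : 0 < ε := h2
    rw [zero_add, hm0, hz, sub_zero, smul_eq_mul]
    exact mul_nonpos_of_nonneg_of_nonpos (inv_pos.2 h2').le h1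
  rw [gr_real] at hle0
  have h6 : ∑ l, ∑ i, (1 - t) * α l i * gr F ρ m l i = (1 - t) * ∑ l, ∑ i, α l i * α l i := by
    rw [Finset.mul_sum]
    refine Finset.sum_congr rfl fun l _ => ?_
    rw [Finset.mul_sum]
    refine Finset.sum_congr rfl fun i _ => ?_
    rw [← hα]
    ring
  rw [h6] at hle0
  have h7 : ∑ l, ∑ i, α l i * α l i ≤ 0 := by
    by_contra h8
    push Not at h8
    have := mul_pos (sub_pos.2 ht.2) h8
    linarith
  obtain ⟨l, i, hli⟩ := gr_ne h hmC.1.1 hz
  have h8 : 0 < ∑ l, ∑ i, α l i * α l i := by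
    refine Finset.sum_pos' (fun l _ => Finset.sum_nonneg fun i _ => mul_self_nonneg _)
      ⟨l, Finset.mem_univ _, Finset.sum_pos' (fun i _ => mul_self_nonneg _) ⟨i, Finset.mem_univ _, ?_⟩⟩
    exact mul_self_pos.2 hli
  linarith

end H5.PK
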