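import Mathlib

/-! # PK.Lim : a series of bounded holomorphic functions (pure)

Several variables. Let `z ∈ D`, ball `B(z, 2 r) ⊆ D`. For `y ∈ B(z, r)` and `‖v‖ ≤ 1` the function `ζ ↦ f j (y + ζ v)` is holomorphic for `|ζ| < r` and bounded by `2`: `‖fderiv ℂ (f j) y v‖ ≤ 4 / r` (Cauchy, e.g. `Complex.norm_deriv_le_of_forall_mem_sphere_norm_le` on the circle of radius `r / 2`).
So `‖fderiv ℂ (f j) y‖ ≤ 4 / r` on `B(z, r)`; `hasFDerivAt_tsum_of_isPreconnected` (open preconnected set `B(z, r)`, summable bounds `(1/2) ^ (j + 1) * 4 / r`). -/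

namespace H5.PK

private theorem sum_half (C : ℝ) : Summable (fun j : ℕ => (1 / 2 : ℝ) ^ (j + 1) * C) := by
  have h : Summable (fun j : ℕ => (1 / 2 : ℝ) ^ j) := summable_geometric_of_lt_one (by norm_num) (by norm_num)
  exact ((summable_nat_add_iff 1).2 h).mul_right C

private theorem norm_half (j : ℕ) : ‖((1 / 2 : ℂ) ^ (j + 1))‖ = (1 / 2 : ℝ) ^ (j + 1) := by
  rw [norm_pow]
  norm_num

theorem lim_diff {V : Type} [NormedAddCommGroup V] [NormedSpace ℂ V] {D : Set V} (hD : IsOpen D)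
    {f : ℕ → V → ℂ} (hf : ∀ j, DifferentiableOn ℂ (f j) D) (hb : ∀ j, ∀ z ∈ D, ‖f j z‖ ≤ 2) :
    DifferentiableOn ℂ (fun z => ∑' j, (1 / 2 : ℂ) ^ (j + 1) * f j z) D := by
  intro z hz
  obtain ⟨ε, hε, hball⟩ := Metric.isOpen_iff.1 hD z hz
  obtain ⟨r, hr, h2r⟩ : ∃ r : ℝ, 0 < r ∧ 2 * r = ε := ⟨ε / 2, by positivity, by ring⟩
  have hsub : ∀ y ∈ Metric.ball z r, Metric.ball y r ⊆ D := by
    intro y hy w hw
    apply hball
    rw [Metric.mem_ball] at *
    have := dist_triangle w y z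
    linarith
  have hyD : ∀ y ∈ Metric.ball z r, y ∈ D := fun y hy => hsub y hy (Metric.mem_ball_self hr)
  have hder : ∀ j, ∀ y ∈ Metric.ball z r, ‖fderiv ℂ (f j) y‖ ≤ 5 / r := by
    intro j y hy
    refine Complex.norm_fderiv_le_div_of_mapsTo_ball ((hf j).mono (hsub y hy)) ?_ hr
    intro w hw
    have h1 := hb j w (hsub y hy hw)
    have h2 := hb j y (hyD y hy)
    have h3 := norm_sub_le (f j w) (f j y)
    rw [Metric.mem_closedBall, dist_eq_norm]
    linarith
  have hmain : HasFDerivAt (fun y => ∑' j, (1 / 2 : ℂ) ^ (j + 1) * f j y)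
      (∑' j, ((1 / 2 : ℂ) ^ (j + 1)) • fderiv ℂ (f j) z) z := by
    refine hasFDerivAt_tsum_of_isPreconnected (s := Metric.ball z r) (x₀ := z)
      (f' := fun j y => ((1 / 2 : ℂ) ^ (j + 1)) • fderiv ℂ (f j) y) (sum_half (5 / r)) Metric.isOpen_ball
      (convex_ball z r).isPreconnected ?_ ?_ (Metric.mem_ball_self hr) ?_ (Metric.mem_ball_self hr)
    · intro j y hy
      have h1 : HasFDerivAt (f j) (fderiv ℂ (f j) y) y :=
        ((hf j).differentiableAt (hD.mem_nhds (hyD y hy))).hasFDerivAt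
      exact h1.const_mul _
    · intro j y hy
      rw [norm_smul, norm_half]
      exact mul_le_mul_of_nonneg_left (hder j y hy) (by positivity)
    · refine Summable.of_norm_bounded (sum_half 2) ?_
      intro j
      rw [norm_mul, norm_half]
      exact mul_le_mul_of_nonneg_left (hb j z hz) (by positivity)
  exact hmain.differentiableAt.differentiableWithinAt

theorem lim_cont {V : Type} [TopologicalSpace V] {S : Set V}
    {f : ℕ → V → ℂ} (hf : ∀ j, ContinuousOn (f j) S) (hb : ∀ j, ∀ z ∈ S, ‖f j z‖ ≤ 2) :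
    ContinuousOn (fun z => ∑' j, (1 / 2 : ℂ) ^ (j + 1) * f j z) S := by
  refine continuousOn_tsum (fun j => continuousOn_const.mul (hf j)) (sum_half 2) ?_
  intro j z hz
  rw [norm_mul, norm_half]
  exact mul_le_mul_of_nonneg_left (hb j z hz) (by positivity)

end H5.PK
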