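import Pool.Agent.H5.PK.IntM

/-! # PK.LmA : approximation with equal small entries

Let `a ∈ Co` (`Co_nonempty`). For `0 < t < 1` let `m = mx t a b`: it is in `Cb` (`mx_Cb`), `ρ (dg (cx m)) < 0` (`mx_int`), `m l i = 0 ↔ b l i = 0`, and `m → b` for `t → 1` (for `b l i > 0`: `a ^ (1 - t) * b ^ t → b`; for `b l i = 0` all are `0`). Take `t` with `dist m b < η / 2`. For `ε > 0` let
`c l i = ε` if `b l i = 0` and `c l i = m l i` otherwise. For small `ε`: `ρ (dg (cx c)) < 0` (continuity), `c` is sorted (in each block the zero entries of `b` are at the end; `ε ≤` all nonzero entries of `m`), positive, and `dist c b < η`. -/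

namespace H5.PK

variable {V : Type} [NormedAddCommGroup V] [NormedSpace ℂ V] {L : Type} [Fintype L] [DecidableEq L]
variable {r : L → ℕ} {F : Frame V r} {ρ : V → ℝ}

open Topology Filter in
theorem approx_eps (h : PDom F ρ) {b : X r} (hb : b ∈ Cb F ρ) {η : ℝ} (hη : 0 < η) :
    ∃ ε : ℝ, 0 < ε ∧ ε < η ∧ ∃ c ∈ Co F ρ, dist c b < η ∧ ∀ l i, b l i = 0 → c l i = ε := by
  classical
  obtain ⟨a, ha⟩ := Co_nonempty h
  -- continuity of the geometric mean at `t = 1`
  have hcont : ContinuousAt (fun t : ℝ => mx t a b) 1 := by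
    rw [continuousAt_pi]
    intro l
    rw [continuousAt_pi]
    intro i
    unfold mx
    have h1 : ContinuousAt (fun t : ℝ => (a l i) ^ (1 - t)) 1 := by
      have h2 : ContinuousAt (fun u : ℝ => (a l i) ^ u) (1 - 1) :=
        Real.continuousAt_const_rpow (ha.2.1 l i).ne'
      exact ContinuousAt.comp (g := fun u : ℝ => (a l i) ^ u) (f := fun t : ℝ => 1 - t) h2
        (by fun_prop)
    have h3 : ContinuousAt (fun t : ℝ => (b l i) ^ t) 1 := Real.continuousAt_const_rpow' one_ne_zero
    exact h1.mul h3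
  have hev : ∀ᶠ t in 𝓝[<] (1 : ℝ), dist (mx t a b) b < η / 2 := by
    have h1 : Tendsto (fun t : ℝ => dist (mx t a b) b) (𝓝 1) (𝓝 (dist (mx 1 a b) b)) :=
      hcont.tendsto.dist tendsto_const_nhds
    rw [mx_one, dist_self] at h1
    exact (h1.mono_left nhdsWithin_le_nhds).eventually (gt_mem_nhds (half_pos hη))
  have hev2 : ∀ᶠ t in 𝓝[<] (1 : ℝ), t ∈ Set.Ioo (0 : ℝ) 1 :=
    Ioo_mem_nhdsLT zero_lt_one
  obtain ⟨t, ht1, ht2⟩ := (hev.and hev2).exists
  set m : X r := mx t a b with hm
  have hmC : m ∈ Cb F ρ := mx_Cb h (Co_sub ha) hb ⟨ht2.1.le, ht2.2.le⟩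
  have hmlt : ρ (F.dg (cx m)) < 0 := mx_int h ha hb ⟨ht2.1.le, ht2.2⟩
  have hm0 : ∀ l i, b l i = 0 → m l i = 0 := by
    intro l i h0
    rw [hm]
    simp only [mx, h0]
    rw [Real.zero_rpow ht2.1.ne', mul_zero]
  have hmpos : ∀ l i, b l i ≠ 0 → 0 < m l i := by
    intro l i h0
    have hbpos : 0 < b l i := lt_of_le_of_ne (hb.1.1 l i) (Ne.symm h0)
    rw [hm]
    simp only [mx]
    exact mul_pos (Real.rpow_pos_of_pos (ha.2.1 l i) _) (Real.rpow_pos_of_pos hbpos _)
  -- the vectors with equal small entries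
  let c : ℝ → X r := fun ε l i => if b l i = 0 then ε else m l i
  have hc0 : c 0 = m := by
    funext l i
    by_cases h0 : b l i = 0
    · simp only [c, h0, if_true, hm0 l i h0]
    · simp only [c, h0, if_false]
  have hcc : Continuous c := by
    refine continuous_pi fun l => continuous_pi fun i => ?_
    by_cases h0 : b l i = 0
    · simp only [c, h0, if_true]
      exact continuous_id
    · simp only [c, h0, if_false]
      exact continuous_const
  have hρ : Continuous ρ := h.smooth.continuous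
  have hcomp : Continuous (fun ε : ℝ => ρ (F.dg (cx (c ε)))) :=
    hρ.comp (F.dg.continuous.comp (cx_continuous.comp hcc))
  have e1 : ∀ᶠ ε in 𝓝[>] (0 : ℝ), ρ (F.dg (cx (c ε))) < 0 := by
    have h1 : Tendsto (fun ε : ℝ => ρ (F.dg (cx (c ε)))) (𝓝 0) (𝓝 (ρ (F.dg (cx (c 0))))) :=
      hcomp.tendsto 0
    rw [hc0] at h1
    exact (h1.mono_left nhdsWithin_le_nhds).eventually (gt_mem_nhds hmlt)
  have e2 : ∀ᶠ ε in 𝓝[>] (0 : ℝ), ε ∈ Set.Ioo (0 : ℝ) η := Ioo_mem_nhdsGT hη
  have e3 : ∀ᶠ ε in 𝓝[>] (0 : ℝ), ∀ l i, b l i ≠ 0 → ε < m l i := by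
    rw [eventually_all]
    intro l
    rw [eventually_all]
    intro i
    by_cases h0 : b l i = 0
    · exact Eventually.of_forall fun ε hne => absurd h0 hne
    · have h1 : ∀ᶠ ε in 𝓝[>] (0 : ℝ), ε ∈ Set.Ioo (0 : ℝ) (m l i) := Ioo_mem_nhdsGT (hmpos l i h0)
      exact h1.mono fun ε hε _ => hε.2
  obtain ⟨ε, he1, he2, he3⟩ := (e1.and (e2.and e3)).exists
  refine ⟨ε, he2.1, he2.2, c ε, ⟨⟨?_, ?_⟩, ?_, he1⟩, ?_, ?_⟩
  · intro l i
    by_cases h0 : b l i = 0
    · simp only [c, h0, if_true]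
      exact he2.1.le
    · simp only [c, h0, if_false]
      exact (hmpos l i h0).le
  · intro l i j hij
    by_cases hj : b l j = 0
    · by_cases hi : b l i = 0
      · simp only [c, hi, hj, if_true]
        exact le_refl _
      · simp only [c, hi, hj, if_true, if_false]
        exact (he3 l i hi).le
    · have hi : b l i ≠ 0 := by
        intro hi
        have h1 : b l j ≤ b l i := hb.1.2 l hij
        have h2 : 0 ≤ b l j := hb.1.1 l j
        exact hj (le_antisymm (hi ▸ h1) h2)
      simp only [c, hi, hj, if_false]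
      exact hmC.1.2 l hij
  · intro l i
    by_cases h0 : b l i = 0
    · simp only [c, h0, if_true]
      exact he2.1
    · simp only [c, h0, if_false]
      exact hmpos l i h0
  · rw [dist_pi_lt_iff hη]
    intro l
    rw [dist_pi_lt_iff hη]
    intro i
    by_cases h0 : b l i = 0
    · simp only [c, h0, if_true]
      rw [Real.dist_eq, sub_zero, abs_of_pos he2.1]
      exact he2.2
    · simp only [c, h0, if_false]
      have h1 : dist (m l i) (b l i) ≤ dist m b :=
        (dist_le_pi_dist (m l) (b l) i).trans (dist_le_pi_dist m b l)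
      have h2 : η / 2 < η := half_lt_self hη
      exact lt_of_le_of_lt h1 (ht1.trans h2)
  · intro l i h0
    simp only [c, h0, if_true]

end H5.PK
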