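import Pool.Agent.H5.PK.LmA

/-! # PK.LmB : shrinking the entries of `b` on the zero set of `c`

`κ = 0`: the vector is `b`. `κ > 0`: for `k : ℕ` take `ε_k < 1 / (k + 2)`, `c_k ∈ Co`, `dist c_k c < 1 / (k + 2)`, `c_k l i = ε_k` if `c l i = 0` (`approx_eps`). Let `μ_k = κ / log (1 / ε_k) → 0`, in `(0, 1)` for large `k`. `mx μ_k b c_k ∈ Cb` (`mx_Cb`). Limits:
if `c l i = 0`: `b ^ (1 - μ_k) * ε_k ^ μ_k = b ^ (1 - μ_k) * exp (-κ) → b exp (-κ)` (for `b l i = 0` both sides are `0`); if `c l i > 0`: `b ^ (1 - μ_k) * (c_k) ^ μ_k → b` since `c_k → c > 0`, `μ_k → 0`. `Cb` is closed (`Cb_closed`). -/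

namespace H5.PK

variable {V : Type} [NormedAddCommGroup V] [NormedSpace ℂ V] {L : Type} [Fintype L] [DecidableEq L]
variable {r : L → ℕ} {F : Frame V r} {ρ : V → ℝ}

open Classical in
theorem shrink (h : PDom F ρ) {b c : X r} (hb : b ∈ Cb F ρ) (hc : c ∈ Cb F ρ) {κ : ℝ}
    (hκ : 0 ≤ κ) : (fun l i => if c l i = 0 then Real.exp (-κ) * b l i else b l i) ∈ Cb F ρ := by
  rcases hκ.eq_or_lt with rfl | hκ
  · have h0 : (fun l i => if c l i = 0 then Real.exp (-0) * b l i else b l i) = b := by
      funext l i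
      simp
    rw [h0]
    exact hb
  · have key : ∀ k : ℕ, ∃ ε : ℝ, 0 < ε ∧ ε < 1 / ((k : ℝ) + 1) ∧ ∃ d ∈ Co F ρ,
        dist d c < 1 / ((k : ℝ) + 1) ∧ ∀ l i, c l i = 0 → d l i = ε :=
      fun k => approx_eps h hc (by positivity)
    choose ε hε0 hε1 d hd hdc hdε using key
    have hlim : Filter.Tendsto (fun k : ℕ => 1 / ((k : ℝ) + 1)) Filter.atTop (nhds 0) :=
      tendsto_one_div_add_atTop_nhds_zero_nat
    have hε : Filter.Tendsto ε Filter.atTop (nhdsWithin 0 (Set.Ioi 0)) := by
      refine tendsto_nhdsWithin_iff.2 ⟨?_, Filter.Eventually.of_forall hε0⟩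
      exact squeeze_zero (fun k => (hε0 k).le) (fun k => (hε1 k).le) hlim
    have hlog : Filter.Tendsto (fun k => -Real.log (ε k)) Filter.atTop Filter.atTop :=
      Filter.tendsto_neg_atBot_atTop.comp (Real.tendsto_log_nhdsGT_zero.comp hε)
    have hμ : Filter.Tendsto (fun k => κ / (-Real.log (ε k))) Filter.atTop (nhds 0) :=
      hlog.const_div_atTop κ
    have hd' : Filter.Tendsto d Filter.atTop (nhds c) := by
      rw [tendsto_iff_dist_tendsto_zero]
      exact squeeze_zero (fun k => dist_nonneg) (fun k => (hdc k).le) hlim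
    refine (Cb_closed h).mem_of_tendsto (f := fun k => mx (κ / (-Real.log (ε k))) b (d k))
      (b := Filter.atTop) ?_ ?_
    · rw [tendsto_pi_nhds]
      intro l
      rw [tendsto_pi_nhds]
      intro i
      have h1 : Filter.Tendsto (fun k => (b l i) ^ (1 - κ / (-Real.log (ε k)))) Filter.atTop
          (nhds (b l i)) := by
        have h2 : Filter.Tendsto (fun k => 1 - κ / (-Real.log (ε k))) Filter.atTop (nhds 1) := by
          have h3 := hμ.const_sub 1
          rwa [sub_zero] at h3
        have h4 := (Real.continuousAt_const_rpow' (a := b l i) (b := 1) one_ne_zero).tendsto.comp h2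
        rwa [Real.rpow_one] at h4
      by_cases hz : c l i = 0
      · rw [if_pos hz, mul_comm]
        refine h1.mul ?_
        refine tendsto_const_nhds.congr' ?_
        filter_upwards [hlog.eventually_gt_atTop 0] with k hk
        rw [hdε k l i hz, Real.rpow_def_of_pos (hε0 k)]
        congr 1
        have hne : Real.log (ε k) ≠ 0 := fun h0 => by
          rw [h0, neg_zero] at hk
          exact lt_irrefl _ hk
        rw [div_neg, mul_neg, mul_div_cancel₀ _ hne]
      · rw [if_neg hz]
        have h5 : Filter.Tendsto (fun k => (d k l i) ^ (κ / (-Real.log (ε k)))) Filter.atTop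
            (nhds 1) := by
          have h6 : Filter.Tendsto (fun k => d k l i) Filter.atTop (nhds (c l i)) :=
            tendsto_pi_nhds.1 (tendsto_pi_nhds.1 hd' l) i
          have h7 := h6.rpow hμ (Or.inl hz)
          rwa [Real.rpow_zero] at h7
        have h8 := h1.mul h5
        rwa [mul_one] at h8
    · filter_upwards [hlog.eventually_gt_atTop 0, hμ.eventually (gt_mem_nhds one_pos)] with k hk hk1
      exact mx_Cb h hb (Co_sub (hd k)) ⟨by positivity, hk1.le⟩

end H5.PK
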