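import Pool.Agent.H5.PK.Defs

/-! # PK.MDef : the definitions for products of matrix spaces (complete, no sorry)

The norm on matrices is the elementwise supremum norm (`open scoped Matrix.Norms.Elementwise`); it induces the usual topology. -/

namespace H5.PK

open scoped Matrix.Norms.Elementwise

/-- rectangular diagonal matrix -/
def dgm {m n : ℕ} (b : Fin m → ℂ) : Matrix (Fin m) (Fin n) ℂ :=
  fun i j => if (i : ℕ) = (j : ℕ) then b i else 0

/-- `b` is the decreasing vector of singular values of `Z` -/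
def IsSv {m n : ℕ} (Z : Matrix (Fin m) (Fin n) ℂ) (b : Fin m → ℝ) : Prop :=
  Antitone b ∧ (∀ i, 0 ≤ b i) ∧ ∃ U : Matrix.unitaryGroup (Fin m) ℂ,
    ∃ W : Matrix.unitaryGroup (Fin n) ℂ,
      Z = (U : Matrix (Fin m) (Fin m) ℂ) * dgm (fun i => (b i : ℂ)) * (W : Matrix (Fin n) (Fin n) ℂ)

open Classical in
/-- the vector of singular values -/
noncomputable def sv {m n : ℕ} (Z : Matrix (Fin m) (Fin n) ℂ) : Fin m → ℝ :=
  if h : ∃ b, IsSv Z b then h.choose else 0

/-- leading minor of size `k + 1` -/
noncomputable def mnr {m n : ℕ} (hmn : m ≤ n) (k : Fin m) (Z : Matrix (Fin m) (Fin n) ℂ) : ℂ :=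
  (Z.submatrix (Fin.castLE (Nat.succ_le_of_lt k.2) : Fin ((k : ℕ) + 1) → Fin m)
    (Fin.castLE ((Nat.succ_le_of_lt k.2).trans hmn) : Fin ((k : ℕ) + 1) → Fin n)).det

/-- products of matrix spaces -/
abbrev MV {L : Type} (m n : L → ℕ) : Type := (l : L) → Matrix (Fin (m l)) (Fin (n l)) ℂ

variable {L : Type} [Fintype L] [DecidableEq L] {m n : L → ℕ}

/-- unitary matrices, one for each block -/
abbrev UG {L : Type} (m : L → ℕ) : Type := (l : L) → Matrix.unitaryGroup (Fin (m l)) ℂ

set_option linter.unusedSectionVars false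

/-- the linear map `Z ↦ U Z W` -/
noncomputable def actL (U : UG m) (W : UG n) : MV m n →L[ℂ] MV m n :=
  LinearMap.toContinuousLinearMap
    { toFun := fun Z l => (U l : Matrix (Fin (m l)) (Fin (m l)) ℂ) * Z l *
        (W l : Matrix (Fin (n l)) (Fin (n l)) ℂ)
      map_add' := fun x y => by
        funext l
        simp only [Pi.add_apply, Matrix.mul_add, Matrix.add_mul]
      map_smul' := fun c x => by
        funext l
        simp only [Pi.smul_apply, Matrix.mul_smul, Matrix.smul_mul, RingHom.id_apply] }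

theorem actL_apply (U : UG m) (W : UG n) (Z : MV m n) (l : L) :
    actL U W Z l = (U l : Matrix (Fin (m l)) (Fin (m l)) ℂ) * Z l *
      (W l : Matrix (Fin (n l)) (Fin (n l)) ℂ) := rfl

/-- the group of all `Z ↦ U Z W` -/
def KM (m n : L → ℕ) : Set (MV m n →L[ℂ] MV m n) := {T | ∃ (U : UG m) (W : UG n), T = actL U W}

/-- diagonal elements -/
noncomputable def dgL (m n : L → ℕ) : XC m →L[ℂ] MV m n :=
  LinearMap.toContinuousLinearMap
    { toFun := fun b l => dgm (b l)
      map_add' := fun x y => by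
        funext l i j
        show (if (i : ℕ) = (j : ℕ) then x l i + y l i else 0) =
          (if (i : ℕ) = (j : ℕ) then x l i else 0) + (if (i : ℕ) = (j : ℕ) then y l i else 0)
        split_ifs <;> simp
      map_smul' := fun c x => by
        funext l i j
        show (if (i : ℕ) = (j : ℕ) then c * x l i else 0) =
          c * (if (i : ℕ) = (j : ℕ) then x l i else 0)
        split_ifs <;> simp }

theorem dgL_apply (b : XC m) (l : L) : dgL m n b l = dgm (b l) := rfl

/-- the diagonal part -/
noncomputable def PL (hmn : ∀ l, m l ≤ n l) : MV m n →L[ℂ] XC m :=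
  LinearMap.toContinuousLinearMap
    { toFun := fun Z l i => Z l i (Fin.castLE (hmn l) i)
      map_add' := fun _ _ => rfl
      map_smul' := fun _ _ => rfl }

theorem PL_apply (hmn : ∀ l, m l ≤ n l) (Z : MV m n) (l : L) (i : Fin (m l)) :
    PL hmn Z l i = Z l i (Fin.castLE (hmn l) i) := rfl

theorem PL_dgL (hmn : ∀ l, m l ≤ n l) (b : XC m) : PL hmn (dgL m n b) = b := by
  funext l i
  rw [PL_apply, dgL_apply]
  show (if (i : ℕ) = ((Fin.castLE (hmn l) i : Fin (n l)) : ℕ) then b l i else 0) = b l i
  rw [if_pos (by simp)]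

end H5.PK
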