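import Pool.Agent.H5.PK.Den

/-! # PK.Pth : the sorted logarithmic image is connected

Let `x, y ∈ Lam`, `a = ex x`, `b = ex y` (in `Co`, `ex_Co`). The open connected set `ρ < 0` is path connected (`IsOpen.isConnected_iff_isPathConnected`); let `γ` be a path in it from `dg (cx a)` to `dg (cx b)`. `t ↦ s (γ t)` is continuous (`F.s_cont`), sorted, from `a` to `b` (`F.s_dg`) and
`ρ (dg (cx (s (γ t)))) < 0` (`s_lt`). By compactness of `[0, 1]` (`(t, ε) ↦ ρ (dg (cx (s (γ t) + ε)))` is continuous and negative on `[0, 1] × {0}`) there is `ε₀ > 0` with `ρ (dg (cx (s (γ t) + ε))) < 0` for `0 ≤ ε ≤ ε₀` and all `t`.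
The path `t ↦ s (γ t) + 4 t (1 - t) ε₀` is sorted with positive entries, from `a` to `b`; its logarithm is a path in `Lam` from `x` to `y`. So `Lam` is path connected (`JoinedIn`), hence preconnected. -/

namespace H5.PK

variable {V : Type} [NormedAddCommGroup V] [NormedSpace ℂ V] {L : Type} [Fintype L] [DecidableEq L]
variable {r : L → ℕ} {F : Frame V r} {ρ : V → ℝ}

open Topology unitInterval

/-- a continuous family of sorted vectors in the domain can be pushed by a small constant -/
private theorem push (h : PDom F ρ) {S : I → X r} (hS : Continuous S)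
    (hlt : ∀ t, ρ (F.dg (cx (S t))) < 0) :
    ∃ ε₀ > 0, ∀ ε : ℝ, |ε| ≤ ε₀ → ∀ t, ρ (F.dg (cx (fun l i => S t l i + ε))) < 0 := by
  have hc : Continuous fun p : ℝ × I => ρ (F.dg (cx (fun l i => S p.2 l i + p.1))) := by
    refine h.smooth.continuous.comp (F.dg.continuous.comp (cx_continuous.comp ?_))
    refine continuous_pi fun l => continuous_pi fun i => ?_
    have h1 : Continuous fun p : ℝ × I => S p.2 l i :=
      (continuous_apply i).comp ((continuous_apply l).comp (hS.comp continuous_snd))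
    exact h1.add continuous_fst
  have h1 : ∀ᶠ ε in 𝓝 (0 : ℝ), ∀ t ∈ (Set.univ : Set I),
      ρ (F.dg (cx (fun l i => S t l i + ε))) < 0 := by
    apply isCompact_univ.eventually_forall_of_forall_eventually
    intro t _
    have h2 : (fun p : ℝ × I => ρ (F.dg (cx (fun l i => S p.2 l i + p.1)))) (0, t) < 0 := by
      have h3 : (fun (l : L) (i : Fin (r l)) => S t l i + (0 : ℝ)) = S t := by
        funext l i
        exact add_zero _
      show ρ (F.dg (cx (fun l i => S t l i + (0 : ℝ)))) < 0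
      rw [h3]
      exact hlt t
    exact hc.continuousAt.eventually_lt_const h2
  obtain ⟨δ, hδ, h2⟩ := Metric.eventually_nhds_iff.1 h1
  refine ⟨δ / 2, half_pos hδ, fun ε hε t => h2 ?_ t (Set.mem_univ t)⟩
  rw [Real.dist_eq, sub_zero]
  linarith

theorem Lam_preconnected (h : PDom F ρ) : IsPreconnected (Lam F ρ) := by
  apply isPreconnected_of_forall_pair
  intro x hx y hy
  have ha := ex_Co hx
  have hb := ex_Co hy
  have hU : IsOpen {z | ρ z < 0} := isOpen_lt h.smooth.continuous continuous_const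
  have hpc : IsPathConnected {z | ρ z < 0} := hU.isConnected_iff_isPathConnected.1 h.conn
  obtain ⟨γ, hγ⟩ := hpc.joinedIn (F.dg (cx (ex x))) ha.2.2 (F.dg (cx (ex y))) hb.2.2
  have hS : Continuous fun t : I => F.s (γ t) := F.s_cont.comp γ.continuous
  obtain ⟨ε₀, hε, hp⟩ := push h hS fun t => (h.s_lt (γ t)).2 (hγ t)
  have hnn : ∀ t : I, 0 ≤ 4 * (t : ℝ) * (1 - t) * ε₀ := fun t =>
    mul_nonneg (mul_nonneg (mul_nonneg (by norm_num) t.2.1) (sub_nonneg.2 t.2.2)) hε.le
  have hle : ∀ t : I, 4 * (t : ℝ) * (1 - t) * ε₀ ≤ ε₀ := fun t => by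
    have h1 : 4 * (t : ℝ) * (1 - t) ≤ 1 := by nlinarith [sq_nonneg (2 * (t : ℝ) - 1)]
    calc 4 * (t : ℝ) * (1 - t) * ε₀ ≤ 1 * ε₀ := mul_le_mul_of_nonneg_right h1 hε.le
      _ = ε₀ := one_mul _
  have h0 : F.s (γ 0) = ex x := by
    rw [γ.source]
    exact F.s_dg _ ha.1
  have h1 : F.s (γ 1) = ex y := by
    rw [γ.target]
    exact F.s_dg _ hb.1
  -- the moved path
  have hpos : ∀ (t : I) (l : L) (i : Fin (r l)), 0 < F.s (γ t) l i + 4 * (t : ℝ) * (1 - t) * ε₀ := by
    intro t l i
    have hs := (F.s_srt (γ t)).1 l i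
    rcases eq_or_lt_of_le t.2.1 with h2 | h2
    · have h3 : t = 0 := Subtype.ext h2.symm
      subst h3
      rw [h0]
      have := Real.exp_pos (x l i)
      have h4 := hnn 0
      show 0 < Real.exp (x l i) + _
      linarith
    rcases eq_or_lt_of_le t.2.2 with h3 | h3
    · have h4 : t = 1 := Subtype.ext h3
      subst h4
      rw [h1]
      have := Real.exp_pos (y l i)
      have h4 := hnn 1
      show 0 < Real.exp (y l i) + _
      linarith
    · have h4 : 0 < 4 * (t : ℝ) * (1 - t) * ε₀ :=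
        mul_pos (mul_pos (mul_pos (by norm_num) h2) (sub_pos.2 h3)) hε
      linarith
  set τ : I → X r := fun t l i => Real.log (F.s (γ t) l i + 4 * (t : ℝ) * (1 - t) * ε₀) with hτ
  have hτc : Continuous τ := by
    refine continuous_pi fun l => continuous_pi fun i => ?_
    refine Continuous.log ?_ fun t => (hpos t l i).ne'
    have h2 : Continuous fun t : I => F.s (γ t) l i :=
      (continuous_apply i).comp ((continuous_apply l).comp hS)
    exact h2.add (by fun_prop)
  have hτ0 : τ 0 = x := by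
    funext l i
    show Real.log (F.s (γ 0) l i + 4 * ((0 : I) : ℝ) * (1 - ((0 : I) : ℝ)) * ε₀) = x l i
    rw [h0]
    have : ex x l i + 4 * ((0 : I) : ℝ) * (1 - ((0 : I) : ℝ)) * ε₀ = Real.exp (x l i) := by
      show Real.exp (x l i) + _ = _
      simp
    rw [this, Real.log_exp]
  have hτ1 : τ 1 = y := by
    funext l i
    show Real.log (F.s (γ 1) l i + 4 * ((1 : I) : ℝ) * (1 - ((1 : I) : ℝ)) * ε₀) = y l i
    rw [h1]
    have : ex y l i + 4 * ((1 : I) : ℝ) * (1 - ((1 : I) : ℝ)) * ε₀ = Real.exp (y l i) := by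
      show Real.exp (y l i) + _ = _
      simp
    rw [this, Real.log_exp]
  refine ⟨Set.range τ, ?_, ⟨0, hτ0⟩, ⟨1, hτ1⟩, isPreconnected_range hτc⟩
  rintro _ ⟨t, rfl⟩
  refine ⟨fun l i j hij => ?_, ?_⟩
  · exact Real.log_le_log (hpos t l j) (by
      have := (F.s_srt (γ t)).2 l hij
      linarith)
  · show ρ (F.dg (cx (ex (τ t)))) < 0
    have h2 : ex (τ t) = fun l i => F.s (γ t) l i + 4 * (t : ℝ) * (1 - t) * ε₀ :=
      ex_log fun l i => hpos t l i
    rw [h2]
    exact hp _ (by rw [abs_of_nonneg (hnn t)]; exact hle t) t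

end H5.PK
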