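import Pool.Agent.H5.PK.Sec

/-! # PK.RlA : a segment touching a locally convex hypersurface from inside stays in it (local version)

Let `f e > 0`, i.e. choose `e` with `c₀ = fderiv ℝ f z e > 0` (`fderiv ≠ 0`) and a ball `B` around `z` with `fderiv ℝ f y e ≥ c₀ / 2` for `y ∈ B`; there `f` is strictly increasing in direction `e` (on segments in `B`).
It suffices: for every small `t₁ ≠ 0`, `f (z + t₁ v) = 0`. Suppose `f (z + t₁ v) < 0`; replacing `v` by `-v` we may take `t₁ > 0`. For `η > 0` let `q t = η (t + t² / (2 t₁) + t₁ / 4)`: `q (-t₁) = - η t₁ / 4 < 0`, `q 0 > 0`, `q' = η (1 + t / t₁)`, `q'' = η / t₁ > 0`.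
Take `η` small so that `f (z + t₁ v + q (t₁) e) < 0` and so that all points `z + t v + (q t - m) e`, `|t| ≤ t₁`, `0 ≤ m ≤ M` are in `B`, where `M = 4 η t₁ > max q`. The set `A` of `(t, m) ∈ [-t₁, t₁] × [0, M]` with `0 ≤ f (z + t v + (q t - m) e)` is compact and contains `(0, 0)`
(`f` is increasing in direction `e` and `f z = 0`). Let `(t*, m*) ∈ A` with `m*` maximal. For `m = M` we have `q t - M < 0`, so `f < f (z + t v) ≤ 0`: so `m* < M`. For all `t` and `m > m*`: `f < 0`, so by continuity `g t := f (z + t v + (q t - m*) e) ≤ 0` for all `|t| ≤ t₁`, and `g t* = 0`.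
`t* ≠ t₁` since `g t₁ ≤ f (z + t₁ v + q t₁ e) < 0`; `t* ≠ - t₁` since `q (-t₁) - m* < 0`, `g (-t₁) < f (z - t₁ v) ≤ 0`. So `g` has an interior maximum at `t*`: `g' t* = 0`, `g'' t* ≤ 0`. With `y = z + t* v + (q t* - m*) e`, `w = v + q' (t*) e`: `fderiv ℝ f y w = 0` and
`g'' t* = iteratedFDeriv ℝ 2 f y ![w, w] + (η / t₁) fderiv ℝ f y e > 0` (`hhess`, `sec_curve` after a shift of the parameter), contradiction. -/

namespace H5.PK

variable {E : Type} [NormedAddCommGroup E] [NormedSpace ℝ E]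

private theorem rla_inc {f : E → ℝ} (hf : ContDiff ℝ 2 f) {z e : E} {r : ℝ}
    (hB : ∀ y, ‖y - z‖ < r → 0 < fderiv ℝ f y e) {y : E} {s : ℝ} (hs : 0 < s)
    (h0 : ‖y - z‖ < r) (h1 : ‖y + s • e - z‖ < r) : f y < f (y + s • e) := by
  have hd : ∀ u : ℝ, HasDerivAt (fun u : ℝ => f (y + u • e)) (fderiv ℝ f (y + u • e) e) u := by
    intro u
    have hf1 : HasFDerivAt f (fderiv ℝ f (y + u • e)) (y + u • e) :=
      (hf.differentiable (by norm_num) (y + u • e)).hasFDerivAt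
    have hc : HasDerivAt (fun u : ℝ => y + u • e) e u := by
      have h := ((hasDerivAt_id u).smul_const e).const_add y
      simpa using h
    exact hf1.comp_hasDerivAt u hc
  obtain ⟨c, hc, hc'⟩ := exists_hasDerivAt_eq_slope (fun u : ℝ => f (y + u • e))
    (fun u => fderiv ℝ f (y + u • e) e) hs
    (fun u _ => (hd u).continuousAt.continuousWithinAt) (fun u _ => hd u)
  have hball : ‖y + c • e - z‖ < r := by
    have hcv : Convex ℝ (Metric.ball z r) := convex_ball z r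
    have ha : y ∈ Metric.ball z r := by rwa [Metric.mem_ball, dist_eq_norm]
    have hb : y + s • e ∈ Metric.ball z r := by rwa [Metric.mem_ball, dist_eq_norm]
    have hm : y + (c / s) • (s • e) ∈ Metric.ball z r := by
      refine hcv.add_smul_mem ha hb ⟨by have := hc.1; positivity, ?_⟩
      rw [div_le_one hs]
      exact hc.2.le
    rw [smul_smul, div_mul_cancel₀ _ hs.ne', Metric.mem_ball, dist_eq_norm] at hm
    exact hm
  have hpos := hB _ hball
  rw [hc'] at hpos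
  have h2 : (0 : ℝ) < s - 0 := by linarith
  have h3 : 0 < f (y + s • e) - f (y + (0 : ℝ) • e) := by
    by_contra hcon
    have h4 : (f (y + s • e) - f (y + (0 : ℝ) • e)) / (s - 0) ≤ 0 :=
      div_nonpos_of_nonpos_of_nonneg (not_lt.1 hcon) h2.le
    exact absurd hpos (not_lt.2 h4)
  rw [zero_smul, add_zero] at h3
  linarith

private theorem rla_core {f : E → ℝ} (hf : ContDiff ℝ 2 f)
    (hhess : ∀ x v, f x = 0 → fderiv ℝ f x v = 0 → 0 ≤ iteratedFDeriv ℝ 2 f x ![v, v])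
    {z v e : E} {r : ℝ} (hr : 0 < r) (hB : ∀ y, ‖y - z‖ < r → 0 < fderiv ℝ f y e)
    (hz : f z = 0) {δ : ℝ} (hle : ∀ t : ℝ, |t| < δ → f (z + t • v) ≤ 0)
    {t₁ : ℝ} (ht : 0 < t₁) (htδ : t₁ < δ) (htr : t₁ * ‖v‖ < r / 2) : f (z + t₁ • v) = 0 := by
  have hfc : Continuous f := hf.continuous
  by_contra hne
  have hlt : f (z + t₁ • v) < 0 :=
    lt_of_le_of_ne (hle t₁ (by rw [abs_of_pos ht]; exact htδ)) hne
  -- choice of η
  obtain ⟨η, hη, hη1, hη2⟩ : ∃ η : ℝ, 0 < η ∧ 5 * η * t₁ * ‖e‖ < r / 2 ∧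
      f (z + t₁ • v + (7 / 4 * η * t₁) • e) < 0 := by
    have hc1 : ContinuousAt (fun η : ℝ => 5 * η * t₁ * ‖e‖) 0 := by fun_prop
    have hc2 : ContinuousAt (fun η : ℝ => f (z + t₁ • v + (7 / 4 * η * t₁) • e)) 0 := by
      have : Continuous (fun η : ℝ => f (z + t₁ • v + (7 / 4 * η * t₁) • e)) := by fun_prop
      exact this.continuousAt
    have h1 : ∀ᶠ η in nhds (0 : ℝ), 5 * η * t₁ * ‖e‖ < r / 2 := by
      apply hc1.eventually_lt continuousAt_const
      simp only [mul_zero, zero_mul]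
      linarith
    have h2 : ∀ᶠ η in nhds (0 : ℝ), f (z + t₁ • v + (7 / 4 * η * t₁) • e) < 0 := by
      apply hc2.eventually_lt continuousAt_const
      simp only [mul_zero, zero_mul, zero_smul, add_zero]
      exact hlt
    have h3 : ∀ᶠ η in nhdsWithin (0 : ℝ) (Set.Ioi 0), 5 * η * t₁ * ‖e‖ < r / 2 ∧
        f (z + t₁ • v + (7 / 4 * η * t₁) • e) < 0 :=
      (h1.and h2).filter_mono nhdsWithin_le_nhds
    obtain ⟨η, h4, h5⟩ := (h3.and self_mem_nhdsWithin).exists
    exact ⟨η, h5, h4.1, h4.2⟩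
  obtain ⟨q, hq⟩ : ∃ q : ℝ → ℝ, ∀ t, q t = η * (t + t ^ 2 / (2 * t₁) + t₁ / 4) :=
    ⟨_, fun _ => rfl⟩
  have hqd : ∀ t, HasDerivAt q (η * (1 + t / t₁)) t := by
    intro t
    have h1 : HasDerivAt (fun t : ℝ => η * (t + t ^ 2 / (2 * t₁) + t₁ / 4))
        (η * (1 + (((2 : ℕ) : ℝ) * t ^ (2 - 1) * 1) / (2 * t₁))) t :=
      ((((hasDerivAt_id t).add (((hasDerivAt_id t).pow 2).div_const (2 * t₁))).add_const
        (t₁ / 4)).const_mul η)
    have h2 : q = fun t : ℝ => η * (t + t ^ 2 / (2 * t₁) + t₁ / 4) := funext hq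
    rw [h2]
    convert h1 using 1
    field_simp
    push_cast
    ring
  have hqc : Continuous q := by
    rw [continuous_iff_continuousAt]
    exact fun t => (hqd t).continuousAt
  have hq0 : 0 < q 0 := by
    rw [hq]
    have : (0 : ℝ) + 0 ^ 2 / (2 * t₁) + t₁ / 4 = t₁ / 4 := by ring
    rw [this]
    positivity
  have hq1 : q t₁ = 7 / 4 * η * t₁ := by
    rw [hq]
    field_simp
    ring
  have hqm : q (-t₁) = - (η * t₁ / 4) := by
    rw [hq]
    field_simp
    ring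
  have hqlo : ∀ t, -t₁ ≤ t → t ≤ t₁ → - (η * t₁ / 4) ≤ q t := by
    intro t h1 h2
    have h3 : q t = - (η * t₁ / 4) + η / (2 * t₁) * (t + t₁) ^ 2 := by
      rw [hq]
      field_simp
      ring
    rw [h3]
    have : 0 ≤ η / (2 * t₁) * (t + t₁) ^ 2 := by positivity
    linarith
  have hqhi : ∀ t, -t₁ ≤ t → t ≤ t₁ → q t ≤ 7 / 4 * η * t₁ := by
    intro t h1 h2
    have h3 : 7 / 4 * η * t₁ - q t = η / (2 * t₁) * ((t₁ - t) * (t + 3 * t₁)) := by
      rw [hq]
      field_simp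
      ring
    have : 0 ≤ η / (2 * t₁) * ((t₁ - t) * (t + 3 * t₁)) := by
      have h4 : 0 ≤ (t₁ - t) * (t + 3 * t₁) := mul_nonneg (by linarith) (by linarith)
      positivity
    linarith
  obtain ⟨M, hM⟩ : ∃ M : ℝ, M = 4 * η * t₁ := ⟨_, rfl⟩
  have hM0 : 0 < M := by rw [hM]; positivity
  have hηt : 0 < η * t₁ := by positivity
  -- the points are in the ball
  have hin : ∀ t s : ℝ, -t₁ ≤ t → t ≤ t₁ → |s| ≤ 5 * η * t₁ →
      ‖z + t • v + s • e - z‖ < r := by
    intro t s h1 h2 h3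
    have h4 : z + t • v + s • e - z = t • v + s • e := by abel
    rw [h4]
    have h5 : ‖t • v‖ ≤ t₁ * ‖v‖ := by
      rw [norm_smul, Real.norm_eq_abs]
      exact mul_le_mul_of_nonneg_right (abs_le.2 ⟨h1, h2⟩) (norm_nonneg v)
    have h6 : ‖s • e‖ ≤ 5 * η * t₁ * ‖e‖ := by
      rw [norm_smul, Real.norm_eq_abs]
      exact mul_le_mul_of_nonneg_right h3 (norm_nonneg e)
    have h7 := norm_add_le (t • v) (s • e)
    linarith
  have hinq : ∀ t m : ℝ, -t₁ ≤ t → t ≤ t₁ → 0 ≤ m → m ≤ M → |q t - m| ≤ 5 * η * t₁ := by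
    intro t m h1 h2 h3 h4
    have h5 := hqlo t h1 h2
    have h6 := hqhi t h1 h2
    rw [hM] at h4
    rw [abs_le]
    constructor
    · nlinarith
    · nlinarith
  have hmono : ∀ t s s' : ℝ, -t₁ ≤ t → t ≤ t₁ → |s| ≤ 5 * η * t₁ → |s'| ≤ 5 * η * t₁ → s < s' →
      f (z + t • v + s • e) < f (z + t • v + s' • e) := by
    intro t s s' h1 h2 h3 h4 h5
    have h6 : z + t • v + s' • e = (z + t • v + s • e) + (s' - s) • e := by
      rw [sub_smul]
      abel
    rw [h6]
    refine rla_inc hf hB (by linarith) (hin t s h1 h2 h3) ?_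
    rw [← h6]
    exact hin t s' h1 h2 h4
  -- the compact set
  let F : ℝ × ℝ → ℝ := fun p => f (z + p.1 • v + (q p.1 - p.2) • e)
  have hF : Continuous F := by
    have : Continuous fun p : ℝ × ℝ => z + p.1 • v + (q p.1 - p.2) • e := by fun_prop
    exact hfc.comp this
  have hcomp : IsCompact ((Set.Icc (-t₁) t₁ ×ˢ Set.Icc 0 M) ∩ {p | 0 ≤ F p}) :=
    (isCompact_Icc.prod isCompact_Icc).inter_right (isClosed_le continuous_const hF)
  have hne0 : ((Set.Icc (-t₁) t₁ ×ˢ Set.Icc 0 M) ∩ {p | 0 ≤ F p}).Nonempty := by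
    refine ⟨(0, 0), ⟨⟨⟨by simp only; linarith, ht.le⟩, ⟨le_refl _, hM0.le⟩⟩, ?_⟩⟩
    have h1 : f (z + (0 : ℝ) • v + (0 : ℝ) • e) < f (z + (0 : ℝ) • v + (q 0 - 0) • e) := by
      refine hmono 0 0 (q 0 - 0) (by linarith) ht.le (by rw [abs_zero]; positivity)
        (hinq 0 0 (by linarith) ht.le le_rfl hM0.le) (by linarith)
    rw [zero_smul, zero_smul, add_zero, add_zero, hz] at h1
    have h2 : F (0, 0) = f (z + (q 0 - 0) • e) := by
      simp only [F, zero_smul, add_zero]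
    show 0 ≤ F (0, 0)
    rw [h2]
    exact h1.le
  obtain ⟨⟨ts, ms⟩, hmem, hmax⟩ := hcomp.exists_isMaxOn hne0 continuous_snd.continuousOn
  obtain ⟨⟨⟨hts1, hts2⟩, ⟨hms1, hms2⟩⟩, hFs⟩ := hmem
  simp only at hts1 hts2 hms1 hms2
  have hmax' : ∀ t m : ℝ, -t₁ ≤ t → t ≤ t₁ → 0 ≤ m → m ≤ M →
      0 ≤ f (z + t • v + (q t - m) • e) → m ≤ ms := by
    intro t m h1 h2 h3 h4 h5
    exact hmax (show (t, m) ∈ _ from ⟨⟨⟨h1, h2⟩, ⟨h3, h4⟩⟩, h5⟩)
  have hFs' : 0 ≤ f (z + ts • v + (q ts - ms) • e) := hFs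
  have hleδ : ∀ t : ℝ, -t₁ ≤ t → t ≤ t₁ → f (z + t • v) ≤ 0 := by
    intro t h1 h2
    exact hle t (lt_of_le_of_lt (abs_le.2 ⟨h1, h2⟩) htδ)
  have hneg : ∀ t s : ℝ, -t₁ ≤ t → t ≤ t₁ → |s| ≤ 5 * η * t₁ → s < 0 →
      f (z + t • v + s • e) < 0 := by
    intro t s h1 h2 h3 h4
    have h5 := hmono t s 0 h1 h2 h3 (by rw [abs_zero]; positivity) h4
    rw [zero_smul, add_zero] at h5
    exact lt_of_lt_of_le h5 (hleδ t h1 h2)
  have hmsM : ms < M := by
    rcases lt_or_eq_of_le hms2 with h | h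
    · exact h
    · exfalso
      have h1 : q ts - ms < 0 := by
        have := hqhi ts hts1 hts2
        rw [h, hM]
        nlinarith
      have h2 := hneg ts (q ts - ms) hts1 hts2 (hinq ts ms hts1 hts2 hms1 hms2) h1
      linarith
  have hg : ∀ t : ℝ, -t₁ ≤ t → t ≤ t₁ → f (z + t • v + (q t - ms) • e) ≤ 0 := by
    intro t h1 h2
    by_contra hcon
    have h3 : 0 < f (z + t • v + (q t - ms) • e) := not_le.1 hcon
    have hc : ContinuousAt (fun m : ℝ => f (z + t • v + (q t - m) • e)) ms := by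
      have : Continuous (fun m : ℝ => f (z + t • v + (q t - m) • e)) := by fun_prop
      exact this.continuousAt
    have h4 : ∀ᶠ m in nhds ms, 0 < f (z + t • v + (q t - m) • e) :=
      continuousAt_const.eventually_lt hc h3
    have h5 : ∀ᶠ m in nhds ms, m < M := eventually_lt_nhds hmsM
    have h6 : ∀ᶠ m in nhdsWithin ms (Set.Ioi ms), 0 < f (z + t • v + (q t - m) • e) ∧ m < M :=
      (h4.and h5).filter_mono nhdsWithin_le_nhds
    obtain ⟨m, ⟨h7, h8⟩, h9⟩ := (h6.and self_mem_nhdsWithin).exists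
    have h10 : ms < m := h9
    have h11 := hmax' t m h1 h2 (by linarith) h8.le h7.le
    linarith
  have hgs : f (z + ts • v + (q ts - ms) • e) = 0 := le_antisymm (hg ts hts1 hts2) hFs'
  have hts3 : ts ≠ t₁ := by
    intro h
    rw [h] at hgs
    rcases eq_or_lt_of_le hms1 with h1 | h1
    · rw [← h1, sub_zero, hq1] at hgs
      linarith
    · have h2 := hmono t₁ (q t₁ - ms) (q t₁) (by linarith) le_rfl
        (hinq t₁ ms (by linarith) le_rfl hms1 hms2)
        (by simpa using hinq t₁ 0 (by linarith) le_rfl le_rfl hM0.le) (by linarith)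
      rw [hgs, hq1] at h2
      linarith
  have hts4 : ts ≠ -t₁ := by
    intro h
    rw [h] at hgs
    have h1 := hneg (-t₁) (q (-t₁) - ms) le_rfl (by linarith)
      (hinq (-t₁) ms le_rfl (by linarith) hms1 hms2) (by rw [hqm]; linarith)
    linarith
  have hts1' : -t₁ < ts := lt_of_le_of_ne hts1 (Ne.symm hts4)
  have hts2' : ts < t₁ := lt_of_le_of_ne hts2 hts3
  -- the curve
  let c : ℝ → E := fun s => z + (ts + s) • v + (q (ts + s) - ms) • e
  let c' : ℝ → E := fun s => v + (η * (1 + (ts + s) / t₁)) • e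
  have hadd : ∀ s : ℝ, HasDerivAt (fun s : ℝ => ts + s) 1 s := fun s => by
    simpa using (hasDerivAt_id s).const_add ts
  have hc1 : ∀ s, HasDerivAt c (c' s) s := by
    intro s
    have h1 : HasDerivAt (fun s : ℝ => (ts + s) • v) ((1 : ℝ) • v) s := (hadd s).smul_const v
    have h2 : HasDerivAt (fun s : ℝ => q (ts + s)) (η * (1 + (ts + s) / t₁) * 1) s :=
      (hqd (ts + s)).comp s (hadd s)
    have h3 : HasDerivAt (fun s : ℝ => (q (ts + s) - ms) • e)
        ((η * (1 + (ts + s) / t₁) * 1) • e) s := (h2.sub_const ms).smul_const e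
    have h4 : HasDerivAt c ((1 : ℝ) • v + (η * (1 + (ts + s) / t₁) * 1) • e) s :=
      (h1.const_add z).add h3
    rw [one_smul, mul_one] at h4
    exact h4
  have hc2 : HasDerivAt c' ((η / t₁) • e) 0 := by
    have h1 : HasDerivAt (fun s : ℝ => η * (1 + (ts + s) / t₁)) (η * (1 / t₁)) 0 :=
      ((((hadd 0).div_const t₁).const_add 1).const_mul η)
    have h2 := (h1.smul_const e).const_add v
    have h3 : η * (1 / t₁) = η / t₁ := by ring
    rw [h3] at h2
    exact h2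
  have hsec := sec_curve hf hc1 hc2
  have hGd : ∀ s, HasDerivAt (fun s => f (c s)) (fderiv ℝ f (c s) (c' s)) s := by
    intro s
    have hf1 : HasFDerivAt f (fderiv ℝ f (c s)) (c s) :=
      (hf.differentiable (by norm_num) (c s)).hasFDerivAt
    exact hf1.comp_hasDerivAt s (hc1 s)
  have hG0 : f (c 0) = 0 := by
    simp only [c, add_zero]
    exact hgs
  have hGle : ∀ᶠ s in nhds (0 : ℝ), f (c s) ≤ 0 := by
    have h1 : ∀ᶠ s in nhds (0 : ℝ), s < t₁ - ts := eventually_lt_nhds (by linarith)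
    have h2 : ∀ᶠ s in nhds (0 : ℝ), -t₁ - ts < s := eventually_gt_nhds (by linarith)
    filter_upwards [h1, h2] with s h3 h4
    exact hg (ts + s) (by linarith) (by linarith)
  have hlmax : IsLocalMax (fun s => f (c s)) 0 := by
    filter_upwards [hGle] with s hs
    rw [hG0]
    exact hs
  have hd0 : fderiv ℝ f (c 0) (c' 0) = 0 := hlmax.hasDerivAt_eq_zero (hGd 0)
  have hball0 : ‖c 0 - z‖ < r := by
    have := hin ts (q ts - ms) hts1 hts2 (hinq ts ms hts1 hts2 hms1 hms2)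
    simpa only [c, add_zero] using this
  have hpos : 0 < iteratedFDeriv ℝ 2 f (c 0) ![c' 0, c' 0] +
      fderiv ℝ f (c 0) ((η / t₁) • e) := by
    have h1 := hhess (c 0) (c' 0) hG0 hd0
    have h2 : fderiv ℝ f (c 0) ((η / t₁) • e) = η / t₁ * fderiv ℝ f (c 0) e := by
      rw [map_smul, smul_eq_mul]
    have h3 := hB (c 0) hball0
    rw [h2]
    have : 0 < η / t₁ * fderiv ℝ f (c 0) e := by positivity
    linarith
  have hderiv : deriv (fun s => f (c s)) = fun s => fderiv ℝ f (c s) (c' s) :=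
    funext fun s => (hGd s).deriv
  have hmin : IsLocalMin (fun s => f (c s)) 0 := by
    apply isLocalMin_of_deriv_deriv_pos
    · rw [hderiv, hsec.deriv]
      exact hpos
    · rw [hderiv]
      exact hd0
    · exact (hGd 0).continuousAt
  have hzero : (fun s => f (c s)) =ᶠ[nhds 0] fun _ => (0 : ℝ) := by
    have h1 : ∀ᶠ s in nhds (0 : ℝ), f (c 0) ≤ f (c s) := hmin
    filter_upwards [hGle, h1] with s h2 h3
    rw [hG0] at h3
    exact le_antisymm h2 h3
  have h1 : deriv (fun s => f (c s)) =ᶠ[nhds 0] deriv fun _ => (0 : ℝ) := hzero.deriv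
  have h2 := h1.deriv_eq
  rw [hderiv, hsec.deriv] at h2
  simp only [deriv_const'] at h2
  linarith

theorem loc_zero {f : E → ℝ} (hf : ContDiff ℝ 2 f) (hreg : ∀ x, f x = 0 → fderiv ℝ f x ≠ 0)
    (hhess : ∀ x v, f x = 0 → fderiv ℝ f x v = 0 → 0 ≤ iteratedFDeriv ℝ 2 f x ![v, v]) {z v : E}
    (hz : f z = 0) {δ : ℝ} (hδ : 0 < δ) (hle : ∀ t : ℝ, |t| < δ → f (z + t • v) ≤ 0) :
    ∃ δ' > 0, ∀ t : ℝ, |t| < δ' → f (z + t • v) = 0 := by
  obtain ⟨e, he⟩ : ∃ e : E, 0 < fderiv ℝ f z e := by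
    have h1 := hreg z hz
    obtain ⟨e, he⟩ : ∃ e, fderiv ℝ f z e ≠ 0 := by
      by_contra hcon
      exact h1 (ContinuousLinearMap.ext fun e => by_contra fun h2 => hcon ⟨e, h2⟩)
    rcases lt_or_gt_of_ne he with h | h
    · exact ⟨-e, by rw [map_neg]; linarith⟩
    · exact ⟨e, h⟩
  have hcont : Continuous fun y => fderiv ℝ f y e :=
    (hf.continuous_fderiv (by norm_num)).clm_apply continuous_const
  obtain ⟨r, hr, hB⟩ : ∃ r > 0, ∀ y, ‖y - z‖ < r → 0 < fderiv ℝ f y e := by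
    have h1 : ∀ᶠ y in nhds z, 0 < fderiv ℝ f y e :=
      continuousAt_const.eventually_lt hcont.continuousAt he
    obtain ⟨r, hr, h2⟩ := Metric.eventually_nhds_iff.1 h1
    exact ⟨r, hr, fun y hy => h2 (by rwa [dist_eq_norm])⟩
  refine ⟨min δ (r / 2 / (‖v‖ + 1)), lt_min hδ (by positivity), ?_⟩
  intro t ht
  have ht1 : |t| < δ := lt_of_lt_of_le ht (min_le_left _ _)
  have ht2 : |t| * ‖v‖ < r / 2 := by
    have h1 : |t| < r / 2 / (‖v‖ + 1) := lt_of_lt_of_le ht (min_le_right _ _)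
    rw [lt_div_iff₀ (by positivity)] at h1
    have h2 : |t| * ‖v‖ ≤ |t| * (‖v‖ + 1) :=
      mul_le_mul_of_nonneg_left (by linarith) (abs_nonneg t)
    linarith
  rcases lt_trichotomy t 0 with h | h | h
  · rw [abs_of_neg h] at ht1 ht2
    have h1 := rla_core (v := -v) hf hhess hr hB hz (δ := δ)
      (fun s hs => by
        have := hle (-s) (by rwa [abs_neg])
        rwa [neg_smul, ← smul_neg] at this) (t₁ := -t) (by linarith) ht1
      (by rwa [norm_neg])
    rwa [smul_neg, neg_smul, neg_neg] at h1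
  · rw [h, zero_smul, add_zero]
    exact hz
  · rw [abs_of_pos h] at ht1 ht2
    exact rla_core hf hhess hr hB hz hle h ht1 ht2

end H5.PK
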