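import Mathlib

/-! # PK.Stmt : peak points, analytic discs in the boundary, finite type (definitions of the statement) -/

namespace H5.PK

open Topology

/-- `p` is a peak point for the algebra `A(D)` of continuous functions on the closure of `D` which are
holomorphic in `D` -/
def Peak {V : Type} [NormedAddCommGroup V] [NormedSpace ℂ V] (D : Set V) (p : V) : Prop :=
  ∃ f : V → ℂ, DifferentiableOn ℂ f D ∧ ContinuousOn f (closure D) ∧
    f p = 1 ∧ ∀ z ∈ closure D, z ≠ p → ‖f z‖ < 1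

/-- the set `ρ = 0` contains no nonconstant analytic disc: a holomorphic germ with values in it is constant -/
def NoDisc {V : Type} [NormedAddCommGroup V] [NormedSpace ℂ V] (ρ : V → ℝ) : Prop :=
  ∀ γ : ℂ → V, AnalyticAt ℂ γ 0 → (∀ᶠ t in 𝓝 (0 : ℂ), ρ (γ t) = 0) → ∀ᶠ t in 𝓝 (0 : ℂ), γ t = γ 0

/-- finite type in the sense of D'Angelo of the hypersurface `ρ = 0` at `p` -/
def FinType {V : Type} [NormedAddCommGroup V] [NormedSpace ℂ V] (ρ : V → ℝ) (p : V) : Prop :=
  ∃ M : ℕ, ∀ γ : ℂ → V, AnalyticAt ℂ γ 0 → γ 0 = p →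
    ∀ m : ℕ, analyticOrderAt (fun t => γ t - p) 0 = (m : ℕ∞) →
      ∃ k ≤ M * m, iteratedFDeriv ℝ k (fun t => ρ (γ t)) 0 ≠ 0

end H5.PK
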