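import Pool.Agent.H5.PK.MDef

/-! # PK.SvA : existence of the singular value decomposition

`A = Z * Zᴴ` is positive semidefinite (`Matrix.posSemidef_self_mul_conjTranspose`). Spectral theorem (`Matrix.IsHermitian.spectral_theorem`, eigenvector unitary), with the eigenvalues sorted by a permutation of the columns (`Tuple.sort` or `eigenvalues₀`): `A = U * diagonal c * Uᴴ`, `U` unitary, `c` antitone, `0 ≤ c`. Let `b i = √ (c i)`, `Y = Uᴴ * Z`,
so `Y * Yᴴ = diagonal c`: the rows `y i` of `Y` satisfy `⟪y i, y j⟫ = c i` if `i = j` and `0` otherwise. Let `S = {j : Fin n | (j : ℕ) < m, c j > 0}`, `v j = (b j)⁻¹ y j` for `j ∈ S`: orthonormal. `Orthonormal.exists_orthonormalBasis_extension_of_card_eq` in `EuclideanSpace ℂ (Fin n)` gives an orthonormal basis `w` with `w j = v j` on `S`;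
`W` = the matrix with rows `w j` is unitary. `Y = dgm b * W`: the row `i` of the right side is `b i` times the row `i` of `W`; if `c i > 0` this is `y i`, if `c i = 0` both are `0` (`‖y i‖ ^ 2 = c i`). -/

namespace H5.PK

open Matrix

/-- the matrix with columns `e j` -/
private noncomputable def svA_mat {k : ℕ} (e : OrthonormalBasis (Fin k) ℂ (EuclideanSpace ℂ (Fin k))) :
    Matrix (Fin k) (Fin k) ℂ := fun a j => e j a

private theorem svA_unit {k : ℕ} (e : OrthonormalBasis (Fin k) ℂ (EuclideanSpace ℂ (Fin k))) :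
    svA_mat e ∈ Matrix.unitaryGroup (Fin k) ℂ := by
  rw [Matrix.mem_unitaryGroup_iff']
  ext i j
  rw [Matrix.mul_apply, Matrix.one_apply]
  have h := orthonormal_iff_ite.1 e.orthonormal i j
  rw [EuclideanSpace.inner_eq_star_dotProduct] at h
  rw [← h]
  simp only [dotProduct, Matrix.star_apply, svA_mat, Pi.star_apply]
  refine Finset.sum_congr rfl fun a _ => ?_
  rw [mul_comm]

theorem isSv_exists {m n : ℕ} (hmn : m ≤ n) (Z : Matrix (Fin m) (Fin n) ℂ) : ∃ b, IsSv Z b := by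
  classical
  have hH : (Z * Zᴴ).IsHermitian := Matrix.isHermitian_mul_conjTranspose_self Z
  have hS := Matrix.isSymmetric_toEuclideanLin_iff.mpr hH
  have hn : Module.finrank ℂ (EuclideanSpace ℂ (Fin m)) = m := finrank_euclideanSpace_fin
  obtain ⟨e, he⟩ : ∃ e, e = hS.eigenvectorBasis hn := ⟨_, rfl⟩
  obtain ⟨c, hc⟩ : ∃ c, c = hS.eigenvalues hn := ⟨_, rfl⟩
  have hanti : Antitone c := by
    rw [hc]
    exact hS.eigenvalues_antitone hn
  have hev : ∀ i, (Z * Zᴴ) *ᵥ (e i).ofLp = (c i : ℂ) • (e i).ofLp := by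
    intro i
    have h := hS.apply_eigenvectorBasis hn i
    rw [← he, ← hc] at h
    have h2 := congrArg WithLp.ofLp h
    simpa using h2
  obtain ⟨S, hSd⟩ : ∃ S : Fin m → EuclideanSpace ℂ (Fin n), S = fun i => WithLp.toLp 2 (Zᴴ *ᵥ (e i).ofLp) := ⟨_, rfl⟩
  have hSS : ∀ i j, inner ℂ (S i) (S j) = if i = j then (c j : ℂ) else 0 := by
    intro i j
    rw [hSd, EuclideanSpace.inner_eq_star_dotProduct]
    show (Zᴴ *ᵥ (e j).ofLp) ⬝ᵥ star (Zᴴ *ᵥ (e i).ofLp) = _
    rw [Matrix.star_mulVec, Matrix.conjTranspose_conjTranspose, dotProduct_comm, ← Matrix.dotProduct_mulVec,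
      Matrix.mulVec_mulVec, hev, dotProduct_smul]
    have h := orthonormal_iff_ite.1 e.orthonormal i j
    rw [EuclideanSpace.inner_eq_star_dotProduct, dotProduct_comm] at h
    rw [h]
    split_ifs <;> simp
  have hc0 : ∀ i, 0 ≤ c i := by
    intro i
    have h := hSS i i
    rw [if_pos rfl, inner_self_eq_norm_sq_to_K] at h
    have h2 : (c i : ℂ) = ((‖S i‖ ^ 2 : ℝ) : ℂ) := by
      rw [← h]
      push_cast
      rfl
    have h3 : c i = ‖S i‖ ^ 2 := by exact_mod_cast h2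
    rw [h3]
    positivity
  -- the normalised vectors
  obtain ⟨v, hv⟩ : ∃ v : Fin n → EuclideanSpace ℂ (Fin n), v = fun j : Fin n =>
      if h : (j : ℕ) < m then ((Real.sqrt (c ⟨(j : ℕ), h⟩) : ℂ)⁻¹ : ℂ) • S ⟨(j : ℕ), h⟩ else 0 := ⟨_, rfl⟩
  have hort : Orthonormal ℂ (Set.domRestrict {j : Fin n | ∃ h : (j : ℕ) < m, 0 < c ⟨j, h⟩} v) := by
    rw [orthonormal_iff_ite]
    rintro ⟨i, hi, hi2⟩ ⟨j, hj, hj2⟩
    show inner ℂ (v i) (v j) = _
    rw [hv]
    simp only [dif_pos hi, dif_pos hj]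
    rw [inner_smul_left, inner_smul_right, hSS]
    by_cases hij : i = j
    · subst hij
      have h0 : Real.sqrt (c ⟨i, hi⟩) ≠ 0 := (Real.sqrt_pos.2 hi2).ne'
      have h1 : Real.sqrt (c ⟨i, hi⟩) * Real.sqrt (c ⟨i, hi⟩) = c ⟨i, hi⟩ := Real.mul_self_sqrt hi2.le
      rw [if_pos rfl, if_pos rfl]
      have h2 : (c ⟨i, hi⟩ : ℂ) = (Real.sqrt (c ⟨i, hi⟩) : ℂ) * (Real.sqrt (c ⟨i, hi⟩) : ℂ) := by
        rw [← Complex.ofReal_mul, h1]
      rw [map_inv₀, Complex.conj_ofReal, h2]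
      have h3 : (Real.sqrt (c ⟨i, hi⟩) : ℂ) ≠ 0 := by exact_mod_cast h0
      field_simp
    · rw [if_neg, if_neg, mul_zero, mul_zero]
      · intro h
        exact hij (congrArg Subtype.val h)
      · intro h
        exact hij (Fin.ext (by simpa using h))
  obtain ⟨w, hw⟩ := hort.exists_orthonormalBasis_extension_of_card_eq (by simp)
  have hSw : ∀ i : Fin m, S i = (Real.sqrt (c i) : ℂ) • w (Fin.castLE hmn i) := by
    intro i
    by_cases hi : 0 < c i
    · have h1 : (Fin.castLE hmn i) ∈ {j : Fin n | ∃ h : (j : ℕ) < m, 0 < c ⟨j, h⟩} := ⟨i.2, hi⟩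
      rw [hw _ h1, hv]
      have h2 : ((Fin.castLE hmn i : Fin n) : ℕ) < m := i.2
      simp only [dif_pos h2]
      show S i = (Real.sqrt (c i) : ℂ) • ((Real.sqrt (c i) : ℂ)⁻¹ • S i)
      have h3 : (Real.sqrt (c i) : ℂ) ≠ 0 := by exact_mod_cast (Real.sqrt_pos.2 hi).ne'
      rw [smul_smul, mul_inv_cancel₀ h3, one_smul]
    · have h0 : c i = 0 := le_antisymm (not_lt.1 hi) (hc0 i)
      have h1 := hSS i i
      rw [if_pos rfl, h0, Complex.ofReal_zero, inner_self_eq_zero] at h1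
      rw [h1, h0, Real.sqrt_zero, Complex.ofReal_zero, zero_smul]
  refine ⟨fun i => Real.sqrt (c i), fun i j hij => Real.sqrt_le_sqrt (hanti hij), fun i => Real.sqrt_nonneg _,
    ⟨svA_mat e, svA_unit e⟩, star ⟨svA_mat w, svA_unit w⟩, ?_⟩
  show Z = svA_mat e * (dgm (fun i => ((Real.sqrt (c i) : ℝ) : ℂ)) : Matrix (Fin m) (Fin n) ℂ) * (svA_mat w)ᴴ
  have hU : svA_mat e * (svA_mat e)ᴴ = 1 := Matrix.mem_unitaryGroup_iff.1 (svA_unit e)
  have key : (svA_mat e)ᴴ * Z = (dgm (fun i => ((Real.sqrt (c i) : ℝ) : ℂ)) : Matrix (Fin m) (Fin n) ℂ) * (svA_mat w)ᴴ := by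
    ext i k
    rw [Matrix.mul_apply, Matrix.mul_apply, Finset.sum_eq_single (Fin.castLE hmn i)]
    · have h := congrArg (fun x : EuclideanSpace ℂ (Fin n) => x k) (hSw i)
      rw [hSd] at h
      have h2 : (∑ a, star (Z a k) * (e i) a) = (Real.sqrt (c i) : ℂ) * w (Fin.castLE hmn i) k := h
      have h3 := congrArg star h2
      rw [star_sum, star_mul'] at h3
      have h4 : (dgm (fun i => ((Real.sqrt (c i) : ℝ) : ℂ)) : Matrix (Fin m) (Fin n) ℂ) i (Fin.castLE hmn i) = ((Real.sqrt (c i) : ℝ) : ℂ) := by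
        unfold dgm
        rw [if_pos (by simp)]
      rw [h4]
      have h5 : star ((Real.sqrt (c i) : ℝ) : ℂ) = ((Real.sqrt (c i) : ℝ) : ℂ) := Complex.conj_ofReal _
      rw [h5] at h3
      show _ = ((Real.sqrt (c i) : ℝ) : ℂ) * star (w (Fin.castLE hmn i) k)
      rw [← h3]
      refine Finset.sum_congr rfl fun a _ => ?_
      rw [star_mul', star_star]
      show star (e i a) * Z a k = _
      rw [mul_comm]
    · intro j _ hj
      have : (dgm (fun i => ((Real.sqrt (c i) : ℝ) : ℂ)) : Matrix (Fin m) (Fin n) ℂ) i j = 0 := by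
        unfold dgm
        rw [if_neg]
        intro h
        exact hj (Fin.ext (by simpa using h.symm))
      rw [this, zero_mul]
    · intro h
      exact absurd (Finset.mem_univ _) h
  rw [Matrix.mul_assoc, ← key, ← Matrix.mul_assoc, hU, Matrix.one_mul]

end H5.PK
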