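import Pool.Agent.H5.PK.Bas

/-! # PK.Sym : the gradient at a fixed point of a symmetry of order four

Let `f v = fderiv ℝ ρ p v`. If `f v < 0` then `ρ (p + t v) < 0` for small `t > 0`, so `ρ (k (p + t v)) < 0` (`h.inv`) and `k (p + t v) = p + t k v`, so `f (k v) ≤ 0` (derivative of `t ↦ ρ (p + t k v)` at `0`, `ρ p = 0`).
So `f v < 0 → f (k v) ≤ 0` for all `v`. Hence `f (k v) = c f v` with a real `c ≥ 0`: if `f v = 0` then `f (k v) = 0`: take `w` with `f w < 0` (`h.reg`), `f (v + ε w) < 0`, so `f (k v) + ε f (k w) ≤ 0` for all `ε > 0`, `f (k v) ≤ 0`,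
and the same for `-v`. Then `c = f (k w) / f w ≥ 0` and `v - (f v / f w) w` is in the kernel. As `k (k (k (k v))) = v`: `c ^ 4 = 1`, `c = 1`. -/

namespace H5.PK

variable {V : Type} [NormedAddCommGroup V] [NormedSpace ℂ V] {L : Type} [Fintype L] [DecidableEq L]
variable {r : L → ℕ} {F : Frame V r} {ρ : V → ℝ}

private theorem sym_neg {ρ : V → ℝ} {p v : V} (hd : DifferentiableAt ℝ ρ p) (hp : ρ p = 0)
    (hv : fderiv ℝ ρ p v < 0) : ∃ δ : ℝ, 0 < δ ∧ ∀ t : ℝ, 0 < t → t < δ → ρ (p + t • v) < 0 := by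
  have hline : HasDerivAt (fun t : ℝ => p + t • v) v 0 := by
    have h1 : HasDerivAt (fun t : ℝ => t • v) ((1 : ℝ) • v) 0 := (hasDerivAt_id (0 : ℝ)).smul_const v
    rw [one_smul] at h1
    exact h1.const_add p
  have hf : HasFDerivAt ρ (fderiv ℝ ρ p) ((fun t : ℝ => p + t • v) 0) := by
    have : (fun t : ℝ => p + t • v) 0 = p := by simp
    rw [this]
    exact hd.hasFDerivAt
  have hcomp : HasDerivAt (fun t : ℝ => ρ (p + t • v)) (fderiv ℝ ρ p v) 0 :=
    hf.comp_hasDerivAt 0 hline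
  have h2 := hcomp.tendsto_slope_zero_right
  have h3 : ∀ᶠ t in nhdsWithin (0 : ℝ) (Set.Ioi 0),
      t⁻¹ • (ρ (p + (0 + t) • v) - ρ (p + (0 : ℝ) • v)) < 0 := h2.eventually (gt_mem_nhds hv)
  rw [eventually_nhdsWithin_iff, Metric.eventually_nhds_iff] at h3
  obtain ⟨δ, hδ, h4⟩ := h3
  refine ⟨δ, hδ, fun t ht htδ => ?_⟩
  have h5 := h4 (y := t) (by rw [Real.dist_eq, sub_zero, abs_of_pos ht]; exact htδ) ht
  rw [zero_add, zero_smul, add_zero, hp, sub_zero, smul_eq_mul] at h5
  have h6 : 0 < t⁻¹ := inv_pos.mpr ht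
  by_contra hcon
  exact absurd h5 (not_lt.mpr (mul_nonneg h6.le (not_lt.mp hcon)))

private theorem sym_map (k : V →L[ℂ] V) (p v : V) (t : ℝ) : k (p + t • v) = k p + t • k v := by
  rw [map_add]
  congr 1
  exact ContinuousLinearMap.map_smul_of_tower k t v

private theorem sym_le (h : PDom F ρ) {p : V} (hp : ρ p = 0) {k : V →L[ℂ] V} (hk : k ∈ F.K)
    (hkp : k p = p) {v : V} (hv : fderiv ℝ ρ p v < 0) : fderiv ℝ ρ p (k v) ≤ 0 := by
  by_contra hcon
  rw [not_le] at hcon
  have hd : DifferentiableAt ℝ ρ p := (h.smooth.differentiable (by norm_num)).differentiableAt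
  obtain ⟨δ, hδ, h1⟩ := sym_neg hd hp hv
  have hd' : DifferentiableAt ℝ (fun z => -ρ z) p := hd.neg
  have hneg : fderiv ℝ (fun z => -ρ z) p (k v) < 0 := by
    rw [fderiv_fun_neg, ContinuousLinearMap.neg_apply]
    linarith
  obtain ⟨δ', hδ', h2⟩ := sym_neg hd' (by simp [hp]) hneg
  have ht : 0 < min δ δ' / 2 := by
    have := lt_min hδ hδ'
    linarith
  have ht1 : min δ δ' / 2 < δ := by
    have h3 := min_le_left δ δ'
    linarith
  have ht2 : min δ δ' / 2 < δ' := by
    have h3 := min_le_right δ δ'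
    linarith
  have h3 := h.inv k hk _ (h1 _ ht ht1)
  rw [sym_map, hkp] at h3
  have h4 := h2 _ ht ht2
  linarith

theorem sym_eq (h : PDom F ρ) {p : V} (hp : ρ p = 0) {k : V →L[ℂ] V} (hk : k ∈ F.K)
    (hkk : ∀ z, k (k (k (k z))) = z) (hkp : k p = p) (z : V) : fderiv ℝ ρ p (k z) = fderiv ℝ ρ p z := by
  set f := fderiv ℝ ρ p with hf
  obtain ⟨w, hw⟩ : ∃ w, f w < 0 := by
    have hne := h.reg p hp
    have hex : ∃ v, f v ≠ 0 := by
      by_contra hcon
      push Not at hcon
      exact hne (ContinuousLinearMap.ext hcon)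
    obtain ⟨v, hv⟩ := hex
    rcases lt_or_gt_of_ne hv with h1 | h1
    · exact ⟨v, h1⟩
    · refine ⟨-v, ?_⟩
      rw [map_neg]
      linarith
  have hw0 : f w ≠ 0 := hw.ne
  have hkw : f (k w) ≤ 0 := sym_le h hp hk hkp hw
  have hle0 : ∀ v, f v = 0 → f (k v) ≤ 0 := by
    intro v hv
    by_contra hcon
    rw [not_le] at hcon
    have hall : ∀ ε : ℝ, 0 < ε → f (k v) + ε * f (k w) ≤ 0 := by
      intro ε hε
      have h1 : f (v + ε • w) < 0 := by
        rw [map_add, map_smul, hv, zero_add, smul_eq_mul]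
        exact mul_neg_of_pos_of_neg hε hw
      have h2 := sym_le h hp hk hkp h1
      rw [sym_map, map_add, map_smul, smul_eq_mul] at h2
      exact h2
    have h3 := hall (f (k v) / (2 * (1 - f (k w)))) (div_pos hcon (by linarith))
    have h4 : f (k v) / (2 * (1 - f (k w))) * f (k w) ≥ - (f (k v) / 2) := by
      have h5 : 0 < 1 - f (k w) := by linarith
      rw [ge_iff_le, div_mul_eq_mul_div, le_div_iff₀ (by linarith)]
      nlinarith
    linarith
  have h0 : ∀ v, f v = 0 → f (k v) = 0 := by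
    intro v hv
    apply le_antisymm (hle0 v hv)
    have h1 := hle0 (-v) (by rw [map_neg, hv, neg_zero])
    rw [map_neg, map_neg] at h1
    linarith
  have hc : ∀ v, f (k v) = f (k w) / f w * f v := by
    intro v
    have h1 := h0 (v + (-(f v / f w)) • w) (by
      rw [map_add, map_smul, smul_eq_mul, neg_mul, div_mul_cancel₀ _ hw0]
      ring)
    rw [sym_map, map_add, map_smul, smul_eq_mul] at h1
    have h2 : f (k v) = f v / f w * f (k w) := by linarith
    rw [h2]
    ring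
  have hc0 : 0 ≤ f (k w) / f w := div_nonneg_of_nonpos hkw hw.le
  have h4 : (f (k w) / f w) ^ 4 = 1 := by
    have h5 := hc (k (k (k w)))
    rw [hkk, hc (k (k w)), hc (k w)] at h5
    have h6 : f (k w) = f (k w) / f w * f w := (div_mul_cancel₀ _ hw0).symm
    have h7 : f w = (f (k w) / f w) ^ 4 * f w := by
      calc f w = f (k w) / f w * (f (k w) / f w * (f (k w) / f w * f (k w))) := h5
        _ = f (k w) / f w * (f (k w) / f w * (f (k w) / f w * (f (k w) / f w * f w))) := by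
            rw [div_mul_cancel₀ _ hw0]
        _ = (f (k w) / f w) ^ 4 * f w := by ring
    have h8 : ((f (k w) / f w) ^ 4 - 1) * f w = 0 := by linarith
    rcases mul_eq_zero.mp h8 with h9 | h9
    · linarith
    · exact absurd h9 hw.ne
  have hc1 : f (k w) / f w = 1 := by
    have := pow_eq_one_iff_of_nonneg hc0 (by norm_num : (4 : ℕ) ≠ 0)
    exact this.mp h4
  rw [hc z, hc1, one_mul]

end H5.PK
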